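import Pool.Agent.W_332fe5_h65.B5Defs

set_option autoImplicit false

/-! Block 5, EJ: the entropies. -/

open MeasureTheory ProbabilityTheory Set Filter Topology
open scoped ENNReal NNReal

namespace Pool.Agent.W_332fe5

/-- `√(s² + k²) - k`. -/
noncomputable def Jk (k s : ℝ) : ℝ := Real.sqrt (s ^ 2 + k ^ 2) - k

/-- An approximation of `(|s| - 1)_+`. -/
noncomputable def Jh (k s : ℝ) : ℝ := (Jk k (s - 1) + Jk k (s + 1)) / 2 - Jk k 1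

/-- `w + 1/w - 2`, `w = √(1 + s²)`. -/
noncomputable def J6 (s : ℝ) : ℝ := Real.sqrt (1 + s ^ 2) + 1 / Real.sqrt (1 + s ^ 2) - 2

/-- Derivatives of a function give `Ent`. -/
theorem EJ_mk {j j1 j2 j3 : ℝ → ℝ} {K : ℝ} (hs : ContDiff ℝ 3 j)
    (h1 : ∀ s, HasDerivAt j (j1 s) s) (h2 : ∀ s, HasDerivAt j1 (j2 s) s)
    (h3 : ∀ s, HasDerivAt j2 (j3 s) s) (b1 : ∀ s, |j1 s| ≤ K) (b2 : ∀ s, |j2 s| ≤ K)
    (b3 : ∀ s, |j3 s| ≤ K) (hc : ∀ s, 0 ≤ j2 s) (hn : ∀ s, 0 ≤ j s) (h0 : j 0 = 0) : Ent j K := by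
  have e1 : deriv j = j1 := funext fun s => (h1 s).deriv
  have e2 : iteratedDeriv 2 j = j2 := by
    rw [iteratedDeriv_succ, iteratedDeriv_one, e1]
    exact funext fun s => (h2 s).deriv
  have e3 : iteratedDeriv 3 j = j3 := by
    rw [iteratedDeriv_succ, e2]
    exact funext fun s => (h3 s).deriv
  exact ⟨hs, by rw [e1]; exact b1, by rw [e2]; exact b2, by rw [e3]; exact b3,
    by rw [e2]; exact hc, hn, h0⟩

theorem EJ_pos {k : ℝ} (hk : 0 < k) (s : ℝ) : 0 < Real.sqrt (s ^ 2 + k ^ 2) :=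
  Real.sqrt_pos.2 (by positivity)

theorem EJ_sq (k s : ℝ) : Real.sqrt (s ^ 2 + k ^ 2) ^ 2 = s ^ 2 + k ^ 2 :=
  Real.sq_sqrt (by positivity)

theorem EJ_k_le {k : ℝ} (hk : 0 < k) (s : ℝ) : k ≤ Real.sqrt (s ^ 2 + k ^ 2) :=
  Real.le_sqrt_of_sq_le (by nlinarith [sq_nonneg s])

theorem EJ_abs_le (k s : ℝ) : |s| ≤ Real.sqrt (s ^ 2 + k ^ 2) := by
  refine Real.le_sqrt_of_sq_le ?_
  rw [sq_abs]
  nlinarith [sq_nonneg k]

theorem EJ_d0 {k : ℝ} (hk : 0 < k) (s : ℝ) :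
    HasDerivAt (fun s => Real.sqrt (s ^ 2 + k ^ 2)) (s / Real.sqrt (s ^ 2 + k ^ 2)) s := by
  have h1 : HasDerivAt (fun s : ℝ => s ^ 2 + k ^ 2) (2 * s) s := by
    simpa using (hasDerivAt_pow 2 s).add_const (k ^ 2)
  have h2 := h1.sqrt (by positivity : s ^ 2 + k ^ 2 ≠ 0)
  convert h2 using 1
  have := (EJ_pos hk s).ne'
  field_simp

theorem EJ_contDiff {k : ℝ} (hk : 0 < k) : ContDiff ℝ 3 (fun s => Real.sqrt (s ^ 2 + k ^ 2)) := by
  refine ContDiff.sqrt (by fun_prop) fun s => ?_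
  positivity

theorem EJ_d1 {k : ℝ} (hk : 0 < k) (s : ℝ) :
    HasDerivAt (fun s => s / Real.sqrt (s ^ 2 + k ^ 2)) (k ^ 2 / Real.sqrt (s ^ 2 + k ^ 2) ^ 3) s := by
  have h1 := (hasDerivAt_id s).div (EJ_d0 hk s) (EJ_pos hk s).ne'
  refine h1.congr_deriv ?_
  have h2 := (EJ_pos hk s).ne'
  have h3 := EJ_sq k s
  set w := Real.sqrt (s ^ 2 + k ^ 2) with hw
  simp only [id]
  field_simp
  nlinarith [h3]

theorem EJ_d2 {k : ℝ} (hk : 0 < k) (s : ℝ) :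
    HasDerivAt (fun s => k ^ 2 / Real.sqrt (s ^ 2 + k ^ 2) ^ 3)
      (-(3 * k ^ 2 * s) / Real.sqrt (s ^ 2 + k ^ 2) ^ 5) s := by
  have h1 := (hasDerivAt_const s (k ^ 2)).div ((EJ_d0 hk s).pow 3)
    (pow_ne_zero 3 (EJ_pos hk s).ne')
  refine h1.congr_deriv ?_
  have h2 := (EJ_pos hk s).ne'
  set w := Real.sqrt (s ^ 2 + k ^ 2) with hw
  simp only [Pi.pow_apply]
  field_simp
  ring

theorem EJ_b1 {k : ℝ} (hk : 0 < k) (s : ℝ) : |s / Real.sqrt (s ^ 2 + k ^ 2)| ≤ 1 := by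
  rw [abs_div, abs_of_pos (EJ_pos hk s), div_le_one (EJ_pos hk s)]
  exact EJ_abs_le k s

theorem EJ_b2 {k : ℝ} (hk : 0 < k) (s : ℝ) : |k ^ 2 / Real.sqrt (s ^ 2 + k ^ 2) ^ 3| ≤ 1 / k := by
  have h1 := EJ_pos hk s
  rw [abs_of_pos (by positivity), div_le_div_iff₀ (by positivity) hk]
  have h2 : k ^ 3 ≤ Real.sqrt (s ^ 2 + k ^ 2) ^ 3 := pow_le_pow_left₀ hk.le (EJ_k_le hk s) 3
  nlinarith [h2]

theorem EJ_b3 {k : ℝ} (hk : 0 < k) (s : ℝ) :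
    |-(3 * k ^ 2 * s) / Real.sqrt (s ^ 2 + k ^ 2) ^ 5| ≤ 3 / k ^ 2 := by
  have h1 := EJ_pos hk s
  rw [abs_div, abs_neg, abs_mul, abs_of_pos (by positivity : 0 < 3 * k ^ 2),
    abs_of_pos (by positivity : 0 < Real.sqrt (s ^ 2 + k ^ 2) ^ 5),
    div_le_div_iff₀ (by positivity) (by positivity)]
  have h2 : k ^ 4 ≤ Real.sqrt (s ^ 2 + k ^ 2) ^ 4 := pow_le_pow_left₀ hk.le (EJ_k_le hk s) 4
  have h3 := EJ_abs_le k s
  have h4 : k ^ 4 * |s| ≤ Real.sqrt (s ^ 2 + k ^ 2) ^ 4 * Real.sqrt (s ^ 2 + k ^ 2) :=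
    mul_le_mul h2 h3 (abs_nonneg s) (by positivity)
  nlinarith [h4]

theorem EJ_Jk_ge' {k : ℝ} (hk : 0 < k) (s : ℝ) : 0 ≤ Jk k s := by
  unfold Jk
  linarith [EJ_k_le hk s]

theorem EJ_Jk_cd {k : ℝ} (hk : 0 < k) : ContDiff ℝ 3 (Jk k) := (EJ_contDiff hk).sub contDiff_const

theorem EJ_Jk_d {k : ℝ} (hk : 0 < k) (s : ℝ) :
    HasDerivAt (Jk k) (s / Real.sqrt (s ^ 2 + k ^ 2)) s := (EJ_d0 hk s).sub_const k

/-- `J' = s (s²+k²)^(-1/2)`, `J'' = k² (s²+k²)^(-3/2)`, `J''' = -3 k² s (s²+k²)^(-5/2)`. -/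
theorem Jk_ent {k : ℝ} (hk : 0 < k) : ∃ K : ℝ, Ent (Jk k) K := by
  refine ⟨1 + 1 / k + 3 / k ^ 2, ?_⟩
  have p1 : 0 < 1 / k := by positivity
  have p2 : 0 < 3 / k ^ 2 := by positivity
  refine EJ_mk (EJ_Jk_cd hk) (EJ_Jk_d hk) (EJ_d1 hk) (EJ_d2 hk)
    (fun s => (EJ_b1 hk s).trans (by linarith)) (fun s => (EJ_b2 hk s).trans (by linarith))
    (fun s => (EJ_b3 hk s).trans (by linarith)) (fun s => ?_) (EJ_Jk_ge' hk) ?_
  · have := EJ_pos hk s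
    positivity
  · unfold Jk
    rw [show (0 : ℝ) ^ 2 + k ^ 2 = k ^ 2 by ring, Real.sqrt_sq hk.le, sub_self]

theorem Jk_le {k : ℝ} (hk : 0 < k) (s : ℝ) : Jk k s ≤ |s| := by
  unfold Jk
  rw [sub_le_iff_le_add]
  refine Real.sqrt_le_iff.2 ⟨by positivity, ?_⟩
  nlinarith [abs_nonneg s, sq_abs s, mul_nonneg (abs_nonneg s) hk.le]

theorem Jk_ge {k : ℝ} (hk : 0 < k) (s : ℝ) : |s| - k ≤ Jk k s := by
  have := hk
  unfold Jk
  linarith [EJ_abs_le k s]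

theorem Jh_ent {k : ℝ} (hk : 0 < k) : ∃ K : ℝ, Ent (Jh k) K := by
  refine ⟨1 + 1 / k + 3 / k ^ 2, ?_⟩
  have p1 : 0 < 1 / k := by positivity
  have p2 : 0 < 3 / k ^ 2 := by positivity
  have shm : ∀ {f f' : ℝ → ℝ}, (∀ s, HasDerivAt f (f' s) s) → ∀ s,
      HasDerivAt (fun s => (f (s - 1) + f (s + 1)) / 2) ((f' (s - 1) + f' (s + 1)) / 2) s := by
    intro f f' hf s
    have h1 := (hf (s - 1)).comp_sub_const s 1
    have h2 := (hf (s + 1)).comp_add_const s 1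
    exact (h1.add h2).div_const 2
  have av : ∀ {x y K : ℝ}, |x| ≤ K → |y| ≤ K → |(x + y) / 2| ≤ K := by
    intro x y K hx hy
    rw [abs_le] at *
    constructor <;> linarith [hx.1, hx.2, hy.1, hy.2]
  refine EJ_mk (j1 := fun s => ((s - 1) / Real.sqrt ((s - 1) ^ 2 + k ^ 2) +
      (s + 1) / Real.sqrt ((s + 1) ^ 2 + k ^ 2)) / 2)
    (j2 := fun s => (k ^ 2 / Real.sqrt ((s - 1) ^ 2 + k ^ 2) ^ 3 +
      k ^ 2 / Real.sqrt ((s + 1) ^ 2 + k ^ 2) ^ 3) / 2)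
    (j3 := fun s => (-(3 * k ^ 2 * (s - 1)) / Real.sqrt ((s - 1) ^ 2 + k ^ 2) ^ 5 +
      -(3 * k ^ 2 * (s + 1)) / Real.sqrt ((s + 1) ^ 2 + k ^ 2) ^ 5) / 2)
    ?_ ?_ ?_ ?_ ?_ ?_ ?_ ?_ ?_ ?_
  · have h1 : ContDiff ℝ 3 fun s : ℝ => Jk k (s - 1) :=
      (EJ_Jk_cd hk).comp (contDiff_id.sub contDiff_const)
    have h2 : ContDiff ℝ 3 fun s : ℝ => Jk k (s + 1) :=
      (EJ_Jk_cd hk).comp (contDiff_id.add contDiff_const)
    exact ((h1.add h2).div_const 2).sub contDiff_const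
  · intro s
    exact (shm (EJ_Jk_d hk) s).sub_const (Jk k 1)
  · exact shm (EJ_d1 hk)
  · exact shm (EJ_d2 hk)
  · exact fun s => (av (EJ_b1 hk _) (EJ_b1 hk _)).trans (by linarith)
  · exact fun s => (av (EJ_b2 hk _) (EJ_b2 hk _)).trans (by linarith)
  · exact fun s => (av (EJ_b3 hk _) (EJ_b3 hk _)).trans (by linarith)
  · intro s
    have := EJ_pos hk (s - 1)
    have := EJ_pos hk (s + 1)
    positivity
  · intro s
    unfold Jh Jk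
    have a0 := EJ_pos hk (s - 1)
    have b0 := EJ_pos hk (s + 1)
    have a1 := EJ_sq k (s - 1)
    have b1 := EJ_sq k (s + 1)
    set a := Real.sqrt ((s - 1) ^ 2 + k ^ 2)
    set b := Real.sqrt ((s + 1) ^ 2 + k ^ 2)
    have h1 : 1 - s ^ 2 + k ^ 2 ≤ a * b := by
      refine le_of_abs_le (abs_le_of_sq_le_sq ?_ (by positivity))
      rw [mul_pow, a1, b1]
      nlinarith [sq_nonneg (k * s)]
    have h2 : Real.sqrt (1 ^ 2 + k ^ 2) ≤ (a + b) / 2 := by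
      refine Real.sqrt_le_iff.2 ⟨by positivity, ?_⟩
      nlinarith [h1, a1, b1]
    linarith
  · unfold Jh Jk
    have e1 : ((0 : ℝ) - 1) ^ 2 = 1 ^ 2 := by norm_num
    have e2 : ((0 : ℝ) + 1) ^ 2 = 1 ^ 2 := by norm_num
    rw [e1, e2]
    ring

theorem Jh_le {k : ℝ} (hk : 0 < k) {s : ℝ} (hs : |s| ≤ 1) : Jh k s ≤ k := by
  unfold Jh
  obtain ⟨h1, h2⟩ := abs_le.1 hs
  have a1 := Jk_le hk (s - 1)
  have a2 := Jk_le hk (s + 1)
  have a3 := Jk_ge hk 1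
  rw [abs_of_nonpos (by linarith)] at a1
  rw [abs_of_nonneg (by linarith)] at a2
  rw [abs_one] at a3
  linarith

theorem Jh_ge {k : ℝ} (hk : 0 < k) (s : ℝ) : |s| - 1 - k ≤ Jh k s := by
  unfold Jh
  have a1 := Jk_ge hk (s - 1)
  have a2 := Jk_ge hk (s + 1)
  have a3 := Jk_le hk 1
  rw [abs_one] at a3
  have h1 : 2 * |s| ≤ |s - 1| + |s + 1| := by
    calc 2 * |s| = |(s - 1) + (s + 1)| := by
          rw [show (s - 1) + (s + 1) = 2 * s by ring, abs_mul, abs_two]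
      _ ≤ |s - 1| + |s + 1| := abs_add_le _ _
  linarith

/-- `J6' = s³ / w³`, `J6'' = 3 s² / w⁵`, `J6''' = 6 s / w⁵ - 15 s³ / w⁷`. -/
theorem J6_ent : Ent J6 21 := by
  have hk : (0 : ℝ) < 1 := one_pos
  have ew : ∀ s : ℝ, Real.sqrt (1 + s ^ 2) = Real.sqrt (s ^ 2 + 1 ^ 2) := fun s => by
    rw [one_pow, add_comm]
  have d0 : ∀ s : ℝ, HasDerivAt (fun s => Real.sqrt (1 + s ^ 2)) (s / Real.sqrt (1 + s ^ 2)) s := by
    intro s
    have h1 := EJ_d0 hk s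
    simpa only [← ew] using h1
  have wp : ∀ s : ℝ, 0 < Real.sqrt (1 + s ^ 2) := fun s => by rw [ew]; exact EJ_pos hk s
  have ws : ∀ s : ℝ, Real.sqrt (1 + s ^ 2) ^ 2 = 1 + s ^ 2 := fun s => Real.sq_sqrt (by positivity)
  have w1 : ∀ s : ℝ, 1 ≤ Real.sqrt (1 + s ^ 2) := fun s => by rw [ew]; exact EJ_k_le hk s
  have wa : ∀ s : ℝ, |s| ≤ Real.sqrt (1 + s ^ 2) := fun s => by rw [ew]; exact EJ_abs_le 1 s
  refine EJ_mk (j1 := fun s => s ^ 3 / Real.sqrt (1 + s ^ 2) ^ 3)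
    (j2 := fun s => 3 * s ^ 2 / Real.sqrt (1 + s ^ 2) ^ 5)
    (j3 := fun s => 6 * s / Real.sqrt (1 + s ^ 2) ^ 5 - 15 * s ^ 3 / Real.sqrt (1 + s ^ 2) ^ 7)
    ?_ ?_ ?_ ?_ ?_ ?_ ?_ ?_ ?_ ?_
  · have h1 : ContDiff ℝ 3 fun s : ℝ => Real.sqrt (1 + s ^ 2) := by
      simp only [ew]
      exact EJ_contDiff hk
    exact (h1.add (contDiff_const.div h1 fun s => (wp s).ne')).sub contDiff_const
  · intro s
    have h1 := ((d0 s).add ((hasDerivAt_const s (1 : ℝ)).div (d0 s) (wp s).ne')).sub_const 2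
    refine h1.congr_deriv ?_
    have h2 := (wp s).ne'
    have h3 := ws s
    set w := Real.sqrt (1 + s ^ 2) with hw
    field_simp
    linear_combination s * h3
  · intro s
    have h1 := (hasDerivAt_pow 3 s).div ((d0 s).pow 3) (pow_ne_zero 3 (wp s).ne')
    refine h1.congr_deriv ?_
    have h2 := (wp s).ne'
    have h3 := ws s
    simp only [Pi.pow_apply]
    set w := Real.sqrt (1 + s ^ 2) with hw
    push_cast
    field_simp
    linear_combination s ^ 2 * h3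
  · intro s
    have h1 := ((hasDerivAt_pow 2 s).const_mul 3).div ((d0 s).pow 5) (pow_ne_zero 5 (wp s).ne')
    refine h1.congr_deriv ?_
    have h2 := (wp s).ne'
    simp only [Pi.pow_apply]
    set w := Real.sqrt (1 + s ^ 2) with hw
    push_cast
    field_simp
    ring
  · intro s
    rw [← div_pow, abs_pow, abs_div, abs_of_pos (wp s)]
    have h1 : |s| / Real.sqrt (1 + s ^ 2) ≤ 1 := (div_le_one (wp s)).2 (wa s)
    have h2 : (|s| / Real.sqrt (1 + s ^ 2)) ^ 3 ≤ 1 :=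
      pow_le_one₀ (div_nonneg (abs_nonneg s) (wp s).le) h1
    linarith
  · intro s
    have h0 := wp s
    rw [abs_of_nonneg (by positivity)]
    have h1 : s ^ 2 ≤ Real.sqrt (1 + s ^ 2) ^ 5 := by
      calc s ^ 2 ≤ Real.sqrt (1 + s ^ 2) ^ 2 := by rw [ws]; linarith
        _ ≤ Real.sqrt (1 + s ^ 2) ^ 5 := pow_le_pow_right₀ (w1 s) (by norm_num)
    rw [div_le_iff₀ (by positivity)]
    nlinarith [h1, sq_nonneg s]
  · intro s
    have h0 := wp s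
    have h1 : |6 * s / Real.sqrt (1 + s ^ 2) ^ 5| ≤ 6 := by
      rw [abs_div, abs_mul, abs_of_pos (by positivity : (0 : ℝ) < 6),
        abs_of_pos (by positivity : 0 < Real.sqrt (1 + s ^ 2) ^ 5), div_le_iff₀ (by positivity)]
      have h2 : |s| ≤ Real.sqrt (1 + s ^ 2) ^ 5 := (wa s).trans (le_self_pow₀ (w1 s) (by norm_num))
      linarith
    have h2 : |15 * s ^ 3 / Real.sqrt (1 + s ^ 2) ^ 7| ≤ 15 := by
      rw [abs_div, abs_mul, abs_of_pos (by positivity : (0 : ℝ) < 15), abs_pow,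
        abs_of_pos (by positivity : 0 < Real.sqrt (1 + s ^ 2) ^ 7), div_le_iff₀ (by positivity)]
      have h2 : |s| ^ 3 ≤ Real.sqrt (1 + s ^ 2) ^ 7 :=
        (pow_le_pow_left₀ (abs_nonneg s) (wa s) 3).trans (pow_le_pow_right₀ (w1 s) (by norm_num))
      linarith
    exact (abs_sub _ _).trans (by linarith)
  · intro s
    have h0 := wp s
    positivity
  · intro s
    have h0 := wp s
    unfold J6
    set w := Real.sqrt (1 + s ^ 2)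
    have h1 : w + 1 / w - 2 = (w - 1) ^ 2 / w := by
      field_simp
      ring
    rw [h1]
    positivity
  · unfold J6
    norm_num

/-- `J6 s = s⁴ / ((w + 1)² w)`, `w ≥ 1`. -/
theorem J6_le (s : ℝ) : J6 s ≤ s ^ 4 / 4 := by
  have w1 : 1 ≤ Real.sqrt (1 + s ^ 2) := Real.le_sqrt_of_sq_le (by nlinarith [sq_nonneg s])
  have ws : Real.sqrt (1 + s ^ 2) ^ 2 = 1 + s ^ 2 := Real.sq_sqrt (by positivity)
  unfold J6
  set w := Real.sqrt (1 + s ^ 2)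
  have h0 : 0 < w := by linarith
  have h1 : w + 1 / w - 2 = (w - 1) ^ 2 / w := by
    field_simp
    ring
  have h2 : s ^ 4 = (w - 1) ^ 2 * (w + 1) ^ 2 := by
    have : s ^ 2 = w ^ 2 - 1 := by linarith
    calc s ^ 4 = (s ^ 2) ^ 2 := by ring
      _ = (w - 1) ^ 2 * (w + 1) ^ 2 := by rw [this]; ring
  rw [h1, h2, div_le_iff₀ h0]
  have h3 : 4 ≤ (w + 1) ^ 2 * w := by nlinarith [mul_nonneg h0.le (sub_nonneg.2 w1)]
  nlinarith [mul_le_mul_of_nonneg_left h3 (sq_nonneg (w - 1))]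

/-- `(w + 1)² w ≤ 9` for `w ≤ √2`. -/
theorem J6_ge {s : ℝ} (hs : |s| ≤ 1) : s ^ 4 ≤ 9 * J6 s := by
  have w1 : 1 ≤ Real.sqrt (1 + s ^ 2) := Real.le_sqrt_of_sq_le (by nlinarith [sq_nonneg s])
  have ws : Real.sqrt (1 + s ^ 2) ^ 2 = 1 + s ^ 2 := Real.sq_sqrt (by positivity)
  have hs2 : s ^ 2 ≤ 1 := by
    rw [← sq_abs]
    exact pow_le_one₀ (abs_nonneg s) hs
  unfold J6
  set w := Real.sqrt (1 + s ^ 2)
  have h0 : 0 < w := by linarith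
  have h1 : w + 1 / w - 2 = (w - 1) ^ 2 / w := by
    field_simp
    ring
  have h2 : s ^ 4 = (w - 1) ^ 2 * (w + 1) ^ 2 := by
    have : s ^ 2 = w ^ 2 - 1 := by linarith
    calc s ^ 4 = (s ^ 2) ^ 2 := by ring
      _ = (w - 1) ^ 2 * (w + 1) ^ 2 := by rw [this]; ring
  have h5 : w ≤ 5 / 3 := by nlinarith
  have h3 : (w + 1) ^ 2 * w ≤ 9 := by nlinarith
  rw [h1, h2, ← mul_div_assoc, le_div_iff₀ h0]
  nlinarith [mul_le_mul_of_nonneg_left h3 (sq_nonneg (w - 1))]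

end Pool.Agent.W_332fe5
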