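import Pool.Agent.W_332fe5_h65.L5
import Pool.Agent.W_332fe5_h65.EJ
import Pool.Agent.W_332fe5.Need6

set_option autoImplicit false

/-! Block 5, E4: (5.4) the swirl is bounded by 1. -/

open MeasureTheory ProbabilityTheory Set Filter Topology
open scoped ENNReal NNReal

namespace Pool.Agent.W_332fe5

theorem HG_one : HG (fun _ => 1) (fun _ => 0) 1 where
  smooth := contDiffOn_const
  meas := measurable_const
  hm := measurable_const
  cpos := zero_le_one
  pos := fun _ _ _ => ⟨zero_le_one, le_rfl⟩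
  d1 := fun y h1 _ => by
    simp only [deriv_const, abs_zero, one_mul]
    positivity
  d2 := fun y h1 _ => by
    have : iteratedDeriv 2 (fun _ : ℝ => (1 : ℝ)) y = 0 := by
      rw [iteratedDeriv_const]; simp
    rw [this, abs_zero, one_mul]
    positivity
  le := fun y _ _ => by
    have : iteratedDeriv 2 (fun _ : ℝ => (1 : ℝ)) y = 0 := by
      rw [iteratedDeriv_const]; simp
    rw [this, deriv_const]; simp
  gd := fun y h1 _ => by
    rw [abs_zero, one_mul]
    positivity

theorem E4_QL (j : ℝ → ℝ) (u : E3 → E3) : QL j (fun _ => 1) (fun _ => 0) u = 0 := by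
  unfold QL
  simp

theorem E4_step {zt p κ δ q K : ℝ} {A : L2 →L[ℝ] L2} {ev : L2 → E3 → E3}
    (h : Ctx zt p κ δ q A K ev) (C : Core zt p κ δ q) :
    ∀ᵐ t ∂(volume.restrict (Ioo (0 : ℝ) 1)),
      ∫⁻ ω, (∫⁻ x in Bl, ENNReal.ofReal (|gam (uv C A ev (t, ω)) x| - 1)) ∂C.P = 0 := by
  have hvol : volume Bl ≠ ∞ := (vol_Bl.trans_lt ENNReal.ofReal_lt_top).ne
  filter_upwards [adm_ae h C, ae_restrict_mem measurableSet_Ioo] with t hA ht
  have key : ∀ k : ℝ, 0 < k → ∫⁻ ω, (∫⁻ x in Bl,
      ENNReal.ofReal (|gam (uv C A ev (t, ω)) x| - 1)) ∂C.P ≤ ENNReal.ofReal (26 * k) := by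
    intro k hk
    obtain ⟨Kj, hj⟩ := Jh_ent hk
    obtain ⟨-, -, h1⟩ := stage2 h C hj (Ioo_subset_Icc_self ht) (hA _ _ hj) HG_one
    simp only [E4_QL, integral_zero, add_zero, mul_one] at h1
    have h2 : ∫ x in Bl, Jh k (Gam0 x) ≤ 13 * k := by
      calc ∫ x in Bl, Jh k (Gam0 x) ≤ ∫ x in Bl, k := by
            refine integral_mono_of_nonneg (Eventually.of_forall fun x => hj.nonneg _)
              (integrableOn_const hvol) (Eventually.of_forall fun x => ?_)
            refine Jh_le hk ?_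
            rw [abs_of_nonneg (Gam0_nonneg x)]
            exact Gam0_le_one x
        _ = (volume Bl).toReal * k := by
            rw [setIntegral_const]; rfl
        _ ≤ 13 * k := by
            refine mul_le_mul_of_nonneg_right ?_ hk.le
            exact ENNReal.toReal_le_of_le_ofReal (by norm_num) vol_Bl
    have h3 : ∀ ω, ∫⁻ x in Bl, ENNReal.ofReal (|gam (uv C A ev (t, ω)) x| - 1) ≤
        (∫⁻ x in Bl, ENNReal.ofReal (Jh k (gam (uv C A ev (t, ω)) x))) +
          ENNReal.ofReal (13 * k) := by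
      intro ω
      calc ∫⁻ x in Bl, ENNReal.ofReal (|gam (uv C A ev (t, ω)) x| - 1)
          ≤ ∫⁻ x in Bl, (ENNReal.ofReal (Jh k (gam (uv C A ev (t, ω)) x)) +
              ENNReal.ofReal k) := by
            refine lintegral_mono fun x => ?_
            rw [← ENNReal.ofReal_add (hj.nonneg _) hk.le]
            refine ENNReal.ofReal_le_ofReal ?_
            have := Jh_ge hk (gam (uv C A ev (t, ω)) x)
            linarith
        _ = (∫⁻ x in Bl, ENNReal.ofReal (Jh k (gam (uv C A ev (t, ω)) x))) +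
              ENNReal.ofReal k * volume Bl := by
            rw [lintegral_add_right _ measurable_const, setLIntegral_const]
        _ ≤ _ := by
            gcongr
            calc ENNReal.ofReal k * volume Bl ≤ ENNReal.ofReal k * ENNReal.ofReal 13 := by
                  gcongr
                  exact vol_Bl
              _ = ENNReal.ofReal (13 * k) := by
                  rw [← ENNReal.ofReal_mul hk.le, mul_comm]
    calc ∫⁻ ω, (∫⁻ x in Bl, ENNReal.ofReal (|gam (uv C A ev (t, ω)) x| - 1)) ∂C.P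
        ≤ ∫⁻ ω, ((∫⁻ x in Bl, ENNReal.ofReal (Jh k (gam (uv C A ev (t, ω)) x))) +
            ENNReal.ofReal (13 * k)) ∂C.P := lintegral_mono h3
      _ = (∫⁻ ω, (∫⁻ x in Bl, ENNReal.ofReal (Jh k (gam (uv C A ev (t, ω)) x))) ∂C.P) +
            ENNReal.ofReal (13 * k) := by
          rw [lintegral_add_right _ measurable_const, lintegral_const, measure_univ, mul_one]
      _ ≤ ENNReal.ofReal (13 * k) + ENNReal.ofReal (13 * k) := by
          gcongr
          exact h1.trans (ENNReal.ofReal_le_ofReal h2)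
      _ = ENNReal.ofReal (26 * k) := by
          rw [← ENNReal.ofReal_add (by positivity) (by positivity)]
          congr 1; ring
  have hl : Tendsto (fun k : ℝ => ENNReal.ofReal (26 * k)) (𝓝[>] 0) (𝓝 0) := by
    have h1 : Tendsto (fun k : ℝ => 26 * k) (𝓝[>] 0) (𝓝 0) := by
      have : Tendsto (fun k : ℝ => 26 * k) (𝓝 0) (𝓝 (26 * 0)) := tendsto_id.const_mul 26
      rw [mul_zero] at this
      exact this.mono_left nhdsWithin_le_nhds
    simpa using ENNReal.tendsto_ofReal h1
  refine le_antisymm (ge_of_tendsto hl ?_) bot_le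
  filter_upwards [self_mem_nhdsWithin] with k hk using key k hk

/-- PROOF: `adm_ae`, `stage2` with `H = 1`, `G' = 0`, `j = Jh k`, `k = 1/(n+1)`:
`E ∫_B Jh k (Γ) ≤ k |B|` (`Jh_le`, `Gam0_le_one`), so
`E ∫_B (|Γ| - 1)_+ ≤ 2 k |B|` (`Jh_ge`) for all `k`, for almost all `t`; `Γ = 0` outside the
ball. -/
theorem need5Bdd {zt p κ δ q K : ℝ} {A : L2 →L[ℝ] L2} {ev : L2 → E3 → E3}
    (h : Ctx zt p κ δ q A K ev) : Need5Bdd zt p κ δ q := by
  intro C
  obtain ⟨K', hK', hF⟩ := exists_fld h
  have hm : Measurable fun y : (ℝ × C.Ω) × E3 =>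
      ENNReal.ofReal (|gam (uv C A ev y.1) y.2| - 1) :=
    ((gam_joint h C).measurable.abs.sub_const 1).ennreal_ofReal
  have hmz : Measurable fun z : ℝ × C.Ω =>
      ∫⁻ x in Bl, ENNReal.ofReal (|gam (uv C A ev z) x| - 1) := hm.lintegral_prod_right'
  have h0 : ∫⁻ z, (∫⁻ x in Bl, ENNReal.ofReal (|gam (uv C A ev z) x| - 1))
      ∂((volume.restrict (Ioo (0 : ℝ) 1)).prod C.P) = 0 := by
    rw [lintegral_prod _ hmz.aemeasurable]
    rw [lintegral_eq_zero_iff hmz.lintegral_prod_right']
    exact E4_step h C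
  have h1 := (lintegral_eq_zero_iff hmz).1 h0
  refine h1.mono fun z hz => ?_
  have hFz : Fld (uv C A ev z) (K' * ‖C.w z.1 z.2‖) := hF (C.w z.1 z.2)
  have h2 : Measurable fun x => ENNReal.ofReal (|gam (uv C A ev z) x| - 1) :=
    ((gam_meas hFz).measurable.abs.sub_const 1).ennreal_ofReal
  have h3 := (lintegral_eq_zero_iff h2).1 hz
  have h4 := (ae_restrict_iff' (Metric.isOpen_ball.measurableSet : MeasurableSet Bl)).1 h3
  have hGz : Gam δ (C.w z.1 z.2) =ᵐ[volume] gam (uv C A ev z) := Gam_uv h (C.w z.1 z.2)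
  filter_upwards [h4, gam_ae_zero hFz, hGz] with x hx1 hx2 hx3
  rw [hx3]
  by_cases hx : x ∈ Bl
  · have h5 := hx1 hx
    simp only [Pi.zero_apply, ENNReal.ofReal_eq_zero] at h5
    have h6 : |gam (uv C A ev z) x| ≤ 1 := by linarith
    exact h6
  · rw [hx2 hx]; simp

end Pool.Agent.W_332fe5
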