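import Pool.Agent.W_332fe5_h65.L3

set_option autoImplicit false

/-! Block 5, HH: the three weights. -/

open MeasureTheory ProbabilityTheory Set Filter Topology
open scoped ENNReal NNReal

namespace Pool.Agent.W_332fe5

theorem HH_exp (s y : ℝ) :
    HasDerivAt (fun y : ℝ => Real.exp (-y / s)) (-(1 / s) * Real.exp (-y / s)) y := by
  have h1 : HasDerivAt (fun y : ℝ => -y / s) (-1 / s) y := (hasDerivAt_id y).neg.div_const s
  have h2 := h1.exp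
  have h3 : Real.exp (-y / s) * (-1 / s) = -(1 / s) * Real.exp (-y / s) := by ring
  rwa [h3] at h2

theorem HH_der (p s : ℝ) {y : ℝ} (hy : 0 < y) :
    HasDerivAt (fun y : ℝ => y ^ p * Real.exp (-y / s))
      (p * (y ^ (p - 1) * Real.exp (-y / s)) - 1 / s * (y ^ p * Real.exp (-y / s))) y := by
  have h1 : HasDerivAt (fun y : ℝ => y ^ p) (p * y ^ (p - 1)) y :=
    Real.hasDerivAt_rpow_const (Or.inl hy.ne')
  have h2 := h1.mul (HH_exp s y)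
  have h3 : p * y ^ (p - 1) * Real.exp (-y / s) + y ^ p * (-(1 / s) * Real.exp (-y / s)) =
      p * (y ^ (p - 1) * Real.exp (-y / s)) - 1 / s * (y ^ p * Real.exp (-y / s)) := by ring
  rw [h3] at h2
  exact h2

theorem HH_two (H H1 : ℝ → ℝ) {y h2 : ℝ} (hy : 0 < y)
    (h : ∀ z, 0 < z → HasDerivAt H (H1 z) z) (hd : HasDerivAt H1 h2 y) :
    iteratedDeriv 2 H y = h2 := by
  have e : iteratedDeriv 2 H = deriv (deriv H) := by
    rw [show (2 : ℕ) = 1 + 1 from rfl, iteratedDeriv_succ, iteratedDeriv_one]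
  rw [e]
  have h3 : deriv H =ᶠ[𝓝 y] H1 := by
    filter_upwards [Ioi_mem_nhds hy] with z hz
    exact (h z hz).deriv
  rw [h3.deriv_eq]
  exact hd.deriv

theorem HH_one {y q : ℝ} (hy : 0 < y) (hy2 : y ≤ 1 / 2) (hq : q ≤ 0) : 1 ≤ y ^ q :=
  Real.one_le_rpow_of_pos_of_le_one_of_nonpos hy (by linarith) hq

theorem HH_le {y p q : ℝ} (hy : 0 < y) (hy2 : y ≤ 1 / 2) (hq : q ≤ p) : y ^ p ≤ y ^ q :=
  Real.rpow_le_rpow_of_exponent_ge hy (by linarith) hq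

theorem HH_exp_le {s y : ℝ} (hs : 0 < s) (hy : 0 < y) : Real.exp (-y / s) ≤ 1 := by
  rw [Real.exp_le_one_iff]
  exact div_nonpos_of_nonpos_of_nonneg (by linarith) hs.le

/-- `H = y^a e^(-y/s)` with `a = 2 - ζ`, `4/5 ≤ a < 1`, `0 < s ≤ 1`:
`H' = (a/y - 1/s) H`, `H'' = (a(a-1)/y² - 2a/(ys) + 1/s²) H`,
`(1-2y) H'' - 5 H' ≤ a(a-1) y^(a-2) e^(-y/s) + 6 s⁻² H` (drop `2a(1-a)/y - 5a/y < 0` and
`-2a(1-2y)/(ys)`; `1/s² + 5/s ≤ 6/s²`). -/
theorem HG5 {zt s : ℝ} (h1 : 1 < zt) (h2 : zt ≤ 6 / 5) (hs : 0 < s) (hs1 : s ≤ 1) :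
    ∃ c : ℝ, HG (fun y => y ^ (2 - zt) * Real.exp (-y / s))
      (fun y => 6 / s ^ 2 * (y ^ (2 - zt) * Real.exp (-y / s)) -
        (2 - zt) * (zt - 1) * (y ^ (-zt) * Real.exp (-y / s))) c ∧
      (∀ y, 0 < y → y ≤ 1 / 2 →
        6 / s ^ 2 * (y ^ (2 - zt) * Real.exp (-y / s)) ≤ c * y ^ (-(6 / 5) : ℝ) ∧
        (2 - zt) * (zt - 1) * (y ^ (-zt) * Real.exp (-y / s)) ≤ c * y ^ (-(6 / 5) : ℝ)) ∧
      (∀ y, 0 < y → y ≤ 1 / 2 →
        |deriv (fun y => y ^ (2 - zt) * Real.exp (-y / s)) y| ≤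
          2 * (y ^ (1 - zt) * Real.exp (-y / (2 * s)))) := by
  obtain ⟨σ, hσ⟩ : ∃ σ : ℝ, σ = 1 / s := ⟨_, rfl⟩
  have hσ1 : 1 ≤ σ := by
    rw [hσ, one_le_div hs]
    exact hs1
  have hσ2 : σ ≤ σ ^ 2 := by nlinarith
  have hs2 : 6 / s ^ 2 = 6 * σ ^ 2 := by
    rw [hσ]
    ring
  have hd1 : ∀ z : ℝ, 0 < z → HasDerivAt (fun y : ℝ => y ^ (2 - zt) * Real.exp (-y / s))
      ((2 - zt) * (z ^ (1 - zt) * Real.exp (-z / s)) -
        σ * (z ^ (2 - zt) * Real.exp (-z / s))) z := by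
    intro z hz
    have h := HH_der (2 - zt) s hz
    have e1 : 2 - zt - 1 = 1 - zt := by ring
    rw [e1, ← hσ] at h
    exact h
  have hd2 : ∀ z : ℝ, 0 < z →
      iteratedDeriv 2 (fun y : ℝ => y ^ (2 - zt) * Real.exp (-y / s)) z =
      (2 - zt) * ((1 - zt) * (z ^ (-zt) * Real.exp (-z / s)) -
        σ * (z ^ (1 - zt) * Real.exp (-z / s))) -
        σ * ((2 - zt) * (z ^ (1 - zt) * Real.exp (-z / s)) -
          σ * (z ^ (2 - zt) * Real.exp (-z / s))) := by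
    intro z hz
    refine HH_two _ _ hz hd1 ?_
    have h := HH_der (1 - zt) s hz
    have e1 : 1 - zt - 1 = -zt := by ring
    rw [e1, ← hσ] at h
    exact (h.const_mul (2 - zt)).sub ((hd1 z hz).const_mul σ)
  -- all powers in terms of `P = z ^ (-zt)`
  have hP1 : ∀ z : ℝ, 0 < z → z ^ (1 - zt) = z ^ (-zt) * z := by
    intro z hz
    rw [show (1 - zt : ℝ) = -zt + 1 by ring, Real.rpow_add_one hz.ne']
  have hP2 : ∀ z : ℝ, 0 < z → z ^ (2 - zt) = z ^ (-zt) * z * z := by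
    intro z hz
    rw [show (2 - zt : ℝ) = -zt + 1 + 1 by ring, Real.rpow_add_one hz.ne',
      Real.rpow_add_one hz.ne']
  have ha1 : 0 < 2 - zt := by linarith
  have ha2 : 2 - zt < 1 := by linarith
  have ha3 : 0 ≤ zt - 1 := by linarith
  have bE0 : ∀ z : ℝ, 0 < Real.exp (-z / s) := fun z => Real.exp_pos _
  have bE1 : ∀ z : ℝ, 0 < z → Real.exp (-z / s) ≤ 1 := fun z hz => HH_exp_le hs hz
  have b0 : ∀ z : ℝ, 0 < z → z ≤ 1 / 2 → 0 < z ^ (-zt) * Real.exp (-z / s) ∧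
      z ^ (-zt) * Real.exp (-z / s) ≤ z ^ (-(6 / 5) : ℝ) := by
    intro z hz hz2
    refine ⟨mul_pos (Real.rpow_pos_of_pos hz _) (bE0 z), ?_⟩
    have h1 : z ^ (-zt) ≤ z ^ (-(6 / 5) : ℝ) := HH_le hz hz2 (by linarith)
    calc z ^ (-zt) * Real.exp (-z / s) ≤ z ^ (-zt) * 1 :=
          mul_le_mul_of_nonneg_left (bE1 z hz) (Real.rpow_pos_of_pos hz _).le
      _ ≤ z ^ (-(6 / 5) : ℝ) := by rw [mul_one]; exact h1
  have b1 : ∀ z : ℝ, 0 < z → z ≤ 1 / 2 → 0 < z ^ (1 - zt) * Real.exp (-z / s) ∧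
      z ^ (1 - zt) * Real.exp (-z / s) ≤ z ^ (-(1 / 5) : ℝ) := by
    intro z hz hz2
    refine ⟨mul_pos (Real.rpow_pos_of_pos hz _) (bE0 z), ?_⟩
    have h1 : z ^ (1 - zt) ≤ z ^ (-(1 / 5) : ℝ) := HH_le hz hz2 (by linarith)
    calc z ^ (1 - zt) * Real.exp (-z / s) ≤ z ^ (1 - zt) * 1 :=
          mul_le_mul_of_nonneg_left (bE1 z hz) (Real.rpow_pos_of_pos hz _).le
      _ ≤ z ^ (-(1 / 5) : ℝ) := by rw [mul_one]; exact h1
  have b2 : ∀ z : ℝ, 0 < z → z ≤ 1 / 2 → 0 < z ^ (2 - zt) * Real.exp (-z / s) ∧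
      z ^ (2 - zt) * Real.exp (-z / s) ≤ 1 := by
    intro z hz hz2
    refine ⟨mul_pos (Real.rpow_pos_of_pos hz _) (bE0 z), ?_⟩
    have h1 : z ^ (2 - zt) ≤ 1 := Real.rpow_le_one hz.le (by linarith) ha1.le
    calc z ^ (2 - zt) * Real.exp (-z / s) ≤ z ^ (2 - zt) * 1 :=
          mul_le_mul_of_nonneg_left (bE1 z hz) (Real.rpow_pos_of_pos hz _).le
      _ ≤ 1 := by rw [mul_one]; exact h1
  have q1 : ∀ z : ℝ, 0 < z → z ≤ 1 / 2 → 1 ≤ z ^ (-(1 / 5) : ℝ) := fun z hz hz2 =>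
    HH_one hz hz2 (by norm_num)
  have q2 : ∀ z : ℝ, 0 < z → z ≤ 1 / 2 → z ^ (-(1 / 5) : ℝ) ≤ z ^ (-(6 / 5) : ℝ) :=
    fun z hz hz2 => HH_le hz hz2 (by norm_num)
  refine ⟨10 * σ ^ 2, ⟨?_, ?_, ?_, ?_, ?_, ?_, ?_, ?_, ?_⟩, ?_, ?_⟩
  · intro y hy
    have hy' : (0 : ℝ) < y := hy
    refine ContDiffAt.contDiffWithinAt ?_
    refine (Real.contDiffAt_rpow_const_of_ne hy'.ne').mul ?_
    exact (Real.contDiff_exp.comp (contDiff_neg.div_const s)).contDiffAt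
  · fun_prop
  · fun_prop
  · positivity
  · intro y hy hy2
    obtain ⟨h1, h2⟩ := b2 y hy hy2
    exact ⟨h1.le, by nlinarith⟩
  · intro y hy hy2
    rw [(hd1 y hy).deriv]
    obtain ⟨h1, h2⟩ := b2 y hy hy2
    obtain ⟨h3, h4⟩ := b1 y hy hy2
    have h5 := q1 y hy hy2
    have h6 : |(2 - zt) * (y ^ (1 - zt) * Real.exp (-y / s)) -
        σ * (y ^ (2 - zt) * Real.exp (-y / s))| ≤
        (2 - zt) * (y ^ (1 - zt) * Real.exp (-y / s)) +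
        σ * (y ^ (2 - zt) * Real.exp (-y / s)) := by
      refine (abs_sub _ _).trans ?_
      rw [abs_of_nonneg (mul_nonneg ha1.le h3.le),
        abs_of_nonneg (mul_nonneg (by linarith) h1.le)]
    refine h6.trans ?_
    have h7 : (2 - zt) * (y ^ (1 - zt) * Real.exp (-y / s)) ≤ 1 * y ^ (-(1 / 5) : ℝ) :=
      mul_le_mul ha2.le h4 h3.le zero_le_one
    have h8 : σ * (y ^ (2 - zt) * Real.exp (-y / s)) ≤ σ * y ^ (-(1 / 5) : ℝ) :=
      mul_le_mul_of_nonneg_left (h2.trans h5) (by linarith)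
    nlinarith
  · intro y hy hy2
    rw [hd2 y hy]
    obtain ⟨h1, h2⟩ := b2 y hy hy2
    obtain ⟨h3, h4⟩ := b1 y hy hy2
    obtain ⟨h5, h6⟩ := b0 y hy hy2
    have h7 := q1 y hy hy2
    have h8 := q2 y hy hy2
    obtain ⟨A0, hA0⟩ : ∃ A0, A0 = y ^ (-zt) * Real.exp (-y / s) := ⟨_, rfl⟩
    obtain ⟨A1, hA1⟩ : ∃ A1, A1 = y ^ (1 - zt) * Real.exp (-y / s) := ⟨_, rfl⟩
    obtain ⟨A2, hA2⟩ : ∃ A2, A2 = y ^ (2 - zt) * Real.exp (-y / s) := ⟨_, rfl⟩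
    obtain ⟨Q, hQ⟩ : ∃ Q, Q = y ^ (-(6 / 5) : ℝ) := ⟨_, rfl⟩
    obtain ⟨Q1, hQ1⟩ : ∃ Q1, Q1 = y ^ (-(1 / 5) : ℝ) := ⟨_, rfl⟩
    rw [← hA0] at h5 h6 ⊢
    rw [← hA1] at h3 h4 ⊢
    rw [← hA2] at h1 h2 ⊢
    rw [← hQ] at h6 h8 ⊢
    rw [← hQ1] at h4 h7 h8
    have k0 : (2 - zt) * (zt - 1) ≤ 1 := by nlinarith
    have k1 : (2 - zt) * (zt - 1) * A0 ≤ 1 * Q :=
      mul_le_mul k0 h6 h5.le zero_le_one
    have k1' : 0 ≤ (2 - zt) * (zt - 1) * A0 := mul_nonneg (mul_nonneg ha1.le ha3) h5.le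
    have k2 : (2 - zt) * (σ * A1) ≤ 1 * (σ * Q) :=
      mul_le_mul ha2.le (mul_le_mul_of_nonneg_left (h4.trans h8) (by linarith))
        (mul_nonneg (by linarith) h3.le) zero_le_one
    have k2' : 0 ≤ (2 - zt) * (σ * A1) := mul_nonneg ha1.le (mul_nonneg (by linarith) h3.le)
    have k3 : σ ^ 2 * A2 ≤ σ ^ 2 * Q :=
      mul_le_mul_of_nonneg_left (h2.trans (h7.trans h8)) (by positivity)
    have k3' : 0 ≤ σ ^ 2 * A2 := mul_nonneg (by positivity) h1.le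
    have k4 : σ * Q ≤ σ ^ 2 * Q := mul_le_mul_of_nonneg_right hσ2 (by linarith)
    have k5 : Q ≤ σ ^ 2 * Q := by nlinarith
    rw [abs_le]
    constructor <;> nlinarith
  · intro y hy hy2
    rw [hd2 y hy, (hd1 y hy).deriv, hs2]
    rw [hP1 y hy, hP2 y hy]
    obtain ⟨h5, _⟩ := b0 y hy hy2
    obtain ⟨A0, hA0⟩ : ∃ A0, A0 = y ^ (-zt) * Real.exp (-y / s) := ⟨_, rfl⟩
    have e1 : y ^ (-zt) * y * Real.exp (-y / s) = A0 * y := by rw [hA0]; ring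
    have e2 : y ^ (-zt) * y * y * Real.exp (-y / s) = A0 * y * y := by rw [hA0]; ring
    rw [e1, e2, ← hA0]
    rw [← hA0] at h5
    have k1 : 0 ≤ (1 - 2 * y) * ((2 - zt) * σ * (A0 * y)) := by
      apply mul_nonneg (by linarith)
      exact mul_nonneg (mul_nonneg ha1.le (by linarith)) (mul_nonneg h5.le hy.le)
    have k2 : 0 ≤ (2 - zt) * (3 + 2 * (2 - zt)) * (A0 * y) :=
      mul_nonneg (mul_nonneg ha1.le (by linarith)) (mul_nonneg h5.le hy.le)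
    have k3 : 0 ≤ A0 * y * y := mul_nonneg (mul_nonneg h5.le hy.le) hy.le
    have k4 : σ * (A0 * y * y) ≤ σ ^ 2 * (A0 * y * y) := mul_le_mul_of_nonneg_right hσ2 k3
    have k5 : 0 ≤ y * (σ ^ 2 * (A0 * y * y)) := mul_nonneg hy.le (mul_nonneg (by positivity) k3)
    nlinarith
  · intro y hy hy2
    rw [hs2]
    obtain ⟨h1, h2⟩ := b2 y hy hy2
    obtain ⟨h5, h6⟩ := b0 y hy hy2
    have h7 := q1 y hy hy2
    have h8 := q2 y hy hy2
    obtain ⟨A0, hA0⟩ : ∃ A0, A0 = y ^ (-zt) * Real.exp (-y / s) := ⟨_, rfl⟩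
    obtain ⟨A2, hA2⟩ : ∃ A2, A2 = y ^ (2 - zt) * Real.exp (-y / s) := ⟨_, rfl⟩
    obtain ⟨Q, hQ⟩ : ∃ Q, Q = y ^ (-(6 / 5) : ℝ) := ⟨_, rfl⟩
    rw [← hA0] at h5 h6 ⊢
    rw [← hA2] at h1 h2 ⊢
    rw [← hQ] at h6 h8 ⊢
    have k0 : (2 - zt) * (zt - 1) ≤ 1 := by nlinarith
    have k1 : (2 - zt) * (zt - 1) * A0 ≤ 1 * Q :=
      mul_le_mul k0 h6 h5.le zero_le_one
    have k1' : 0 ≤ (2 - zt) * (zt - 1) * A0 := mul_nonneg (mul_nonneg ha1.le ha3) h5.le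
    have k3 : σ ^ 2 * A2 ≤ σ ^ 2 * Q :=
      mul_le_mul_of_nonneg_left (h2.trans (h7.trans h8)) (by positivity)
    have k3' : 0 ≤ σ ^ 2 * A2 := mul_nonneg (by positivity) h1.le
    have k5 : Q ≤ σ ^ 2 * Q := by nlinarith
    rw [abs_le]
    constructor <;> nlinarith
  · intro y hy hy2
    rw [hs2]
    obtain ⟨h1, h2⟩ := b2 y hy hy2
    obtain ⟨h5, h6⟩ := b0 y hy hy2
    have h7 := q1 y hy hy2
    have h8 := q2 y hy hy2
    obtain ⟨A0, hA0⟩ : ∃ A0, A0 = y ^ (-zt) * Real.exp (-y / s) := ⟨_, rfl⟩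
    obtain ⟨A2, hA2⟩ : ∃ A2, A2 = y ^ (2 - zt) * Real.exp (-y / s) := ⟨_, rfl⟩
    obtain ⟨Q, hQ⟩ : ∃ Q, Q = y ^ (-(6 / 5) : ℝ) := ⟨_, rfl⟩
    rw [← hA0] at h5 h6 ⊢
    rw [← hA2] at h1 h2 ⊢
    rw [← hQ] at h6 h8 ⊢
    have k0 : (2 - zt) * (zt - 1) ≤ 1 := by nlinarith
    have k1 : (2 - zt) * (zt - 1) * A0 ≤ 1 * Q :=
      mul_le_mul k0 h6 h5.le zero_le_one
    have k3 : σ ^ 2 * A2 ≤ σ ^ 2 * Q :=
      mul_le_mul_of_nonneg_left (h2.trans (h7.trans h8)) (by positivity)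
    have k5 : Q ≤ σ ^ 2 * Q := by nlinarith
    constructor <;> nlinarith
  · intro y hy hy2
    rw [(hd1 y hy).deriv, hP2 y hy, hP1 y hy]
    have hexp : Real.exp (-y / s) = Real.exp (-y / (2 * s)) * Real.exp (-y / (2 * s)) := by
      rw [← Real.exp_add]
      congr 1
      field_simp
      ring
    have h1 : y / (2 * s) + 1 ≤ Real.exp (y / (2 * s)) := Real.add_one_le_exp _
    have h2 : Real.exp (y / (2 * s)) * Real.exp (-y / (2 * s)) = 1 := by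
      rw [← Real.exp_add]
      have : y / (2 * s) + -y / (2 * s) = 0 := by ring
      rw [this, Real.exp_zero]
    obtain ⟨E, hE⟩ : ∃ E, E = Real.exp (-y / (2 * s)) := ⟨_, rfl⟩
    have hE0 : 0 < E := by rw [hE]; exact Real.exp_pos _
    rw [hexp, ← hE]
    rw [← hE] at h2
    have h3 : y / (2 * s) = y * σ / 2 := by
      rw [hσ]
      field_simp
    rw [h3] at h1 h2
    obtain ⟨P, hP⟩ : ∃ P, P = y ^ (-zt) * y := ⟨_, rfl⟩
    have hP0 : 0 < P := by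
      rw [hP]
      exact mul_pos (Real.rpow_pos_of_pos hy _) hy
    rw [← hP]
    have h4 : (y * σ / 2 + 1) * E ≤ 1 := by
      have := mul_le_mul_of_nonneg_right h1 hE0.le
      linarith
    have h5 : (2 - zt) * (P * (E * E)) - σ * (P * y * (E * E)) =
        P * E * (((2 - zt) - y * σ) * E) := by ring
    rw [h5, abs_mul, abs_of_pos (mul_pos hP0 hE0)]
    have h6 : |((2 - zt) - y * σ) * E| ≤ 2 := by
      have hyσ : 0 ≤ y * σ := mul_nonneg hy.le (by linarith)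
      rw [abs_le]
      constructor
      · nlinarith
      · nlinarith
    calc P * E * |((2 - zt) - y * σ) * E| ≤ P * E * 2 :=
          mul_le_mul_of_nonneg_left h6 (mul_pos hP0 hE0).le
      _ = 2 * (P * E) := by ring

/-- `H = e^(-y/(2s))`, `s ≤ 1/10`: `(1-2y) H'' - 5 H' ≤ (1/(4s²) + 5/(2s)) H ≤ H / (2 s²)`. -/
theorem HG6 {s : ℝ} (hs : 0 < s) (hs1 : s ≤ 1 / 10) :
    ∃ c : ℝ, HG (fun y => Real.exp (-y / (2 * s)))
      (fun y => 1 / (2 * s ^ 2) * Real.exp (-y / (2 * s)) - 0) c ∧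
      (∀ y, 0 < y → y ≤ 1 / 2 →
        1 / (2 * s ^ 2) * Real.exp (-y / (2 * s)) ≤ c * y ^ (-(6 / 5) : ℝ)) ∧
      (∀ y, deriv (fun y => Real.exp (-y / (2 * s))) y = -(1 / (2 * s)) * Real.exp (-y / (2 * s)))
      := by
  obtain ⟨σ, hσ⟩ : ∃ σ : ℝ, σ = 1 / s := ⟨_, rfl⟩
  have hσ1 : 10 ≤ σ := by
    rw [hσ, le_div_iff₀ hs]
    linarith
  have e1 : 1 / (2 * s) = σ / 2 := by
    rw [hσ]
    field_simp
  have e2 : 1 / (2 * s ^ 2) = σ ^ 2 / 2 := by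
    rw [hσ]
    field_simp
  have hd1 : ∀ z : ℝ, HasDerivAt (fun y : ℝ => Real.exp (-y / (2 * s)))
      (-(σ / 2) * Real.exp (-z / (2 * s))) z := by
    intro z
    have h := HH_exp (2 * s) z
    rw [e1] at h
    exact h
  have hd2 : ∀ z : ℝ, 0 < z → iteratedDeriv 2 (fun y : ℝ => Real.exp (-y / (2 * s))) z =
      -(σ / 2) * (-(σ / 2) * Real.exp (-z / (2 * s))) := fun z hz =>
    HH_two _ _ hz (fun z _ => hd1 z) ((hd1 z).const_mul _)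
  have bE0 : ∀ z : ℝ, 0 < Real.exp (-z / (2 * s)) := fun z => Real.exp_pos _
  have bE1 : ∀ z : ℝ, 0 < z → Real.exp (-z / (2 * s)) ≤ 1 := fun z hz =>
    HH_exp_le (by linarith) hz
  have q1 : ∀ z : ℝ, 0 < z → z ≤ 1 / 2 → 1 ≤ z ^ (-(1 / 5) : ℝ) := fun z hz hz2 =>
    HH_one hz hz2 (by norm_num)
  have q2 : ∀ z : ℝ, 0 < z → z ≤ 1 / 2 → 1 ≤ z ^ (-(6 / 5) : ℝ) := fun z hz hz2 =>
    HH_one hz hz2 (by norm_num)
  have key : ∀ t E Q : ℝ, 0 ≤ t → t ≤ σ ^ 2 → 0 < E → E ≤ 1 → 1 ≤ Q → t * E ≤ σ ^ 2 * Q := by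
    intro t E Q ht1 ht2 hE0 hE1 hQ
    calc t * E ≤ σ ^ 2 * 1 := mul_le_mul ht2 hE1 hE0.le (by positivity)
      _ ≤ σ ^ 2 * Q := mul_le_mul_of_nonneg_left hQ (by positivity)
  refine ⟨σ ^ 2, ⟨?_, ?_, ?_, ?_, ?_, ?_, ?_, ?_, ?_⟩, ?_, ?_⟩
  · exact (Real.contDiff_exp.comp (contDiff_neg.div_const (2 * s))).contDiffOn
  · fun_prop
  · fun_prop
  · positivity
  · intro y hy hy2
    exact ⟨(bE0 y).le, (bE1 y hy).trans (by nlinarith)⟩
  · intro y hy hy2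
    rw [(hd1 y).deriv, abs_mul, abs_of_pos (bE0 y), abs_neg, abs_of_nonneg (by linarith)]
    exact key _ _ _ (by linarith) (by nlinarith) (bE0 y) (bE1 y hy) (q1 y hy hy2)
  · intro y hy hy2
    have e3 : -(σ / 2) * (-(σ / 2) * Real.exp (-y / (2 * s))) =
        σ ^ 2 / 4 * Real.exp (-y / (2 * s)) := by ring
    rw [hd2 y hy, e3, abs_of_nonneg (mul_nonneg (by positivity) (bE0 y).le)]
    exact key _ _ _ (by positivity) (by nlinarith) (bE0 y) (bE1 y hy) (q2 y hy hy2)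
  · intro y hy hy2
    rw [hd2 y hy, (hd1 y).deriv, e2]
    have k1 : 0 ≤ y * (σ ^ 2 * Real.exp (-y / (2 * s))) :=
      mul_nonneg hy.le (mul_nonneg (by positivity) (bE0 y).le)
    have k2 : 10 * σ * Real.exp (-y / (2 * s)) ≤ σ ^ 2 * Real.exp (-y / (2 * s)) :=
      mul_le_mul_of_nonneg_right (by nlinarith) (bE0 y).le
    nlinarith
  · intro y hy hy2
    rw [e2, sub_zero, abs_of_nonneg (mul_nonneg (by positivity) (bE0 y).le)]
    exact key _ _ _ (by positivity) (by nlinarith) (bE0 y) (bE1 y hy) (q2 y hy hy2)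
  · intro y hy hy2
    rw [e2]
    exact key _ _ _ (by positivity) (by nlinarith) (bE0 y) (bE1 y hy) (q2 y hy hy2)
  · intro y
    rw [(hd1 y).deriv, e1]

/-- `H = R² (1 - e^(-y/R))`: `(1-2y) H'' - 5 H' ≤ -(1-2y) e^(-y/R) = 2y e^(-y/R) - e^(-y/R)`. -/
theorem HG7 {R : ℝ} (hR : 0 < R) (hR1 : R ≤ 1) :
    ∃ c : ℝ, HG (fun y => R ^ 2 * (1 - Real.exp (-y / R)))
      (fun y => 2 * y * Real.exp (-y / R) - Real.exp (-y / R)) c ∧
      (∀ y, 0 < y → y ≤ 1 / 2 → 2 * y * Real.exp (-y / R) ≤ c * y ^ (-(6 / 5) : ℝ) ∧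
        Real.exp (-y / R) ≤ c * y ^ (-(6 / 5) : ℝ)) ∧
      (∀ y, deriv (fun y => R ^ 2 * (1 - Real.exp (-y / R))) y = R * Real.exp (-y / R)) := by
  have hd1 : ∀ z : ℝ, HasDerivAt (fun y : ℝ => R ^ 2 * (1 - Real.exp (-y / R)))
      (R * Real.exp (-z / R)) z := by
    intro z
    have h := ((HH_exp R z).const_sub 1).const_mul (R ^ 2)
    have e : R ^ 2 * -(-(1 / R) * Real.exp (-z / R)) = R * Real.exp (-z / R) := by
      field_simp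
    rw [e] at h
    exact h
  have hd2 : ∀ z : ℝ, 0 < z → iteratedDeriv 2 (fun y : ℝ => R ^ 2 * (1 - Real.exp (-y / R))) z =
      - Real.exp (-z / R) := by
    intro z hz
    refine HH_two _ _ hz (fun z _ => hd1 z) ?_
    have h := (HH_exp R z).const_mul R
    have e : R * (-(1 / R) * Real.exp (-z / R)) = - Real.exp (-z / R) := by
      field_simp
    rw [e] at h
    exact h
  have bE0 : ∀ z : ℝ, 0 < Real.exp (-z / R) := fun z => Real.exp_pos _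
  have bE1 : ∀ z : ℝ, 0 < z → Real.exp (-z / R) ≤ 1 := fun z hz => HH_exp_le hR hz
  have q1 : ∀ z : ℝ, 0 < z → z ≤ 1 / 2 → 1 ≤ z ^ (-(1 / 5) : ℝ) := fun z hz hz2 =>
    HH_one hz hz2 (by norm_num)
  have q2 : ∀ z : ℝ, 0 < z → z ≤ 1 / 2 → 1 ≤ z ^ (-(6 / 5) : ℝ) := fun z hz hz2 =>
    HH_one hz hz2 (by norm_num)
  refine ⟨1, ⟨?_, ?_, ?_, ?_, ?_, ?_, ?_, ?_, ?_⟩, ?_, ?_⟩
  · exact (contDiff_const.mul (contDiff_const.sub
      (Real.contDiff_exp.comp (contDiff_neg.div_const R)))).contDiffOn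
  · fun_prop
  · fun_prop
  · exact zero_le_one
  · intro y hy hy2
    have h0 := bE0 y
    have h1 := bE1 y hy
    have h2 : R ^ 2 ≤ 1 := by nlinarith
    have h3 : 0 ≤ R ^ 2 := by positivity
    exact ⟨mul_nonneg h3 (by linarith), by nlinarith⟩
  · intro y hy hy2
    rw [(hd1 y).deriv, abs_of_nonneg (mul_nonneg hR.le (bE0 y).le), one_mul]
    have h0 := bE0 y
    have h1 := bE1 y hy
    exact le_trans (by nlinarith) (q1 y hy hy2)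
  · intro y hy hy2
    rw [hd2 y hy, abs_neg, abs_of_pos (bE0 y), one_mul]
    exact (bE1 y hy).trans (q2 y hy hy2)
  · intro y hy hy2
    rw [hd2 y hy, (hd1 y).deriv]
    have h0 : 0 ≤ R * Real.exp (-y / R) := mul_nonneg hR.le (bE0 y).le
    nlinarith
  · intro y hy hy2
    have h0 := bE0 y
    have h1 := bE1 y hy
    refine le_trans ?_ ((q2 y hy hy2).trans (one_mul _).ge)
    rw [abs_le]
    constructor <;> nlinarith
  · intro y hy hy2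
    have h0 := bE0 y
    have h1 := bE1 y hy
    have h2 := q2 y hy hy2
    exact ⟨by nlinarith, by linarith⟩
  · intro y
    exact (hd1 y).deriv

end Pool.Agent.W_332fe5
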