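import Pool.Agent.W_332fe5_h65.R3

set_option autoImplicit false

/-! Block 5, G0: the initial swirl. -/

open MeasureTheory ProbabilityTheory Set Filter Topology
open scoped ENNReal NNReal ContDiff

namespace Pool.Agent.W_332fe5

theorem G0_in {x : E3} (hx : x ∈ Bl) : ‖x‖ < 1 := by
  unfold Bl at hx
  simpa using hx

theorem G0_notin {x : E3} (hx : x ∉ Bl) : 1 ≤ ‖x‖ := by
  unfold Bl at hx
  simpa using hx

theorem G0_ax2_nonneg (x : E3) : 0 ≤ ax2 x := by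
  unfold ax2
  positivity

theorem G0_ax2_le (x : E3) : ax2 x ≤ ‖x‖ ^ 2 := by
  unfold ax2
  rw [EuclideanSpace.norm_sq_eq, Fin.sum_univ_three]
  simp only [Real.norm_eq_abs, sq_abs]
  nlinarith [sq_nonneg (x 2)]

theorem G0_ax2_meas : Measurable ax2 := by
  have : Continuous ax2 := by
    unfold ax2
    fun_prop
  exact this.measurable

/-- `|s² - t²|` for two components. -/
theorem G0_ax2_sub {x x' : E3} (hx : ‖x‖ ≤ 1) (hx' : ‖x'‖ ≤ 1) :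
    |ax2 x - ax2 x'| ≤ 2 * ‖x - x'‖ := by
  have h1 : ax2 x - ax2 x' = inner ℝ (x - x') (!₂[x 0 + x' 0, x 1 + x' 1, 0] : E3) := by
    unfold ax2
    simp [PiLp.inner_apply, Fin.sum_univ_three]
    ring
  have h2 : ‖(!₂[x 0 + x' 0, x 1 + x' 1, 0] : E3)‖ ≤ 2 := by
    have h3 : ‖(!₂[x 0 + x' 0, x 1 + x' 1, 0] : E3)‖ ≤ ‖x + x'‖ := by
      refine le_of_sq_le_sq ?_ (norm_nonneg _)
      rw [EuclideanSpace.norm_sq_eq, EuclideanSpace.norm_sq_eq, Fin.sum_univ_three,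
        Fin.sum_univ_three]
      simp
      positivity
    exact h3.trans ((norm_add_le _ _).trans (by linarith))
  rw [h1]
  calc |inner ℝ (x - x') (!₂[x 0 + x' 0, x 1 + x' 1, 0] : E3)|
      ≤ ‖x - x'‖ * ‖(!₂[x 0 + x' 0, x 1 + x' 1, 0] : E3)‖ := abs_real_inner_le_norm _ _
    _ ≤ ‖x - x'‖ * 2 := mul_le_mul_of_nonneg_left h2 (norm_nonneg _)
    _ = 2 * ‖x - x'‖ := mul_comm _ _

theorem G0_rpow_sub {s t : ℝ} (hs : 0 ≤ s) (ht : 0 ≤ t) :
    |s ^ (1 / 16 : ℝ) - t ^ (1 / 16 : ℝ)| ≤ |s - t| ^ (1 / 16 : ℝ) := by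
  have key : ∀ {s t : ℝ}, 0 ≤ s → 0 ≤ t →
      s ^ (1 / 16 : ℝ) - t ^ (1 / 16 : ℝ) ≤ |s - t| ^ (1 / 16 : ℝ) := by
    intro s t hs ht
    have h1 : s ≤ t + |s - t| := by linarith [le_abs_self (s - t)]
    have h2 : s ^ (1 / 16 : ℝ) ≤ (t + |s - t|) ^ (1 / 16 : ℝ) :=
      Real.rpow_le_rpow hs h1 (by norm_num)
    have h3 := Real.rpow_add_le_add_rpow ht (abs_nonneg (s - t)) (p := (1 / 16 : ℝ))
      (by norm_num) (by norm_num)
    linarith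
  rw [abs_le]
  have h1 := key hs ht
  have h2 := key ht hs
  rw [abs_sub_comm] at h2
  constructor <;> linarith

theorem G0_two_rpow {r : ℝ} (hr : 0 ≤ r) : (2 * r) ^ (1 / 16 : ℝ) ≤ 2 * r ^ (1 / 16 : ℝ) := by
  rw [Real.mul_rpow (by norm_num) hr]
  refine mul_le_mul_of_nonneg_right ?_ (Real.rpow_nonneg hr _)
  calc (2 : ℝ) ^ (1 / 16 : ℝ) ≤ 2 ^ (1 : ℝ) :=
        Real.rpow_le_rpow_of_exponent_le (by norm_num) (by norm_num)
    _ = 2 := Real.rpow_one 2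

theorem G0_eq_in {x : E3} (hx : x ∈ Bl) : Gam0 x = (1 - ‖x‖ ^ 2) ^ (1 / 16 : ℝ) * ax2 x := by
  unfold Gam0
  rw [Set.indicator_of_mem hx]
  unfold yy mu
  rw [mul_div_cancel₀ _ (two_ne_zero)]

theorem G0_eq_out {x : E3} (hx : x ∉ Bl) : Gam0 x = 0 := by
  unfold Gam0
  rw [Set.indicator_of_notMem hx]

theorem G0_one {x : E3} (hx : x ∈ Bl) : 0 ≤ 1 - ‖x‖ ^ 2 ∧ 1 - ‖x‖ ^ 2 ≤ 1 := by
  have h1 := G0_in hx
  have h2 := norm_nonneg x
  constructor <;> nlinarith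

theorem G0_pow_one {x : E3} (hx : x ∈ Bl) :
    0 ≤ (1 - ‖x‖ ^ 2) ^ (1 / 16 : ℝ) ∧ (1 - ‖x‖ ^ 2) ^ (1 / 16 : ℝ) ≤ 1 :=
  ⟨Real.rpow_nonneg (G0_one hx).1 _, Real.rpow_le_one (G0_one hx).1 (G0_one hx).2 (by norm_num)⟩

theorem G0_ax2_one {x : E3} (hx : x ∈ Bl) : ax2 x ≤ 1 := by
  have h1 := G0_in hx
  have h2 := norm_nonneg x
  have h3 := G0_ax2_le x
  nlinarith

/-- One point inside, one outside. -/
theorem G0_mixed {x x' : E3} (hx : x ∈ Bl) (hx' : x' ∉ Bl) :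
    |Gam0 x - Gam0 x'| ≤ 2 * ‖x - x'‖ ^ (1 / 16 : ℝ) := by
  rw [G0_eq_out hx', sub_zero, G0_eq_in hx]
  have h1 := G0_in hx
  have h2 := G0_notin hx'
  have h3 := norm_nonneg x
  have h4 : ‖x'‖ - ‖x‖ ≤ ‖x - x'‖ := by
    rw [norm_sub_rev]
    exact norm_sub_norm_le x' x
  have h5 : 1 - ‖x‖ ^ 2 ≤ 2 * ‖x - x'‖ := by nlinarith
  have h6 := G0_pow_one hx
  have h7 : (1 - ‖x‖ ^ 2) ^ (1 / 16 : ℝ) ≤ (2 * ‖x - x'‖) ^ (1 / 16 : ℝ) :=
    Real.rpow_le_rpow (G0_one hx).1 h5 (by norm_num)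
  have h8 := G0_two_rpow (norm_nonneg (x - x'))
  have h9 := G0_ax2_one hx
  have h10 := G0_ax2_nonneg x
  rw [abs_of_nonneg (mul_nonneg h6.1 h10)]
  calc (1 - ‖x‖ ^ 2) ^ (1 / 16 : ℝ) * ax2 x ≤ (1 - ‖x‖ ^ 2) ^ (1 / 16 : ℝ) * 1 :=
        mul_le_mul_of_nonneg_left h9 h6.1
    _ ≤ 2 * ‖x - x'‖ ^ (1 / 16 : ℝ) := by linarith

theorem Gam0_meas : Measurable Gam0 := by
  have h1 : Measurable fun x : E3 => (2 * yy x) ^ mu * ax2 x := by
    refine Measurable.mul (Measurable.pow_const ?_ _) G0_ax2_meas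
    unfold yy
    fun_prop
  exact h1.indicator Metric.isOpen_ball.measurableSet

theorem Gam0_nonneg (x : E3) : 0 ≤ Gam0 x := by
  by_cases hx : x ∈ Bl
  · rw [G0_eq_in hx]
    exact mul_nonneg (G0_pow_one hx).1 (G0_ax2_nonneg x)
  · rw [G0_eq_out hx]

theorem Gam0_le_one (x : E3) : Gam0 x ≤ 1 := by
  by_cases hx : x ∈ Bl
  · rw [G0_eq_in hx]
    exact mul_le_one₀ (G0_pow_one hx).2 (G0_ax2_nonneg x) (G0_ax2_one hx)
  · rw [G0_eq_out hx]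
    exact zero_le_one

theorem Gam0_le (x : E3) (hx : x ∈ Bl) : Gam0 x ≤ (2 * yy x) ^ (1 / 16 : ℝ) := by
  rw [G0_eq_in hx]
  unfold yy
  rw [mul_div_cancel₀ _ (two_ne_zero)]
  exact mul_le_of_le_one_right (G0_pow_one hx).1 (G0_ax2_one hx)

/-- PROOF: `|s^μ - t^μ| ≤ |s - t|^μ` for `s, t ≥ 0` (`Real.rpow_add_le_...` or
`NNReal.rpow_add_le_add_rpow`), `|2 y(x) - 2 y(x')| ≤ 2 ‖x - x'‖`, `ax2` is 2-Lipschitz on the ball;
if one of the points is outside the ball, replace `2 y` by `max (1 - ‖x‖²) 0`. -/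
theorem Gam0_holder (x x' : E3) (h : ‖x - x'‖ ≤ 1) :
    |Gam0 x - Gam0 x'| ≤ 6 * ‖x - x'‖ ^ (1 / 16 : ℝ) := by
  have hp : 0 ≤ ‖x - x'‖ ^ (1 / 16 : ℝ) := Real.rpow_nonneg (norm_nonneg _) _
  by_cases hx : x ∈ Bl
  · by_cases hx' : x' ∈ Bl
    · rw [G0_eq_in hx, G0_eq_in hx']
      have h1 := G0_rpow_sub (G0_one hx).1 (G0_one hx').1
      have a1 := G0_in hx
      have a2 := G0_in hx'
      have h2 : |(1 - ‖x‖ ^ 2) - (1 - ‖x'‖ ^ 2)| ≤ 2 * ‖x - x'‖ := by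
        have h3 : |‖x'‖ - ‖x‖| ≤ ‖x - x'‖ := by
          rw [norm_sub_rev]
          exact abs_norm_sub_norm_le x' x
        calc |(1 - ‖x‖ ^ 2) - (1 - ‖x'‖ ^ 2)| = |‖x'‖ - ‖x‖| * (‖x'‖ + ‖x‖) := by
              rw [show (1 - ‖x‖ ^ 2) - (1 - ‖x'‖ ^ 2) = (‖x'‖ - ‖x‖) * (‖x'‖ + ‖x‖) by ring,
                abs_mul, abs_of_nonneg (by positivity : 0 ≤ ‖x'‖ + ‖x‖)]
          _ ≤ ‖x - x'‖ * 2 := mul_le_mul h3 (by linarith) (by positivity) (norm_nonneg _)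
          _ = 2 * ‖x - x'‖ := mul_comm _ _
      have h3 : |(1 - ‖x‖ ^ 2) ^ (1 / 16 : ℝ) - (1 - ‖x'‖ ^ 2) ^ (1 / 16 : ℝ)| ≤
          2 * ‖x - x'‖ ^ (1 / 16 : ℝ) :=
        h1.trans ((Real.rpow_le_rpow (abs_nonneg _) h2 (by norm_num)).trans
          (G0_two_rpow (norm_nonneg _)))
      have h4 := G0_ax2_sub a1.le a2.le
      have h5 : ‖x - x'‖ ≤ ‖x - x'‖ ^ (1 / 16 : ℝ) := by
        calc ‖x - x'‖ = ‖x - x'‖ ^ (1 : ℝ) := (Real.rpow_one _).symm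
          _ ≤ ‖x - x'‖ ^ (1 / 16 : ℝ) := by
            rcases (norm_nonneg (x - x')).eq_or_lt with h0 | h0
            · rw [← h0, Real.zero_rpow (by norm_num), Real.zero_rpow (by norm_num)]
            · exact Real.rpow_le_rpow_of_exponent_ge h0 h (by norm_num)
      have b1 := G0_pow_one hx'
      have b2 := G0_ax2_one hx
      have b3 := G0_ax2_nonneg x
      set A := (1 - ‖x‖ ^ 2) ^ (1 / 16 : ℝ)
      set B := (1 - ‖x'‖ ^ 2) ^ (1 / 16 : ℝ)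
      calc |A * ax2 x - B * ax2 x'| = |(A - B) * ax2 x + B * (ax2 x - ax2 x')| := by ring_nf
        _ ≤ |A - B| * ax2 x + B * |ax2 x - ax2 x'| := by
          refine (abs_add_le _ _).trans_eq ?_
          rw [abs_mul, abs_mul, abs_of_nonneg b3, abs_of_nonneg b1.1]
        _ ≤ |A - B| * 1 + 1 * |ax2 x - ax2 x'| :=
          add_le_add (mul_le_mul_of_nonneg_left b2 (abs_nonneg _))
            (mul_le_mul_of_nonneg_right b1.2 (abs_nonneg _))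
        _ ≤ 6 * ‖x - x'‖ ^ (1 / 16 : ℝ) := by linarith
    · have := G0_mixed hx hx'
      linarith
  · by_cases hx' : x' ∈ Bl
    · have h1 := G0_mixed hx' hx
      rw [abs_sub_comm, norm_sub_rev]
      have hp' : 0 ≤ ‖x' - x‖ ^ (1 / 16 : ℝ) := Real.rpow_nonneg (norm_nonneg _) _
      linarith
    · rw [G0_eq_out hx, G0_eq_out hx', sub_zero, abs_zero]
      positivity

theorem Gam0_integrable : Integrable Gam0 := by
  have h1 : IntegrableOn (fun _ : E3 => (1 : ℝ)) Bl volume := by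
    rw [integrableOn_const_iff]
    right
    exact measure_ball_lt_top
  have h2 : Integrable (Bl.indicator fun _ : E3 => (1 : ℝ)) volume :=
    h1.integrable_indicator Metric.isOpen_ball.measurableSet
  refine h2.mono' Gam0_meas.aestronglyMeasurable (Eventually.of_forall fun x => ?_)
  rw [Real.norm_of_nonneg (Gam0_nonneg x)]
  by_cases hx : x ∈ Bl
  · rw [Set.indicator_of_mem hx]
    exact Gam0_le_one x
  · rw [Set.indicator_of_notMem hx, G0_eq_out hx]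

/-- PROOF: `∫ ρ_ε(x - y) dy = 1`. -/
theorem Gam0_moll {ε : ℝ} (hε : 0 < ε) (h1 : ε ≤ 1) (x : E3) :
    |(∫ y, Gam0 y * hk ε x y) - Gam0 x| ≤ 6 * ε ^ (1 / 16 : ℝ) := by
  have hint : Integrable (hk ε x) volume := by
    rw [R3_hk_eq]
    exact (R2_rho_integrable hε).comp_sub_right x
  have hone : ∫ y, hk ε x y = 1 := by
    rw [R3_hk_eq, integral_sub_right_eq_self (fun y => rho ε y) x]
    exact rho_integral hε
  have hnn : ∀ y, 0 ≤ hk ε x y := fun y => rho_nonneg hε _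
  have hg : Integrable (fun y => Gam0 y * hk ε x y) volume := by
    refine hint.bdd_mul (c := 1) Gam0_meas.aestronglyMeasurable (Eventually.of_forall fun y => ?_)
    rw [Real.norm_of_nonneg (Gam0_nonneg y)]
    exact Gam0_le_one y
  have e1 : (∫ y, Gam0 y * hk ε x y) - Gam0 x = ∫ y, (Gam0 y - Gam0 x) * hk ε x y := by
    have h2 : ∀ y, (Gam0 y - Gam0 x) * hk ε x y = Gam0 y * hk ε x y - Gam0 x * hk ε x y :=
      fun y => sub_mul _ _ _
    simp_rw [h2]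
    rw [integral_sub hg (hint.const_mul _), integral_const_mul, hone, mul_one]
  rw [e1]
  have e2 : ∀ y, ‖(Gam0 y - Gam0 x) * hk ε x y‖ ≤ 6 * ε ^ (1 / 16 : ℝ) * hk ε x y := by
    intro y
    rw [norm_mul, Real.norm_of_nonneg (hnn y)]
    rcases le_or_gt ε ‖x - y‖ with h2 | h2
    · have h3 : hk ε x y = 0 := rho_zero hε h2
      rw [h3, mul_zero, mul_zero]
    · refine mul_le_mul_of_nonneg_right ?_ (hnn y)
      rw [Real.norm_eq_abs, abs_sub_comm]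
      refine (Gam0_holder x y (h2.le.trans h1)).trans ?_
      exact mul_le_mul_of_nonneg_left (Real.rpow_le_rpow (norm_nonneg _) h2.le (by norm_num))
        (by norm_num)
  calc |∫ y, (Gam0 y - Gam0 x) * hk ε x y| ≤ ∫ y, 6 * ε ^ (1 / 16 : ℝ) * hk ε x y :=
        norm_integral_le_of_norm_le (hint.const_mul _) (Eventually.of_forall e2)
    _ = 6 * ε ^ (1 / 16 : ℝ) := by rw [integral_const_mul, hone, mul_one]

end Pool.Agent.W_332fe5
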