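import Pool.Agent.W_332fe5_h65.B5Defs

set_option autoImplicit false

/-! Block 5, P0: the context, representatives of the fields. -/

open MeasureTheory ProbabilityTheory Set Filter Topology
open scoped ENNReal NNReal

namespace Pool.Agent.W_332fe5

/-- The context of block 5: a critical tuple, the facts of block 1, a jointly measurable choice
`ev` of representatives. -/
structure Ctx (zt p κ δ q : ℝ) (A : L2 →L[ℝ] L2) (K : ℝ) (ev : L2 → E3 → E3) : Prop where
  par : Par zt p κ δ q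
  need : Need5 δ A K
  ev_ae : ∀ f : L2, ev f =ᵐ[volume] f
  ev_meas : ∀ (Z : Type) (_ : MeasurableSpace Z) (g : Z → L2), StronglyMeasurable g →
    StronglyMeasurable fun p : Z × E3 => ev (g p.1) p.2
  /-- block 1: elements of `L²_σ` vanish outside the ball -/
  supp : ∀ f : L2, f ∈ Hs Bl → ∀ᵐ x ∂(volume : Measure E3), x ∉ Bl → f x = 0
  /-- block 1: elements of `L²_σ` are divergence free -/
  div : ∀ f : L2, f ∈ Hs Bl → ∀ g : E3 → ℝ, ContDiff ℝ 1 g → HasCompactSupport g →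
    ∫ x, fderiv ℝ g x (f x) = 0

/-- The representative of the field `u = A w`. -/
noncomputable def uv {zt p κ δ q : ℝ} (C : Core zt p κ δ q) (A : L2 →L[ℝ] L2)
    (ev : L2 → E3 → E3) (z : ℝ × C.Ω) : E3 → E3 := ev (A (C.w z.1 z.2))

/-- The norm of the coordinate. -/
noncomputable def nw {zt p κ δ q : ℝ} (C : Core zt p κ δ q) (z : ℝ × C.Ω) : ℝ := ‖C.w z.1 z.2‖

/-- The measure `dt P(dω)` on `(0, t) × Ω`. -/
noncomputable def mz {zt p κ δ q : ℝ} (C : Core zt p κ δ q) (t : ℝ) : Measure (ℝ × C.Ω) :=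
  ((volume : Measure ℝ).prod C.P).restrict (Ioo (0 : ℝ) t ×ˢ univ)

theorem mz_eq {zt p κ δ q : ℝ} (C : Core zt p κ δ q) (t : ℝ) :
    mz C t = (volume.restrict (Ioo (0 : ℝ) t)).prod C.P := by
  rw [mz, ← Measure.prod_restrict, Measure.restrict_univ]

theorem mz_mono {zt p κ δ q : ℝ} (C : Core zt p κ δ q) {s t : ℝ} (h : s ≤ t) :
    mz C s ≤ mz C t :=
  Measure.restrict_mono (prod_mono (Ioo_subset_Ioo_right h) subset_rfl) le_rfl

theorem mz_univ {zt p κ δ q : ℝ} (C : Core zt p κ δ q) (t : ℝ) :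
    mz C t univ = ENNReal.ofReal t := by
  rw [mz, Measure.restrict_apply MeasurableSet.univ, univ_inter, Measure.prod_prod,
    Real.volume_Ioo, measure_univ, mul_one, sub_zero]

theorem ev_sm {zt p κ δ q K : ℝ} {A : L2 →L[ℝ] L2} {ev : L2 → E3 → E3}
    (h : Ctx zt p κ δ q A K ev) (f : L2) : StronglyMeasurable (ev f) := by
  have h1 := h.ev_meas Unit inferInstance (fun _ => f) stronglyMeasurable_const
  exact h1.comp_measurable (g := fun x : E3 => (((), x) : Unit × E3))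
    (measurable_const.prodMk measurable_id)

/-- Joint measurability of `(t, ω, x) ↦ u`. -/
theorem uv_sm {zt p κ δ q K : ℝ} {A : L2 →L[ℝ] L2} {ev : L2 → E3 → E3}
    (h : Ctx zt p κ δ q A K ev) (C : Core zt p κ δ q) :
    StronglyMeasurable fun p : (ℝ × C.Ω) × E3 => uv C A ev p.1 p.2 :=
  h.ev_meas (ℝ × C.Ω) inferInstance (fun z => A (C.w z.1 z.2))
    (A.continuous.comp_stronglyMeasurable C.w_meas)

private theorem P0_enorm (f : L2) : eLpNorm f 2 volume = ENNReal.ofReal ‖f‖ := by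
  rw [← Lp.enorm_def, ofReal_norm]

/-- functions without compact support -/
private theorem P0_div {f : L2} (hsupp : ∀ᵐ x ∂(volume : Measure E3), x ∉ Bl → f x = 0)
    (hdiv : ∀ g : E3 → ℝ, ContDiff ℝ 1 g → HasCompactSupport g → ∫ x, fderiv ℝ g x (f x) = 0)
    (ψ : E3 → ℝ) (hψ : ContDiff ℝ 1 ψ) : ∫ x, fderiv ℝ ψ x (f x) = 0 := by
  let χ : ContDiffBump (0 : E3) := ⟨2, 3, by norm_num, by norm_num⟩
  have h1 := hdiv (fun x => χ x * ψ x) (χ.contDiff.mul hψ) (χ.hasCompactSupport.mul_right)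
  rw [← h1]
  refine integral_congr_ae ?_
  filter_upwards [hsupp] with x hx
  by_cases hb : x ∈ Bl
  · have hb1 : ‖x‖ < 1 := by simpa [Bl] using hb
    have he : (fun x => χ x * ψ x) =ᶠ[𝓝 x] ψ := by
      have hnb : Metric.ball (0 : E3) 2 ∈ 𝓝 x :=
        Metric.isOpen_ball.mem_nhds (by simp; linarith)
      filter_upwards [hnb] with y hy
      have : χ y = 1 := χ.one_of_mem_closedBall (Metric.ball_subset_closedBall hy)
      rw [this, one_mul]
    rw [he.fderiv_eq]
  · rw [hx hb]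
    simp

/-- The regularity of the fields `u = A w`.
PROOF: `K' = ‖A‖ + K + 1` and so on; `divfree` for functions without compact support: multiply by a
smooth cutoff that is `1` on the ball (`exists_smooth_...` or a `ContDiffBump`). -/
theorem exists_fld {zt p κ δ q K : ℝ} {A : L2 →L[ℝ] L2} {ev : L2 → E3 → E3}
    (h : Ctx zt p κ δ q A K ev) :
    ∃ K' : ℝ, 0 < K' ∧ ∀ w : L2, Fld (ev (A w)) (K' * ‖w‖) := by
  have hK := h.need.pos
  have hA := norm_nonneg A
  set K' : ℝ := ‖A‖ + K + 1 with hK'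
  have h1 : 1 ≤ K' := by linarith
  refine ⟨K', by linarith, fun w => ?_⟩
  have hae := h.ev_ae (A w)
  have hw := norm_nonneg w
  refine ⟨ev_sm h _, ?_, by positivity, ?_, ?_, fun z => ?_, fun ψ hψ => ?_⟩
  · filter_upwards [hae, h.supp (A w) (h.need.mem w)] with x hx hx' hb
    rw [hx, hx' hb]
  · rw [eLpNorm_congr_ae hae, P0_enorm]
    refine ENNReal.ofReal_le_ofReal ((A.le_opNorm w).trans ?_)
    exact mul_le_mul_of_nonneg_right (by linarith) hw
  · have e1 : ∫⁻ x in Bl, ‖ev (A w) x‖ₑ ^ 2 * ENNReal.ofReal (yy x ^ (-(3 / 2) : ℝ)) =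
        ∫⁻ x in Bl, ‖A w x‖ₑ ^ 2 * ENNReal.ofReal (yy x ^ (-(3 / 2) : ℝ)) := by
      refine lintegral_congr_ae (ae_restrict_of_ae ?_)
      filter_upwards [hae] with x hx
      rw [hx]
    rw [e1]
    refine (h.need.hardy w).trans (ENNReal.ofReal_le_ofReal ?_)
    have : K ≤ K' ^ 2 := by nlinarith
    rw [mul_pow]
    exact mul_le_mul_of_nonneg_right this (by positivity)
  · have e1 : (fun x => ev (A w) (x + z) - ev (A w) x) =ᵐ[volume]
        fun x => A w (x + z) - A w x := by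
      have h2 : ∀ᵐ x ∂(volume : Measure E3), ev (A w) (x + z) = A w (x + z) :=
        (measurePreserving_add_right volume z).quasiMeasurePreserving.ae hae
      filter_upwards [hae, h2] with x hx hx'
      rw [hx, hx']
    rw [eLpNorm_congr_ae e1]
    refine (h.need.shift w z).trans (ENNReal.ofReal_le_ofReal ?_)
    have h3 : 0 ≤ ‖z‖ ^ (3 / 4 : ℝ) := by positivity
    have h4 : K * ‖z‖ ^ (3 / 4 : ℝ) * ‖w‖ = K * (‖w‖ * ‖z‖ ^ (3 / 4 : ℝ)) := by ring
    rw [h4, mul_assoc]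
    exact mul_le_mul_of_nonneg_right (by linarith) (by positivity)
  · have e1 : ∫ x, fderiv ℝ ψ x (ev (A w) x) = ∫ x, fderiv ℝ ψ x (A w x) := by
      refine integral_congr_ae ?_
      filter_upwards [hae] with x hx
      rw [hx]
    rw [e1]
    exact P0_div (h.supp _ (h.need.mem w)) (h.div _ (h.need.mem w)) ψ hψ

/-- The functionals depend on the class only. -/
theorem aF_uv {zt p κ δ q K : ℝ} {A : L2 →L[ℝ] L2} {ev : L2 → E3 → E3}
    (h : Ctx zt p κ δ q A K ev) (w : L2) (φ : E3 → ℝ) : aF δ w φ = aU (ev (A w)) φ := by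
  rw [aF_eq, h.need.fld_eq]
  unfold aU gam
  refine integral_congr_ae ?_
  filter_upwards [h.ev_ae (A w)] with x hx
  rw [hx]

theorem bF_uv {zt p κ δ q K : ℝ} {A : L2 →L[ℝ] L2} {ev : L2 → E3 → E3}
    (h : Ctx zt p κ δ q A K ev) (w : L2) (φ : E3 → ℝ) :
    bF zt δ w φ = bU (cc zt) (ev (A w)) φ := by
  rw [bF_eq, h.need.fld_eq]
  unfold bU gam
  congr 1
  refine integral_congr_ae ?_
  filter_upwards [h.ev_ae (A w)] with x hx
  rw [hx]

theorem Gam_uv {zt p κ δ q K : ℝ} {A : L2 →L[ℝ] L2} {ev : L2 → E3 → E3}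
    (h : Ctx zt p κ δ q A K ev) (w : L2) : Gam δ w =ᵐ[volume] gam (ev (A w)) := by
  unfold Gam gam
  rw [h.need.fld_eq]
  filter_upwards [h.ev_ae (A w)] with x hx
  rw [hx]

/-- After the stopping time everything vanishes. -/
theorem uv_zero {zt p κ δ q K : ℝ} {A : L2 →L[ℝ] L2} {ev : L2 → E3 → E3}
    (h : Ctx zt p κ δ q A K ev) (C : Core zt p κ δ q) (z : ℝ × C.Ω) (hz : C.S z.2 ≤ z.1) :
    uv C A ev z =ᵐ[volume] 0 := by
  unfold uv
  rw [C.w_zero z.1 z.2 (Or.inr hz), map_zero]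
  exact (h.ev_ae 0).trans (Lp.coeFn_zero _ _ _)

end Pool.Agent.W_332fe5
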