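import Pool.Agent.W_332fe5_h65.M1

set_option autoImplicit false

/-! Block 5, Z1: functionals bounded by the `L¹` norm have a density with values in `[-1, 1]`. -/

open MeasureTheory ProbabilityTheory Set Filter Topology
open scoped ENNReal NNReal

namespace Pool.Agent.W_332fe5

theorem Z1_zero_mem : (fun _ => (0 : ℝ)) ∈ CB := by
  refine ⟨contDiff_const, HasCompactSupport.zero, ?_⟩
  have : tsupport (fun _ : E3 => (0 : ℝ)) = ∅ := by
    rw [tsupport_eq_empty_iff]; rfl
  rw [this]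
  exact empty_subset _

theorem Z1_add_mem {h h' : E3 → ℝ} (hh : h ∈ CB) (hh' : h' ∈ CB) (a : ℝ) :
    (fun x => h x + a * h' x) ∈ CB := by
  obtain ⟨a1, a2, a3⟩ := hh
  obtain ⟨b1, b2, b3⟩ := hh'
  have hsub : Function.support (fun x => h x + a * h' x) ⊆ tsupport h ∪ tsupport h' := by
    intro x hx
    by_contra hc
    rw [mem_union, not_or] at hc
    apply hx
    show h x + a * h' x = 0
    rw [image_eq_zero_of_notMem_tsupport hc.1, image_eq_zero_of_notMem_tsupport hc.2]
    ring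
  have hcl : IsClosed (tsupport h ∪ tsupport h') :=
    (isClosed_tsupport _).union (isClosed_tsupport _)
  have hts : tsupport (fun x => h x + a * h' x) ⊆ tsupport h ∪ tsupport h' :=
    closure_minimal hsub hcl
  refine ⟨a1.add (contDiff_const.mul b1), ?_, hts.trans (union_subset a3 b3)⟩
  exact (a2.isCompact.union b2.isCompact).of_isClosed_subset (isClosed_tsupport _) hts

/-- the test functions as a subspace -/
def Z1_W : Submodule ℝ (E3 → ℝ) where
  carrier := CB
  add_mem' := fun {a b} ha hb => by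
    have := Z1_add_mem ha hb 1
    simpa [Pi.add_def] using this
  zero_mem' := Z1_zero_mem
  smul_mem' := fun c f hf => by
    have := Z1_add_mem Z1_zero_mem hf c
    simpa [Pi.smul_def] using this

theorem Z1_memLp {h : E3 → ℝ} (hh : h ∈ CB) (p : ℝ≥0∞) (μ : Measure E3)
    [IsFiniteMeasureOnCompacts μ] : MemLp h p μ :=
  hh.1.continuous.memLp_of_hasCompactSupport hh.2.1

theorem Z1_off {h : E3 → ℝ} (hh : h ∈ CB) {x : E3} (hx : x ∉ Bl) : h x = 0 :=
  image_eq_zero_of_notMem_tsupport fun h1 => hx (hh.2.2 h1)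

theorem Z1_Bl_meas : MeasurableSet Bl := Metric.isOpen_ball.measurableSet

theorem Z1_Bl_fin : (volume : Measure E3) Bl < ⊤ := measure_ball_lt_top

theorem Z1_setInt {h g : E3 → ℝ} (hh : h ∈ CB) : ∫ x in Bl, g x * h x = ∫ x, g x * h x := by
  rw [← integral_indicator Z1_Bl_meas]
  refine integral_congr_ae (Eventually.of_forall fun x => ?_)
  by_cases hx : x ∈ Bl
  · simp only [indicator_of_mem hx]
  · simp only [indicator_of_notMem hx, Z1_off hh hx, mul_zero]

/-- PROOF: `CB` is a subspace `W` of `E3 → ℝ`, `T : W → L²(volume.restrict Bl)` its inclusion,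
`|Λ h| ≤ ∫ |h| ≤ |B|^(1/2) ‖T h‖`, so `Λ` factors through `range T` (`ker T ≤ ker Λ`), is bounded
there, extend by Hahn-Banach (`exists_extension_norm_eq`), Riesz (`InnerProductSpace.toDual`):
`Λ h = ∫_Bl g h`. Bound: `∫ g(y) ρ_ε(x - y) dy = Λ (hk ε x)`, of absolute value at most
`∫ hk ε x = 1`, for `‖x‖ + ε < 1`; `moll_ae` for `g` extended by zero. Truncate `g` outside. -/
theorem riesz_CB (Λ : (E3 → ℝ) → ℝ)
    (hl : ∀ h ∈ CB, ∀ h' ∈ CB, ∀ a : ℝ, Λ (fun x => h x + a * h' x) = Λ h + a * Λ h')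
    (hb : ∀ h ∈ CB, |Λ h| ≤ ∫ x, |h x|) :
    ∃ g : E3 → ℝ, Measurable g ∧ (∀ x, |g x| ≤ 1) ∧ ∀ h ∈ CB, Λ h = ∫ x, g x * h x := by
  have hΛ0 : Λ (fun _ => (0 : ℝ)) = 0 := by
    have := hl _ Z1_zero_mem _ Z1_zero_mem 1
    simp only [mul_zero, add_zero, one_mul] at this
    linarith
  set μ : Measure E3 := (volume : Measure E3).restrict Bl with hμ
  have : IsFiniteMeasure μ := ⟨by rw [hμ, Measure.restrict_apply_univ]; exact Z1_Bl_fin⟩
  -- the functional on the subspace
  let LW : Z1_W →ₗ[ℝ] ℝ :=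
    { toFun := fun h => Λ h.1
      map_add' := fun h h' => by
        have := hl h.1 h.2 h'.1 h'.2 1
        simp only [one_mul] at this
        exact this
      map_smul' := fun c h => by
        have := hl _ Z1_zero_mem h.1 h.2 c
        simp only [zero_add, hΛ0] at this
        exact this }
  let T : Z1_W →ₗ[ℝ] Lp ℝ 2 μ :=
    { toFun := fun h => (Z1_memLp h.2 2 μ).toLp h.1
      map_add' := fun h h' => by
        rw [← MemLp.toLp_add]
        rfl
      map_smul' := fun c h => by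
        rw [RingHom.id_apply, ← MemLp.toLp_const_smul]
        rfl }
  have hT : ∀ h : Z1_W, (T h : E3 → ℝ) =ᵐ[μ] h.1 := fun h => MemLp.coeFn_toLp (Z1_memLp h.2 2 μ)
  -- the constant
  set K : ℝ := (μ Set.univ ^ (1 / 2 : ℝ)).toReal with hK
  have hbound : ∀ h : Z1_W, |LW h| ≤ K * ‖T h‖ := by
    intro h
    have h1 : |Λ h.1| ≤ ∫ x, |h.1 x| := hb h.1 h.2
    have h2 : ∫ x, |h.1 x| = ∫ x in Bl, |h.1 x| := by
      rw [← integral_indicator Z1_Bl_meas]
      refine integral_congr_ae (Eventually.of_forall fun x => ?_)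
      by_cases hx : x ∈ Bl
      · simp only [indicator_of_mem hx]
      · simp only [indicator_of_notMem hx, Z1_off h.2 hx, abs_zero]
    have h3 : ∫ x in Bl, |h.1 x| = (eLpNorm h.1 1 μ).toReal := by
      rw [eLpNorm_one_eq_lintegral_enorm, hμ]
      rw [← integral_norm_eq_lintegral_enorm h.2.1.continuous.aestronglyMeasurable]
      rfl
    have h4 : eLpNorm h.1 1 μ ≤ eLpNorm h.1 2 μ * μ Set.univ ^ (1 / 2 : ℝ) := by
      have := eLpNorm_le_eLpNorm_mul_rpow_measure_univ (μ := μ) (p := 1) (q := 2)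
        (f := h.1) (by norm_num) h.2.1.continuous.aestronglyMeasurable
      refine this.trans (le_of_eq ?_)
      norm_num
    have h5 : ‖T h‖ = (eLpNorm h.1 2 μ).toReal := Lp.norm_toLp h.1 (Z1_memLp h.2 2 μ)
    have h6 : eLpNorm h.1 2 μ ≠ ⊤ := (Z1_memLp h.2 2 μ).2.ne
    have h7 : μ Set.univ ^ (1 / 2 : ℝ) ≠ ⊤ :=
      ENNReal.rpow_ne_top_of_nonneg (by norm_num) (measure_ne_top μ _)
    calc |LW h| ≤ (eLpNorm h.1 1 μ).toReal := by
          rw [← h3, ← h2]; exact h1
      _ ≤ (eLpNorm h.1 2 μ * μ Set.univ ^ (1 / 2 : ℝ)).toReal :=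
          ENNReal.toReal_mono (ENNReal.mul_ne_top h6 h7) h4
      _ = K * ‖T h‖ := by rw [ENNReal.toReal_mul, h5, hK, mul_comm]
  -- factor through the range
  have hker : LinearMap.ker T ≤ LinearMap.ker LW := by
    intro h hh
    rw [LinearMap.mem_ker] at hh ⊢
    have h1 := hbound h
    rw [hh, norm_zero, mul_zero] at h1
    exact abs_nonpos_iff.1 h1
  let f0 : LinearMap.range T →ₗ[ℝ] ℝ :=
    ((LinearMap.ker T).liftQ LW hker).comp T.quotKerEquivRange.symm.toLinearMap
  have hf0 : ∀ h : Z1_W, f0 ⟨T h, LinearMap.mem_range_self T h⟩ = LW h := by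
    intro h
    have h1 : T.quotKerEquivRange.symm ⟨T h, LinearMap.mem_range_self T h⟩
        = Submodule.Quotient.mk h := by
      rw [LinearEquiv.symm_apply_eq]
      rfl
    show (LinearMap.ker T).liftQ LW hker (T.quotKerEquivRange.symm _) = LW h
    rw [h1]
    rfl
  have hf0b : ∀ y : LinearMap.range T, ‖f0 y‖ ≤ K * ‖y‖ := by
    rintro ⟨y, h, rfl⟩
    rw [hf0 h]
    exact hbound h
  let f1 : StrongDual ℝ (LinearMap.range T) := f0.mkContinuous K hf0b
  obtain ⟨ℓ, hℓ, -⟩ := exists_extension_norm_eq (LinearMap.range T) f1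
  set g0 : Lp ℝ 2 μ := (InnerProductSpace.toDual ℝ (Lp ℝ 2 μ)).symm ℓ with hg0
  have hrep : ∀ h : Z1_W, Λ h.1 = ∫ x in Bl, g0 x * h.1 x := by
    intro h
    have h1 : ℓ (T h) = LW h := by
      have := hℓ ⟨T h, LinearMap.mem_range_self T h⟩
      rw [← hf0 h]
      exact this
    have h2 : inner ℝ g0 (T h) = ℓ (T h) := InnerProductSpace.toDual_symm_apply
    have h3 : inner ℝ g0 (T h) = ∫ x in Bl, g0 x * h.1 x := by
      rw [L2.inner_def]
      refine integral_congr_ae ?_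
      filter_upwards [hT h] with x hx
      rw [hx]
      simp [mul_comm]
    rw [← h3, h2, h1]
    rfl
  -- the measurable extension by zero
  set g1 : E3 → ℝ := Bl.indicator (fun x => g0 x) with hg1
  have hg0m : StronglyMeasurable (g0 : E3 → ℝ) := Lp.stronglyMeasurable g0
  have hg1m : Measurable g1 := hg0m.measurable.indicator Z1_Bl_meas
  have hg1i : Integrable g1 := by
    rw [hg1, integrable_indicator_iff Z1_Bl_meas]
    have h1 : MemLp (g0 : E3 → ℝ) 2 μ := Lp.memLp g0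
    exact h1.integrable (by norm_num)
  have hrep1 : ∀ h ∈ CB, Λ h = ∫ x, g1 x * h x := by
    intro h hh
    rw [hrep ⟨h, hh⟩, ← Z1_setInt hh]
    refine setIntegral_congr_fun Z1_Bl_meas fun x hx => ?_
    simp only [hg1, indicator_of_mem hx]
  have hae : ∀ᵐ x ∂(volume : Measure E3), |g1 x| ≤ 1 := by
    filter_upwards [moll_ae hg1i.locallyIntegrable] with x hx
    by_cases hxB : x ∈ Bl
    · have hxn : ‖x‖ < 1 := by
        unfold Bl at hxB
        rwa [Metric.mem_ball, dist_zero_right] at hxB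
      have h1 : Tendsto (fun ε : ℝ => |∫ y, g1 y * hk ε x y|) (𝓝[>] 0) (𝓝 |g1 x|) := hx.abs
      refine le_of_tendsto h1 ?_
      have h2 : ∀ᶠ ε : ℝ in 𝓝[>] 0, ε < 1 - ‖x‖ :=
        eventually_nhdsWithin_of_eventually_nhds (eventually_lt_nhds (by linarith))
      filter_upwards [h2, self_mem_nhdsWithin] with ε hε1 hε0
      have hε00 : (0 : ℝ) < ε := hε0
      have hmem := hk_mem_CB hε00 (x := x) (by linarith)
      rw [← hrep1 _ hmem]
      refine (hb _ hmem).trans (le_of_eq ?_)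
      rw [← M1_integral hε00 x]
      refine integral_congr_ae (Eventually.of_forall fun y => ?_)
      exact abs_of_nonneg (M1_nonneg hε00 x y)
    · rw [hg1, indicator_of_notMem hxB, abs_zero]
      exact zero_le_one
  refine ⟨fun x => max (-1) (min 1 (g1 x)), measurable_const.max (measurable_const.min hg1m),
    fun x => ?_, fun h hh => ?_⟩
  · rw [abs_le]
    exact ⟨le_max_left _ _, max_le (by norm_num) (min_le_left _ _)⟩
  · rw [hrep1 h hh]
    refine integral_congr_ae ?_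
    filter_upwards [hae] with x hx
    rw [abs_le] at hx
    rw [min_eq_right hx.2, max_eq_right hx.1]

/-- the radii -/
noncomputable def Z1_e (n : ℕ) : ℝ := 1 / ((n : ℝ) + 4)

theorem Z1_e_pos (n : ℕ) : 0 < Z1_e n := by unfold Z1_e; positivity

theorem Z1_e_le (n : ℕ) : Z1_e n ≤ 1 / 4 := by
  unfold Z1_e
  exact one_div_le_one_div_of_le (by norm_num) (by linarith [Nat.cast_nonneg (α := ℝ) n])

theorem Z1_e_lim : Tendsto Z1_e atTop (𝓝[>] 0) := by
  refine tendsto_nhdsWithin_iff.2 ⟨?_, Eventually.of_forall fun n => Z1_e_pos n⟩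
  unfold Z1_e
  have h1 : Tendsto (fun n : ℕ => (n : ℝ) + 4) atTop atTop :=
    tendsto_atTop_add_const_right _ _ tendsto_natCast_atTop_atTop
  exact (tendsto_const_nhds (x := (1 : ℝ))).div_atTop h1

/-- the retraction onto the ball of radius `1 - 2 e` -/
noncomputable def Z1_pi (n : ℕ) (x : E3) : E3 :=
  ((1 - 2 * Z1_e n) / max (1 - 2 * Z1_e n) ‖x‖) • x

theorem Z1_pi_cont (n : ℕ) : Continuous (Z1_pi n) := by
  unfold Z1_pi
  have h1 := Z1_e_le n
  refine Continuous.smul (continuous_const.div (continuous_const.max continuous_norm) ?_)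
    continuous_id
  intro x
  have : 0 < max (1 - 2 * Z1_e n) ‖x‖ := lt_of_lt_of_le (by linarith) (le_max_left _ _)
  exact this.ne'

theorem Z1_pi_le (n : ℕ) (x : E3) : ‖Z1_pi n x‖ + Z1_e n < 1 := by
  have h1 := Z1_e_le n
  have h2 := Z1_e_pos n
  have hr : 0 < 1 - 2 * Z1_e n := by linarith
  have hm : 0 < max (1 - 2 * Z1_e n) ‖x‖ := lt_of_lt_of_le hr (le_max_left _ _)
  have h3 : ‖Z1_pi n x‖ ≤ 1 - 2 * Z1_e n := by
    unfold Z1_pi
    rw [norm_smul, Real.norm_of_nonneg (by positivity), div_mul_eq_mul_div, div_le_iff₀ hm]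
    exact mul_le_mul_of_nonneg_left (le_max_right _ _) hr.le
  linarith

theorem Z1_pi_eq {n : ℕ} {x : E3} (h : ‖x‖ ≤ 1 - 2 * Z1_e n) : Z1_pi n x = x := by
  unfold Z1_pi
  have h1 := Z1_e_le n
  rw [max_eq_left h, div_self (by linarith : (1 - 2 * Z1_e n) ≠ 0), one_smul]

theorem Z1_near {x : E3} (hx : x ∈ Bl) :
    ∀ᶠ n : ℕ in atTop, ‖x‖ ≤ 1 - 2 * Z1_e n := by
  have hxn : ‖x‖ < 1 := by
    unfold Bl at hx
    rwa [Metric.mem_ball, dist_zero_right] at hx
  have h1 : Tendsto Z1_e atTop (𝓝 0) := tendsto_nhds_of_tendsto_nhdsWithin Z1_e_lim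
  have h2 : ∀ᶠ n : ℕ in atTop, Z1_e n < (1 - ‖x‖) / 2 := h1.eventually_lt_const (by linarith)
  filter_upwards [h2] with n hn
  linarith

theorem Z1_hk_mem (n : ℕ) (x : E3) : hk (Z1_e n) (Z1_pi n x) ∈ CB :=
  hk_mem_CB (Z1_e_pos n) (Z1_pi_le n x)

/-- continuity of the mollified functional in the centre -/
theorem Z1_cont (L : (E3 → ℝ) → ℝ)
    (hl : ∀ h ∈ CB, ∀ h' ∈ CB, ∀ a : ℝ, L (fun x => h x + a * h' x) = L h + a * L h')
    (hb : ∀ h ∈ CB, |L h| ≤ ∫ x, |h x|) (n : ℕ) :
    Continuous (fun x => L (hk (Z1_e n) (Z1_pi n x))) := by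
  have hrho : Continuous (rho (Z1_e n)) := (rho_contDiff (Z1_e n)).continuous
  rw [continuous_iff_continuousAt]
  intro x0
  unfold ContinuousAt
  rw [tendsto_iff_norm_sub_tendsto_zero]
  have hF : Continuous (fun x : E3 => ∫ y in Metric.closedBall (0 : E3) 1,
      |hk (Z1_e n) (Z1_pi n x) y + (-1) * hk (Z1_e n) (Z1_pi n x0) y|) := by
    refine continuous_parametric_integral_of_continuous ?_ (isCompact_closedBall _ _)
    unfold hk
    refine Continuous.abs (Continuous.add ?_ (continuous_const.mul ?_))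
    · exact hrho.comp (((Z1_pi_cont n).comp continuous_fst).sub continuous_snd)
    · exact hrho.comp (continuous_const.sub continuous_snd)
  have h0 : (∫ y in Metric.closedBall (0 : E3) 1,
      |hk (Z1_e n) (Z1_pi n x0) y + (-1) * hk (Z1_e n) (Z1_pi n x0) y|) = 0 := by
    have : ∀ y : E3, |hk (Z1_e n) (Z1_pi n x0) y + (-1) * hk (Z1_e n) (Z1_pi n x0) y| = 0 := by
      intro y
      rw [show hk (Z1_e n) (Z1_pi n x0) y + (-1) * hk (Z1_e n) (Z1_pi n x0) y = 0 by ring,
        abs_zero]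
    simp only [this, integral_zero]
  have hF0 : Tendsto (fun x : E3 => ∫ y in Metric.closedBall (0 : E3) 1,
      |hk (Z1_e n) (Z1_pi n x) y + (-1) * hk (Z1_e n) (Z1_pi n x0) y|) (𝓝 x0) (𝓝 0) := by
    have := hF.tendsto x0
    rw [h0] at this
    exact this
  refine squeeze_zero (fun _ => norm_nonneg _) (fun x => ?_) hF0
  have hx := Z1_hk_mem n x
  have hx0 := Z1_hk_mem n x0
  have e1 : L (hk (Z1_e n) (Z1_pi n x)) - L (hk (Z1_e n) (Z1_pi n x0)) =
      L (fun y => hk (Z1_e n) (Z1_pi n x) y + (-1) * hk (Z1_e n) (Z1_pi n x0) y) := by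
    rw [hl _ hx _ hx0 (-1)]
    ring
  have hm := Z1_add_mem hx hx0 (-1)
  rw [Real.norm_eq_abs, e1]
  refine (hb _ hm).trans (le_of_eq ?_)
  symm
  refine setIntegral_eq_integral_of_forall_compl_eq_zero fun y hy => ?_
  have hy1 : y ∉ Bl := fun h1 => hy (Metric.ball_subset_closedBall h1)
  have := Z1_off hm hy1
  rw [this, abs_zero]

/-- The same for a measurable family.
PROOF: `G n ω x = Λ (hk (1/(n+1)) x) ω` for `‖x‖ + 1/(n+1) < 1`, else `0`, is jointly measurable:
measurable in `ω`, and continuous in `x` where not zero, for every good `ω` (`|Λ h - Λ h'| ≤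
∫ |h - h'|`; for bad `ω`, a measurable null set WLOG: replace `Λ` by zero there). By `riesz_CB` and
`moll_ae`, for good `ω` the limit exists for almost all `x` and is `g ω x`;
`G ω x = max (-1) (min 1 (limsup (G n ω x)))`. -/
theorem exists_density {Ω : Type} [MeasurableSpace Ω] (P : Measure Ω) [IsProbabilityMeasure P]
    (Λ : (E3 → ℝ) → Ω → ℝ) (hm : ∀ h ∈ CB, Measurable (Λ h))
    (hl : ∀ h ∈ CB, ∀ h' ∈ CB, ∀ a : ℝ, ∀ ω, Λ (fun x => h x + a * h' x) ω = Λ h ω + a * Λ h' ω)
    (hb : ∀ᵐ ω ∂P, ∀ h ∈ CB, |Λ h ω| ≤ ∫ x, |h x|) :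
    ∃ G : Ω → E3 → ℝ, Measurable (Function.uncurry G) ∧ (∀ ω x, |G ω x| ≤ 1) ∧
      ∀ᵐ ω ∂P, ∀ h ∈ CB, Λ h ω = ∫ x, G ω x * h x := by
  classical
  obtain ⟨N, hNsub, hNm, hN0⟩ := exists_measurable_superset_of_null (μ := P)
    (s := {ω | ¬ ∀ h ∈ CB, |Λ h ω| ≤ ∫ x, |h x|}) hb
  set L : (E3 → ℝ) → Ω → ℝ := fun h ω => if ω ∈ N then 0 else Λ h ω with hL
  have hLm : ∀ h ∈ CB, Measurable (L h) := fun h hh =>
    Measurable.ite hNm measurable_const (hm h hh)
  have hLl : ∀ ω, ∀ h ∈ CB, ∀ h' ∈ CB, ∀ a : ℝ,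
      L (fun x => h x + a * h' x) ω = L h ω + a * L h' ω := by
    intro ω h hh h' hh' a
    by_cases hω : ω ∈ N
    · simp only [hL, if_pos hω, mul_zero, add_zero]
    · simp only [hL, if_neg hω]
      exact hl h hh h' hh' a ω
  have hLb : ∀ ω, ∀ h ∈ CB, |L h ω| ≤ ∫ x, |h x| := by
    intro ω h hh
    by_cases hω : ω ∈ N
    · simp only [hL, if_pos hω, abs_zero]
      exact integral_nonneg fun x => abs_nonneg _
    · simp only [hL, if_neg hω]
      by_contra hc
      exact hω (hNsub fun h1 => hc (h1 h hh))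
  set Gn : ℕ → Ω × E3 → ℝ := fun n p => L (hk (Z1_e n) (Z1_pi n p.2)) p.1 with hGn
  have hGnm : ∀ n, Measurable (Gn n) := by
    intro n
    have h1 : Measurable (Function.uncurry
        (fun (x : E3) (ω : Ω) => L (hk (Z1_e n) (Z1_pi n x)) ω)) :=
      measurable_uncurry_of_continuous_of_measurable
        (fun ω => Z1_cont (fun h => L h ω) (hLl ω) (hLb ω) n)
        (fun x => hLm _ (Z1_hk_mem n x))
    exact h1.comp measurable_swap
  set Gl : Ω × E3 → ℝ := fun p => limsup (fun n => Gn n p) atTop with hGl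
  have hGlm : Measurable Gl := Measurable.limsup hGnm
  have key : ∀ ω, ∀ h ∈ CB, L h ω = ∫ x, max (-1) (min 1 (Gl (ω, x))) * h x := by
    intro ω h hh
    obtain ⟨g, hgm, hg1, hgr⟩ := riesz_CB (fun h => L h ω) (hLl ω) (hLb ω)
    set g1 : E3 → ℝ := Bl.indicator g with hg1d
    have hgi : Integrable g1 := by
      rw [hg1d, integrable_indicator_iff Z1_Bl_meas]
      refine Measure.integrableOn_of_bounded (M := 1) Z1_Bl_fin.ne hgm.aestronglyMeasurable ?_
      exact Eventually.of_forall fun x => hg1 x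
    have hgr1 : ∀ h ∈ CB, L h ω = ∫ x, g1 x * h x := by
      intro h hh
      rw [hgr h hh]
      refine integral_congr_ae (Eventually.of_forall fun x => ?_)
      by_cases hx : x ∈ Bl
      · simp only [hg1d, indicator_of_mem hx]
      · simp only [Z1_off hh hx, mul_zero]
    rw [hgr h hh]
    refine integral_congr_ae ?_
    filter_upwards [moll_ae hgi.locallyIntegrable] with x hx
    by_cases hxB : x ∈ Bl
    · have h1 : Tendsto (fun n : ℕ => ∫ y, g1 y * hk (Z1_e n) x y) atTop (𝓝 (g1 x)) :=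
        hx.comp Z1_e_lim
      have h2 : Tendsto (fun n : ℕ => Gn n (ω, x)) atTop (𝓝 (g1 x)) := by
        refine h1.congr' ?_
        filter_upwards [Z1_near hxB] with n hn
        have h3 := Z1_hk_mem n x
        rw [Z1_pi_eq hn] at h3
        simp only [hGn]
        rw [Z1_pi_eq hn, hgr1 _ h3]
      have h4 : Gl (ω, x) = g1 x := h2.limsup_eq
      have h5 : g1 x = g x := by rw [hg1d, indicator_of_mem hxB]
      have h6 := abs_le.1 (hg1 x)
      rw [h4, h5, min_eq_right h6.2, max_eq_right h6.1]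
    · rw [Z1_off hh hxB, mul_zero, mul_zero]
  refine ⟨fun ω x => max (-1) (min 1 (Gl (ω, x))), ?_, fun ω x => ?_, ?_⟩
  · exact measurable_const.max (measurable_const.min hGlm)
  · rw [abs_le]
    exact ⟨le_max_left _ _, max_le (by norm_num) (min_le_left _ _)⟩
  · have h1 : ∀ᵐ ω ∂P, ω ∉ N := measure_eq_zero_iff_ae_notMem.1 hN0
    filter_upwards [h1] with ω hω h hh
    rw [← key ω h hh]
    simp only [hL, if_neg hω]

end Pool.Agent.W_332fe5
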