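import Pool.Agent.W_332fe5_h65.Z0
import Pool.Agent.W_332fe5_h65.Z1
import Pool.Agent.W_332fe5_h65.G0
import Pool.Agent.W_332fe5_h65.P0

set_option autoImplicit false

/-! Block 5, Z3: the stopped swirl has a density with values in `[-1, 1]`. -/

open MeasureTheory ProbabilityTheory Set Filter Topology
open scoped ENNReal NNReal

namespace Pool.Agent.W_332fe5

theorem Z3_int {φ : E3 → ℝ} (hφ : φ ∈ CB) : Integrable φ (volume : Measure E3) :=
  hφ.1.continuous.integrable_of_hasCompactSupport hφ.2.1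

theorem Z3_int_abs {φ : E3 → ℝ} (hφ : φ ∈ CB) : Integrable (fun x => |φ x|) (volume : Measure E3) :=
  (Z3_int hφ).abs

theorem Z3_le {φ : E3 → ℝ} (hφ : φ ∈ CB) {g : E3 → ℝ} (hg : ∀ᵐ x ∂(volume : Measure E3), |g x| ≤ 1) :
    |∫ x, g x * φ x| ≤ ∫ x, |φ x| := by
  rw [← Real.norm_eq_abs]
  refine (norm_integral_le_integral_norm _).trans ?_
  refine integral_mono_of_nonneg (Eventually.of_forall fun _ => norm_nonneg _) (Z3_int_abs hφ) ?_
  filter_upwards [hg] with x hx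
  rw [Real.norm_eq_abs, abs_mul]
  calc |g x| * |φ x| ≤ 1 * |φ x| := mul_le_mul_of_nonneg_right hx (abs_nonneg _)
    _ = |φ x| := one_mul _

theorem Z3_supp_out {φ : E3 → ℝ} (hφ : φ ∈ CB) {x : E3} (hx : x ∉ Bl) : φ x = 0 :=
  image_eq_zero_of_notMem_tsupport fun h => hx (hφ.2.2 h)

theorem Z3_CB_lin {h h' : E3 → ℝ} (hh : h ∈ CB) (hh' : h' ∈ CB) (a : ℝ) :
    (fun x => h x + a * h' x) ∈ CB := by
  have hsub : tsupport (fun x => h x + a * h' x) ⊆ tsupport h ∪ tsupport h' := by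
    refine closure_minimal ?_ ((isClosed_tsupport h).union (isClosed_tsupport h'))
    intro x hx
    by_contra hc
    rw [mem_union, not_or] at hc
    apply hx
    show h x + a * h' x = 0
    rw [image_eq_zero_of_notMem_tsupport hc.1, image_eq_zero_of_notMem_tsupport hc.2]
    ring
  refine ⟨hh.1.add (contDiff_const.mul hh'.1), ?_, ?_⟩
  · exact (hh.2.1.isCompact.union hh'.2.1.isCompact).of_isClosed_subset (isClosed_tsupport _) hsub
  · exact hsub.trans (union_subset hh.2.2 hh'.2.2)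

theorem Z3_swap {zt p κ δ q : ℝ} (C : Core zt p κ δ q) {pr : ℝ × C.Ω → Prop}
    (h : ∀ᵐ z ∂((volume.restrict (Ioo (0 : ℝ) 1)).prod C.P), pr z) :
    ∀ᵐ ω ∂C.P, ∀ᵐ t ∂(volume.restrict (Ioo (0 : ℝ) 1)), pr (t, ω) := by
  have h1 : ∀ᵐ z ∂(C.P.prod (volume.restrict (Ioo (0 : ℝ) 1))), pr z.swap :=
    (Measure.measurePreserving_swap (μ := C.P)
      (ν := volume.restrict (Ioo (0 : ℝ) 1))).quasiMeasurePreserving.ae h
  exact Measure.ae_ae_of_ae_prod h1

/-- a bound for almost all times in `(0, S)` holds for all times in `[0, S]` -/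
theorem Z3_cont {f : ℝ → ℝ} (hf : Continuous f) {S I : ℝ} (hS : 0 < S)
    (h : ∀ᵐ t ∂(volume.restrict (Ioo (0 : ℝ) S)), f t ≤ I) {t : ℝ} (ht : t ∈ Icc 0 S) :
    f t ≤ I := by
  have h1 : (fun t => max (f t - I) 0) =ᵐ[volume.restrict (Icc (0 : ℝ) S)] fun _ => (0 : ℝ) := by
    rw [← restrict_Ioo_eq_restrict_Icc]
    filter_upwards [h] with t ht
    exact max_eq_right (by linarith)
  have h2 := Measure.eqOn_Icc_of_ae_eq (μ := volume) hS.ne h1
    ((hf.sub continuous_const).max continuous_const).continuousOn continuousOn_const ht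
  have h3 : max (f t - I) 0 = 0 := h2
  have h4 := le_max_left (f t - I) 0
  linarith

/-- PROOF: for almost all `ω` the bound holds for almost all `s < S ω` (`X_eq`), so for all
`s ≤ S ω`, `s ≤ 1` by continuity (`X_cont`) if `S ω > 0`; for `S ω ≤ t` use `X_stop`; for `S ω = 0` or
`t = 0` use `X_init` and `Gam0_le_one`. -/
theorem X_L1_one {zt p κ δ q : ℝ} (C : Core zt p κ δ q)
    (hb : ∀ᵐ z ∂((volume.restrict (Ioo (0 : ℝ) 1)).prod C.P), ∀ᵐ x ∂(volume : Measure E3),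
      |Gam δ (C.w z.1 z.2) x| ≤ 1) {φ : E3 → ℝ} (hφ : φ ∈ CB) :
    ∀ᵐ ω ∂C.P, ∀ t ∈ Icc (0 : ℝ) 1, |C.X φ t ω| ≤ ∫ x, |φ x| := by
  have h1 : ∀ᵐ z ∂((volume.restrict (Ioo (0 : ℝ) 1)).prod C.P), z.1 < C.S z.2 →
      |C.X φ z.1 z.2| ≤ ∫ x, |φ x| := by
    filter_upwards [hb, C.X_eq φ hφ] with z hz1 hz2 hz3
    rw [hz2 hz3]
    exact Z3_le hφ hz1
  filter_upwards [Z3_swap C h1] with ω hω
  intro t ht
  have hS0 := C.S_nonneg ω
  have hS1 := C.S_le ω
  have hmain : ∀ s ∈ Icc 0 (C.S ω), |C.X φ s ω| ≤ ∫ x, |φ x| := by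
    rcases eq_or_lt_of_le hS0 with h0 | h0
    · intro s hs
      have hs0 : s = 0 := by
        rw [← h0] at hs
        exact le_antisymm hs.2 hs.1
      rw [hs0, C.X_init φ hφ ω]
      refine Z3_le hφ (Eventually.of_forall fun x => ?_)
      rw [abs_of_nonneg (Gam0_nonneg x)]
      exact Gam0_le_one x
    · intro s hs
      refine Z3_cont (f := fun s => |C.X φ s ω|) (C.X_cont φ hφ ω).abs h0 ?_ hs
      have h2 := ae_restrict_of_ae_restrict_of_subset (Ioo_subset_Ioo_right hS1) hω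
      filter_upwards [h2, ae_restrict_mem measurableSet_Ioo] with r hr hrm
      exact hr hrm.2
  by_cases h : t ≤ C.S ω
  · exact hmain t ⟨ht.1, h⟩
  · rw [C.X_stop φ hφ t ω (not_le.1 h).le]
    exact hmain _ ⟨hS0, le_rfl⟩

/-- PROOF: `CB_separable`, `X_L1_one` for all `D n`, `X_lin`, `X_bdd`; `h - D n` vanishes outside
the ball. -/
theorem X_L1 {zt p κ δ q : ℝ} (C : Core zt p κ δ q)
    (hb : ∀ᵐ z ∂((volume.restrict (Ioo (0 : ℝ) 1)).prod C.P), ∀ᵐ x ∂(volume : Measure E3),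
      |Gam δ (C.w z.1 z.2) x| ≤ 1) :
    ∀ᵐ ω ∂C.P, ∀ t ∈ Icc (0 : ℝ) 1, ∀ φ ∈ CB, |C.X φ t ω| ≤ ∫ x, |φ x| := by
  obtain ⟨D, hD, hsep⟩ := CB_separable
  have h1 : ∀ᵐ ω ∂C.P, ∀ n, ∀ t ∈ Icc (0 : ℝ) 1, |C.X (D n) t ω| ≤ ∫ x, |D n x| :=
    ae_all_iff.2 fun n => X_L1_one C hb (hD n)
  filter_upwards [h1] with ω hω
  intro t ht φ hφ
  obtain ⟨N, hN⟩ := C.X_bdd ω
  have hV : (volume Bl) ≠ ⊤ := by
    unfold Bl
    exact measure_ball_lt_top.ne
  set V : ℝ := (volume Bl).toReal with hVdef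
  have hV0 : 0 ≤ V := ENNReal.toReal_nonneg
  have key : ∀ η : ℝ, 0 < η → |C.X φ t ω| ≤ (∫ x, |φ x|) + η * (V + |N|) := by
    intro η hη
    obtain ⟨n, hn1, hn2⟩ := hsep φ hφ η hη
    have hdm : (fun x => φ x - D n x) ∈ CB := by
      have h2 := Z3_CB_lin hφ (hD n) (-1)
      have h3 : (fun x => φ x + -1 * D n x) = fun x => φ x - D n x := by
        funext x
        ring
      rwa [h3] at h2
    have h2 := C.X_lin (D n) (hD n) _ hdm 1 t ω
    have h3 : (fun x => D n x + 1 * (φ x - D n x)) = φ := by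
      funext x
      ring
    rw [h3, one_mul] at h2
    have h4 : |C.X (fun x => φ x - D n x) t ω| ≤ |N| * η := by
      refine (hN _ hdm t).trans ?_
      have h5 : 0 ≤ c4 (fun x => φ x - D n x) := by
        unfold c4
        exact Finset.sum_nonneg fun k _ => Real.iSup_nonneg fun _ => norm_nonneg _
      calc N * c4 (fun x => φ x - D n x) ≤ |N| * c4 (fun x => φ x - D n x) :=
            mul_le_mul_of_nonneg_right (le_abs_self N) h5
        _ ≤ |N| * η := mul_le_mul_of_nonneg_left hn1.le (abs_nonneg _)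
    have h6 : ∫ x, |D n x| ≤ (∫ x, |φ x|) + η * V := by
      have hind : Integrable (fun x => Bl.indicator (fun _ => η) x) (volume : Measure E3) := by
        refine (integrable_indicator_iff ?_).2 ?_
        · exact Metric.isOpen_ball.measurableSet
        · exact integrableOn_const hV
      have h7 : ∫ x, Bl.indicator (fun _ => η) x = η * V := by
        have hBm : MeasurableSet Bl := Metric.isOpen_ball.measurableSet
        rw [integral_indicator hBm, setIntegral_const, smul_eq_mul, mul_comm]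
        rfl
      rw [← h7, ← integral_add (Z3_int_abs hφ) hind]
      refine integral_mono (Z3_int_abs (hD n)) ((Z3_int_abs hφ).add hind) fun x => ?_
      show |D n x| ≤ |φ x| + Bl.indicator (fun _ => η) x
      by_cases hx : x ∈ Bl
      · rw [indicator_of_mem hx]
        have h8 := hn2 x
        have h9 := abs_sub_abs_le_abs_sub (D n x) (φ x)
        rw [abs_sub_comm] at h9
        linarith
      · rw [indicator_of_notMem hx, Z3_supp_out (hD n) hx, abs_zero]
        positivity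
    rw [h2]
    calc |C.X (D n) t ω + C.X (fun x => φ x - D n x) t ω| ≤
        |C.X (D n) t ω| + |C.X (fun x => φ x - D n x) t ω| := abs_add_le _ _
      _ ≤ ((∫ x, |φ x|) + η * V) + |N| * η := add_le_add ((hω n t ht).trans h6) h4
      _ = _ := by ring
  refine le_of_forall_pos_le_add fun ε hε => ?_
  have hpos : 0 < V + |N| + 1 := by
    have := abs_nonneg N
    linarith
  refine (key (ε / (V + |N| + 1)) (by positivity)).trans ?_
  have h2 : ε / (V + |N| + 1) * (V + |N|) ≤ ε := by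
    rw [div_mul_eq_mul_div, div_le_iff₀ hpos]
    nlinarith
  linarith

theorem exists_dens {zt p κ δ q : ℝ} (C : Core zt p κ δ q)
    (hb : ∀ᵐ z ∂((volume.restrict (Ioo (0 : ℝ) 1)).prod C.P), ∀ᵐ x ∂(volume : Measure E3),
      |Gam δ (C.w z.1 z.2) x| ≤ 1) {t : ℝ} (ht : t ∈ Icc (0 : ℝ) 1) :
    ∃ G : C.Ω → E3 → ℝ, Measurable (Function.uncurry G) ∧ (∀ ω x, |G ω x| ≤ 1) ∧
      ∀ᵐ ω ∂C.P, ∀ φ ∈ CB, C.X φ t ω = ∫ x, G ω x * φ x := by
  refine exists_density C.P (fun φ ω => C.X φ t ω) (fun h hh => C.X_meas h hh t)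
    (fun h hh h' hh' a ω => C.X_lin h hh h' hh' a t ω) ?_
  filter_upwards [X_L1 C hb] with ω hω h hh
  exact hω t ht h hh

end Pool.Agent.W_332fe5
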