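import Pool.Agent.W_332fe5_h65.E3
import Pool.Agent.W_332fe5_h65.E4
import Pool.Agent.W_332fe5_h65.HH
import Pool.Agent.W_332fe5_h65.Z3

set_option autoImplicit false

/-! Block 5, E6: (5.6) with the density at the time `T`. -/

open MeasureTheory ProbabilityTheory Set Filter Topology
open scoped ENNReal NNReal

namespace Pool.Agent.W_332fe5

private theorem E6_aux_J {r : ℝ} (hr : |r| ≤ 1) : J6 r ≤ 1 := by
  have h1 := J6_le r
  have h2 : r ^ 4 ≤ 1 := by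
    have h3 : r ^ 4 = |r| ^ 4 := by
      rw [← abs_pow]
      exact (abs_of_nonneg (by positivity)).symm
    rw [h3]
    exact pow_le_one₀ (abs_nonneg _) hr
  linarith

private theorem E6_aux_init {c1 : ℝ} (hc1 : 0 ≤ c1)
    (hl : ∀ s : ℝ, 0 < s →
      ∫⁻ x in Bl, ENNReal.ofReal (yy x ^ (1 / 4 : ℝ) * Real.exp (-yy x / s)) ≤
        ENNReal.ofReal (c1 * s ^ ((1 / 4 : ℝ) + 1))) {T s : ℝ} (hT : 0 < T)
    (hs : s = Real.sqrt T) :
    ∫⁻ x in Bl, ENNReal.ofReal (J6 (Gam0 x) * Real.exp (-yy x / (2 * s))) ≤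
      ENNReal.ofReal (c1 * 2 ^ (5 / 4 : ℝ) * T ^ (5 / 8 : ℝ)) := by
  have hs0 : 0 < s := hs ▸ Real.sqrt_pos.2 hT
  have h1 : ∀ x ∈ Bl, ENNReal.ofReal (J6 (Gam0 x) * Real.exp (-yy x / (2 * s))) ≤
      ENNReal.ofReal (yy x ^ (1 / 4 : ℝ) * Real.exp (-yy x / (2 * s))) := by
    intro x hx
    apply ENNReal.ofReal_le_ofReal
    have hy := yy_pos hx
    have h2 : (Gam0 x) ^ 4 ≤ ((2 * yy x) ^ (1 / 16 : ℝ)) ^ 4 :=
      pow_le_pow_left₀ (Gam0_nonneg x) (Gam0_le x hx) 4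
    have h3 : ((2 * yy x) ^ (1 / 16 : ℝ)) ^ 4 = (2 : ℝ) ^ (1 / 4 : ℝ) * yy x ^ (1 / 4 : ℝ) := by
      rw [← Real.rpow_natCast, ← Real.rpow_mul (by positivity), Real.mul_rpow (by norm_num) hy.le]
      norm_num
    have h4 : (2 : ℝ) ^ (1 / 4 : ℝ) ≤ 2 := by
      have := Real.rpow_le_rpow_of_exponent_le (x := 2) (by norm_num)
        (by norm_num : (1 / 4 : ℝ) ≤ 1)
      rwa [Real.rpow_one] at this
    have h5 : 0 ≤ yy x ^ (1 / 4 : ℝ) := Real.rpow_nonneg hy.le _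
    have h6 : J6 (Gam0 x) ≤ yy x ^ (1 / 4 : ℝ) := by
      have h7 := J6_le (Gam0 x)
      rw [h3] at h2
      nlinarith
    gcongr
  refine (setLIntegral_mono' measurableSet_ball h1).trans ?_
  refine (hl (2 * s) (by positivity)).trans (le_of_eq ?_)
  congr 1
  have h8 : s ^ (5 / 4 : ℝ) = T ^ (5 / 8 : ℝ) := by
    rw [hs, Real.sqrt_eq_rpow, ← Real.rpow_mul hT.le]
    norm_num
  have h9 : ((1 / 4 : ℝ) + 1) = 5 / 4 := by norm_num
  rw [h9, Real.mul_rpow (by norm_num) hs0.le, h8, mul_assoc]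

private theorem E6_aux_drift {c2 C2 : ℝ} (hc2 : 0 ≤ c2) (hC2 : 0 ≤ C2)
    (hl : ∀ s : ℝ, 0 < s →
      ∫⁻ x in Bl, ENNReal.ofReal (yy x ^ (3 / 2 : ℝ) * Real.exp (-yy x / s)) ≤
        ENNReal.ofReal (c2 * s ^ ((3 / 2 : ℝ) + 1))) {T s : ℝ} (hT : 0 < T)
    (hs : s = Real.sqrt T)
    (hder : ∀ y, deriv (fun y => Real.exp (-y / (2 * s))) y =
      -(1 / (2 * s)) * Real.exp (-y / (2 * s))) :
    (ENNReal.ofReal (C2 * T) * ∫⁻ x in Bl, ENNReal.ofReal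
      (deriv (fun y => Real.exp (-y / (2 * s))) (yy x) ^ 2 * yy x ^ (3 / 2 : ℝ))) ^ (1 / 2 : ℝ) ≤
      ENNReal.ofReal ((C2 * c2 / 4) ^ (1 / 2 : ℝ) * T ^ (5 / 8 : ℝ)) := by
  have hs0 : 0 < s := hs ▸ Real.sqrt_pos.2 hT
  have hsT : s ^ 2 = T := by rw [hs, Real.sq_sqrt hT.le]
  have h1 : ∀ x, ENNReal.ofReal
      (deriv (fun y => Real.exp (-y / (2 * s))) (yy x) ^ 2 * yy x ^ (3 / 2 : ℝ)) =
      ENNReal.ofReal (1 / (4 * T)) *
        ENNReal.ofReal (yy x ^ (3 / 2 : ℝ) * Real.exp (-yy x / s)) := by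
    intro x
    rw [← ENNReal.ofReal_mul (by positivity), hder]
    congr 1
    have h2 : Real.exp (-yy x / s) = Real.exp (-yy x / (2 * s)) * Real.exp (-yy x / (2 * s)) := by
      rw [← Real.exp_add]
      congr 1
      field_simp
      ring
    rw [h2, ← hsT]
    field_simp
    ring
  have h3 : ∫⁻ x in Bl, ENNReal.ofReal
      (deriv (fun y => Real.exp (-y / (2 * s))) (yy x) ^ 2 * yy x ^ (3 / 2 : ℝ)) ≤
      ENNReal.ofReal (1 / (4 * T)) * ENNReal.ofReal (c2 * s ^ ((3 / 2 : ℝ) + 1)) := by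
    rw [lintegral_congr h1, lintegral_const_mul' _ _ ENNReal.ofReal_ne_top]
    gcongr
    exact hl s hs0
  have h4 : s ^ ((3 / 2 : ℝ) + 1) = T ^ (5 / 4 : ℝ) := by
    rw [hs, Real.sqrt_eq_rpow, ← Real.rpow_mul hT.le]
    norm_num
  rw [h4] at h3
  have h5 : ENNReal.ofReal (C2 * T) * ∫⁻ x in Bl, ENNReal.ofReal
      (deriv (fun y => Real.exp (-y / (2 * s))) (yy x) ^ 2 * yy x ^ (3 / 2 : ℝ)) ≤
      ENNReal.ofReal (C2 * c2 / 4 * T ^ (5 / 4 : ℝ)) := by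
    refine (mul_le_mul' le_rfl h3).trans (le_of_eq ?_)
    rw [← ENNReal.ofReal_mul (by positivity), ← ENNReal.ofReal_mul (by positivity)]
    congr 1
    field_simp
  refine (ENNReal.rpow_le_rpow h5 (by norm_num)).trans (le_of_eq ?_)
  rw [ENNReal.ofReal_rpow_of_nonneg (by positivity) (by norm_num)]
  congr 1
  rw [Real.mul_rpow (by positivity) (by positivity), ← Real.rpow_mul hT.le]
  norm_num

/-- (5.6) before the choice of the density.
PROOF: `s = √T ≤ 1/10`, `H = e^(-y/(2s))`, `j = J6`, `HG6` (`Gp = H/(2T)`, `Gm = 0`), `stage3`: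
with `a = ∫ J6(Γ₀) H + drift` and `I = ∫⁻_(mz C T) ∫⁻_B J6(Γ) H`: for almost all `t ≤ T` (`adm_ae`)
`E ∫ J6(Γ_t) H ≤ a + I / (2T)`, so `I ≤ T a + I / 2`, `I ≤ 2 T a` (`I ≤ T |B|` is finite), so for `G`
at the time `T`: `≤ a + I/(2T) ≤ 2a`.
`J6(Γ₀) ≤ Γ₀⁴/4 ≤ (2y)^(1/4)` (`Gam0_le`), `∫ (2y)^(1/4) e^(-y/(2s)) ≤ c s^(5/4) = c T^(5/8)`, drift:
`(C2 T ∫ (4T)⁻¹ e^(-y/s) y^(3/2))^(1/2) ≤ c (T^(5/4))^(1/2) = c T^(5/8)`; `(1 + 4 mu)/2 = 5/8`. -/
theorem dens_bound {zt p κ δ q K : ℝ} {A : L2 →L[ℝ] L2} {ev : L2 → E3 → E3}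
    (h : Ctx zt p κ δ q A K ev) : ∃ K1 : ℝ, 0 ≤ K1 ∧ ∀ C : Core zt p κ δ q, ∀ T : ℝ, 0 < T →
      T ≤ 1 / 100 → ∀ G : C.Ω → E3 → ℝ, Adm C A ev J6 T G →
      ∫⁻ ω, (∫⁻ x in Bl, ENNReal.ofReal (J6 (G ω x) * Real.exp (-yy x / (2 * Real.sqrt T)))) ∂C.P ≤
        ENNReal.ofReal (K1 * T ^ (5 / 8 : ℝ)) := by
  have hb := need5Bdd h
  obtain ⟨C2, hC2, h3⟩ := stage3 h hb
  obtain ⟨c1, hc1, hl1⟩ := lint_exp (a := 1 / 4) (by norm_num)
  obtain ⟨c2, hc2, hl2⟩ := lint_exp (a := 3 / 2) (by norm_num)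
  refine ⟨2 * (c1 * 2 ^ (5 / 4 : ℝ) + (C2 * c2 / 4) ^ (1 / 2 : ℝ)), by positivity, ?_⟩
  intro C T hT hT1 G hG
  obtain ⟨s, hs⟩ : ∃ s, s = Real.sqrt T := ⟨_, rfl⟩
  have hs0 : 0 < s := hs ▸ Real.sqrt_pos.2 hT
  have hsT : s ^ 2 = T := by rw [hs, Real.sq_sqrt hT.le]
  have hs1 : s ≤ 1 / 10 := by
    rw [hs]
    apply Real.sqrt_le_iff.2
    constructor
    · norm_num
    · linarith
  have hT01 : T ≤ 1 := by linarith
  rw [← hs]
  obtain ⟨c, hHG, hGp, hder⟩ := HG6 hs0 hs1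
  obtain ⟨α, hα⟩ : ∃ α, α = c1 * 2 ^ (5 / 4 : ℝ) * T ^ (5 / 8 : ℝ) +
    (C2 * c2 / 4) ^ (1 / 2 : ℝ) * T ^ (5 / 8 : ℝ) := ⟨_, rfl⟩
  have hα0 : 0 ≤ α := by
    rw [hα]
    positivity
  obtain ⟨I, hI⟩ : ∃ I, I = ∫⁻ z, (∫⁻ x in Bl, ENNReal.ofReal (J6 (gam (uv C A ev z) x) *
    Real.exp (-yy x / (2 * s)))) ∂(mz C T) := ⟨_, rfl⟩
  have ha0 := E6_aux_init hc1 hl1 hT hs
  have hD := E6_aux_drift hc2 hC2 hl2 hT hs hder
  -- the inequality at the times `t ≤ T`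
  have key : ∀ t ∈ Icc (0 : ℝ) T, ∀ G' : C.Ω → E3 → ℝ, Adm C A ev J6 t G' →
      ∫⁻ ω, (∫⁻ x in Bl, ENNReal.ofReal (J6 (G' ω x) * Real.exp (-yy x / (2 * s)))) ∂C.P ≤
        ENNReal.ofReal α + ENNReal.ofReal (1 / (2 * T)) * I := by
    intro t ht G' hG'
    have h4 := h3 C t ⟨ht.1, ht.2.trans hT01⟩ J6 21 J6_ent (fun r hr => E6_aux_J hr)
      (fun y => Real.exp (-y / (2 * s))) (fun y => 1 / (2 * s ^ 2) * Real.exp (-y / (2 * s)))
      (fun _ => 0) c hHG (by fun_prop) measurable_const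
      (fun y hy hy2 => ⟨by positivity, le_rfl, hGp y hy hy2,
        mul_nonneg hHG.cpos (Real.rpow_nonneg hy.le _)⟩) G' hG'
    have h5 : ∫⁻ z, (∫⁻ x in Bl, ENNReal.ofReal (J6 (gam (uv C A ev z) x) *
        (1 / (2 * s ^ 2) * Real.exp (-yy x / (2 * s))))) ∂(mz C t) ≤
        ENNReal.ofReal (1 / (2 * T)) * I := by
      have h6 : ∀ z : ℝ × C.Ω, (∫⁻ x in Bl, ENNReal.ofReal (J6 (gam (uv C A ev z) x) *
          (1 / (2 * s ^ 2) * Real.exp (-yy x / (2 * s))))) = ENNReal.ofReal (1 / (2 * T)) *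
          ∫⁻ x in Bl, ENNReal.ofReal (J6 (gam (uv C A ev z) x) *
            Real.exp (-yy x / (2 * s))) := by
        intro z
        rw [← lintegral_const_mul' _ _ ENNReal.ofReal_ne_top]
        apply lintegral_congr
        intro x
        rw [← ENNReal.ofReal_mul (by positivity), hsT]
        congr 1
        ring
      rw [lintegral_congr h6, lintegral_const_mul' _ _ ENNReal.ofReal_ne_top, hI]
      gcongr
      exact mz_mono C ht.2
    have h7 : (ENNReal.ofReal (C2 * t) * ∫⁻ x in Bl, ENNReal.ofReal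
        (deriv (fun y => Real.exp (-y / (2 * s))) (yy x) ^ 2 * yy x ^ (3 / 2 : ℝ))) ^
          (1 / 2 : ℝ) ≤ (ENNReal.ofReal (C2 * T) * ∫⁻ x in Bl, ENNReal.ofReal
        (deriv (fun y => Real.exp (-y / (2 * s))) (yy x) ^ 2 * yy x ^ (3 / 2 : ℝ))) ^
          (1 / 2 : ℝ) := by
      apply ENNReal.rpow_le_rpow _ (by norm_num)
      gcongr
      exact ht.2
    calc ∫⁻ ω, (∫⁻ x in Bl, ENNReal.ofReal (J6 (G' ω x) * Real.exp (-yy x / (2 * s)))) ∂C.P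
        ≤ _ := le_self_add
      _ ≤ _ := h4
      _ ≤ ENNReal.ofReal (c1 * 2 ^ (5 / 4 : ℝ) * T ^ (5 / 8 : ℝ)) +
          ENNReal.ofReal (1 / (2 * T)) * I +
          ENNReal.ofReal ((C2 * c2 / 4) ^ (1 / 2 : ℝ) * T ^ (5 / 8 : ℝ)) :=
        add_le_add (add_le_add ha0 h5) (h7.trans hD)
      _ = ENNReal.ofReal α + ENNReal.ofReal (1 / (2 * T)) * I := by
        rw [hα, ENNReal.ofReal_add (by positivity) (by positivity)]
        abel
  -- `I` is finite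
  have hIfin : I < ⊤ := by
    have hae : ∀ᵐ z ∂(mz C T), ∀ᵐ x ∂(volume : Measure E3), |gam (uv C A ev z) x| ≤ 1 := by
      have h8 : ∀ᵐ z ∂(mz C 1), ∀ᵐ x ∂(volume : Measure E3), |gam (uv C A ev z) x| ≤ 1 := by
        rw [mz_eq]
        filter_upwards [hb C] with z hz
        filter_upwards [hz, Gam_uv h (C.w z.1 z.2)] with x hx hx2
        rw [hx2] at hx
        exact hx
      exact ae_mono (mz_mono C hT01) h8
    have h9 : I ≤ ∫⁻ z, (∫⁻ _ in Bl, (1 : ℝ≥0∞)) ∂(mz C T) := by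
      rw [hI]
      apply lintegral_mono_ae
      filter_upwards [hae] with z hz
      apply lintegral_mono_ae
      have hz' : ∀ᵐ x ∂((volume : Measure E3).restrict Bl), |gam (uv C A ev z) x| ≤ 1 :=
        ae_restrict_of_ae hz
      filter_upwards [hz', ae_restrict_mem measurableSet_ball] with x hx hxB
      have hxB' : x ∈ Bl := hxB
      have hy := yy_pos hxB'
      rw [← ENNReal.ofReal_one]
      apply ENNReal.ofReal_le_ofReal
      have h10 : Real.exp (-yy x / (2 * s)) ≤ 1 := by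
        apply Real.exp_le_one_iff.2
        apply div_nonpos_of_nonpos_of_nonneg
        · linarith
        · positivity
      calc J6 (gam (uv C A ev z) x) * Real.exp (-yy x / (2 * s)) ≤ 1 * 1 :=
            mul_le_mul (E6_aux_J hx) h10 (Real.exp_pos _).le zero_le_one
        _ = 1 := one_mul 1
    refine h9.trans_lt ?_
    rw [lintegral_const, setLIntegral_one, mz_univ]
    exact ENNReal.mul_lt_top (vol_Bl.trans_lt ENNReal.ofReal_lt_top) ENNReal.ofReal_lt_top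
  -- the inequality for `I`
  have hIle : I ≤ ENNReal.ofReal T * (ENNReal.ofReal α + ENNReal.ofReal (1 / (2 * T)) * I) := by
    have hmeas : Measurable (fun z : ℝ × C.Ω => ∫⁻ x in Bl, ENNReal.ofReal
        (J6 (gam (uv C A ev z) x) * Real.exp (-yy x / (2 * s)))) := by
      have h11 : Measurable (fun y : (ℝ × C.Ω) × E3 => ENNReal.ofReal
          (J6 (gam (uv C A ev y.1) y.2) * Real.exp (-yy y.2 / (2 * s)))) := by
        have h12 : Measurable (fun y : (ℝ × C.Ω) × E3 => J6 (gam (uv C A ev y.1) y.2)) :=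
          J6_ent.smooth.continuous.measurable.comp (gam_joint h C).measurable
        have h13 : Measurable (fun y : (ℝ × C.Ω) × E3 => Real.exp (-yy y.2 / (2 * s))) :=
          Real.measurable_exp.comp (((yy_meas.comp measurable_snd).neg).div_const _)
        exact (h12.mul h13).ennreal_ofReal
      exact h11.lintegral_prod_right'
    have h14 : I = ∫⁻ t in Ioo (0 : ℝ) T, (∫⁻ ω, (∫⁻ x in Bl, ENNReal.ofReal
        (J6 (gam (uv C A ev (t, ω)) x) * Real.exp (-yy x / (2 * s)))) ∂C.P) := by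
      rw [hI, mz_eq, lintegral_prod _ hmeas.aemeasurable]
    have h15 : ∀ᵐ t ∂(volume.restrict (Ioo (0 : ℝ) T)), (∫⁻ ω, (∫⁻ x in Bl, ENNReal.ofReal
        (J6 (gam (uv C A ev (t, ω)) x) * Real.exp (-yy x / (2 * s)))) ∂C.P) ≤
        ENNReal.ofReal α + ENNReal.ofReal (1 / (2 * T)) * I := by
      have h16 : ∀ᵐ t ∂(volume.restrict (Ioo (0 : ℝ) T)), ∀ (j : ℝ → ℝ) (Kj : ℝ), Ent j Kj →
          Adm C A ev j t (fun ω => gam (uv C A ev (t, ω))) :=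
        ae_mono (Measure.restrict_mono (Ioo_subset_Ioo le_rfl hT01) le_rfl) (adm_ae h C)
      filter_upwards [h16, ae_restrict_mem measurableSet_Ioo] with t ht htm
      exact key t ⟨htm.1.le, htm.2.le⟩ _ (ht J6 21 J6_ent)
    calc I = _ := h14
      _ ≤ ∫⁻ _ in Ioo (0 : ℝ) T, (ENNReal.ofReal α + ENNReal.ofReal (1 / (2 * T)) * I) :=
        lintegral_mono_ae h15
      _ = ENNReal.ofReal T * (ENNReal.ofReal α + ENNReal.ofReal (1 / (2 * T)) * I) := by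
        rw [setLIntegral_const, Real.volume_Ioo, sub_zero, mul_comm]
  -- real numbers
  obtain ⟨i, hi0, hi⟩ : ∃ i : ℝ, 0 ≤ i ∧ I = ENNReal.ofReal i :=
    ⟨I.toReal, ENNReal.toReal_nonneg, (ENNReal.ofReal_toReal hIfin.ne).symm⟩
  have hii : i ≤ 2 * T * α := by
    rw [hi, ← ENNReal.ofReal_mul (by positivity), ← ENNReal.ofReal_add hα0 (by positivity),
      ← ENNReal.ofReal_mul hT.le, ENNReal.ofReal_le_ofReal_iff (by positivity)] at hIle
    have h17 : T * (α + 1 / (2 * T) * i) = T * α + i / 2 := by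
      field_simp
    rw [h17] at hIle
    linarith
  refine (key T ⟨hT.le, le_rfl⟩ G hG).trans ?_
  rw [hi, ← ENNReal.ofReal_mul (by positivity), ← ENNReal.ofReal_add hα0 (by positivity)]
  apply ENNReal.ofReal_le_ofReal
  have h18 : 1 / (2 * T) * i ≤ α := by
    calc 1 / (2 * T) * i ≤ 1 / (2 * T) * (2 * T * α) := by gcongr
      _ = α := by field_simp
  have h19 : 2 * (c1 * 2 ^ (5 / 4 : ℝ) + (C2 * c2 / 4) ^ (1 / 2 : ℝ)) * T ^ (5 / 8 : ℝ) =
      2 * α := by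
    rw [hα]
    ring
  rw [h19]
  linarith

/-- PROOF: `exists_dens`, `adm_dens`, `dens_bound`, `J6_ge`,
`e^(-y/√T) ≤ e^(-y/(2√T))`. -/
theorem need5G {zt p κ δ q K : ℝ} {A : L2 →L[ℝ] L2} {ev : L2 → E3 → E3}
    (h : Ctx zt p κ δ q A K ev) : Need5G zt p κ δ q := by
  have hb := need5Bdd h
  obtain ⟨K1, hK1, hd⟩ := dens_bound h
  refine ⟨9 * K1, by positivity, 1 / 100, by norm_num, by norm_num, ?_⟩
  intro C T hT hT1
  have hTm : T ∈ Icc (0 : ℝ) 1 := ⟨hT.le, by linarith⟩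
  obtain ⟨G, hGm, hG1, hGX⟩ := exists_dens C (hb C) hTm
  refine ⟨G, hGm, hG1, hGX, ?_⟩
  have h1 := hd C T hT hT1 G (adm_dens h C hTm hGm hG1 hGX J6 21 J6_ent)
  have hs0 : 0 < Real.sqrt T := Real.sqrt_pos.2 hT
  have h2 : ∀ ω, (∫⁻ x in Bl, ENNReal.ofReal (G ω x ^ 4 * Real.exp (-yy x / Real.sqrt T))) ≤
      ENNReal.ofReal 9 * ∫⁻ x in Bl, ENNReal.ofReal
        (J6 (G ω x) * Real.exp (-yy x / (2 * Real.sqrt T))) := by
    intro ω
    rw [← lintegral_const_mul' _ _ ENNReal.ofReal_ne_top]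
    refine setLIntegral_mono' measurableSet_ball fun x hx => ?_
    rw [← ENNReal.ofReal_mul (by norm_num)]
    apply ENNReal.ofReal_le_ofReal
    have hx' : x ∈ Bl := hx
    have hy := yy_pos hx'
    have h3 : Real.exp (-yy x / Real.sqrt T) ≤ Real.exp (-yy x / (2 * Real.sqrt T)) := by
      apply Real.exp_le_exp.2
      rw [neg_div, neg_div, neg_le_neg_iff]
      apply div_le_div_of_nonneg_left hy.le hs0
      linarith
    have h4 := J6_ge (hG1 ω x)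
    have h5 : 0 ≤ G ω x ^ 4 := by positivity
    calc G ω x ^ 4 * Real.exp (-yy x / Real.sqrt T) ≤
          (9 * J6 (G ω x)) * Real.exp (-yy x / (2 * Real.sqrt T)) :=
            mul_le_mul h4 h3 (Real.exp_pos _).le (h5.trans h4)
      _ = 9 * (J6 (G ω x) * Real.exp (-yy x / (2 * Real.sqrt T))) := by ring
  have hmu : ((1 + 4 * mu) / 2 : ℝ) = 5 / 8 := by
    unfold mu
    norm_num
  calc ∫⁻ ω, (∫⁻ x in Bl, ENNReal.ofReal (G ω x ^ 4 * Real.exp (-yy x / Real.sqrt T))) ∂C.P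
      ≤ ∫⁻ ω, ENNReal.ofReal 9 * (∫⁻ x in Bl, ENNReal.ofReal
        (J6 (G ω x) * Real.exp (-yy x / (2 * Real.sqrt T)))) ∂C.P := lintegral_mono h2
    _ = ENNReal.ofReal 9 * ∫⁻ ω, (∫⁻ x in Bl, ENNReal.ofReal
        (J6 (G ω x) * Real.exp (-yy x / (2 * Real.sqrt T)))) ∂C.P :=
          lintegral_const_mul' _ _ ENNReal.ofReal_ne_top
    _ ≤ ENNReal.ofReal 9 * ENNReal.ofReal (K1 * T ^ (5 / 8 : ℝ)) := mul_le_mul' le_rfl h1
    _ = ENNReal.ofReal (9 * K1 * T ^ ((1 + 4 * mu) / 2)) := by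
      rw [← ENNReal.ofReal_mul (by norm_num), hmu]
      congr 1
      ring

end Pool.Agent.W_332fe5
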