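import Pool.Agent.W_332fe5_h65.E5
import Pool.Agent.W_332fe5_h65.E6
import Pool.Agent.W_332fe5.O.A0
import Pool.Agent.W_332fe5.O.N1

set_option autoImplicit false

/-! Block 5, output: the four statements that blocks 6 and 7 use, for all parameters. -/

open MeasureTheory ProbabilityTheory Set Filter Topology
open scoped ENNReal NNReal

namespace Pool.Agent.W_332fe5

theorem exists_ctx {zt p κ δ q : ℝ} (hp : Par zt p κ δ q) :
    ∃ (A : L2 →L[ℝ] L2) (K : ℝ), Ctx zt p κ δ q A K ev := by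
  have h0 : -(1 / 4) < δ := by
    have := hp.z1; have := hp.d0; linarith
  have h1 : δ ≤ 0 := hp.d1
  obtain ⟨K1, hK1, e1⟩ := fld_hardy h0 h1
  obtain ⟨K2, hK2, e2⟩ := fld_transl h0 h1
  refine ⟨fldL h0 h1, K1 + K2 + 1, hp, ?_, ev_ae, ?_, fun f hf => Hs_supp hf,
    fun f hf g hg hc => Hs_div hf hg hc⟩
  · refine ⟨fun w => rfl, fun w => ?_, by positivity, fun w => ?_, fun w z => ?_⟩
    · rw [fldL_apply]; exact fld_mem h0 h1 w
    · rw [fldL_apply]
      refine (e1 w).trans (ENNReal.ofReal_le_ofReal ?_)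
      exact mul_le_mul_of_nonneg_right (by linarith) (sq_nonneg _)
    · rw [fldL_apply]
      refine (e2 w z).trans (ENNReal.ofReal_le_ofReal ?_)
      have : K2 ≤ K1 + K2 + 1 := by linarith
      gcongr
  · intro Z hZ g hg
    exact (ev_comp hg).stronglyMeasurable

theorem need5 {zt p κ δ q : ℝ} (hp : Par zt p κ δ q) :
    Need5Bdd zt p κ δ q ∧ Need5Abs zt p κ δ q ∧ Need5G zt p κ δ q ∧ Need5Wall zt p κ δ q := by
  obtain ⟨A, K, h⟩ := exists_ctx hp
  exact ⟨need5Bdd h, need5Abs h, need5G h, need5Wall h⟩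

end Pool.Agent.W_332fe5
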