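import Pool.Agent.W_332fe5_h65.K2

set_option autoImplicit false

/-! Block 5, A2: the second order part of (5.1). -/

open MeasureTheory ProbabilityTheory Set Filter Topology
open scoped ENNReal NNReal ContDiff

namespace Pool.Agent.W_332fe5

/-- `(c²/2) (a - κ)² ≤ a² + (c²/(2-c²)) κ²`. -/
theorem quad_ineq {c : ℝ} (hc : c ^ 2 < 2) (a κ : ℝ) :
    (c * a - c * κ) ^ 2 / 2 ≤ a ^ 2 + c ^ 2 / (2 - c ^ 2) * κ ^ 2 := by
  have h : 0 < 2 - c ^ 2 := by linarith
  have key : a ^ 2 + c ^ 2 / (2 - c ^ 2) * κ ^ 2 - (c * a - c * κ) ^ 2 / 2 =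
      ((2 - c ^ 2) * a + c ^ 2 * κ) ^ 2 / (2 * (2 - c ^ 2)) := by
    field_simp
    ring
  have h2 : 0 ≤ ((2 - c ^ 2) * a + c ^ 2 * κ) ^ 2 / (2 * (2 - c ^ 2)) := by positivity
  linarith

/-- coordinates of a derivative -/
theorem fderiv_apply_sum (g : E3 → ℝ) (x v : E3) :
    fderiv ℝ g x v = ∑ i : Fin 3, v i * fderiv ℝ g x (EuclideanSpace.single i 1) := by
  have h : v = ∑ i : Fin 3, v i • EuclideanSpace.single i (1 : ℝ) := by
    ext j
    simp [Finset.sum_apply, Pi.single_apply]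
  conv_lhs => rw [h]
  rw [map_sum]
  refine Finset.sum_congr rfl fun i _ => ?_
  rw [map_smul, smul_eq_mul]

theorem sq_fderiv_le (g : E3 → ℝ) {x : E3} (hx : ‖x‖ ≤ 1) :
    (fderiv ℝ g x x) ^ 2 ≤ ∑ i : Fin 3, (fderiv ℝ g x (EuclideanSpace.single i 1)) ^ 2 := by
  rw [fderiv_apply_sum g x x]
  have h1 := Finset.sum_mul_sq_le_sq_mul_sq Finset.univ (fun i => x i)
    (fun i => fderiv ℝ g x (EuclideanSpace.single i 1))
  have h2 : ∑ i : Fin 3, x i ^ 2 ≤ 1 := by
    have := EuclideanSpace.norm_sq_eq x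
    simp only [Real.norm_eq_abs, sq_abs] at this
    rw [← this]
    have h0 := norm_nonneg x
    nlinarith
  have h3 : 0 ≤ ∑ i : Fin 3, (fderiv ℝ g x (EuclideanSpace.single i 1)) ^ 2 :=
    Finset.sum_nonneg fun i _ => sq_nonneg _
  refine h1.trans ?_
  nlinarith

/-- PROOF: `∫ j'(g) Δg Φ = - ∫ j''(g) |∇g|² Φ - ∫ j'(g) ∇g · ∇Φ` and
`- ∫ ∇(j(g)) · ∇Φ = ∫ j(g) ΔΦ` (`integral_slap` twice); `quad_ineq`, `sq_fderiv_le`; `Φ` is
supported in the ball. -/
theorem second_order {c K : ℝ} (hc : c ^ 2 < 2) {j : ℝ → ℝ} (hj : Ent j K) {Φ : E3 → ℝ}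
    (hΦ : Φ ∈ CB) (hΦ0 : ∀ x, 0 ≤ Φ x) {g κ : E3 → ℝ} (hg : ContDiff ℝ 2 g)
    (hκ : Continuous κ) :
    ∫ x, (deriv j (g x) * slap g x + iteratedDeriv 2 j (g x) *
        (c * fderiv ℝ g x x - c * κ x) ^ 2 / 2) * Φ x ≤
      (∫ x, j (g x) * slap Φ x) + K * (c ^ 2 / (2 - c ^ 2)) * ∫ x, κ x ^ 2 * Φ x := by
  obtain ⟨hΦs, hΦc, hΦB⟩ := hΦ
  have hΦ1 : ContDiff ℝ 1 Φ := hΦs.of_le (by exact_mod_cast le_top)
  have hΦ2 : ContDiff ℝ 2 Φ := hΦs.of_le (WithTop.coe_le_coe.2 le_top)
  have hj2 : ContDiff ℝ 2 j := hj.smooth.of_le (by norm_num)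
  have hj1 : ContDiff ℝ 1 j := hj.smooth.of_le (by norm_num)
  have hdj : ContDiff ℝ 2 (deriv j) := by
    have : ContDiff ℝ (2 + 1) j := by
      have := hj.smooth
      norm_num
      exact this
    exact (contDiff_succ_iff_deriv.1 this).2.2
  have hd2 : iteratedDeriv 2 j = deriv (deriv j) := by
    rw [iteratedDeriv_succ, iteratedDeriv_one]
  have hddj : ContDiff ℝ 1 (deriv (deriv j)) := by
    have : ContDiff ℝ (1 + 1) (deriv j) := by
      norm_num
      exact hdj
    exact (contDiff_succ_iff_deriv.1 this).2.2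
  set e : Fin 3 → E3 := fun i => EuclideanSpace.single i 1 with he
  set G2 : E3 → ℝ := fun x => ∑ i : Fin 3, (fderiv ℝ g x (e i)) ^ 2 with hG2
  have hg1 : ContDiff ℝ 1 g := hg.of_le (by norm_num)
  have hdg : ∀ i, Continuous fun x => fderiv ℝ g x (e i) := fun i =>
    (hg1.continuous_fderiv (by norm_num)).clm_apply continuous_const
  have hdΦ : ∀ i, Continuous fun x => fderiv ℝ Φ x (e i) := fun i =>
    (hΦ1.continuous_fderiv (by norm_num)).clm_apply continuous_const
  have hG2c : Continuous G2 := by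
    refine continuous_finsetSum _ fun i _ => (hdg i).pow 2
  have hslap : ∀ {f : E3 → ℝ}, ContDiff ℝ 2 f → Continuous (slap f) := by
    intro f hf
    unfold slap
    refine continuous_finsetSum _ fun i _ => ?_
    have h1 : ContDiff ℝ 1 fun z => fderiv ℝ f z (EuclideanSpace.single i 1) :=
      (hf.fderiv_right (m := 1) (by norm_num)).clm_apply contDiff_const
    exact (h1.continuous_fderiv (by norm_num)).clm_apply continuous_const
  -- integration by parts 1: F = j'(g) Φ
  have hF : ContDiff ℝ 1 fun x => deriv j (g x) * Φ x :=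
    ((hdj.of_le (by norm_num : (1 : WithTop ℕ∞) ≤ 2)).comp hg1).mul hΦ1
  have hFc : HasCompactSupport fun x => deriv j (g x) * Φ x := hΦc.mul_left
  have ibp1 := integral_slap hF hg (Or.inl hFc)
  have ibp2 := integral_slap (hj1.comp hg1) hΦ2 (Or.inr hΦc)
  have hdF : ∀ x i, fderiv ℝ (fun x => deriv j (g x) * Φ x) x (e i) =
      deriv (deriv j) (g x) * fderiv ℝ g x (e i) * Φ x +
        deriv j (g x) * fderiv ℝ Φ x (e i) := by
    intro x i
    have d1 : HasFDerivAt (fun x => deriv j (g x))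
        (deriv (deriv j) (g x) • fderiv ℝ g x) x := by
      have a := (hdj.differentiable (by norm_num) (g x)).hasDerivAt
      have b := (hg1.differentiable (by norm_num) x).hasFDerivAt
      exact a.comp_hasFDerivAt x b
    have d2 := (hΦ1.differentiable (by norm_num) x).hasFDerivAt
    have d3 : HasFDerivAt (fun x => deriv j (g x) * Φ x) _ x := d1.mul d2
    rw [d3.fderiv]
    simp
    ring
  have hdj' : ∀ x i, fderiv ℝ (j ∘ g) x (e i) = deriv j (g x) * fderiv ℝ g x (e i) := by
    intro x i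
    have a := (hj1.differentiable (by norm_num) (g x)).hasDerivAt
    have b := (hg1.differentiable (by norm_num) x).hasFDerivAt
    rw [(a.comp_hasFDerivAt x b).fderiv]
    simp
  -- the functions
  set q : ℝ := c ^ 2 / (2 - c ^ 2) with hq
  have hq0 : 0 ≤ q := div_nonneg (sq_nonneg c) (by linarith)
  set Df : E3 → ℝ := fun x => ∑ i : Fin 3, deriv j (g x) * fderiv ℝ g x (e i) * fderiv ℝ Φ x (e i)
    with hDf
  set Bf : E3 → ℝ := fun x => iteratedDeriv 2 j (g x) * G2 x * Φ x with hBf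
  set Ef : E3 → ℝ := fun x => iteratedDeriv 2 j (g x) * (c * fderiv ℝ g x x - c * κ x) ^ 2 / 2 * Φ x
    with hEf
  set Af : E3 → ℝ := fun x => deriv j (g x) * Φ x * slap g x with hAf
  set Kf : E3 → ℝ := fun x => K * q * (κ x ^ 2 * Φ x) with hKf
  have cj1 : Continuous fun x => deriv j (g x) := hdj.continuous.comp hg.continuous
  have cj2 : Continuous fun x => iteratedDeriv 2 j (g x) := by
    rw [hd2]
    exact hddj.continuous.comp hg.continuous
  have cgx : Continuous fun x => fderiv ℝ g x x :=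
    (hg1.continuous_fderiv (by norm_num)).clm_apply continuous_id
  have hΦcont := hΦ1.continuous
  have zΦ : ∀ x, x ∉ tsupport Φ → Φ x = 0 := fun x hx => image_eq_zero_of_notMem_tsupport hx
  have zdΦ : ∀ x, x ∉ tsupport Φ → fderiv ℝ Φ x = 0 := by
    intro x hx
    have : x ∉ tsupport (fderiv ℝ Φ) := fun h => hx (tsupport_fderiv_subset ℝ h)
    exact image_eq_zero_of_notMem_tsupport this
  have iD : Integrable Df := by
    refine Continuous.integrable_of_hasCompactSupport ?_ ?_
    · exact continuous_finsetSum _ fun i _ => (cj1.mul (hdg i)).mul (hdΦ i)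
    · refine HasCompactSupport.intro hΦc fun x hx => ?_
      simp [hDf, zdΦ x hx]
  have iB : Integrable Bf := by
    refine Continuous.integrable_of_hasCompactSupport ?_ ?_
    · exact (cj2.mul hG2c).mul hΦcont
    · refine HasCompactSupport.intro hΦc fun x hx => ?_
      simp [hBf, zΦ x hx]
  have iE : Integrable Ef := by
    refine Continuous.integrable_of_hasCompactSupport ?_ ?_
    · exact ((cj2.mul (((continuous_const.mul cgx).sub (continuous_const.mul hκ)).pow 2)).div_const
        2).mul hΦcont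
    · refine HasCompactSupport.intro hΦc fun x hx => ?_
      simp [hEf, zΦ x hx]
  have iA : Integrable Af := by
    refine Continuous.integrable_of_hasCompactSupport ?_ ?_
    · exact (cj1.mul hΦcont).mul (hslap hg)
    · refine HasCompactSupport.intro hΦc fun x hx => ?_
      simp [hAf, zΦ x hx]
  have iK : Integrable Kf := by
    refine Continuous.integrable_of_hasCompactSupport ?_ ?_
    · exact continuous_const.mul ((hκ.pow 2).mul hΦcont)
    · refine HasCompactSupport.intro hΦc fun x hx => ?_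
      simp [hKf, zΦ x hx]
  have e1 : ∫ x, Af x = -(∫ x, Bf x) - ∫ x, Df x := by
    have h1 : ∀ x, ∑ i : Fin 3, fderiv ℝ (fun x => deriv j (g x) * Φ x) x
        (EuclideanSpace.single i 1) * fderiv ℝ g x (EuclideanSpace.single i 1) = Bf x + Df x := by
      intro x
      have h2 : ∀ i : Fin 3, fderiv ℝ (fun x => deriv j (g x) * Φ x) x (e i) *
          fderiv ℝ g x (e i) = iteratedDeriv 2 j (g x) * (fderiv ℝ g x (e i)) ^ 2 * Φ x +
          deriv j (g x) * fderiv ℝ g x (e i) * fderiv ℝ Φ x (e i) := by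
        intro i
        rw [hdF, hd2]
        ring
      calc _ = ∑ i : Fin 3, (iteratedDeriv 2 j (g x) * (fderiv ℝ g x (e i)) ^ 2 * Φ x +
          deriv j (g x) * fderiv ℝ g x (e i) * fderiv ℝ Φ x (e i)) :=
            Finset.sum_congr rfl fun i _ => h2 i
        _ = Bf x + Df x := by
            rw [Finset.sum_add_distrib, ← Finset.sum_mul, ← Finset.mul_sum]
    calc ∫ x, Af x = ∫ x, deriv j (g x) * Φ x * slap g x := rfl
      _ = -∫ x, (Bf x + Df x) := by
          rw [ibp1]
          congr 1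
          exact integral_congr_ae (Eventually.of_forall h1)
      _ = -(∫ x, Bf x) - ∫ x, Df x := by
          rw [integral_add iB iD]
          ring
  have e2 : ∫ x, j (g x) * slap Φ x = -∫ x, Df x := by
    have h1 : ∀ x, ∑ i : Fin 3, fderiv ℝ (j ∘ g) x (EuclideanSpace.single i 1) *
        fderiv ℝ Φ x (EuclideanSpace.single i 1) = Df x := by
      intro x
      exact Finset.sum_congr rfl fun i _ => by rw [hdj' x i]
    calc ∫ x, j (g x) * slap Φ x = ∫ x, (j ∘ g) x * slap Φ x := rfl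
      _ = _ := by
          rw [ibp2]
          congr 1
          exact integral_congr_ae (Eventually.of_forall h1)
  have hle : ∀ x, Ef x ≤ Bf x + Kf x := by
    intro x
    by_cases hx : x ∈ tsupport Φ
    · have hx1 : ‖x‖ ≤ 1 := by
        have := hΦB hx
        rw [Bl, Metric.mem_ball, dist_zero_right] at this
        exact this.le
      have hj0 := hj.conv (g x)
      have hjK := (abs_le.1 (hj.d2 (g x))).2
      have h1 := quad_ineq hc (fderiv ℝ g x x) (κ x)
      have h2 := sq_fderiv_le g hx1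
      have h3 : (c * fderiv ℝ g x x - c * κ x) ^ 2 / 2 ≤ G2 x + q * κ x ^ 2 := by
        have : (∑ i : Fin 3, (fderiv ℝ g x (EuclideanSpace.single i 1)) ^ 2) = G2 x := rfl
        rw [this] at h2
        linarith
      have h4 : iteratedDeriv 2 j (g x) * ((c * fderiv ℝ g x x - c * κ x) ^ 2 / 2) ≤
          iteratedDeriv 2 j (g x) * (G2 x + q * κ x ^ 2) := mul_le_mul_of_nonneg_left h3 hj0
      have h5 : iteratedDeriv 2 j (g x) * (q * κ x ^ 2) ≤ K * (q * κ x ^ 2) :=
        mul_le_mul_of_nonneg_right hjK (by positivity)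
      have h45 := mul_add (iteratedDeriv 2 j (g x)) (G2 x) (q * κ x ^ 2)
      have h6 : iteratedDeriv 2 j (g x) * ((c * fderiv ℝ g x x - c * κ x) ^ 2 / 2) ≤
          iteratedDeriv 2 j (g x) * G2 x + K * (q * κ x ^ 2) := by linarith
      have h7 := mul_le_mul_of_nonneg_right h6 (hΦ0 x)
      have h8 : Ef x = iteratedDeriv 2 j (g x) * ((c * fderiv ℝ g x x - c * κ x) ^ 2 / 2) * Φ x := by
        rw [hEf]; ring
      have h9 : Bf x + Kf x = (iteratedDeriv 2 j (g x) * G2 x + K * (q * κ x ^ 2)) * Φ x := by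
        rw [hBf, hKf]; ring
      rw [h8, h9]
      exact h7
    · simp [hEf, hBf, hKf, zΦ x hx]
  have e3 : ∫ x, (deriv j (g x) * slap g x + iteratedDeriv 2 j (g x) *
        (c * fderiv ℝ g x x - c * κ x) ^ 2 / 2) * Φ x = (∫ x, Af x) + ∫ x, Ef x := by
    rw [← integral_add iA iE]
    refine integral_congr_ae (Eventually.of_forall fun x => ?_)
    simp only [hAf, hEf]
    ring
  have e4 : ∫ x, Ef x ≤ (∫ x, Bf x) + ∫ x, Kf x := by
    rw [← integral_add iB iK]
    exact integral_mono iE (iB.add iK) hle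
  have e5 : ∫ x, Kf x = K * q * ∫ x, κ x ^ 2 * Φ x := by
    simp only [hKf]
    rw [integral_const_mul]
  rw [e3, e2, ← e5, e1]
  linarith

end Pool.Agent.W_332fe5
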