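import Pool.Agent.W_332fe5_h65.G1

set_option autoImplicit false

/-! Block 5, G2: the mollified swirl, and the functionals at the test functions `hk ε x`. -/

open MeasureTheory ProbabilityTheory Set Filter Topology
open scoped ENNReal NNReal ContDiff Convolution

namespace Pool.Agent.W_332fe5

theorem G2_fderiv {f g : E3 → ℝ} (hf : LocallyIntegrable f) (hg : ContDiff ℝ 1 g)
    (hc : HasCompactSupport g) (x v : E3) :
    fderiv ℝ (fun x => ∫ y, f y * g (x - y)) x v = ∫ y, f y * fderiv ℝ g (x - y) v := by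
  have h1 := hc.hasFDerivAt_convolution_right (ContinuousLinearMap.mul ℝ ℝ) hf hg x
  have h2 : (fun x => ∫ y, f y * g (x - y)) =
      (f ⋆[ContinuousLinearMap.mul ℝ ℝ, (volume : Measure E3)] g) := rfl
  rw [h2, h1.fderiv, convolution_precompR_apply (ContinuousLinearMap.mul ℝ ℝ) hf
    (hc.fderiv (𝕜 := ℝ)) (hg.continuous_fderiv (by norm_num)) x v]
  rfl

theorem G2_contDiff {f g : E3 → ℝ} (hf : LocallyIntegrable f) (hg : ContDiff ℝ ∞ g)
    (hc : HasCompactSupport g) : ContDiff ℝ ∞ (fun x => ∫ y, f y * g (x - y)) :=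
  hc.contDiff_convolution_right (ContinuousLinearMap.mul ℝ ℝ) hf hg

theorem G2_integrable {f g : E3 → ℝ} (hf : LocallyIntegrable f) (hg : Continuous g)
    (hc : HasCompactSupport g) (x : E3) : Integrable fun y => f y * g (x - y) :=
  hc.convolutionExists_right (ContinuousLinearMap.mul ℝ ℝ) hf hg x

theorem G2_continuous {f g : E3 → ℝ} (hf : LocallyIntegrable f) (hg : Continuous g)
    (hc : HasCompactSupport g) : Continuous (fun x => ∫ y, f y * g (x - y)) :=
  hc.continuous_convolution_right (ContinuousLinearMap.mul ℝ ℝ) hf hg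

/-- PROOF: `gU ε u = convolution (gam u) (rho ε)`; `HasCompactSupport.contDiff_convolution_right`. -/
theorem gU_contDiff {ε : ℝ} (hε : 0 < ε) {u : E3 → E3} {N : ℝ} (h : Fld u N) :
    ContDiff ℝ ∞ (gU ε u) :=
  G2_contDiff (gam_integrable h).locallyIntegrable (rho_contDiff ε) (rho_compact hε)

/-- PROOF: `HasCompactSupport.hasFDerivAt_convolution_right` (or differentiation under the
integral). -/
theorem fderiv_gU {ε : ℝ} (hε : 0 < ε) {u : E3 → E3} {N : ℝ} (h : Fld u N) (x v : E3) :
    fderiv ℝ (gU ε u) x v = ∫ y, gam u y * fderiv ℝ (rho ε) (x - y) v :=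
  G2_fderiv (gam_integrable h).locallyIntegrable ((rho_contDiff ε).of_le (by exact_mod_cast le_top))
    (rho_compact hε) x v

theorem G2_rho1 (ε : ℝ) (v : E3) : ContDiff ℝ ∞ fun z => fderiv ℝ (rho ε) z v :=
  ((rho_contDiff ε).fderiv_right (m := ∞) (by norm_num)).clm_apply contDiff_const

theorem slap_gU {ε : ℝ} (hε : 0 < ε) {u : E3 → E3} {N : ℝ} (h : Fld u N) (x : E3) :
    slap (gU ε u) x = ∫ y, gam u y * slap (rho ε) (x - y) := by
  have hl := (gam_integrable h).locallyIntegrable
  have e1 : ∀ j : Fin 3, (fun z => fderiv ℝ (gU ε u) z (EuclideanSpace.single j 1)) =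
      fun z => ∫ y, gam u y * fderiv ℝ (rho ε) (z - y) (EuclideanSpace.single j 1) :=
    fun j => funext fun z => fderiv_gU hε h z _
  have e2 : ∀ j : Fin 3, fderiv ℝ (fun z => fderiv ℝ (gU ε u) z (EuclideanSpace.single j 1)) x
      (EuclideanSpace.single j 1) = ∫ y, gam u y * fderiv ℝ (fun z => fderiv ℝ (rho ε) z
        (EuclideanSpace.single j 1)) (x - y) (EuclideanSpace.single j 1) := by
    intro j
    rw [e1 j]
    exact G2_fderiv hl ((G2_rho1 ε _).of_le (by exact_mod_cast le_top))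
      ((rho_compact hε).fderiv_apply (𝕜 := ℝ) _) x _
  have e3 : ∀ j : Fin 3, Integrable fun y => gam u y * fderiv ℝ (fun z => fderiv ℝ (rho ε) z
        (EuclideanSpace.single j 1)) (x - y) (EuclideanSpace.single j 1) := by
    intro j
    exact G2_integrable hl (((G2_rho1 ε (EuclideanSpace.single j 1)).continuous_fderiv
      (by simp)).clm_apply continuous_const)
      (((rho_compact hε).fderiv_apply (𝕜 := ℝ) _).fderiv_apply (𝕜 := ℝ) _) x
  unfold slap
  simp only [e2, Finset.mul_sum]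
  rw [integral_finsetSum _ fun j _ => e3 j]

/-- The mollified divergence `div (ρ_ε * ((k + u) Γ))`. -/
noncomputable def Dd (ε : ℝ) (u : E3 → E3) (x : E3) : ℝ :=
  ∫ y, gam u y * fderiv ℝ (rho ε) (x - y) (kk y + u y)

/-- `K_ε * Γ`. -/
noncomputable def KG (ε : ℝ) (u : E3 → E3) (x : E3) : ℝ := ∫ y, gam u y * Kep ε (x - y)

theorem G2_w {u : E3 → E3} {N : ℝ} (h : Fld u N) :
    Integrable fun y => gam u y • (kk y + u y) := by
  have := (gam_smul_kk_integrable h).add (gam_smul_u_integrable h)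
  refine this.congr (ae_of_all _ fun y => ?_)
  simp [smul_add]

theorem G2_Dd_eq (ε : ℝ) (u : E3 → E3) : Dd ε u = fun x =>
    ((fun y => gam u y • (kk y + u y)) ⋆[ContinuousLinearMap.apply ℝ ℝ,
      (volume : Measure E3)] fderiv ℝ (rho ε)) x := by
  ext x
  unfold Dd
  rw [convolution_def]
  refine integral_congr_ae (ae_of_all _ fun y => ?_)
  simp
  ring

theorem G2_fcont (ε : ℝ) : Continuous (fderiv ℝ (rho ε)) :=
  (rho_contDiff ε).continuous_fderiv (by simp)

theorem G2_Dd_int {ε : ℝ} (hε : 0 < ε) {u : E3 → E3} {N : ℝ} (h : Fld u N) (x : E3) :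
    Integrable fun y => gam u y * fderiv ℝ (rho ε) (x - y) (kk y + u y) := by
  have h1 := ((rho_compact hε).fderiv (𝕜 := ℝ)).convolutionExists_right
    (μ := (volume : Measure E3)) (ContinuousLinearMap.apply ℝ ℝ)
    (G2_w h).locallyIntegrable (G2_fcont ε) x
  refine h1.congr (ae_of_all _ fun y => ?_)
  simp
  ring

theorem Kep_compact {ε : ℝ} (hε : 0 < ε) : HasCompactSupport (Kep ε) := by
  refine HasCompactSupport.intro (isCompact_closedBall (0 : E3) ε) fun z hz => Kep_zero hε ?_
  simp only [Metric.mem_closedBall, dist_zero_right, not_le] at hz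
  exact hz.le

theorem G2_Kep_int {ε : ℝ} (hε : 0 < ε) {u : E3 → E3} {N : ℝ} (h : Fld u N) (x : E3) :
    Integrable fun y => gam u y * Kep ε (x - y) :=
  G2_integrable (gam_integrable h).locallyIntegrable (Kep_continuous ε) (Kep_compact hε) x

/-- PROOF: `fderiv_hk`, `slap_hk`, `slap_gU`; all three terms are integrable
(`gam_smul_kk_integrable`, `gam_smul_u_integrable`). -/
theorem aU_hk {ε : ℝ} (hε : 0 < ε) {u : E3 → E3} {N : ℝ} (h : Fld u N) (x : E3) :
    aU u (hk ε x) = slap (gU ε u) x - Dd ε u x := by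
  have hsc : HasCompactSupport (slap (rho ε)) := by
    refine HasCompactSupport.intro (isCompact_closedBall (0 : E3) ε) fun z hz =>
      slap_rho_zero hε ?_
    simp only [Metric.mem_closedBall, dist_zero_right, not_le] at hz
    exact hz.le
  have i1 : Integrable fun y => gam u y * slap (rho ε) (x - y) :=
    G2_integrable (gam_integrable h).locallyIntegrable (slap_rho_continuous ε) hsc x
  rw [slap_gU hε h, Dd, ← integral_sub i1 (G2_Dd_int hε h x), aU]
  refine integral_congr_ae (ae_of_all _ fun y => ?_)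
  simp only [slap_hk, fderiv_hk, map_add]
  ring

/-- PROOF: `-Dρ(x-y)(y) = -Dρ(x-y)(x) + Dρ(x-y)(x-y)`. -/
theorem bU_hk {ε : ℝ} (hε : 0 < ε) {u : E3 → E3} {N : ℝ} (h : Fld u N) (c : ℝ) (x : E3) :
    bU c u (hk ε x) = c * fderiv ℝ (gU ε u) x x - c * KG ε u x := by
  have i1 : Integrable fun y => gam u y * fderiv ℝ (rho ε) (x - y) x :=
    G2_integrable (gam_integrable h).locallyIntegrable (G2_rho1 ε x).continuous
      ((rho_compact hε).fderiv_apply (𝕜 := ℝ) _) x
  have e : ∫ y, gam u y * (fderiv ℝ (hk ε x) y y + 3 * hk ε x y) =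
      KG ε u x - fderiv ℝ (gU ε u) x x := by
    rw [fderiv_gU hε h, KG, ← integral_sub (G2_Kep_int hε h x) i1]
    refine integral_congr_ae (ae_of_all _ fun y => ?_)
    simp only [fderiv_hk, Kep, hk, map_sub]
    ring
  rw [bU, e]
  ring

theorem KG_continuous {ε : ℝ} (hε : 0 < ε) {u : E3 → E3} {N : ℝ} (h : Fld u N) :
    Continuous (KG ε u) :=
  G2_continuous (gam_integrable h).locallyIntegrable (Kep_continuous ε) (Kep_compact hε)

theorem Dd_continuous {ε : ℝ} (hε : 0 < ε) {u : E3 → E3} {N : ℝ} (h : Fld u N) :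
    Continuous (Dd ε u) := by
  rw [G2_Dd_eq]
  exact ((rho_compact hε).fderiv (𝕜 := ℝ)).continuous_convolution_right
    (ContinuousLinearMap.apply ℝ ℝ) (G2_w h).locallyIntegrable (G2_fcont ε)

end Pool.Agent.W_332fe5
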