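import Pool.Agent.W_332fe5_h65.K2
import Pool.Agent.W_332fe5_h65.G2

set_option autoImplicit false

/-! Block 5, A3: the transport part of (5.1). -/

open MeasureTheory ProbabilityTheory Set Filter Topology
open scoped ENNReal NNReal ContDiff Convolution

namespace Pool.Agent.W_332fe5

/-- The field `k + u`, truncated near the axis. -/
noncomputable def vv (τ : ℝ) (u : E3 → E3) (x : E3) : E3 := kt τ x + u x

/-- The commutator `∫ (Γ(y) - Γ(x)) ∇ρ_ε(x-y) · (v(y) - v(x)) dy`. -/
noncomputable def rU (ε τ : ℝ) (u : E3 → E3) (x : E3) : ℝ :=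
  ∫ y, (gam u y - gam u x) * fderiv ℝ (rho ε) (x - y) (vv τ u y - vv τ u x)

theorem A3_convInt {ε : ℝ} (hε : 0 < ε) {w : E3 → E3} (hw : LocallyIntegrable w) (x : E3) :
    Integrable fun y => fderiv ℝ (rho ε) (x - y) (w y) := by
  have h1 := ((rho_compact hε).fderiv (𝕜 := ℝ)).convolutionExists_right
    (μ := (volume : Measure E3)) (ContinuousLinearMap.apply ℝ ℝ) hw (G2_fcont ε) x
  refine h1.congr (ae_of_all _ fun y => ?_)
  simp

theorem A3_tsupp {ε : ℝ} (hε : 0 < ε) (x : E3) :
    tsupport (hk ε x) ⊆ Metric.closedBall x ε := by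
  refine closure_minimal ?_ Metric.isClosed_closedBall
  intro y hy
  rw [Metric.mem_closedBall, dist_comm, dist_eq_norm]
  by_contra hcon
  exact hy (rho_zero hε (not_le.1 hcon).le)

/-- PROOF: at `x` with `τ ≤ ax2 y` for `‖x - y‖ ≤ ε`: in `Dd` replace `kk` by `kt τ`
(`fderiv_rho_zero`); `∫ Γ(y) Dρ(x-y)(v(y) - v(x)) + Dg(x)(v(x))`; the part
`Γ(x) ∫ Dρ(x-y)(v(y) - v(x)) dy` vanishes: `Fld.divfree` for `ψ = hk ε x`, `integral_fderiv_kk`,
`integral_fderiv_const`. For almost all `x` (where all the integrals exist: `u` is locally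
integrable, so for all `x`). -/
theorem Dd_eq {ε τ : ℝ} (hε : 0 < ε) (hτ : 0 < τ) {u : E3 → E3} {N : ℝ} (h : Fld u N) {x : E3}
    (hx : ∀ y, ‖x - y‖ ≤ ε → τ ≤ ax2 y) :
    Dd ε u x = fderiv ℝ (gU ε u) x (kk x + u x) + rU ε τ u x := by
  have hxx : kt τ x = kk x := kt_eq (hx x (by simpa using hε.le))
  have p1 : ∀ y, fderiv ℝ (rho ε) (x - y) (kk y) = fderiv ℝ (rho ε) (x - y) (kt τ y) := by
    intro y
    by_cases hy : ‖x - y‖ ≤ ε
    · rw [kt_eq (hx y hy)]
    · rw [fderiv_rho_zero hε (not_le.1 hy).le]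
      simp
  have iu : Integrable fun y => fderiv ℝ (rho ε) (x - y) (u y) :=
    A3_convInt hε (norm_integrable h).locallyIntegrable x
  have ik : Integrable fun y => fderiv ℝ (rho ε) (x - y) (kt τ y) :=
    A3_convInt hε (kt_continuous hτ).locallyIntegrable x
  have ic : Integrable fun y => fderiv ℝ (rho ε) (x - y) (vv τ u x) :=
    A3_convInt hε continuous_const.locallyIntegrable x
  have iv : Integrable fun y => fderiv ℝ (rho ε) (x - y) (vv τ u y) := by
    refine (ik.add iu).congr (ae_of_all _ fun y => ?_)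
    simp [vv]
  have iA : Integrable fun y => gam u y * fderiv ℝ (rho ε) (x - y) (vv τ u y) := by
    refine (G2_Dd_int hε h x).congr (ae_of_all _ fun y => ?_)
    simp only [vv, map_add, p1]
  have iB : Integrable fun y => gam u y * fderiv ℝ (rho ε) (x - y) (vv τ u x) :=
    G2_integrable (gam_integrable h).locallyIntegrable (G2_rho1 ε _).continuous
      ((rho_compact hε).fderiv_apply (𝕜 := ℝ) _) x
  have hhk1 : ContDiff ℝ 1 (hk ε x) := (hk_contDiff ε x).of_le (by exact_mod_cast le_top)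
  have zu : ∫ y, fderiv ℝ (rho ε) (x - y) (u y) = 0 := by
    have := h.divfree (hk ε x) hhk1
    simp only [fderiv_hk, integral_neg, neg_eq_zero] at this
    exact this
  have zk : ∫ y, fderiv ℝ (rho ε) (x - y) (kt τ y) = 0 := by
    have hd : Disjoint (tsupport (hk ε x)) Axis := by
      rw [Set.disjoint_left]
      intro y hy hy2
      have h3 := A3_tsupp hε x hy
      rw [Metric.mem_closedBall, dist_comm, dist_eq_norm] at h3
      have h4 := hx y h3
      have h5 : ax2 y = 0 := hy2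
      linarith
    have hcs : HasCompactSupport (hk ε x) :=
      (isCompact_closedBall x ε).of_isClosed_subset (isClosed_tsupport _) (A3_tsupp hε x)
    have := integral_fderiv_kk hhk1 hcs hd
    simp only [fderiv_hk, integral_neg, neg_eq_zero, p1] at this
    exact this
  have zc : ∫ y, fderiv ℝ (rho ε) (x - y) (vv τ u x) = 0 := by
    rw [integral_sub_left_eq_self (fun z => fderiv ℝ (rho ε) z (vv τ u x))]
    exact integral_fderiv_rho hε _
  have zv : ∫ y, fderiv ℝ (rho ε) (x - y) (vv τ u y) = 0 := by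
    simp only [vv, map_add]
    rw [integral_add ik iu, zk, zu, add_zero]
  have eA : Dd ε u x = ∫ y, gam u y * fderiv ℝ (rho ε) (x - y) (vv τ u y) := by
    rw [Dd]
    refine integral_congr_ae (ae_of_all _ fun y => ?_)
    simp only [vv, map_add, p1]
  have eB : fderiv ℝ (gU ε u) x (kk x + u x) =
      ∫ y, gam u y * fderiv ℝ (rho ε) (x - y) (vv τ u x) := by
    rw [fderiv_gU hε h, vv, hxx]
  have iAB : Integrable fun y => gam u y * fderiv ℝ (rho ε) (x - y) (vv τ u y) -
      gam u y * fderiv ℝ (rho ε) (x - y) (vv τ u x) := iA.sub iB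
  have iCD : Integrable fun y => gam u x * fderiv ℝ (rho ε) (x - y) (vv τ u y) -
      gam u x * fderiv ℝ (rho ε) (x - y) (vv τ u x) :=
    (iv.const_mul (gam u x)).sub (ic.const_mul (gam u x))
  have eR : rU ε τ u x = (∫ y, gam u y * fderiv ℝ (rho ε) (x - y) (vv τ u y)) -
      (∫ y, gam u y * fderiv ℝ (rho ε) (x - y) (vv τ u x)) -
      ((∫ y, gam u x * fderiv ℝ (rho ε) (x - y) (vv τ u y)) -
      (∫ y, gam u x * fderiv ℝ (rho ε) (x - y) (vv τ u x))) := by
    rw [← integral_sub iA iB, ← integral_sub (iv.const_mul _) (ic.const_mul _),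
      ← integral_sub iAB iCD, rU]
    refine integral_congr_ae (ae_of_all _ fun y => ?_)
    simp only [map_sub]
    ring
  rw [eR, eA, eB, integral_const_mul, integral_const_mul, zv, zc]
  ring

theorem A3_int {A : E3 → E3 →L[ℝ] ℝ} (hA : Continuous A) (hc : HasCompactSupport A)
    (hd : Disjoint (tsupport A) Axis) {u : E3 → E3} (hu : Integrable u) :
    (Integrable fun x => A x (kk x)) ∧ (Integrable fun x => A x (u x)) := by
  constructor
  · obtain ⟨τ, hτ, ε₀, hε₀, hh⟩ := exists_tau hc hd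
    have e : (fun x => A x (kk x)) = fun x => A x (kt τ x) := by
      ext x
      by_cases hx : x ∈ tsupport A
      · rw [kt_eq (hh x hx x (by simpa using hε₀.le))]
      · rw [image_eq_zero_of_notMem_tsupport hx]
        simp
    rw [e]
    refine (hA.clm_apply (kt_continuous hτ)).integrable_of_hasCompactSupport ?_
    refine HasCompactSupport.intro hc fun x hx => ?_
    rw [image_eq_zero_of_notMem_tsupport hx]
    simp
  · obtain ⟨C, hC⟩ := hc.exists_bound_of_continuous hA
    refine (hu.norm.const_mul C).mono' ?_ (ae_of_all _ fun x => ?_)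
    · exact (ContinuousLinearMap.apply ℝ ℝ).aestronglyMeasurable_comp₂ hu.aestronglyMeasurable
        hA.aestronglyMeasurable
    · refine (ContinuousLinearMap.le_opNorm _ _).trans ?_
      exact mul_le_mul_of_nonneg_right (hC x) (norm_nonneg _)

/-- PROOF: `j'(g) Dg(v) Φ = D(j(g) Φ)(v) - j(g) DΦ(v)`; `Fld.divfree` for `ψ = j(g) Φ` and
`integral_fderiv_kk`. -/
theorem transport {ε : ℝ} (hε : 0 < ε) {u : E3 → E3} {N : ℝ} (h : Fld u N) {j : ℝ → ℝ} {K : ℝ}
    (hj : Ent j K) {Φ : E3 → ℝ} (hΦ : TA Φ) :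
    ∫ x, deriv j (gU ε u x) * fderiv ℝ (gU ε u) x (kk x + u x) * Φ x =
      -∫ x, j (gU ε u x) * (fderiv ℝ Φ x (kk x) + fderiv ℝ Φ x (u x)) := by
  obtain ⟨⟨hΦ1, hΦ2, hΦ3⟩, hΦ4, hΦ5⟩ := hΦ
  have hg1 : ContDiff ℝ 1 (gU ε u) := (gU_contDiff hε h).of_le (by exact_mod_cast le_top)
  have hj1 : ContDiff ℝ 1 j := hj.smooth.of_le (by norm_num)
  have hΦ0 : ContDiff ℝ 1 Φ := hΦ1.of_le (by exact_mod_cast le_top)
  have hψ : ContDiff ℝ 1 fun x => j (gU ε u x) * Φ x := (hj1.comp hg1).mul hΦ0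
  have hψc : HasCompactSupport fun x => j (gU ε u x) * Φ x := hΦ2.mul_left
  have hψd : Disjoint (tsupport fun x => j (gU ε u x) * Φ x) Axis :=
    hΦ5.mono_left (closure_mono fun x hx => by
      simp only [Function.mem_support, ne_eq, mul_eq_zero, not_or] at hx ⊢
      exact hx.2)
  have z1 := integral_fderiv_kk hψ hψc hψd
  have z2 := h.divfree _ hψ
  have cA : Continuous fun x => (deriv j (gU ε u x) * Φ x) • fderiv ℝ (gU ε u) x :=
    (((hj1.continuous_deriv (by norm_num)).comp hg1.continuous).mul hΦ0.continuous).smul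
      (hg1.continuous_fderiv (by norm_num))
  have cB : Continuous fun x => j (gU ε u x) • fderiv ℝ Φ x :=
    (hj1.continuous.comp hg1.continuous).smul (hΦ0.continuous_fderiv (by norm_num))
  have sA : (tsupport fun x => (deriv j (gU ε u x) * Φ x) • fderiv ℝ (gU ε u) x) ⊆
      tsupport Φ := closure_mono fun x hx => by
    simp only [Function.mem_support, ne_eq, smul_eq_zero, mul_eq_zero, not_or] at hx ⊢
    exact hx.1.2
  have sB : (tsupport fun x => j (gU ε u x) • fderiv ℝ Φ x) ⊆ tsupport Φ := by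
    refine (closure_minimal ?_ (isClosed_tsupport _))
    intro x hx
    simp only [Function.mem_support, ne_eq, smul_eq_zero, not_or] at hx
    exact support_fderiv_subset ℝ hx.2
  have kA : HasCompactSupport fun x => (deriv j (gU ε u x) * Φ x) • fderiv ℝ (gU ε u) x :=
    hΦ2.of_isClosed_subset (isClosed_tsupport _) sA
  have kB : HasCompactSupport fun x => j (gU ε u x) • fderiv ℝ Φ x :=
    hΦ2.of_isClosed_subset (isClosed_tsupport _) sB
  obtain ⟨a1, a2⟩ := A3_int cA kA (hΦ5.mono_left sA) (norm_integrable h)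
  obtain ⟨b1, b2⟩ := A3_int cB kB (hΦ5.mono_left sB) (norm_integrable h)
  have ed : ∀ x, fderiv ℝ (fun x => j (gU ε u x) * Φ x) x =
      (deriv j (gU ε u x) * Φ x) • fderiv ℝ (gU ε u) x + j (gU ε u x) • fderiv ℝ Φ x := by
    intro x
    have d1 : HasDerivAt j (deriv j (gU ε u x)) (gU ε u x) :=
      (hj1.differentiable (by norm_num) _).hasDerivAt
    have d2 : HasFDerivAt (gU ε u) (fderiv ℝ (gU ε u) x) x :=
      (hg1.differentiable (by norm_num) _).hasFDerivAt
    have d3 : HasFDerivAt Φ (fderiv ℝ Φ x) x := (hΦ0.differentiable (by norm_num) _).hasFDerivAt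
    have d4 := ((d1.comp_hasFDerivAt x d2).mul d3).fderiv
    have d5 : fderiv ℝ (fun x => j (gU ε u x) * Φ x) x = _ := d4
    rw [d5]
    ext v
    simp
    ring
  simp only [ed] at z1 z2
  have z3 : (∫ x, ((deriv j (gU ε u x) * Φ x) • fderiv ℝ (gU ε u) x) (kk x)) +
      (∫ x, (j (gU ε u x) • fderiv ℝ Φ x) (kk x)) = 0 := by
    rw [← integral_add a1 b1, ← z1]
    rfl
  have z4 : (∫ x, ((deriv j (gU ε u x) * Φ x) • fderiv ℝ (gU ε u) x) (u x)) +
      (∫ x, (j (gU ε u x) • fderiv ℝ Φ x) (u x)) = 0 := by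
    rw [← integral_add a2 b2, ← z2]
    rfl
  have eL : ∫ x, deriv j (gU ε u x) * fderiv ℝ (gU ε u) x (kk x + u x) * Φ x =
      (∫ x, ((deriv j (gU ε u x) * Φ x) • fderiv ℝ (gU ε u) x) (kk x)) +
      (∫ x, ((deriv j (gU ε u x) * Φ x) • fderiv ℝ (gU ε u) x) (u x)) := by
    rw [← integral_add a1 a2]
    refine integral_congr_ae (ae_of_all _ fun x => ?_)
    simp
    ring
  have eR : ∫ x, j (gU ε u x) * (fderiv ℝ Φ x (kk x) + fderiv ℝ Φ x (u x)) =
      (∫ x, (j (gU ε u x) • fderiv ℝ Φ x) (kk x)) +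
      (∫ x, (j (gU ε u x) • fderiv ℝ Φ x) (u x)) := by
    rw [← integral_add b1 b2]
    refine integral_congr_ae (ae_of_all _ fun x => ?_)
    simp
    ring
  rw [eL, eR]
  linarith

end Pool.Agent.W_332fe5
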