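import Pool.Agent.W_332fe5.Core

set_option autoImplicit false

/-!
Block 5 (entropy inequality): definitions.

* `rho ε`: the radial mollifier, `hk ε x y = rho ε (x - y)`.
* `Fld u N`: a field `u` with the regularity given by block 1, with bound `N` (proportional to the
  norm of the coordinate `w`).
* `aU`, `bU`: the functionals `aF`, `bF` in terms of `u`.
* `Ent j K`: the convex functions that are used.
* `GP j Φ u = ∫ j(Γ) (ΔΦ + k · ∇Φ + u · ∇Φ)`.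
-/

open MeasureTheory ProbabilityTheory Set Filter Topology
open scoped ENNReal NNReal

namespace Pool.Agent.W_332fe5

/-- The radial mollifier at scale `ε`. -/
noncomputable def rho (ε : ℝ) (z : E3) : ℝ := (ε ^ 3 * ∫ y, ker y)⁻¹ * ker (ε⁻¹ • z)

/-- The test function `y ↦ rho ε (x - y)`. -/
noncomputable def hk (ε : ℝ) (x y : E3) : ℝ := rho ε (x - y)

/-- `K_ε (z) = z · ∇ρ_ε (z) + 3 ρ_ε (z) = div (z ρ_ε)`. -/
noncomputable def Kep (ε : ℝ) (z : E3) : ℝ := fderiv ℝ (rho ε) z z + 3 * rho ε z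

/-- What block 5 needs of the field `u = A^(-β) w`; `N` is a multiple of `‖w‖`. -/
structure Fld (u : E3 → E3) (N : ℝ) : Prop where
  meas : StronglyMeasurable u
  supp : ∀ᵐ x ∂(volume : Measure E3), x ∉ Bl → u x = 0
  nonneg : 0 ≤ N
  norm : eLpNorm u 2 volume ≤ ENNReal.ofReal N
  hardy : ∫⁻ x in Bl, ‖u x‖ₑ ^ 2 * ENNReal.ofReal (yy x ^ (-(3 / 2) : ℝ)) ≤ ENNReal.ofReal (N ^ 2)
  shift : ∀ z : E3, eLpNorm (fun x => u (x + z) - u x) 2 volume ≤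
    ENNReal.ofReal (N * ‖z‖ ^ (3 / 4 : ℝ))
  divfree : ∀ ψ : E3 → ℝ, ContDiff ℝ 1 ψ → ∫ x, fderiv ℝ ψ x (u x) = 0

/-- The facts wanted from block 1. -/
structure Need5 (δ : ℝ) (A : L2 →L[ℝ] L2) (K : ℝ) : Prop where
  fld_eq : ∀ w, fld Bl δ w = A w
  mem : ∀ w, A w ∈ Hs Bl
  pos : 0 < K
  hardy : ∀ w, ∫⁻ x in Bl, ‖A w x‖ₑ ^ 2 * ENNReal.ofReal (yy x ^ (-(3 / 2) : ℝ)) ≤
    ENNReal.ofReal (K * ‖w‖ ^ 2)
  shift : ∀ w (z : E3), eLpNorm (fun x => A w (x + z) - A w x) 2 volume ≤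
    ENNReal.ofReal (K * ‖z‖ ^ (3 / 4 : ℝ) * ‖w‖)

/-- The swirl of `u`. -/
noncomputable def gam (u : E3 → E3) (x : E3) : ℝ := inner ℝ (u x) (mm x)

/-- `aF` in terms of `u`. -/
noncomputable def aU (u : E3 → E3) (h : E3 → ℝ) : ℝ :=
  ∫ x, gam u x * (slap h x + fderiv ℝ h x (kk x) + fderiv ℝ h x (u x))

/-- `bF` in terms of `u` (`c` is the constant `cc zt`). -/
noncomputable def bU (c : ℝ) (u : E3 → E3) (h : E3 → ℝ) : ℝ :=
  -c * ∫ x, gam u x * (fderiv ℝ h x x + 3 * h x)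

theorem aF_eq (δ : ℝ) (w : L2) (h : E3 → ℝ) : aF δ w h = aU (fld Bl δ w) h := rfl

theorem bF_eq (zt δ : ℝ) (w : L2) (h : E3 → ℝ) : bF zt δ w h = bU (cc zt) (fld Bl δ w) h := rfl

/-- The mollified swirl `g(x) = ∫ Γ(y) ρ_ε(x - y) dy`. -/
noncomputable def gU (ε : ℝ) (u : E3 → E3) (x : E3) : ℝ := ∫ y, gam u y * hk ε x y

/-- The convex functions. -/
structure Ent (j : ℝ → ℝ) (K : ℝ) : Prop where
  smooth : ContDiff ℝ 3 j
  d1 : ∀ s, |deriv j s| ≤ K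
  d2 : ∀ s, |iteratedDeriv 2 j s| ≤ K
  d3 : ∀ s, |iteratedDeriv 3 j s| ≤ K
  conv : ∀ s, 0 ≤ iteratedDeriv 2 j s
  nonneg : ∀ s, 0 ≤ j s
  zero : j 0 = 0

/-- `∫ j(Γ) Φ`. -/
noncomputable def JP (j : ℝ → ℝ) (Φ : E3 → ℝ) (u : E3 → E3) : ℝ := ∫ x, j (gam u x) * Φ x

/-- `∫ j(Γ) (ΔΦ + k · ∇Φ + u · ∇Φ)`. -/
noncomputable def GP (j : ℝ → ℝ) (Φ : E3 → ℝ) (u : E3 → E3) : ℝ :=
  ∫ x, j (gam u x) * (slap Φ x + fderiv ℝ Φ x (kk x) + fderiv ℝ Φ x (u x))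

/-- The axis. -/
def Axis : Set E3 := {x | ax2 x = 0}

/-- Nonnegative test functions on the ball minus the axis. -/
structure TA (Φ : E3 → ℝ) : Prop where
  cb : Φ ∈ CB
  nonneg : ∀ x, 0 ≤ Φ x
  off : Disjoint (tsupport Φ) Axis

/-- The left side of the deterministic inequality (5.1). -/
noncomputable def LU (c ε : ℝ) (j : ℝ → ℝ) (Φ : E3 → ℝ) (u : E3 → E3) : ℝ :=
  ∫ x, (deriv j (gU ε u x) * aU u (hk ε x) +
    iteratedDeriv 2 j (gU ε u x) * bU c u (hk ε x) ^ 2 / 2) * Φ x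

end Pool.Agent.W_332fe5
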