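import Pool.Agent.W_332fe5_h65.Y0
import Pool.Agent.W_332fe5_h65.A3

set_option autoImplicit false

/-! Block 5, Y1: the error terms of (5.1). -/

open MeasureTheory ProbabilityTheory Set Filter Topology
open scoped ENNReal NNReal ContDiff

namespace Pool.Agent.W_332fe5

private theorem Y1_compact {ε : ℝ} {K : E3 → ℝ} (hK0 : ∀ z, ε ≤ ‖z‖ → K z = 0) :
    HasCompactSupport K := by
  refine HasCompactSupport.of_support_subset_isCompact (isCompact_closedBall (0 : E3) ε) ?_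
  intro z hz
  rw [Metric.mem_closedBall, dist_zero_right]
  by_contra hcon
  exact hz (hK0 z (not_le.1 hcon).le)

private theorem Y1_conv {u : E3 → E3} {N : ℝ} (h : Fld u N) {ε : ℝ} {K : E3 → ℝ}
    (hK : Continuous K) (hK0 : ∀ z, ε ≤ ‖z‖ → K z = 0) (x : E3) :
    ∫ y, gam u y * K (x - y) =
      (∫ z, K z * (gam u (x - z) - gam u x)) + gam u x * ∫ z, K z := by
  have hc := Y1_compact hK0
  obtain ⟨M, hM⟩ := hK.bounded_above_of_compact_support hc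
  have hKi : Integrable K := hK.integrable_of_hasCompactSupport hc
  have h1 : Integrable fun z => K z * gam u (x - z) :=
    ((gam_integrable h).comp_sub_left x).bdd_mul (c := M) hK.aestronglyMeasurable
      (Filter.Eventually.of_forall hM)
  have h2 : Integrable fun z => K z * gam u x := hKi.mul_const _
  have h3 : ∫ y, gam u y * K (x - y) = ∫ z, K z * gam u (x - z) := by
    rw [← integral_sub_left_eq_self (fun y => gam u y * K (x - y)) volume x]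
    refine integral_congr_ae (Filter.Eventually.of_forall fun z => ?_)
    simp only [sub_sub_cancel]
    ring
  have h4 : ∫ z, K z * (gam u (x - z) - gam u x) =
      (∫ z, K z * gam u (x - z)) - ∫ z, K z * gam u x := by
    rw [← integral_sub h1 h2]
    refine integral_congr_ae (Filter.Eventually.of_forall fun z => ?_)
    ring
  rw [h3, h4, integral_mul_const]
  ring

/-- the shift estimate for the swirl -/
private theorem Y1_shift {u : E3 → E3} {N : ℝ} (h : Fld u N) {ε : ℝ} (hε1 : ε ≤ 1)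
    {z : E3} (hz : ‖z‖ ≤ ε) :
    eLpNorm (fun x => gam u (x - z) - gam u x) 2 volume ≤
      ENNReal.ofReal (3 * N * ε ^ (3 / 4 : ℝ)) := by
  have h1 := gam_shift h (-z) (by rw [norm_neg]; exact hz.trans hε1)
  have hN := h.nonneg
  simp only [← sub_eq_add_neg, norm_neg] at h1
  refine h1.trans (ENNReal.ofReal_le_ofReal ?_)
  have h2 : ‖z‖ ^ (3 / 4 : ℝ) ≤ ε ^ (3 / 4 : ℝ) :=
    Real.rpow_le_rpow (norm_nonneg z) hz (by norm_num)
  exact mul_le_mul_of_nonneg_left h2 (by positivity)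

/-- the shift estimate for the field -/
private theorem Y1_shift_u {u : E3 → E3} {N : ℝ} (h : Fld u N) {ε : ℝ}
    {z : E3} (hz : ‖z‖ ≤ ε) :
    eLpNorm (fun x => u (x - z) - u x) 2 volume ≤
      ENNReal.ofReal (N * ε ^ (3 / 4 : ℝ)) := by
  have h1 := h.shift (-z)
  have hN := h.nonneg
  simp only [← sub_eq_add_neg, norm_neg] at h1
  refine h1.trans (ENNReal.ofReal_le_ofReal ?_)
  have h2 : ‖z‖ ^ (3 / 4 : ℝ) ≤ ε ^ (3 / 4 : ℝ) :=
    Real.rpow_le_rpow (norm_nonneg z) hz (by norm_num)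
  exact mul_le_mul_of_nonneg_left h2 hN

private theorem Y1_sq {u : E3 → E3} {N : ℝ} (h : Fld u N) {ε : ℝ} (hε1 : ε ≤ 1)
    {K : E3 → ℝ} (hK : Continuous K) (hK0 : ∀ z, ε ≤ ‖z‖ → K z = 0) :
    ∫⁻ x, ‖∫ z, K z * (gam u (x - z) - gam u x)‖ₑ ^ 2 ≤
      (∫⁻ z, ‖K z‖ₑ) ^ 2 * ENNReal.ofReal (3 * N * ε ^ (3 / 4 : ℝ)) ^ 2 := by
  refine le_trans (lintegral_mono fun x => ?_) (diff_sq (gam_meas h) (Q := fun z => ‖K z‖ₑ)
    hK.enorm.measurable (ε := ε) (fun z hz => by rw [hK0 z hz.le, enorm_zero])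
    (fun z hz => Y1_shift h hε1 hz))
  have h1 : ‖∫ z, K z * (gam u (x - z) - gam u x)‖ₑ ≤
      ∫⁻ z, ‖K z‖ₑ * ‖gam u (x - z) - gam u x‖ₑ := by
    refine (enorm_integral_le_lintegral_enorm _).trans (le_of_eq ?_)
    refine lintegral_congr fun z => ?_
    rw [enorm_mul]
  gcongr

/-- PROOF: `g(x) - Γ(x) = ∫ ρ_ε(z) (Γ(x - z) - Γ(x)) dz` (`rho_integral`), `diff_sq`, `gam_shift`. -/
theorem gU_sub : ∃ C : ℝ, 0 ≤ C ∧ ∀ (ε : ℝ), 0 < ε → ε ≤ 1 → ∀ (u : E3 → E3) (N : ℝ), Fld u N →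
    eLpNorm (fun x => gU ε u x - gam u x) 2 volume ≤ ENNReal.ofReal (C * ε ^ (3 / 4 : ℝ) * N) := by
  refine ⟨3, by norm_num, fun ε hε hε1 u N h => ?_⟩
  have hcont : Continuous (rho ε) := (rho_contDiff ε).continuous
  have h0 : ∀ z : E3, ε ≤ ‖z‖ → rho ε z = 0 := fun z hz => rho_zero hε hz
  have hint : Integrable (rho ε) := hcont.integrable_of_hasCompactSupport (Y1_compact h0)
  have h1 : ∀ x, gU ε u x - gam u x = ∫ z, rho ε z * (gam u (x - z) - gam u x) := by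
    intro x
    unfold gU hk
    rw [Y1_conv h hcont h0 x, rho_integral hε]
    ring
  have h2 : ∫⁻ z, ‖rho ε z‖ₑ = 1 := by
    have h3 : ∫⁻ z, ‖rho ε z‖ₑ = ∫⁻ z, ENNReal.ofReal (rho ε z) := by
      refine lintegral_congr fun z => ?_
      rw [Real.enorm_eq_ofReal (rho_nonneg hε z)]
    rw [h3, ← ofReal_integral_eq_lintegral_ofReal hint
      (Filter.Eventually.of_forall fun z => rho_nonneg hε z), rho_integral hε, ENNReal.ofReal_one]
  have h4 := Y1_sq h hε1 hcont h0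
  rw [h2, one_pow, one_mul] at h4
  rw [eLpNorm_eq_lintegral_rpow_enorm_toReal (by norm_num) (by norm_num)]
  simp only [ENNReal.toReal_ofNat, ENNReal.rpow_ofNat]
  simp_rw [h1]
  refine (ENNReal.rpow_le_rpow h4 (by norm_num)).trans (le_of_eq ?_)
  rw [← ENNReal.rpow_natCast, ← ENNReal.rpow_mul]
  norm_num
  congr 1
  ring

/-- PROOF: `K_ε * Γ(x) = ∫ K_ε(z) (Γ(x - z) - Γ(x)) dz` (`integral_Kep`), `diff_sq`, `gam_shift`,
`exists_Kep_bound`. -/
theorem KG_sq : ∃ C : ℝ, 0 ≤ C ∧ ∀ (ε : ℝ), 0 < ε → ε ≤ 1 → ∀ (u : E3 → E3) (N : ℝ), Fld u N →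
    ∫⁻ x, ‖KG ε u x‖ₑ ^ 2 ≤ ENNReal.ofReal (C * ε ^ (3 / 2 : ℝ) * N ^ 2) := by
  obtain ⟨C0, hC0, hC⟩ := exists_Kep_bound
  refine ⟨9 * C0 ^ 2, by positivity, fun ε hε hε1 u N h => ?_⟩
  have hN := h.nonneg
  have h0 : ∀ z : E3, ε ≤ ‖z‖ → Kep ε z = 0 := fun z hz => Kep_zero hε hz
  have h1 : ∀ x, KG ε u x = ∫ z, Kep ε z * (gam u (x - z) - gam u x) := by
    intro x
    unfold KG
    rw [Y1_conv h (Kep_continuous ε) h0 x, integral_Kep hε]
    ring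
  simp_rw [h1]
  refine (Y1_sq h hε1 (Kep_continuous ε) h0).trans ?_
  have h2 : (∫⁻ z, ‖Kep ε z‖ₑ) ^ 2 ≤ ENNReal.ofReal C0 ^ 2 := by
    gcongr
    exact hC ε hε
  refine (mul_le_mul_left h2 _).trans (le_of_eq ?_)
  have h3 : ε ^ (3 / 2 : ℝ) = (ε ^ (3 / 4 : ℝ)) ^ 2 := by
    rw [← Real.rpow_natCast, ← Real.rpow_mul hε.le]
    norm_num
  rw [← ENNReal.ofReal_pow hC0, ← ENNReal.ofReal_pow (by positivity),
    ← ENNReal.ofReal_mul (by positivity), h3]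
  congr 1
  ring

private theorem Y1_rU {u : E3 → E3} {N : ℝ} (h : Fld u N) {ε τ : ℝ} (hε : 0 < ε)
    (hτ : 0 < τ) (x : E3) :
    ‖rU ε τ u x‖ₑ ≤
      (∫⁻ z, ‖fderiv ℝ (rho ε) z‖ₑ * (‖gam u (x - z) - gam u x‖ₑ * ‖u (x - z) - u x‖ₑ)) +
      ENNReal.ofReal (6 / τ * ε) *
        ∫⁻ z, ‖fderiv ℝ (rho ε) z‖ₑ * ‖gam u (x - z) - gam u x‖ₑ := by
  have hQ : Continuous fun z => fderiv ℝ (rho ε) z :=
    (rho_contDiff ε).continuous_fderiv (by simp)
  have hg := (gam_meas h).measurable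
  have hu := h.meas
  have hm1 : Measurable fun z => ‖fderiv ℝ (rho ε) z‖ₑ * ‖gam u (x - z) - gam u x‖ₑ := by
    refine hQ.enorm.measurable.mul ?_
    exact ((hg.comp (measurable_const.sub measurable_id)).sub measurable_const).enorm
  rw [← lintegral_const_mul _ hm1, ← lintegral_add_right _ (hm1.const_mul _)]
  have h1 : ‖rU ε τ u x‖ₑ ≤ ∫⁻ z, ‖(gam u (x - z) - gam u x) *
      fderiv ℝ (rho ε) z (vv τ u (x - z) - vv τ u x)‖ₑ := by
    unfold rU
    refine (enorm_integral_le_lintegral_enorm _).trans (le_of_eq ?_)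
    rw [← lintegral_sub_left_eq_self (fun y => ‖(gam u y - gam u x) *
      fderiv ℝ (rho ε) (x - y) (vv τ u y - vv τ u x)‖ₑ) x]
    refine lintegral_congr fun z => ?_
    rw [sub_sub_cancel]
  refine h1.trans (lintegral_mono fun z => ?_)
  by_cases hz : ε ≤ ‖z‖
  · beta_reduce
    rw [fderiv_rho_zero hε hz]
    simp
  · have hz' : ‖z‖ ≤ ε := (not_le.1 hz).le
    have h2 : ‖vv τ u (x - z) - vv τ u x‖ₑ ≤ ‖u (x - z) - u x‖ₑ + ENNReal.ofReal (6 / τ * ε) := by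
      have e1 : vv τ u (x - z) - vv τ u x = (u (x - z) - u x) + (kt τ (x - z) - kt τ x) := by
        unfold vv
        abel
      rw [e1]
      refine (enorm_add_le _ _).trans (add_le_add le_rfl ?_)
      rw [← ofReal_norm]
      refine ENNReal.ofReal_le_ofReal ((kt_lipschitz hτ _ _).trans ?_)
      have e2 : ‖x - z - x‖ ≤ ε := by
        rw [show x - z - x = -z by abel, norm_neg]
        exact hz'
      exact mul_le_mul_of_nonneg_left e2 (by positivity)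
    rw [enorm_mul]
    have h3 : ‖fderiv ℝ (rho ε) z (vv τ u (x - z) - vv τ u x)‖ₑ ≤
        ‖fderiv ℝ (rho ε) z‖ₑ * (‖u (x - z) - u x‖ₑ + ENNReal.ofReal (6 / τ * ε)) :=
      (ContinuousLinearMap.le_opENorm _ _).trans (mul_le_mul_right h2 _)
    refine (mul_le_mul_right h3 _).trans (le_of_eq ?_)
    ring

/-- PROOF: `|r(x)| ≤ ∫ |Γ(x-z) - Γ(x)| ‖Dρ(z)‖ (|u(x-z) - u(x)| + |kt(x-z) - kt(x)|) dz`; the part
with `u` by `diff_prod`, `exists_fderiv_rho_bound`; the part with `kt`: `|kt(x-z) - kt(x)| ≤ 6ε/τ`,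
and `∫ |Γ(x-z) - Γ(x)| Φ(x) dx ≤ ‖Φ‖₂ ‖δ Γ‖₂`. -/
theorem rU_bound {Φ : E3 → ℝ} (hΦ : Φ ∈ CB) {τ : ℝ} (hτ : 0 < τ) :
    ∃ C : ℝ, 0 ≤ C ∧ ∀ (ε : ℝ), 0 < ε → ε ≤ 1 → ∀ (u : E3 → E3) (N : ℝ), Fld u N →
    ∫⁻ x, ‖rU ε τ u x‖ₑ * ‖Φ x‖ₑ ≤ ENNReal.ofReal (C * ε ^ (1 / 2 : ℝ) * (1 + N ^ 2)) := by
  obtain ⟨C1, hC1, hD⟩ := exists_fderiv_rho_bound
  obtain ⟨hΦ1, hΦ2, hΦ3⟩ := hΦ
  have hΦc : Continuous Φ := hΦ1.continuous
  obtain ⟨M, hM⟩ := hΦc.bounded_above_of_compact_support hΦ2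
  have hM0 : 0 ≤ M := (norm_nonneg _).trans (hM 0)
  have hΦL : MemLp Φ 2 volume := hΦc.memLp_of_hasCompactSupport hΦ2
  obtain ⟨F, hF⟩ : ∃ F : ℝ, F = (eLpNorm Φ 2 volume).toReal := ⟨_, rfl⟩
  have hF0 : 0 ≤ F := by
    rw [hF]
    exact ENNReal.toReal_nonneg
  have hFe : eLpNorm Φ 2 volume = ENNReal.ofReal F := by
    rw [hF, ENNReal.ofReal_toReal hΦL.eLpNorm_ne_top]
  refine ⟨3 * M * C1 + 18 * C1 / τ * F, by positivity, fun ε hε hε1 u N h => ?_⟩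
  have hN := h.nonneg
  have hQc : Continuous fun z => fderiv ℝ (rho ε) z :=
    (rho_contDiff ε).continuous_fderiv (by simp)
  have hQm : Measurable fun z => ‖fderiv ℝ (rho ε) z‖ₑ := hQc.enorm.measurable
  have hg := (gam_meas h)
  have hu := h.meas
  have hQ0 : ∀ z : E3, ε < ‖z‖ → ‖fderiv ℝ (rho ε) z‖ₑ = 0 := by
    intro z hz
    have h0 : fderiv ℝ (rho ε) z = 0 := fderiv_rho_zero hε hz.le
    rw [← ofReal_norm, h0, norm_zero, ENNReal.ofReal_zero]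
  have hQi := hD ε hε
  obtain ⟨e, he⟩ : ∃ e : ℝ, e = ε ^ (3 / 4 : ℝ) := ⟨_, rfl⟩
  have he0 : 0 ≤ e := by
    rw [he]
    positivity
  -- measurability in two variables
  have hd : Measurable fun q : E3 × E3 => q.1 - q.2 := measurable_fst.sub measurable_snd
  have hmG : Measurable fun q : E3 × E3 => ‖gam u (q.1 - q.2) - gam u q.1‖ₑ :=
    ((hg.measurable.comp hd).sub (hg.measurable.comp measurable_fst)).enorm
  have hmU : Measurable fun q : E3 × E3 => ‖u (q.1 - q.2) - u q.1‖ₑ :=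
    ((hu.comp_measurable hd).sub (hu.comp_measurable measurable_fst)).enorm
  have hm1 : Measurable fun x => ∫⁻ z, ‖fderiv ℝ (rho ε) z‖ₑ *
      (‖gam u (x - z) - gam u x‖ₑ * ‖u (x - z) - u x‖ₑ) :=
    Measurable.lintegral_prod_right' (f := fun q : E3 × E3 => ‖fderiv ℝ (rho ε) q.2‖ₑ *
      (‖gam u (q.1 - q.2) - gam u q.1‖ₑ * ‖u (q.1 - q.2) - u q.1‖ₑ))
      ((hQm.comp measurable_snd).mul (hmG.mul hmU))
  have hm2 : Measurable fun x => ∫⁻ z, ‖fderiv ℝ (rho ε) z‖ₑ * ‖gam u (x - z) - gam u x‖ₑ :=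
    Measurable.lintegral_prod_right' (f := fun q : E3 × E3 => ‖fderiv ℝ (rho ε) q.2‖ₑ *
      ‖gam u (q.1 - q.2) - gam u q.1‖ₑ) ((hQm.comp measurable_snd).mul hmG)
  -- first part
  have p1 := diff_prod hg hu (Q := fun z => ‖fderiv ℝ (rho ε) z‖ₑ) hQm hQ0
    (fun z hz => Y1_shift h hε1 hz) (fun z hz => Y1_shift_u h hz)
  have p2 := diff_sq hg (Q := fun z => ‖fderiv ℝ (rho ε) z‖ₑ) hQm hQ0
    (fun z hz => Y1_shift h hε1 hz)
  rw [← he] at p1 p2
  have p2' : ∫⁻ x, (∫⁻ z, ‖fderiv ℝ (rho ε) z‖ₑ * ‖gam u (x - z) - gam u x‖ₑ) * ‖Φ x‖ₑ ≤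
      ENNReal.ofReal (C1 / ε) * ENNReal.ofReal (3 * N * e) * ENNReal.ofReal F := by
    refine (ENNReal.lintegral_mul_le_Lp_mul_Lq volume (p := 2) (q := 2)
      Real.HolderConjugate.two_two hm2.aemeasurable hΦc.enorm.measurable.aemeasurable).trans ?_
    refine mul_le_mul' ?_ (le_of_eq ?_)
    · simp only [ENNReal.rpow_ofNat]
      refine (ENNReal.rpow_le_rpow p2 (by norm_num)).trans ?_
      rw [← mul_pow, ← ENNReal.rpow_natCast, ← ENNReal.rpow_mul]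
      norm_num
      gcongr
    · rw [← hFe, eLpNorm_eq_lintegral_rpow_enorm_toReal (by norm_num) (by norm_num)]
      simp
  have hMe : ∀ x, ‖Φ x‖ₑ ≤ ENNReal.ofReal M := by
    intro x
    rw [← ofReal_norm]
    exact ENNReal.ofReal_le_ofReal (hM x)
  calc ∫⁻ x, ‖rU ε τ u x‖ₑ * ‖Φ x‖ₑ
      ≤ ∫⁻ x, (ENNReal.ofReal M * (∫⁻ z, ‖fderiv ℝ (rho ε) z‖ₑ *
          (‖gam u (x - z) - gam u x‖ₑ * ‖u (x - z) - u x‖ₑ)) +
          ENNReal.ofReal (6 / τ * ε) *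
          ((∫⁻ z, ‖fderiv ℝ (rho ε) z‖ₑ * ‖gam u (x - z) - gam u x‖ₑ) * ‖Φ x‖ₑ)) := by
        refine lintegral_mono fun x => ?_
        refine (mul_le_mul_left (Y1_rU h hε hτ x) _).trans ?_
        rw [add_mul, mul_assoc (ENNReal.ofReal (6 / τ * ε))]
        refine add_le_add ?_ le_rfl
        rw [mul_comm]
        exact mul_le_mul_left (hMe x) _
    _ = ENNReal.ofReal M * (∫⁻ x, ∫⁻ z, ‖fderiv ℝ (rho ε) z‖ₑ *
          (‖gam u (x - z) - gam u x‖ₑ * ‖u (x - z) - u x‖ₑ)) +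
          ENNReal.ofReal (6 / τ * ε) *
          ∫⁻ x, (∫⁻ z, ‖fderiv ℝ (rho ε) z‖ₑ * ‖gam u (x - z) - gam u x‖ₑ) * ‖Φ x‖ₑ := by
        have hm3 : Measurable fun x => (∫⁻ z, ‖fderiv ℝ (rho ε) z‖ₑ *
            ‖gam u (x - z) - gam u x‖ₑ) * ‖Φ x‖ₑ := hm2.mul hΦc.enorm.measurable
        rw [lintegral_add_left (hm1.const_mul _), lintegral_const_mul _ hm1,
          lintegral_const_mul _ hm3]
    _ ≤ ENNReal.ofReal M * (ENNReal.ofReal (C1 / ε) *
          (ENNReal.ofReal (3 * N * e) * ENNReal.ofReal (N * e))) +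
          ENNReal.ofReal (6 / τ * ε) *
          (ENNReal.ofReal (C1 / ε) * ENNReal.ofReal (3 * N * e) * ENNReal.ofReal F) := by
        refine add_le_add (mul_le_mul_right (p1.trans ?_) _) (mul_le_mul_right p2' _)
        exact mul_le_mul_left hQi _
    _ = ENNReal.ofReal (3 * M * C1 * (e * e / ε) * N ^ 2 + 18 * C1 / τ * F * e * N) := by
        rw [← ENNReal.ofReal_mul (by positivity), ← ENNReal.ofReal_mul (by positivity),
          ← ENNReal.ofReal_mul (by positivity), ← ENNReal.ofReal_mul (by positivity),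
          ← ENNReal.ofReal_mul (by positivity), ← ENNReal.ofReal_mul (by positivity),
          ← ENNReal.ofReal_add (by positivity) (by positivity)]
        congr 1
        field_simp
        ring
    _ ≤ _ := by
        refine ENNReal.ofReal_le_ofReal ?_
        have e1 : e * e / ε = ε ^ (1 / 2 : ℝ) := by
          rw [he, ← Real.rpow_add hε, div_eq_iff hε.ne']
          nth_rewrite 3 [← Real.rpow_one ε]
          rw [← Real.rpow_add hε]
          norm_num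
        have e2 : e ≤ ε ^ (1 / 2 : ℝ) := by
          rw [he]
          exact Real.rpow_le_rpow_of_exponent_ge hε hε1 (by norm_num)
        have e3 : N ≤ 1 + N ^ 2 := by nlinarith [sq_nonneg (N - 1)]
        have e4 : N ^ 2 ≤ 1 + N ^ 2 := by linarith
        have e5 : 0 ≤ ε ^ (1 / 2 : ℝ) := by positivity
        rw [e1]
        have e6 : 3 * M * C1 * ε ^ (1 / 2 : ℝ) * N ^ 2 ≤
            3 * M * C1 * ε ^ (1 / 2 : ℝ) * (1 + N ^ 2) := by gcongr
        have e7 : 18 * C1 / τ * F * e * N ≤ 18 * C1 / τ * F * ε ^ (1 / 2 : ℝ) * (1 + N ^ 2) := by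
          gcongr
        linarith

end Pool.Agent.W_332fe5
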