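import Pool.Agent.W_332fe5_h65.A2
import Pool.Agent.W_332fe5_h65.Y1

set_option autoImplicit false

/-! Block 5, D1: the deterministic entropy inequality (5.1). -/

open MeasureTheory ProbabilityTheory Set Filter Topology
open scoped ENNReal NNReal ContDiff

namespace Pool.Agent.W_332fe5

/-- Convex functions as in `Ent` satisfy `|j s| ≤ K |s|`, and are `K`-Lipschitz. -/
theorem Ent.lip {j : ℝ → ℝ} {K : ℝ} (hj : Ent j K) (s t : ℝ) : |j s - j t| ≤ K * |s - t| := by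
  have hd : Differentiable ℝ j := hj.smooth.differentiable (by norm_num)
  have h := Convex.norm_image_sub_le_of_norm_deriv_le (f := j) (C := K) (s := Set.univ) (x := t)
    (y := s) (fun x _ => hd x) (fun x _ => by rw [Real.norm_eq_abs]; exact hj.d1 x) convex_univ
    (mem_univ _) (mem_univ _)
  rwa [Real.norm_eq_abs, Real.norm_eq_abs] at h

theorem Ent.le {j : ℝ → ℝ} {K : ℝ} (hj : Ent j K) (s : ℝ) : j s ≤ K * |s| := by
  have h := hj.lip s 0
  rw [hj.zero, sub_zero, sub_zero] at h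
  exact (le_abs_self _).trans h

private theorem D1_aux_K {j : ℝ → ℝ} {K : ℝ} (hj : Ent j K) : 0 ≤ K :=
  (abs_nonneg _).trans (hj.d1 0)

private theorem D1_aux_abs {a b : ℝ} (h : ‖a‖ₑ ≤ ENNReal.ofReal b) (hb : 0 ≤ b) : |a| ≤ b := by
  rw [Real.enorm_eq_ofReal_abs] at h
  exact (ENNReal.ofReal_le_ofReal_iff hb).1 h

/-- the Laplacian of a test function is continuous with compact support -/
private theorem D1_aux_slap {Φ : E3 → ℝ} (hΦ : Φ ∈ CB) :
    Continuous (slap Φ) ∧ HasCompactSupport (slap Φ) := by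
  obtain ⟨h1, h2, _⟩ := hΦ
  have h3 : ∀ i : Fin 3, ContDiff ℝ 1 (fun z => fderiv ℝ Φ z (EuclideanSpace.single i 1)) := by
    intro i
    exact (h1.fderiv_right (m := 1) (by norm_cast)).clm_apply contDiff_const
  have h4 : ∀ i : Fin 3, Continuous (fun x =>
      fderiv ℝ (fun z => fderiv ℝ Φ z (EuclideanSpace.single i 1)) x
        (EuclideanSpace.single i 1)) := by
    intro i
    exact ((h3 i).continuous_fderiv (by norm_num)).clm_apply continuous_const
  have h5 : ∀ i : Fin 3, HasCompactSupport (fun x =>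
      fderiv ℝ (fun z => fderiv ℝ Φ z (EuclideanSpace.single i 1)) x
        (EuclideanSpace.single i 1)) := by
    intro i
    exact (h2.fderiv_apply (𝕜 := ℝ) _).fderiv_apply (𝕜 := ℝ) _
  constructor
  · unfold slap
    exact continuous_finset_sum _ fun i _ => h4 i
  · have h6 : slap Φ = fun x => (fderiv ℝ (fun z => fderiv ℝ Φ z (EuclideanSpace.single 0 1)) x
        (EuclideanSpace.single 0 1) + fderiv ℝ (fun z => fderiv ℝ Φ z (EuclideanSpace.single 1 1)) x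
        (EuclideanSpace.single 1 1)) + fderiv ℝ (fun z => fderiv ℝ Φ z
        (EuclideanSpace.single 2 1)) x (EuclideanSpace.single 2 1) := by
      funext x
      unfold slap
      rw [Fin.sum_univ_three]
    rw [h6]
    exact ((h5 0).add (h5 1)).add (h5 2)

/-- `∇Φ · k` is continuous with compact support -/
private theorem D1_aux_kk {Φ : E3 → ℝ} (hΦ : TA Φ) {τ : ℝ} (hτ : 0 < τ)
    (h : ∀ x ∈ tsupport Φ, τ ≤ ax2 x) :
    Continuous (fun x => fderiv ℝ Φ x (kk x)) ∧ HasCompactSupport (fun x => fderiv ℝ Φ x (kk x)) := by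
  obtain ⟨h1, h2, _⟩ := hΦ.cb
  have h3 : (fun x => fderiv ℝ Φ x (kk x)) = fun x => fderiv ℝ Φ x (kt τ x) := by
    funext x
    by_cases hx : x ∈ tsupport Φ
    · rw [kt_eq (h x hx)]
    · have h4 : fderiv ℝ Φ x = 0 := by
        by_contra hne
        exact hx (support_fderiv_subset ℝ hne)
      rw [h4]
      rfl
  constructor
  · rw [h3]
    exact (h1.continuous_fderiv (by norm_num)).clm_apply (kt_continuous hτ)
  · refine (h2.fderiv (𝕜 := ℝ)).mono ?_
    intro x hx hne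
    apply hx
    change fderiv ℝ Φ x (kk x) = 0
    rw [hne]
    rfl

/-- `∇Φ · u` for a field `u` -/
private theorem D1_aux_u {Φ : E3 → ℝ} (hΦ : Φ ∈ CB) : ∃ M : ℝ, 0 ≤ M ∧ ∀ (u : E3 → E3) (N : ℝ),
    Fld u N → MemLp (fun x => fderiv ℝ Φ x (u x)) 2 volume ∧
      eLpNorm (fun x => fderiv ℝ Φ x (u x)) 2 volume ≤ ENNReal.ofReal (M * N) := by
  obtain ⟨h1, h2, _⟩ := hΦ
  have h3 : Continuous (fderiv ℝ Φ) := h1.continuous_fderiv (by norm_num)
  obtain ⟨M, hM⟩ := h3.bounded_above_of_compact_support (h2.fderiv (𝕜 := ℝ))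
  have hM0 : 0 ≤ M := (norm_nonneg _).trans (hM 0)
  refine ⟨M, hM0, fun u N hu => ?_⟩
  have hm : StronglyMeasurable (fun x => fderiv ℝ Φ x (u x)) :=
    isBoundedBilinearMap_apply.continuous.comp_stronglyMeasurable
      (h3.stronglyMeasurable.prodMk hu.meas)
  have hb : ∀ᵐ x ∂(volume : Measure E3), ‖fderiv ℝ Φ x (u x)‖ ≤ M * ‖u x‖ := by
    refine Filter.Eventually.of_forall fun x => ?_
    exact (ContinuousLinearMap.le_opNorm _ _).trans
      (mul_le_mul_of_nonneg_right (hM x) (norm_nonneg _))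
  refine ⟨hu.memLp.of_le_mul hm.aestronglyMeasurable hb, ?_⟩
  refine (eLpNorm_le_mul_eLpNorm_of_ae_le_mul hb 2).trans ?_
  rw [ENNReal.ofReal_mul hM0]
  gcongr
  exact hu.norm

/-- Cauchy-Schwarz -/
private theorem D1_aux_cs {f g : E3 → ℝ} {a b : ℝ} (hf : MemLp f 2 volume) (hg : MemLp g 2 volume)
    (ha : 0 ≤ a) (hb : 0 ≤ b) (hfa : eLpNorm f 2 volume ≤ ENNReal.ofReal a)
    (hgb : eLpNorm g 2 volume ≤ ENNReal.ofReal b) : |∫ x, f x * g x| ≤ a * b := by
  apply D1_aux_abs _ (mul_nonneg ha hb)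
  refine (enorm_integral_le_lintegral_enorm _).trans ?_
  have h1 := eLpNorm_smul_le_mul_eLpNorm (p := 2) (q := 2) (r := 1) hg.1 hf.1
  rw [eLpNorm_one_eq_lintegral_enorm] at h1
  rw [ENNReal.ofReal_mul ha]
  exact h1.trans (mul_le_mul' hfa hgb)

private theorem D1_aux_gU {ε : ℝ} (hε : 0 < ε) (hε1 : ε ≤ 1) {u : E3 → E3} {N : ℝ} (h : Fld u N) :
    MemLp (fun x => gU ε u x - gam u x) 2 volume ∧ MemLp (gU ε u) 2 volume := by
  obtain ⟨C, _, hC⟩ := gU_sub
  have h1 : MemLp (fun x => gU ε u x - gam u x) 2 volume :=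
    ⟨(gU_contDiff hε h).continuous.aestronglyMeasurable.sub (gam_meas h).aestronglyMeasurable,
      (hC ε hε hε1 u N h).trans_lt ENNReal.ofReal_lt_top⟩
  refine ⟨h1, ?_⟩
  have h2 := h1.add (gam_memLp h)
  have h3 : ((fun x => gU ε u x - gam u x) + gam u) = gU ε u := by
    funext x
    simp
  rwa [h3] at h2

private theorem D1_aux_j {j : ℝ → ℝ} {K : ℝ} (hj : Ent j K) {f : E3 → ℝ}
    (hf : MemLp f 2 volume) : MemLp (fun x => j (f x)) 2 volume := by
  refine hf.of_le_mul (c := K) ?_ ?_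
  · exact hj.smooth.continuous.comp_aestronglyMeasurable hf.1
  · refine Filter.Eventually.of_forall fun x => ?_
    rw [Real.norm_eq_abs, Real.norm_eq_abs, abs_of_nonneg (hj.nonneg _)]
    exact hj.le _

private theorem D1_aux_W {Φ : E3 → ℝ} (hΦ : TA Φ) : ∃ M : ℝ, 0 ≤ M ∧ ∀ (u : E3 → E3) (N : ℝ),
    Fld u N →
    MemLp (fun x => slap Φ x + fderiv ℝ Φ x (kk x) + fderiv ℝ Φ x (u x)) 2 volume ∧
      eLpNorm (fun x => slap Φ x + fderiv ℝ Φ x (kk x) + fderiv ℝ Φ x (u x)) 2 volume ≤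
        ENNReal.ofReal (M * (1 + N)) := by
  obtain ⟨M, hM, hu⟩ := D1_aux_u hΦ.cb
  obtain ⟨τ, hτ, ε₀, hε₀, h⟩ := exists_tau hΦ.cb.2.1.isCompact hΦ.off
  have h1 := D1_aux_slap hΦ.cb
  have h2 := D1_aux_kk hΦ hτ (fun x hx => h x hx x (by rw [sub_self, norm_zero]; exact hε₀.le))
  have h3 : MemLp (fun x => slap Φ x + fderiv ℝ Φ x (kk x)) 2 (volume : Measure E3) :=
    (h1.1.add h2.1).memLp_of_hasCompactSupport (h1.2.add h2.2)
  obtain ⟨L, hL⟩ : ∃ L : ℝ, L = (eLpNorm (fun x => slap Φ x + fderiv ℝ Φ x (kk x)) 2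
    (volume : Measure E3)).toReal := ⟨_, rfl⟩
  have hL0 : 0 ≤ L := by rw [hL]; exact ENNReal.toReal_nonneg
  have hL1 : eLpNorm (fun x => slap Φ x + fderiv ℝ Φ x (kk x)) 2 (volume : Measure E3) =
      ENNReal.ofReal L := by
    rw [hL, ENNReal.ofReal_toReal h3.2.ne]
  refine ⟨L + M, by positivity, fun u N hN => ?_⟩
  obtain ⟨h4, h5⟩ := hu u N hN
  refine ⟨h3.add h4, ?_⟩
  refine (eLpNorm_add_le h3.1 h4.1 (by norm_num)).trans ?_
  rw [hL1]
  refine (add_le_add le_rfl h5).trans ?_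
  rw [← ENNReal.ofReal_add hL0 (mul_nonneg hM hN.nonneg)]
  apply ENNReal.ofReal_le_ofReal
  have := hN.nonneg
  nlinarith

/-- `∫ j(g) (ΔΦ + k · ∇Φ + u · ∇Φ)` against `∫ j(Γ) (..)`: `Ent.lip`, Cauchy-Schwarz, `gU_sub`. -/
theorem GP_error {j : ℝ → ℝ} {K : ℝ} (hj : Ent j K) {Φ : E3 → ℝ} (hΦ : TA Φ) :
    ∃ C : ℝ, 0 ≤ C ∧ ∀ ε : ℝ, 0 < ε → ε ≤ 1 → ∀ (u : E3 → E3) (N : ℝ), Fld u N →
      |(∫ x, j (gU ε u x) * (slap Φ x + fderiv ℝ Φ x (kk x) + fderiv ℝ Φ x (u x))) - GP j Φ u| ≤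
        C * ε ^ (3 / 4 : ℝ) * (1 + N ^ 2) := by
  obtain ⟨M, hM, hW⟩ := D1_aux_W hΦ
  obtain ⟨C, hC, hg⟩ := gU_sub
  have hK := D1_aux_K hj
  refine ⟨2 * (K * C * M), by positivity, fun ε hε hε1 u N hu => ?_⟩
  obtain ⟨h1, h2⟩ := hW u N hu
  have hN := hu.nonneg
  obtain ⟨h3, h4⟩ := D1_aux_gU hε hε1 hu
  have h5 := D1_aux_j hj h4
  have h6 := D1_aux_j hj (gam_memLp hu)
  have h7 : MemLp (fun x => j (gU ε u x) - j (gam u x)) 2 (volume : Measure E3) := h5.sub h6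
  have h8 : eLpNorm (fun x => j (gU ε u x) - j (gam u x)) 2 (volume : Measure E3) ≤
      ENNReal.ofReal (K * (C * ε ^ (3 / 4 : ℝ) * N)) := by
    have hb : ∀ᵐ x ∂(volume : Measure E3), ‖j (gU ε u x) - j (gam u x)‖ ≤
        K * ‖gU ε u x - gam u x‖ := by
      refine Filter.Eventually.of_forall fun x => ?_
      rw [Real.norm_eq_abs, Real.norm_eq_abs]
      exact hj.lip _ _
    refine (eLpNorm_le_mul_eLpNorm_of_ae_le_mul hb 2).trans ?_
    rw [ENNReal.ofReal_mul hK]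
    gcongr
    exact hg ε hε hε1 u N hu
  have hε34 : 0 ≤ ε ^ (3 / 4 : ℝ) := Real.rpow_nonneg hε.le _
  have h9 := D1_aux_cs h7 h1 (by positivity) (by positivity) h8 h2
  have h10 : (∫ x, j (gU ε u x) * (slap Φ x + fderiv ℝ Φ x (kk x) + fderiv ℝ Φ x (u x))) -
      GP j Φ u = ∫ x, (j (gU ε u x) - j (gam u x)) *
        (slap Φ x + fderiv ℝ Φ x (kk x) + fderiv ℝ Φ x (u x)) := by
    unfold GP
    rw [← integral_sub]
    · congr 1
      funext x
      ring
    · exact h5.integrable_mul h1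
    · exact h6.integrable_mul h1
  rw [h10]
  refine h9.trans ?_
  have h11 : N * (1 + N) ≤ 2 * (1 + N ^ 2) := by nlinarith [sq_nonneg (N - 1)]
  calc K * (C * ε ^ (3 / 4 : ℝ) * N) * (M * (1 + N)) =
      (K * C * M * ε ^ (3 / 4 : ℝ)) * (N * (1 + N)) := by ring
    _ ≤ (K * C * M * ε ^ (3 / 4 : ℝ)) * (2 * (1 + N ^ 2)) :=
      mul_le_mul_of_nonneg_left h11 (by positivity)
    _ = 2 * (K * C * M) * ε ^ (3 / 4 : ℝ) * (1 + N ^ 2) := by ring

private theorem D1_aux_slap_cont {g : E3 → ℝ} (hg : ContDiff ℝ 2 g) : Continuous (slap g) := by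
  unfold slap
  refine continuous_finset_sum _ fun i _ => ?_
  have h3 : ContDiff ℝ 1 (fun z => fderiv ℝ g z (EuclideanSpace.single i 1)) :=
    (hg.fderiv_right (m := 1) (by norm_num)).clm_apply contDiff_const
  exact (h3.continuous_fderiv (by norm_num)).clm_apply continuous_const

private theorem D1_aux_int {f Φ : E3 → ℝ} (hf : Continuous f) (hΦ : Φ ∈ CB) :
    Integrable (fun x => f x * Φ x) (volume : Measure E3) :=
  (hf.mul hΦ.1.continuous).integrable_of_hasCompactSupport (hΦ.2.1.mul_left)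

/-- the transport term is integrable -/
private theorem D1_aux_T {τ : ℝ} (hτ : 0 < τ) {Φ : E3 → ℝ} (hΦ : TA Φ)
    (h : ∀ x ∈ tsupport Φ, τ ≤ ax2 x) {f g : E3 → ℝ} (hf : Continuous f) (hg : ContDiff ℝ 2 g)
    {u : E3 → E3} {N : ℝ} (hu : Fld u N) :
    Integrable (fun x => f x * fderiv ℝ g x (kk x + u x) * Φ x) (volume : Measure E3) := by
  have hgc : Continuous (fderiv ℝ g) := hg.continuous_fderiv (by norm_num)
  have hL : Continuous (fun x => (f x * Φ x) • fderiv ℝ g x) :=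
    (hf.mul hΦ.cb.1.continuous).smul hgc
  have hLc : HasCompactSupport (fun x => (f x * Φ x) • fderiv ℝ g x) := by
    refine hΦ.cb.2.1.mono ?_
    intro x hx hne
    apply hx
    change (f x * Φ x) • fderiv ℝ g x = 0
    rw [hne, mul_zero, zero_smul]
  obtain ⟨M, hM⟩ := hL.bounded_above_of_compact_support hLc
  have e : (fun x => f x * fderiv ℝ g x (kk x + u x) * Φ x) =
      fun x => ((f x * Φ x) • fderiv ℝ g x) (kt τ x) + ((f x * Φ x) • fderiv ℝ g x) (u x) := by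
    funext x
    rw [← map_add, ContinuousLinearMap.smul_apply, smul_eq_mul]
    by_cases hx : x ∈ tsupport Φ
    · rw [kt_eq (h x hx)]
      ring
    · rw [image_eq_zero_of_notMem_tsupport hx]
      ring
  rw [e]
  refine Integrable.add ?_ ?_
  · refine (hL.clm_apply (kt_continuous hτ)).integrable_of_hasCompactSupport ?_
    refine hLc.mono ?_
    intro x hx hne
    apply hx
    change ((f x * Φ x) • fderiv ℝ g x) (kt τ x) = 0
    have hne' : (f x * Φ x) • fderiv ℝ g x = 0 := hne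
    rw [hne']
    rfl
  · refine ((norm_integrable hu).norm.const_mul M).mono' ?_ ?_
    · exact (isBoundedBilinearMap_apply.continuous.comp_stronglyMeasurable
        (hL.stronglyMeasurable.prodMk hu.meas)).aestronglyMeasurable
    · refine Filter.Eventually.of_forall fun x => ?_
      exact (ContinuousLinearMap.le_opNorm _ _).trans
        (mul_le_mul_of_nonneg_right (hM x) (norm_nonneg _))

/-- (5.1). PROOF: `aU_hk`, `bU_hk`, `second_order` (with `κ = KG ε u`), `Dd_eq` (for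
`x ∈ tsupport Φ`, `ε ≤ ε₀` from `exists_tau`), `transport`, `KG_sq`, `rU_bound`, `GP_error`. -/
theorem det_ineq {c : ℝ} (hc : c ^ 2 < 2) {j : ℝ → ℝ} {K : ℝ} (hj : Ent j K) {Φ : E3 → ℝ}
    (hΦ : TA Φ) :
    ∃ C : ℝ, 0 ≤ C ∧ ∃ ε₀ : ℝ, 0 < ε₀ ∧ ∀ ε : ℝ, 0 < ε → ε ≤ ε₀ →
      ∀ (u : E3 → E3) (N : ℝ), Fld u N →
        LU c ε j Φ u ≤ GP j Φ u + C * ε ^ (1 / 2 : ℝ) * (1 + N ^ 2) := by
  have hK := D1_aux_K hj
  obtain ⟨τ, hτ, ε₁, hε₁, hτx⟩ := exists_tau hΦ.cb.2.1.isCompact hΦ.off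
  have hτ0 : ∀ x ∈ tsupport Φ, τ ≤ ax2 x := fun x hx =>
    hτx x hx x (by rw [sub_self, norm_zero]; exact hε₁.le)
  obtain ⟨C1, hC1, hG⟩ := GP_error hj hΦ
  obtain ⟨C2, hC2, hKG⟩ := KG_sq
  obtain ⟨C3, hC3, hrU⟩ := rU_bound hΦ.cb hτ
  obtain ⟨M, hM⟩ := (hΦ.cb.1.continuous).bounded_above_of_compact_support hΦ.cb.2.1
  have hM0 : 0 ≤ M := (norm_nonneg _).trans (hM 0)
  have hD0 : 0 ≤ c ^ 2 / (2 - c ^ 2) := div_nonneg (sq_nonneg c) (by linarith)
  refine ⟨C1 + K * (c ^ 2 / (2 - c ^ 2)) * (M * C2) + K * C3, by positivity, min ε₁ 1,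
    lt_min hε₁ one_pos, ?_⟩
  intro ε hε hεm u N hu
  have hε1 : ε ≤ 1 := hεm.trans (min_le_right _ _)
  have hεe : ε ≤ ε₁ := hεm.trans (min_le_left _ _)
  have hN := hu.nonneg
  have hg : ContDiff ℝ 2 (gU ε u) := (gU_contDiff hε hu).of_le (by norm_cast)
  have hjd : Continuous (deriv j) := hj.smooth.continuous_deriv (by norm_num)
  have hjd2 : Continuous (iteratedDeriv 2 j) :=
    hj.smooth.continuous_iteratedDeriv 2 (by norm_num)
  have hgf : Continuous (fun x => fderiv ℝ (gU ε u) x x) :=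
    (hg.continuous_fderiv (by norm_num)).clm_apply continuous_id
  have hKGc := KG_continuous hε hu
  have hDdc := Dd_continuous hε hu
  have hA : Integrable (fun x => (deriv j (gU ε u x) * slap (gU ε u) x +
      iteratedDeriv 2 j (gU ε u x) *
        (c * fderiv ℝ (gU ε u) x x - c * KG ε u x) ^ 2 / 2) * Φ x) (volume : Measure E3) := by
    refine D1_aux_int ?_ hΦ.cb
    have h1 := (hjd.comp hg.continuous).mul (D1_aux_slap_cont hg)
    have h2 := ((hjd2.comp hg.continuous).mul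
      (((hgf.const_mul c).sub (hKGc.const_mul c)).pow 2)).div_const 2
    exact h1.add h2
  have hB : Integrable (fun x => (deriv j (gU ε u x) * Dd ε u x) * Φ x)
      (volume : Measure E3) :=
    D1_aux_int ((hjd.comp hg.continuous).mul hDdc) hΦ.cb
  have hT : Integrable (fun x => deriv j (gU ε u x) * fderiv ℝ (gU ε u) x (kk x + u x) * Φ x)
      (volume : Measure E3) := D1_aux_T hτ hΦ hτ0 (hjd.comp hg.continuous) hg hu
  have hLU : LU c ε j Φ u = (∫ x, (deriv j (gU ε u x) * slap (gU ε u) x +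
      iteratedDeriv 2 j (gU ε u x) *
        (c * fderiv ℝ (gU ε u) x x - c * KG ε u x) ^ 2 / 2) * Φ x) -
      ∫ x, (deriv j (gU ε u x) * Dd ε u x) * Φ x := by
    unfold LU
    rw [← integral_sub hA hB]
    congr 1
    funext x
    rw [aU_hk hε hu x, bU_hk hε hu c x]
    ring
  have hpt : ∀ x, (deriv j (gU ε u x) * Dd ε u x) * Φ x =
      deriv j (gU ε u x) * fderiv ℝ (gU ε u) x (kk x + u x) * Φ x +
        deriv j (gU ε u x) * (rU ε τ u x * Φ x) := by
    intro x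
    by_cases hx : x ∈ tsupport Φ
    · rw [Dd_eq hε hτ hu (fun y hy => hτx x hx y (hy.trans hεe))]
      ring
    · rw [image_eq_zero_of_notMem_tsupport hx]
      ring
  have hR : Integrable (fun x => deriv j (gU ε u x) * (rU ε τ u x * Φ x))
      (volume : Measure E3) := by
    have h1 := hB.sub hT
    refine h1.congr (Filter.Eventually.of_forall fun x => ?_)
    change (deriv j (gU ε u x) * Dd ε u x) * Φ x -
      deriv j (gU ε u x) * fderiv ℝ (gU ε u) x (kk x + u x) * Φ x = _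
    rw [hpt x]
    ring
  have hBint : ∫ x, (deriv j (gU ε u x) * Dd ε u x) * Φ x =
      -(∫ x, j (gU ε u x) * (fderiv ℝ Φ x (kk x) + fderiv ℝ Φ x (u x))) +
        ∫ x, deriv j (gU ε u x) * (rU ε τ u x * Φ x) := by
    rw [← transport hε hu hj hΦ, ← integral_add hT hR]
    congr 1
    funext x
    exact hpt x
  have hA2 := second_order hc hj hΦ.cb hΦ.nonneg hg hKGc
  -- the sum of the main terms
  have hg2 := D1_aux_j hj (D1_aux_gU hε hε1 hu).2
  have hS := D1_aux_slap hΦ.cb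
  have hSm : MemLp (slap Φ) 2 (volume : Measure E3) := hS.1.memLp_of_hasCompactSupport hS.2
  obtain ⟨M2, _, hW⟩ := D1_aux_W hΦ
  have hWm := (hW u N hu).1
  have hVm : MemLp (fun x => fderiv ℝ Φ x (kk x) + fderiv ℝ Φ x (u x)) 2
      (volume : Measure E3) := by
    have h1 := hWm.sub hSm
    have h2 : ((fun x => slap Φ x + fderiv ℝ Φ x (kk x) + fderiv ℝ Φ x (u x)) - slap Φ) =
        fun x => fderiv ℝ Φ x (kk x) + fderiv ℝ Φ x (u x) := by
      funext x
      simp only [Pi.sub_apply]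
      ring
    rwa [h2] at h1
  have hsum : (∫ x, j (gU ε u x) * slap Φ x) +
      ∫ x, j (gU ε u x) * (fderiv ℝ Φ x (kk x) + fderiv ℝ Φ x (u x)) =
      ∫ x, j (gU ε u x) * (slap Φ x + fderiv ℝ Φ x (kk x) + fderiv ℝ Φ x (u x)) := by
    have i1 : Integrable (fun x => j (gU ε u x) * slap Φ x) (volume : Measure E3) :=
      hg2.integrable_mul hSm
    have i2 : Integrable (fun x => j (gU ε u x) * (fderiv ℝ Φ x (kk x) + fderiv ℝ Φ x (u x)))
      (volume : Measure E3) := hg2.integrable_mul hVm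
    rw [← integral_add i1 i2]
    congr 1
    funext x
    ring
  have hGe := hG ε hε hε1 u N hu
  have hGe2 := (abs_le.1 hGe).2
  -- the error terms
  have hRb : |∫ x, deriv j (gU ε u x) * (rU ε τ u x * Φ x)| ≤
      K * (C3 * ε ^ (1 / 2 : ℝ) * (1 + N ^ 2)) := by
    apply D1_aux_abs _ (by positivity)
    refine (enorm_integral_le_lintegral_enorm _).trans ?_
    have h1 : ∀ x, ‖deriv j (gU ε u x) * (rU ε τ u x * Φ x)‖ₑ ≤
        ENNReal.ofReal K * (‖rU ε τ u x‖ₑ * ‖Φ x‖ₑ) := by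
      intro x
      rw [enorm_mul, enorm_mul]
      gcongr
      rw [Real.enorm_eq_ofReal_abs]
      exact ENNReal.ofReal_le_ofReal (hj.d1 _)
    refine (lintegral_mono h1).trans ?_
    rw [lintegral_const_mul' _ _ ENNReal.ofReal_ne_top, ENNReal.ofReal_mul hK]
    gcongr
    exact hrU ε hε hε1 u N hu
  have hKb : |∫ x, KG ε u x ^ 2 * Φ x| ≤ M * (C2 * ε ^ (3 / 2 : ℝ) * N ^ 2) := by
    apply D1_aux_abs _ (by positivity)
    refine (enorm_integral_le_lintegral_enorm _).trans ?_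
    have h1 : ∀ x, ‖KG ε u x ^ 2 * Φ x‖ₑ ≤ ENNReal.ofReal M * ‖KG ε u x‖ₑ ^ 2 := by
      intro x
      rw [enorm_mul, enorm_pow, mul_comm]
      gcongr
      rw [Real.enorm_eq_ofReal_abs]
      exact ENNReal.ofReal_le_ofReal (hM x)
    refine (lintegral_mono h1).trans ?_
    rw [lintegral_const_mul' _ _ ENNReal.ofReal_ne_top, ENNReal.ofReal_mul hM0]
    gcongr
    exact hKG ε hε hε1 u N hu
  have hRb2 := (abs_le.1 hRb).1
  have hKb2 := (abs_le.1 hKb).2
  have e1 : ε ^ (3 / 4 : ℝ) ≤ ε ^ (1 / 2 : ℝ) :=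
    Real.rpow_le_rpow_of_exponent_ge hε hε1 (by norm_num)
  have e2 : ε ^ (3 / 2 : ℝ) ≤ ε ^ (1 / 2 : ℝ) :=
    Real.rpow_le_rpow_of_exponent_ge hε hε1 (by norm_num)
  have e3 : 0 ≤ ε ^ (1 / 2 : ℝ) := Real.rpow_nonneg hε.le _
  have e4 : C1 * ε ^ (3 / 4 : ℝ) * (1 + N ^ 2) ≤ C1 * ε ^ (1 / 2 : ℝ) * (1 + N ^ 2) := by
    gcongr
  have e5 : K * (c ^ 2 / (2 - c ^ 2)) * ∫ x, KG ε u x ^ 2 * Φ x ≤
      K * (c ^ 2 / (2 - c ^ 2)) * (M * C2) * ε ^ (1 / 2 : ℝ) * (1 + N ^ 2) := by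
    have h1 : ∫ x, KG ε u x ^ 2 * Φ x ≤ (M * C2) * ε ^ (1 / 2 : ℝ) * (1 + N ^ 2) := by
      refine hKb2.trans ?_
      have h2 : M * (C2 * ε ^ (3 / 2 : ℝ) * N ^ 2) ≤ M * (C2 * ε ^ (1 / 2 : ℝ) * (1 + N ^ 2)) := by
        gcongr
        linarith
      refine h2.trans (le_of_eq ?_)
      ring
    have h2 := mul_le_mul_of_nonneg_left h1 (mul_nonneg hK hD0)
    refine h2.trans (le_of_eq ?_)
    ring
  rw [hLU, hBint]
  linarith

end Pool.Agent.W_332fe5
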