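import Pool.Agent.W_332fe5_h65.L5
import Pool.Agent.W_332fe5.Need6

set_option autoImplicit false

/-! Block 5, E3: the entropy inequality for bounded swirls, in lower integrals. -/

open MeasureTheory ProbabilityTheory Set Filter Topology
open scoped ENNReal NNReal

namespace Pool.Agent.W_332fe5

theorem E3_meas_Bl : MeasurableSet Bl := Metric.isOpen_ball.measurableSet

theorem E3_w {j : ℝ → ℝ} {Kj : ℝ} (hj : Ent j Kj) {W : ℝ → ℝ} {c : ℝ} (hW : Measurable W)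
    (h0 : ∀ y, 0 < y → y ≤ 1 / 2 → 0 ≤ W y ∧ W y ≤ c * y ^ (-(6 / 5) : ℝ)) :
    ∃ L : ℝ, 0 ≤ L ∧ ∀ (u : E3 → E3) (N : ℝ), Fld u N →
      ∫⁻ x in Bl, ENNReal.ofReal (j (gam u x) * W (yy x)) ≤ ENNReal.ofReal (L * N) := by
  have hK : 0 ≤ Kj := (abs_nonneg _).trans (hj.d1 0)
  obtain ⟨c', hc', hp⟩ := lint_pow (a := -(9 / 10)) (by norm_num)
  set V : ℝ := c ^ 2 * (c' * (1 / 2 : ℝ) ^ (-(9 / 10) + 1 : ℝ)) with hV
  have hV0 : 0 ≤ V := by positivity
  refine ⟨Kj * V ^ (1 / 2 : ℝ), by positivity, fun u N hu => ?_⟩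
  have hg : Measurable fun y => ENNReal.ofReal (W y) := hW.ennreal_ofReal
  have h1 : ∫⁻ x in Bl, (ENNReal.ofReal (W (yy x))) ^ 2 * ENNReal.ofReal (yy x ^ (3 / 2 : ℝ)) ≤
      ENNReal.ofReal V := by
    calc ∫⁻ x in Bl, (ENNReal.ofReal (W (yy x))) ^ 2 * ENNReal.ofReal (yy x ^ (3 / 2 : ℝ))
        ≤ ∫⁻ x in Bl, ENNReal.ofReal (c ^ 2) *
            (if yy x ≤ 1 / 2 then ENNReal.ofReal (yy x ^ (-(9 / 10) : ℝ)) else 0) := by
          refine setLIntegral_mono' E3_meas_Bl fun x hx => ?_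
          have hy := yy_pos hx
          have hy2 := yy_le x
          rw [if_pos hy2, ← ENNReal.ofReal_pow (h0 _ hy hy2).1,
            ← ENNReal.ofReal_mul (by positivity), ← ENNReal.ofReal_mul (by positivity)]
          refine ENNReal.ofReal_le_ofReal ?_
          have e1 : W (yy x) ^ 2 ≤ (c * yy x ^ (-(6 / 5) : ℝ)) ^ 2 :=
            pow_le_pow_left₀ (h0 _ hy hy2).1 (h0 _ hy hy2).2 2
          have e2 : (c * yy x ^ (-(6 / 5) : ℝ)) ^ 2 * yy x ^ (3 / 2 : ℝ) =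
              c ^ 2 * yy x ^ (-(9 / 10) : ℝ) := by
            rw [mul_pow, ← Real.rpow_natCast (yy x ^ (-(6 / 5) : ℝ)) 2, ← Real.rpow_mul hy.le,
              mul_assoc, ← Real.rpow_add hy]
            norm_num
          calc W (yy x) ^ 2 * yy x ^ (3 / 2 : ℝ)
              ≤ (c * yy x ^ (-(6 / 5) : ℝ)) ^ 2 * yy x ^ (3 / 2 : ℝ) :=
                mul_le_mul_of_nonneg_right e1 (by positivity)
            _ = _ := e2
      _ = ENNReal.ofReal (c ^ 2) * ∫⁻ x in Bl,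
            (if yy x ≤ 1 / 2 then ENNReal.ofReal (yy x ^ (-(9 / 10) : ℝ)) else 0) := by
          rw [lintegral_const_mul' _ _ ENNReal.ofReal_ne_top]
      _ ≤ ENNReal.ofReal (c ^ 2) * ENNReal.ofReal (c' * (1 / 2 : ℝ) ^ (-(9 / 10) + 1 : ℝ)) := by
          gcongr
          exact hp (1 / 2) (by norm_num)
      _ = ENNReal.ofReal V := by rw [← ENNReal.ofReal_mul (by positivity)]
  calc ∫⁻ x in Bl, ENNReal.ofReal (j (gam u x) * W (yy x))
      ≤ ∫⁻ x in Bl, ENNReal.ofReal Kj * (‖u x‖ₑ * ENNReal.ofReal (W (yy x))) := by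
        refine lintegral_mono_ae ?_
        filter_upwards [ae_restrict_of_ae (abs_gam_le_norm hu), ae_restrict_mem E3_meas_Bl]
          with x hx hxB
        have hy := yy_pos hxB
        have hy2 := yy_le x
        rw [← ofReal_norm, ← ENNReal.ofReal_mul (norm_nonneg _),
          ← ENNReal.ofReal_mul hK]
        refine ENNReal.ofReal_le_ofReal ?_
        rw [← mul_assoc]
        refine mul_le_mul_of_nonneg_right ?_ (h0 _ hy hy2).1
        exact (hj.le _).trans (mul_le_mul_of_nonneg_left hx hK)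
    _ = ENNReal.ofReal Kj * ∫⁻ x in Bl, ‖u x‖ₑ * ENNReal.ofReal (W (yy x)) := by
        rw [lintegral_const_mul' _ _ ENNReal.ofReal_ne_top]
    _ ≤ ENNReal.ofReal Kj * (ENNReal.ofReal N * (ENNReal.ofReal V) ^ (1 / 2 : ℝ)) := by
        gcongr
        refine (fld_cs hu hg).trans ?_
        gcongr
    _ = ENNReal.ofReal (Kj * V ^ (1 / 2 : ℝ) * N) := by
        rw [ENNReal.ofReal_rpow_of_nonneg hV0 (by norm_num), ← ENNReal.ofReal_mul hu.nonneg,
          ← ENNReal.ofReal_mul hK]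
        congr 1; ring

theorem E3_int {j : ℝ → ℝ} {Kj : ℝ} (hj : Ent j Kj) {W : ℝ → ℝ} (hW : Measurable W)
    (h0 : ∀ y, 0 < y → y ≤ 1 / 2 → 0 ≤ W y) {L : ℝ} {u : E3 → E3} {N : ℝ} (hu : Fld u N)
    (hL : ∫⁻ x in Bl, ENNReal.ofReal (j (gam u x) * W (yy x)) ≤ ENNReal.ofReal (L * N)) :
    IntegrableOn (fun x => j (gam u x) * W (yy x)) Bl := by
  refine ⟨((hj.smooth.continuous.measurable.comp (gam_meas hu).measurable).mul
    (hW.comp yy_meas)).aestronglyMeasurable, ?_⟩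
  rw [hasFiniteIntegral_iff_ofReal]
  · exact hL.trans_lt ENNReal.ofReal_lt_top
  · filter_upwards [ae_restrict_mem E3_meas_Bl] with x hx
    exact mul_nonneg (hj.nonneg _) (h0 _ (yy_pos hx) (yy_le x))

theorem E3_int_nonneg {j : ℝ → ℝ} {Kj : ℝ} (hj : Ent j Kj) {W : ℝ → ℝ}
    (h0 : ∀ y, 0 < y → y ≤ 1 / 2 → 0 ≤ W y) (u : E3 → E3) :
    0 ≤ ∫ x in Bl, j (gam u x) * W (yy x) := by
  refine setIntegral_nonneg E3_meas_Bl fun x hx => ?_
  exact mul_nonneg (hj.nonneg _) (h0 _ (yy_pos hx) (yy_le x))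

theorem E3_ofReal {j : ℝ → ℝ} {Kj : ℝ} (hj : Ent j Kj) {W : ℝ → ℝ}
    (h0 : ∀ y, 0 < y → y ≤ 1 / 2 → 0 ≤ W y) {u : E3 → E3}
    (hi : IntegrableOn (fun x => j (gam u x) * W (yy x)) Bl) :
    ENNReal.ofReal (∫ x in Bl, j (gam u x) * W (yy x)) =
      ∫⁻ x in Bl, ENNReal.ofReal (j (gam u x) * W (yy x)) := by
  refine ofReal_integral_eq_lintegral_ofReal hi ?_
  filter_upwards [ae_restrict_mem E3_meas_Bl] with x hx
  exact mul_nonneg (hj.nonneg _) (h0 _ (yy_pos hx) (yy_le x))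

/-- Integrability in `z`. -/
theorem E3_z {zt p κ δ q K : ℝ} {A : L2 →L[ℝ] L2} {ev : L2 → E3 → E3}
    (h : Ctx zt p κ δ q A K ev) (C : Core zt p κ δ q) {j : ℝ → ℝ} {Kj : ℝ} (hj : Ent j Kj)
    {W : ℝ → ℝ} {c : ℝ} (hW : Measurable W)
    (h0 : ∀ y, 0 < y → y ≤ 1 / 2 → 0 ≤ W y ∧ W y ≤ c * y ^ (-(6 / 5) : ℝ)) {t : ℝ} (ht : t ≤ 1) :
    (∀ z, IntegrableOn (fun x => j (gam (uv C A ev z) x) * W (yy x)) Bl) ∧
    Integrable (fun z => ∫ x in Bl, j (gam (uv C A ev z) x) * W (yy x)) (mz C t) ∧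
    ∫⁻ z, (∫⁻ x in Bl, ENNReal.ofReal (j (gam (uv C A ev z) x) * W (yy x))) ∂(mz C t) =
      ENNReal.ofReal (∫ z, (∫ x in Bl, j (gam (uv C A ev z) x) * W (yy x)) ∂(mz C t)) := by
  obtain ⟨L, hL, hw⟩ := E3_w hj hW h0
  obtain ⟨K', hK', hF⟩ := exists_fld h
  have h00 : ∀ y, 0 < y → y ≤ 1 / 2 → 0 ≤ W y := fun y h1 h2 => (h0 y h1 h2).1
  have hi : ∀ z, IntegrableOn (fun x => j (gam (uv C A ev z) x) * W (yy x)) Bl := fun z =>
    E3_int hj hW h00 (hF (C.w z.1 z.2)) (hw _ _ (hF (C.w z.1 z.2)))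
  have hsm : StronglyMeasurable fun z => ∫ x in Bl, j (gam (uv C A ev z) x) * W (yy x) := by
    have : StronglyMeasurable fun y : (ℝ × C.Ω) × E3 => j (gam (uv C A ev y.1) y.2) * W (yy y.2) :=
      ((hj.smooth.continuous.measurable.comp (gam_joint h C).measurable).mul
        ((hW.comp yy_meas).comp measurable_snd)).stronglyMeasurable
    exact this.integral_prod_right'
  have hI : Integrable (fun z => ∫ x in Bl, j (gam (uv C A ev z) x) * W (yy x)) (mz C t) := by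
    refine ((P3_nw h C ht).const_mul (L * K')).mono' hsm.aestronglyMeasurable
      (Eventually.of_forall fun z => ?_)
    have h1 := E3_int_nonneg hj h00 (uv C A ev z)
    rw [Real.norm_eq_abs, abs_of_nonneg h1]
    have h2 := hw _ _ (hF (C.w z.1 z.2))
    have h3 := E3_ofReal hj h00 (hi z)
    have h4 : ENNReal.ofReal (∫ x in Bl, j (gam (uv C A ev z) x) * W (yy x)) ≤
        ENNReal.ofReal (L * (K' * ‖C.w z.1 z.2‖)) := by
      rw [h3]; exact h2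
    have h5 : 0 ≤ L * (K' * ‖C.w z.1 z.2‖) := by positivity
    have h6 := (ENNReal.ofReal_le_ofReal_iff h5).1 h4
    refine h6.trans ?_
    have h7 : ‖C.w z.1 z.2‖ ≤ 1 + nw C z ^ 2 := by
      unfold nw
      nlinarith [sq_nonneg (‖C.w z.1 z.2‖ - 1), norm_nonneg (C.w z.1 z.2)]
    calc L * (K' * ‖C.w z.1 z.2‖) = L * K' * ‖C.w z.1 z.2‖ := by ring
      _ ≤ L * K' * (1 + nw C z ^ 2) := mul_le_mul_of_nonneg_left h7 (by positivity)
  refine ⟨hi, hI, ?_⟩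
  rw [ofReal_integral_eq_lintegral_ofReal hI
    (Eventually.of_forall fun z => E3_int_nonneg hj h00 (uv C A ev z))]
  exact lintegral_congr fun z => (E3_ofReal hj h00 (hi z)).symm

theorem E3_three {α : Type} [MeasurableSpace α] {μ : Measure α} {a b c : α → ℝ}
    (ha : Integrable a μ) (hb : Integrable b μ) (hc : Integrable c μ) :
    ∫ x, (a x - b x + c x) ∂μ = (∫ x, a x ∂μ) - (∫ x, b x ∂μ) + ∫ x, c x ∂μ := by
  have h1 : Integrable (fun x => a x - b x) μ := ha.sub hb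
  rw [integral_add h1 hc, integral_sub ha hb]

/-- PROOF: `stage2`; `QL = ∫ j(Γ) Gp - ∫ j(Γ) Gm + ∫ j(Γ) |H'| |u|`, all three integrable over
`mz C t × Bl`; the last one by `drift_le`, since `j(Γ) ≤ 1` almost everywhere (`hb`). -/
theorem stage3 {zt p κ δ q K : ℝ} {A : L2 →L[ℝ] L2} {ev : L2 → E3 → E3}
    (h : Ctx zt p κ δ q A K ev) (hb : Need5Bdd zt p κ δ q) :
    ∃ C2 : ℝ, 0 ≤ C2 ∧ ∀ C : Core zt p κ δ q, ∀ t ∈ Icc (0 : ℝ) 1, ∀ (j : ℝ → ℝ) (Kj : ℝ),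
      Ent j Kj → (∀ s, |s| ≤ 1 → j s ≤ 1) → ∀ (H Gp Gm : ℝ → ℝ) (c : ℝ),
      HG H (fun y => Gp y - Gm y) c → Measurable Gp → Measurable Gm →
      (∀ y, 0 < y → y ≤ 1 / 2 → 0 ≤ Gp y ∧ 0 ≤ Gm y ∧ Gp y ≤ c * y ^ (-(6 / 5) : ℝ) ∧
        Gm y ≤ c * y ^ (-(6 / 5) : ℝ)) → ∀ G : C.Ω → E3 → ℝ, Adm C A ev j t G →
      (∫⁻ ω, (∫⁻ x in Bl, ENNReal.ofReal (j (G ω x) * H (yy x))) ∂C.P) +
        ∫⁻ z, (∫⁻ x in Bl, ENNReal.ofReal (j (gam (uv C A ev z) x) * Gm (yy x))) ∂(mz C t) ≤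
      (∫⁻ x in Bl, ENNReal.ofReal (j (Gam0 x) * H (yy x))) +
        (∫⁻ z, (∫⁻ x in Bl, ENNReal.ofReal (j (gam (uv C A ev z) x) * Gp (yy x))) ∂(mz C t)) +
        (ENNReal.ofReal (C2 * t) * ∫⁻ x in Bl,
          ENNReal.ofReal (deriv H (yy x) ^ 2 * yy x ^ (3 / 2 : ℝ))) ^ (1 / 2 : ℝ) := by
  obtain ⟨C2, hC2, hdr⟩ := drift_le h
  obtain ⟨K', hK', hF⟩ := exists_fld h
  refine ⟨C2, hC2, fun C t ht j Kj hj hj1 H Gp Gm c hH hGp hGm hGb G hA => ?_⟩
  obtain ⟨hQi, hpos, hle⟩ := stage2 h C hj ht hA hH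
  have hQi' : Integrable (fun z => QL j H (fun y => Gp y - Gm y) (uv C A ev z)) (mz C t) :=
    hQi.mono_measure (mz_mono C ht.2)
  have hp0 : ∀ y, 0 < y → y ≤ 1 / 2 → 0 ≤ Gp y ∧ Gp y ≤ c * y ^ (-(6 / 5) : ℝ) :=
    fun y h1 h2 => ⟨(hGb y h1 h2).1, (hGb y h1 h2).2.2.1⟩
  have hm0 : ∀ y, 0 < y → y ≤ 1 / 2 → 0 ≤ Gm y ∧ Gm y ≤ c * y ^ (-(6 / 5) : ℝ) :=
    fun y h1 h2 => ⟨(hGb y h1 h2).2.1, (hGb y h1 h2).2.2.2⟩
  obtain ⟨hpi, hpI, hpE⟩ := E3_z h C hj hGp hp0 ht.2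
  obtain ⟨hmi, hmI, hmE⟩ := E3_z h C hj hGm hm0 ht.2
  -- the drift part
  have hdm : ∀ z, IntegrableOn (fun x => j (gam (uv C A ev z) x) *
      (|deriv H (yy x)| * ‖uv C A ev z x‖)) Bl := by
    intro z
    obtain ⟨L, hL, hq⟩ := QU_bound hj hH
    have h1 := (hq 1 one_pos _ _ (hF (C.w z.1 z.2))).1
    refine h1.mono' ?_ ?_
    · refine Measurable.aestronglyMeasurable ?_
      exact (hj.smooth.continuous.measurable.comp (gam_meas (hF (C.w z.1 z.2))).measurable).mul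
        (((measurable_deriv H).comp yy_meas).abs.mul (hF (C.w z.1 z.2)).meas.measurable.norm)
    · refine Eventually.of_forall fun x => ?_
      rw [Real.norm_eq_abs, abs_of_nonneg (mul_nonneg (hj.nonneg _) (by positivity))]
      exact mul_le_mul_of_nonneg_left (le_add_of_nonneg_left (abs_nonneg _)) (hj.nonneg _)
  have hQ : ∀ z, QL j H (fun y => Gp y - Gm y) (uv C A ev z) =
      (∫ x in Bl, j (gam (uv C A ev z) x) * Gp (yy x)) -
      (∫ x in Bl, j (gam (uv C A ev z) x) * Gm (yy x)) +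
      ∫ x in Bl, j (gam (uv C A ev z) x) * (|deriv H (yy x)| * ‖uv C A ev z x‖) := by
    intro z
    rw [← E3_three (hpi z) (hmi z) (hdm z)]
    unfold QL
    refine integral_congr_ae (Eventually.of_forall fun x => ?_)
    simp only
    ring
  have hdI : Integrable (fun z => ∫ x in Bl, j (gam (uv C A ev z) x) *
      (|deriv H (yy x)| * ‖uv C A ev z x‖)) (mz C t) := by
    refine ((hQi'.sub hpI).add hmI).congr (Eventually.of_forall fun z => ?_)
    simp only [Pi.add_apply, Pi.sub_apply, hQ z]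
    ring
  have hQint : ∫ z, QL j H (fun y => Gp y - Gm y) (uv C A ev z) ∂(mz C t) =
      (∫ z, (∫ x in Bl, j (gam (uv C A ev z) x) * Gp (yy x)) ∂(mz C t)) -
      (∫ z, (∫ x in Bl, j (gam (uv C A ev z) x) * Gm (yy x)) ∂(mz C t)) +
      ∫ z, (∫ x in Bl, j (gam (uv C A ev z) x) * (|deriv H (yy x)| * ‖uv C A ev z x‖))
        ∂(mz C t) := by
    rw [← E3_three hpI hmI hdI]
    exact integral_congr_ae (Eventually.of_forall fun z => hQ z)
  have hmn : 0 ≤ ∫ z, (∫ x in Bl, j (gam (uv C A ev z) x) * Gm (yy x)) ∂(mz C t) :=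
    integral_nonneg fun z => E3_int_nonneg hj (fun y h1 h2 => (hm0 y h1 h2).1) _
  have hI0 : ENNReal.ofReal (∫ x in Bl, j (Gam0 x) * H (yy x)) ≤
      ∫⁻ x in Bl, ENNReal.ofReal (j (Gam0 x) * H (yy x)) := by
    rw [integral_eq_lintegral_of_nonneg_ae]
    · exact ENNReal.ofReal_toReal_le
    · filter_upwards [ae_restrict_mem E3_meas_Bl] with x hx
      exact mul_nonneg (hj.nonneg _) (hH.pos _ (yy_pos hx) (yy_le x)).1
    · exact ((hj.smooth.continuous.measurable.comp Gam0_meas).mul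
        (hH.hm.comp yy_meas)).aestronglyMeasurable
  have hD : ENNReal.ofReal (∫ z, (∫ x in Bl, j (gam (uv C A ev z) x) *
      (|deriv H (yy x)| * ‖uv C A ev z x‖)) ∂(mz C t)) ≤ (ENNReal.ofReal (C2 * t) * ∫⁻ x in Bl,
          ENNReal.ofReal (deriv H (yy x) ^ 2 * yy x ^ (3 / 2 : ℝ))) ^ (1 / 2 : ℝ) := by
    rw [ofReal_integral_eq_lintegral_ofReal hdI (Eventually.of_forall fun z =>
      integral_nonneg fun x => mul_nonneg (hj.nonneg _) (by positivity))]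
    have h1 := hdr C t ht (fun y => ENNReal.ofReal |deriv H y|)
      (measurable_deriv H).abs.ennreal_ofReal
    have h2 : ∫⁻ x in Bl, ENNReal.ofReal |deriv H (yy x)| ^ 2 *
        ENNReal.ofReal (yy x ^ (3 / 2 : ℝ)) = ∫⁻ x in Bl,
          ENNReal.ofReal (deriv H (yy x) ^ 2 * yy x ^ (3 / 2 : ℝ)) := by
      refine setLIntegral_congr_fun E3_meas_Bl fun x hx => ?_
      rw [← ENNReal.ofReal_pow (abs_nonneg _), sq_abs, ← ENNReal.ofReal_mul (sq_nonneg _)]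
    rw [h2] at h1
    refine le_trans ?_ h1
    refine lintegral_mono_ae ?_
    have hbz : ∀ᵐ z ∂(mz C t), ∀ᵐ x ∂(volume : Measure E3),
        |gam (uv C A ev z) x| ≤ 1 := by
      have h3 := hb C
      have h4 : ∀ᵐ z ∂(mz C 1), ∀ᵐ x ∂(volume : Measure E3), |Gam δ (C.w z.1 z.2) x| ≤ 1 := by
        rw [mz_eq]; exact h3
      filter_upwards [ae_mono (mz_mono C ht.2) h4] with z hz
      filter_upwards [hz, Gam_uv h (C.w z.1 z.2)] with x hx1 hx2
      unfold uv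
      rw [← hx2]; exact hx1
    filter_upwards [hbz] with z hz
    rw [ofReal_integral_eq_lintegral_ofReal (hdm z) (Eventually.of_forall fun x =>
      mul_nonneg (hj.nonneg _) (by positivity))]
    refine lintegral_mono_ae ?_
    filter_upwards [ae_restrict_of_ae hz] with x hx
    rw [← ofReal_norm, ← ENNReal.ofReal_mul (norm_nonneg _)]
    refine ENNReal.ofReal_le_ofReal ?_
    calc j (gam (uv C A ev z) x) * (|deriv H (yy x)| * ‖uv C A ev z x‖)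
        ≤ 1 * (|deriv H (yy x)| * ‖uv C A ev z x‖) :=
          mul_le_mul_of_nonneg_right (hj1 _ hx) (by positivity)
      _ = ‖uv C A ev z x‖ * |deriv H (yy x)| := by ring
  calc (∫⁻ ω, (∫⁻ x in Bl, ENNReal.ofReal (j (G ω x) * H (yy x))) ∂C.P) +
        ∫⁻ z, (∫⁻ x in Bl, ENNReal.ofReal (j (gam (uv C A ev z) x) * Gm (yy x))) ∂(mz C t)
      ≤ ENNReal.ofReal ((∫ x in Bl, j (Gam0 x) * H (yy x)) +
          ∫ z, QL j H (fun y => Gp y - Gm y) (uv C A ev z) ∂(mz C t)) +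
        ENNReal.ofReal (∫ z, (∫ x in Bl, j (gam (uv C A ev z) x) * Gm (yy x)) ∂(mz C t)) := by
        rw [hmE]
        gcongr
    _ = ENNReal.ofReal ((∫ x in Bl, j (Gam0 x) * H (yy x)) +
          (∫ z, (∫ x in Bl, j (gam (uv C A ev z) x) * Gp (yy x)) ∂(mz C t)) +
          ∫ z, (∫ x in Bl, j (gam (uv C A ev z) x) * (|deriv H (yy x)| * ‖uv C A ev z x‖))
            ∂(mz C t)) := by
        rw [← ENNReal.ofReal_add hpos hmn, hQint]
        congr 1; ring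
    _ ≤ ENNReal.ofReal (∫ x in Bl, j (Gam0 x) * H (yy x)) +
          ENNReal.ofReal (∫ z, (∫ x in Bl, j (gam (uv C A ev z) x) * Gp (yy x)) ∂(mz C t)) +
          ENNReal.ofReal (∫ z, (∫ x in Bl, j (gam (uv C A ev z) x) *
            (|deriv H (yy x)| * ‖uv C A ev z x‖)) ∂(mz C t)) :=
        ENNReal.ofReal_add_le.trans (add_le_add ENNReal.ofReal_add_le le_rfl)
    _ ≤ _ := by
        rw [hpE]
        gcongr

end Pool.Agent.W_332fe5
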