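import Pool.Agent.W_332fe5_h65.E3
import Pool.Agent.W_332fe5_h65.E4
import Pool.Agent.W_332fe5_h65.HH
import Pool.Agent.W_332fe5_h65.Z3

set_option autoImplicit false

/-! Block 5, E5: (5.5'), (5.6), (5.7). -/

open MeasureTheory ProbabilityTheory Set Filter Topology
open scoped ENNReal NNReal

namespace Pool.Agent.W_332fe5

private theorem E5_Jk_le_one {k r : ℝ} (hk : 0 < k) (hr : |r| ≤ 1) : Jk k r ≤ 1 :=
  (Jk_le hk r).trans hr

private theorem E5_lim (s : ℝ) :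
    Tendsto (fun n : ℕ => Jk (1 / ((n : ℝ) + 1)) s) atTop (𝓝 |s|) := by
  have h0 : Tendsto (fun n : ℕ => 1 / ((n : ℝ) + 1)) atTop (𝓝 0) :=
    tendsto_one_div_add_atTop_nhds_zero_nat
  have h1 : Tendsto (fun n : ℕ => |s| - 1 / ((n : ℝ) + 1)) atTop (𝓝 |s|) := by
    simpa using h0.const_sub |s|
  exact tendsto_of_tendsto_of_tendsto_of_le_of_le h1 tendsto_const_nhds
    (fun n => Jk_ge (by positivity) s) (fun n => Jk_le (by positivity) s)

private theorem E5_Gam0 (x : E3) : |Gam0 x| ≤ 1 := by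
  rw [abs_of_nonneg (Gam0_nonneg x)]
  exact Gam0_le_one x

private theorem E5_fatou {zt p κ δ q K : ℝ} {A : L2 →L[ℝ] L2} {ev : L2 → E3 → E3}
    (h : Ctx zt p κ δ q A K ev) (C : Core zt p κ δ q) {t : ℝ} {W : ℝ → ℝ} (hW : Measurable W)
    {B : ℝ≥0∞}
    (hB : ∀ k : ℝ, 0 < k → ∫⁻ z, (∫⁻ x in Bl,
      ENNReal.ofReal (Jk k (gam (uv C A ev z) x) * W (yy x))) ∂(mz C t) ≤ B) :
    ∫⁻ z, (∫⁻ x in Bl, ENNReal.ofReal (|gam (uv C A ev z) x| * W (yy x))) ∂(mz C t) ≤ B := by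
  obtain ⟨F, hFd⟩ : ∃ F : ℕ → (ℝ × C.Ω) × E3 → ℝ≥0∞, F = fun (n : ℕ) (y : (ℝ × C.Ω) × E3) =>
      ENNReal.ofReal (Jk (1 / ((n : ℝ) + 1)) (gam (uv C A ev y.1) y.2) * W (yy y.2)) := ⟨_, rfl⟩
  have hF : ∀ n, Measurable (F n) := by
    intro n
    rw [hFd]
    have hJ : Measurable (Jk (1 / ((n : ℝ) + 1))) := by unfold Jk; fun_prop
    exact ((hJ.comp (gam_joint h C).measurable).mul
      (hW.comp (yy_meas.comp measurable_snd))).ennreal_ofReal
  calc ∫⁻ z, (∫⁻ x in Bl, ENNReal.ofReal (|gam (uv C A ev z) x| * W (yy x))) ∂(mz C t)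
      ≤ ∫⁻ z, (∫⁻ x in Bl, liminf (fun n => F n (z, x)) atTop) ∂(mz C t) := by
        refine lintegral_mono fun z => lintegral_mono fun x => ?_
        have h1 : Tendsto (fun n => F n (z, x)) atTop
            (𝓝 (ENNReal.ofReal (|gam (uv C A ev z) x| * W (yy x)))) := by
          rw [hFd]
          exact ENNReal.tendsto_ofReal ((E5_lim _).mul_const _)
        exact h1.liminf_eq.ge
    _ ≤ ∫⁻ z, liminf (fun n => ∫⁻ x in Bl, F n (z, x)) atTop ∂(mz C t) := by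
        refine lintegral_mono fun z => ?_
        exact lintegral_liminf_le fun n => (hF n).comp measurable_prodMk_left
    _ ≤ liminf (fun n => ∫⁻ z, (∫⁻ x in Bl, F n (z, x)) ∂(mz C t)) atTop :=
        lintegral_liminf_le fun n => (hF n).lintegral_prod_right'
    _ ≤ liminf (fun _ : ℕ => B) atTop := by
        refine liminf_le_liminf (Eventually.of_forall fun n => ?_)
        rw [hFd]
        exact hB _ (by positivity)
    _ = B := liminf_const B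

private theorem E5_step {zt p κ δ q K : ℝ} {A : L2 →L[ℝ] L2} {ev : L2 → E3 → E3}
    (h : Ctx zt p κ δ q A K ev) : ∃ C2 : ℝ, 0 ≤ C2 ∧ ∀ C : Core zt p κ δ q,
    ∀ t ∈ Icc (0 : ℝ) 1, ∀ (H Gp Gm : ℝ → ℝ) (c : ℝ), HG H (fun y => Gp y - Gm y) c →
      Measurable Gp → Measurable Gm →
      (∀ y, 0 < y → y ≤ 1 / 2 → 0 ≤ Gp y ∧ 0 ≤ Gm y ∧ Gp y ≤ c * y ^ (-(6 / 5) : ℝ) ∧
        Gm y ≤ c * y ^ (-(6 / 5) : ℝ)) → ∀ B0 Bp B1 : ℝ, 0 ≤ B0 → 0 ≤ Bp → 0 ≤ B1 →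
      ∫⁻ x in Bl, ENNReal.ofReal (H (yy x)) ≤ ENNReal.ofReal B0 →
      ∫⁻ x in Bl, ENNReal.ofReal (Gp (yy x)) ≤ ENNReal.ofReal Bp →
      ∫⁻ x in Bl, ENNReal.ofReal (deriv H (yy x) ^ 2 * yy x ^ (3 / 2 : ℝ)) ≤
        ENNReal.ofReal B1 →
      ∫⁻ z, (∫⁻ x in Bl, ENNReal.ofReal (|gam (uv C A ev z) x| * Gm (yy x))) ∂(mz C t) ≤
        ENNReal.ofReal (B0 + t * Bp + (C2 * t * B1) ^ (1 / 2 : ℝ)) := by
  have hb := need5Bdd h
  obtain ⟨C2, hC2, h3⟩ := stage3 h hb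
  refine ⟨C2, hC2, ?_⟩
  intro C t ht H Gp Gm c hHG hGp hGm hbd B0 Bp B1 hB0 hBp hB1 h0 hp h1
  have ht0 : 0 ≤ t := ht.1
  apply E5_fatou h C hGm
  intro k hk
  obtain ⟨Kj, hj⟩ := Jk_ent hk
  obtain ⟨G, hGmeas, hG1, hGX⟩ := exists_dens C (hb C) ht
  have h4 := h3 C t ht (Jk k) Kj hj (fun r hr => E5_Jk_le_one hk hr) H Gp Gm c hHG hGp hGm hbd G
    (adm_dens h C ht hGmeas hG1 hGX (Jk k) Kj hj)
  have e0 : ∫⁻ x in Bl, ENNReal.ofReal (Jk k (Gam0 x) * H (yy x)) ≤ ENNReal.ofReal B0 := by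
    refine (setLIntegral_mono' measurableSet_ball fun x hx => ?_).trans h0
    have hx' : x ∈ Bl := hx
    apply ENNReal.ofReal_le_ofReal
    exact mul_le_of_le_one_left (hHG.pos _ (yy_pos hx') (yy_le x)).1
      (E5_Jk_le_one hk (E5_Gam0 x))
  have hae : ∀ᵐ z ∂(mz C t), ∀ᵐ x ∂(volume : Measure E3), |gam (uv C A ev z) x| ≤ 1 := by
    have h8 : ∀ᵐ z ∂(mz C 1), ∀ᵐ x ∂(volume : Measure E3), |gam (uv C A ev z) x| ≤ 1 := by
      rw [mz_eq]
      filter_upwards [hb C] with z hz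
      filter_upwards [hz, Gam_uv h (C.w z.1 z.2)] with x hx hx2
      rw [hx2] at hx
      exact hx
    exact ae_mono (mz_mono C ht.2) h8
  have ep : ∫⁻ z, (∫⁻ x in Bl, ENNReal.ofReal (Jk k (gam (uv C A ev z) x) * Gp (yy x)))
      ∂(mz C t) ≤ ENNReal.ofReal (t * Bp) := by
    calc ∫⁻ z, (∫⁻ x in Bl, ENNReal.ofReal (Jk k (gam (uv C A ev z) x) * Gp (yy x))) ∂(mz C t)
        ≤ ∫⁻ _, ENNReal.ofReal Bp ∂(mz C t) := by
          refine lintegral_mono_ae ?_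
          filter_upwards [hae] with z hz
          refine le_trans (lintegral_mono_ae ?_) hp
          have hz' : ∀ᵐ x ∂((volume : Measure E3).restrict Bl), |gam (uv C A ev z) x| ≤ 1 :=
            ae_restrict_of_ae hz
          filter_upwards [hz', ae_restrict_mem measurableSet_ball] with x hx hxB
          have hxB' : x ∈ Bl := hxB
          apply ENNReal.ofReal_le_ofReal
          exact mul_le_of_le_one_left (hbd _ (yy_pos hxB') (yy_le x)).1 (E5_Jk_le_one hk hx)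
      _ = ENNReal.ofReal (t * Bp) := by
          rw [lintegral_const, mz_univ, ← ENNReal.ofReal_mul hBp, mul_comm]
  have ed : (ENNReal.ofReal (C2 * t) * ∫⁻ x in Bl,
      ENNReal.ofReal (deriv H (yy x) ^ 2 * yy x ^ (3 / 2 : ℝ))) ^ (1 / 2 : ℝ) ≤
      ENNReal.ofReal ((C2 * t * B1) ^ (1 / 2 : ℝ)) := by
    rw [← ENNReal.ofReal_rpow_of_nonneg (by positivity) (by norm_num),
      ENNReal.ofReal_mul (p := C2 * t) (by positivity)]
    exact ENNReal.rpow_le_rpow (mul_le_mul' le_rfl h1) (by norm_num)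
  refine le_add_self.trans (h4.trans ?_)
  rw [ENNReal.ofReal_add (by positivity) (by positivity),
    ENNReal.ofReal_add hB0 (by positivity)]
  exact add_le_add (add_le_add e0 ep) ed

/-- PROOF: `T₀ = 1`, `s = √T`. `exists_dens` at `t = T` (`need5Bdd`), `adm_dens`, `stage3` with
`j = Jk k` and `HG5`: `(2-ζ)(ζ-1) ∫⁻ ∫⁻ Jk k (Γ) y^(-ζ) e^(-y/√T) ≤ ∫ H + 6 T⁻¹ T ∫ H + drift`
(`Jk ≤ 1` almost everywhere); `∫ H ≤ c T^((3-ζ)/2)` (`lint_exp`), drift: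
`(C2 T ∫ 4 y^(2-2ζ+3/2) e^(-y/√T))^(1/2) = c T^(1/2 + (9/2 - 2ζ)/4) ≤ c T^((3-ζ)/2)`.
Then `k = 1/(n+1) → 0` by Fatou. `Gam_uv`. -/
theorem need5Abs {zt p κ δ q K : ℝ} {A : L2 →L[ℝ] L2} {ev : L2 → E3 → E3}
    (h : Ctx zt p κ δ q A K ev) : Need5Abs zt p κ δ q := by
  obtain ⟨C2, hC2, hst⟩ := E5_step h
  have hz1 := h.par.z1
  have hz2 := h.par.z2
  obtain ⟨c1, hc1, hl1⟩ := lint_exp (a := 2 - zt) (by linarith)
  obtain ⟨c2, hc2, hl2⟩ := lint_exp (a := 7 / 2 - 2 * zt) (by linarith)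
  obtain ⟨a, ha⟩ : ∃ a : ℝ, a = (2 - zt) * (zt - 1) := ⟨_, rfl⟩
  have ha0 : 0 < a := by
    rw [ha]
    exact mul_pos (by linarith) (by linarith)
  refine ⟨1 / a * (7 * c1 + (4 * C2 * c2) ^ (1 / 2 : ℝ)), by positivity, 1, one_pos, le_rfl, ?_⟩
  intro C T hT hT1
  obtain ⟨s, hs⟩ : ∃ s, s = Real.sqrt T := ⟨_, rfl⟩
  have hs0 : 0 < s := hs ▸ Real.sqrt_pos.2 hT
  have hsT : s ^ 2 = T := by rw [hs, Real.sq_sqrt hT.le]
  have hs1 : s ≤ 1 := by
    rw [hs]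
    exact Real.sqrt_le_one.2 hT1
  rw [← hs]
  obtain ⟨c, hHG, hbd, hder⟩ := HG5 hz1 hz2 hs0 hs1
  obtain ⟨S, hS⟩ : ∃ S : ℝ, S = s ^ (3 - zt) := ⟨_, rfl⟩
  have hS0 : 0 ≤ S := by rw [hS]; positivity
  have hST : S = T ^ ((3 - zt) / 2) := by
    rw [hS, hs, Real.sqrt_eq_rpow, ← Real.rpow_mul hT.le]
    congr 1
    ring
  have i0 : ∫⁻ x in Bl, ENNReal.ofReal (yy x ^ (2 - zt) * Real.exp (-yy x / s)) ≤
      ENNReal.ofReal (c1 * S) := by
    have := hl1 s hs0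
    rw [hS]
    rwa [show 2 - zt + 1 = 3 - zt by ring] at this
  have ip : ∫⁻ x in Bl, ENNReal.ofReal (6 / s ^ 2 * (yy x ^ (2 - zt) * Real.exp (-yy x / s))) ≤
      ENNReal.ofReal (6 / s ^ 2 * (c1 * S)) := by
    rw [ENNReal.ofReal_mul (by positivity)]
    have h5 : ∀ x : E3, ENNReal.ofReal (6 / s ^ 2 * (yy x ^ (2 - zt) * Real.exp (-yy x / s))) =
        ENNReal.ofReal (6 / s ^ 2) * ENNReal.ofReal (yy x ^ (2 - zt) * Real.exp (-yy x / s)) :=
      fun x => ENNReal.ofReal_mul (by positivity)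
    rw [lintegral_congr h5, lintegral_const_mul' _ _ ENNReal.ofReal_ne_top]
    exact mul_le_mul' le_rfl i0
  have i1 : ∫⁻ x in Bl, ENNReal.ofReal
      (deriv (fun y => y ^ (2 - zt) * Real.exp (-y / s)) (yy x) ^ 2 * yy x ^ (3 / 2 : ℝ)) ≤
      ENNReal.ofReal (4 * (c2 * s ^ (9 / 2 - 2 * zt))) := by
    have h6 : ∀ x ∈ Bl, ENNReal.ofReal
        (deriv (fun y => y ^ (2 - zt) * Real.exp (-y / s)) (yy x) ^ 2 * yy x ^ (3 / 2 : ℝ)) ≤
        ENNReal.ofReal 4 *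
          ENNReal.ofReal (yy x ^ (7 / 2 - 2 * zt) * Real.exp (-yy x / s)) := by
      intro x hx
      have hy := yy_pos hx
      have hy2 := yy_le x
      rw [← ENNReal.ofReal_mul (by norm_num)]
      apply ENNReal.ofReal_le_ofReal
      have h7 := hder _ hy hy2
      have h8 : deriv (fun y => y ^ (2 - zt) * Real.exp (-y / s)) (yy x) ^ 2 ≤
          (2 * (yy x ^ (1 - zt) * Real.exp (-yy x / (2 * s)))) ^ 2 := by
        rw [← sq_abs (deriv _ _)]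
        exact pow_le_pow_left₀ (abs_nonneg _) h7 2
      have h9 : (2 * (yy x ^ (1 - zt) * Real.exp (-yy x / (2 * s)))) ^ 2 * yy x ^ (3 / 2 : ℝ) =
          4 * (yy x ^ (7 / 2 - 2 * zt) * Real.exp (-yy x / s)) := by
        have e1 : Real.exp (-yy x / (2 * s)) ^ 2 = Real.exp (-yy x / s) := by
          rw [← Real.exp_nat_mul]
          congr 1
          field_simp
          norm_num
        have e2 : yy x ^ (7 / 2 - 2 * zt) = (yy x ^ (1 - zt)) ^ 2 * yy x ^ (3 / 2 : ℝ) := by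
          rw [← Real.rpow_natCast (yy x ^ (1 - zt)) 2, ← Real.rpow_mul hy.le,
            ← Real.rpow_add hy]
          congr 1
          push_cast
          ring
        rw [e2, ← e1]
        ring
      calc deriv (fun y => y ^ (2 - zt) * Real.exp (-y / s)) (yy x) ^ 2 * yy x ^ (3 / 2 : ℝ)
          ≤ (2 * (yy x ^ (1 - zt) * Real.exp (-yy x / (2 * s)))) ^ 2 * yy x ^ (3 / 2 : ℝ) :=
            mul_le_mul_of_nonneg_right h8 (by positivity)
        _ = _ := h9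
    refine (setLIntegral_mono' measurableSet_ball h6).trans ?_
    rw [lintegral_const_mul' _ _ ENNReal.ofReal_ne_top, ENNReal.ofReal_mul (by norm_num)]
    refine mul_le_mul' le_rfl ?_
    have := hl2 s hs0
    rwa [show 7 / 2 - 2 * zt + 1 = 9 / 2 - 2 * zt by ring] at this
  have key := hst C T ⟨hT.le, hT1⟩ (fun y => y ^ (2 - zt) * Real.exp (-y / s))
    (fun y => 6 / s ^ 2 * (y ^ (2 - zt) * Real.exp (-y / s)))
    (fun y => (2 - zt) * (zt - 1) * (y ^ (-zt) * Real.exp (-y / s))) c hHG (by fun_prop)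
    (by fun_prop)
    (fun y hy hy2 => ⟨by positivity, by rw [← ha]; positivity, (hbd y hy hy2).1,
      (hbd y hy hy2).2⟩)
    (c1 * S) (6 / s ^ 2 * (c1 * S)) (4 * (c2 * s ^ (9 / 2 - 2 * zt))) (by positivity)
    (by positivity) (by positivity) i0 ip i1
  -- the numbers
  have hnum : c1 * S + T * (6 / s ^ 2 * (c1 * S)) +
      (C2 * T * (4 * (c2 * s ^ (9 / 2 - 2 * zt)))) ^ (1 / 2 : ℝ) ≤
      (7 * c1 + (4 * C2 * c2) ^ (1 / 2 : ℝ)) * S := by
    have e1 : T * (6 / s ^ 2 * (c1 * S)) = 6 * (c1 * S) := by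
      rw [← hsT]
      field_simp
    have e2 : (C2 * T * (4 * (c2 * s ^ (9 / 2 - 2 * zt)))) ^ (1 / 2 : ℝ) =
        (4 * C2 * c2) ^ (1 / 2 : ℝ) * s ^ (13 / 4 - zt) := by
      have e3 : C2 * T * (4 * (c2 * s ^ (9 / 2 - 2 * zt))) =
          (4 * C2 * c2) * s ^ (13 / 2 - 2 * zt) := by
        have e4 : s ^ (13 / 2 - 2 * zt) = s ^ (9 / 2 - 2 * zt) * T := by
          rw [← hsT, ← Real.rpow_natCast s 2, ← Real.rpow_add hs0]
          congr 1
          push_cast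
          ring
        rw [e4]
        ring
      rw [e3, Real.mul_rpow (by positivity) (by positivity), ← Real.rpow_mul hs0.le]
      congr 2
      ring
    have e5 : s ^ (13 / 4 - zt) ≤ S := by
      rw [hS]
      exact Real.rpow_le_rpow_of_exponent_ge hs0 hs1 (by linarith)
    have e6 : (4 * C2 * c2) ^ (1 / 2 : ℝ) * s ^ (13 / 4 - zt) ≤
        (4 * C2 * c2) ^ (1 / 2 : ℝ) * S := mul_le_mul_of_nonneg_left e5 (by positivity)
    rw [e1, e2]
    linarith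
  have hfin : ∫⁻ z, (∫⁻ x in Bl, ENNReal.ofReal (|Gam δ (C.w z.1 z.2) x| * yy x ^ (-zt) *
      Real.exp (-yy x / s))) ∂(mz C T) = ENNReal.ofReal (1 / a) *
      ∫⁻ z, (∫⁻ x in Bl, ENNReal.ofReal (|gam (uv C A ev z) x| *
        ((2 - zt) * (zt - 1) * (yy x ^ (-zt) * Real.exp (-yy x / s))))) ∂(mz C T) := by
    rw [← lintegral_const_mul' _ _ ENNReal.ofReal_ne_top]
    refine lintegral_congr fun z => ?_
    rw [← lintegral_const_mul' _ _ ENNReal.ofReal_ne_top]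
    refine lintegral_congr_ae ?_
    filter_upwards [ae_restrict_of_ae (Gam_uv h (C.w z.1 z.2))] with x hx
    rw [← ENNReal.ofReal_mul (by positivity), ← ha, hx]
    congr 1
    unfold uv
    field_simp
  change ∫⁻ z, (∫⁻ x in Bl, ENNReal.ofReal (|Gam δ (C.w z.1 z.2) x| * yy x ^ (-zt) *
      Real.exp (-yy x / s))) ∂(mz C T) ≤ _
  rw [hfin]
  refine (mul_le_mul' le_rfl key).trans ?_
  rw [← ENNReal.ofReal_mul (by positivity), ← hST, mul_assoc (1 / a)]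
  exact ENNReal.ofReal_le_ofReal (mul_le_mul_of_nonneg_left hnum (by positivity))

/-- PROOF: `t = 1`, `R₀ = 1`, `stage3` with `j = Jk k` and `HG7`:
`∫⁻ ∫⁻ Jk k (Γ) e^(-y/R) ≤ R² |B| + ∫ 2 y e^(-y/R) + (C2 ∫ R² e^(-2y/R) y^(3/2))^(1/2) ≤ c R²`
(`lint_exp`). Then `k → 0` by Fatou. -/
theorem need5Wall {zt p κ δ q K : ℝ} {A : L2 →L[ℝ] L2} {ev : L2 → E3 → E3}
    (h : Ctx zt p κ δ q A K ev) : Need5Wall zt p κ δ q := by
  obtain ⟨C2, hC2, hst⟩ := E5_step h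
  obtain ⟨c1, hc1, hl1⟩ := lint_exp (a := 1) (by norm_num)
  obtain ⟨c2, hc2, hl2⟩ := lint_exp (a := 3 / 2) (by norm_num)
  refine ⟨13 + 2 * c1 + (C2 * c2) ^ (1 / 2 : ℝ), by positivity, 1, one_pos, ?_⟩
  intro C R hR hR1
  obtain ⟨c, hHG, hbd, hder⟩ := HG7 hR hR1
  have hexp : ∀ x ∈ Bl, Real.exp (-yy x / R) ≤ 1 := by
    intro x hx
    have hy := yy_pos hx
    apply Real.exp_le_one_iff.2
    apply div_nonpos_of_nonpos_of_nonneg
    · linarith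
    · exact hR.le
  have i0 : ∫⁻ x in Bl, ENNReal.ofReal (R ^ 2 * (1 - Real.exp (-yy x / R))) ≤
      ENNReal.ofReal (13 * R ^ 2) := by
    calc ∫⁻ x in Bl, ENNReal.ofReal (R ^ 2 * (1 - Real.exp (-yy x / R)))
        ≤ ∫⁻ _ in Bl, ENNReal.ofReal (R ^ 2) := by
          refine lintegral_mono fun x => ENNReal.ofReal_le_ofReal ?_
          have := Real.exp_pos (-yy x / R)
          nlinarith [sq_nonneg R]
      _ = ENNReal.ofReal (R ^ 2) * volume Bl := by rw [setLIntegral_const]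
      _ ≤ ENNReal.ofReal (R ^ 2) * ENNReal.ofReal 13 := mul_le_mul' le_rfl vol_Bl
      _ = ENNReal.ofReal (13 * R ^ 2) := by
          rw [← ENNReal.ofReal_mul (by positivity), mul_comm]
  have ip : ∫⁻ x in Bl, ENNReal.ofReal (2 * yy x * Real.exp (-yy x / R)) ≤
      ENNReal.ofReal (2 * (c1 * R ^ 2)) := by
    have h5 : ∀ x : E3, ENNReal.ofReal (2 * yy x * Real.exp (-yy x / R)) =
        ENNReal.ofReal 2 * ENNReal.ofReal (yy x ^ (1 : ℝ) * Real.exp (-yy x / R)) := by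
      intro x
      rw [← ENNReal.ofReal_mul (by norm_num), Real.rpow_one, mul_assoc]
    rw [lintegral_congr h5, lintegral_const_mul' _ _ ENNReal.ofReal_ne_top,
      ENNReal.ofReal_mul (by norm_num)]
    refine mul_le_mul' le_rfl ?_
    have := hl1 R hR
    rwa [show (1 : ℝ) + 1 = ((2 : ℕ) : ℝ) by norm_num, Real.rpow_natCast] at this
  have i1 : ∫⁻ x in Bl, ENNReal.ofReal
      (deriv (fun y => R ^ 2 * (1 - Real.exp (-y / R))) (yy x) ^ 2 * yy x ^ (3 / 2 : ℝ)) ≤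
      ENNReal.ofReal (R ^ 2 * (c2 * R ^ (5 / 2 : ℝ))) := by
    have h6 : ∀ x ∈ Bl, ENNReal.ofReal
        (deriv (fun y => R ^ 2 * (1 - Real.exp (-y / R))) (yy x) ^ 2 * yy x ^ (3 / 2 : ℝ)) ≤
        ENNReal.ofReal (R ^ 2) *
          ENNReal.ofReal (yy x ^ (3 / 2 : ℝ) * Real.exp (-yy x / R)) := by
      intro x hx
      have hy := yy_pos hx
      rw [← ENNReal.ofReal_mul (by positivity), hder]
      apply ENNReal.ofReal_le_ofReal
      have h7 := hexp x hx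
      have h8 := Real.exp_pos (-yy x / R)
      have h9 : Real.exp (-yy x / R) ^ 2 ≤ Real.exp (-yy x / R) := by nlinarith
      calc (R * Real.exp (-yy x / R)) ^ 2 * yy x ^ (3 / 2 : ℝ)
          = R ^ 2 * (yy x ^ (3 / 2 : ℝ) * Real.exp (-yy x / R) ^ 2) := by ring
        _ ≤ R ^ 2 * (yy x ^ (3 / 2 : ℝ) * Real.exp (-yy x / R)) := by gcongr
    refine (setLIntegral_mono' measurableSet_ball h6).trans ?_
    rw [lintegral_const_mul' _ _ ENNReal.ofReal_ne_top, ENNReal.ofReal_mul (by positivity)]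
    refine mul_le_mul' le_rfl ?_
    have := hl2 R hR
    rwa [show (3 / 2 : ℝ) + 1 = 5 / 2 by norm_num] at this
  have key := hst C 1 ⟨zero_le_one, le_rfl⟩ (fun y => R ^ 2 * (1 - Real.exp (-y / R)))
    (fun y => 2 * y * Real.exp (-y / R)) (fun y => Real.exp (-y / R)) c hHG (by fun_prop)
    (by fun_prop)
    (fun y hy hy2 => ⟨by positivity, by positivity, (hbd y hy hy2).1, (hbd y hy hy2).2⟩)
    (13 * R ^ 2) (2 * (c1 * R ^ 2)) (R ^ 2 * (c2 * R ^ (5 / 2 : ℝ))) (by positivity)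
    (by positivity) (by positivity) i0 ip i1
  have hnum : 13 * R ^ 2 + 1 * (2 * (c1 * R ^ 2)) +
      (C2 * 1 * (R ^ 2 * (c2 * R ^ (5 / 2 : ℝ)))) ^ (1 / 2 : ℝ) ≤
      (13 + 2 * c1 + (C2 * c2) ^ (1 / 2 : ℝ)) * R ^ 2 := by
    have e2 : (C2 * 1 * (R ^ 2 * (c2 * R ^ (5 / 2 : ℝ)))) ^ (1 / 2 : ℝ) =
        (C2 * c2) ^ (1 / 2 : ℝ) * R ^ (9 / 4 : ℝ) := by
      have e3 : C2 * 1 * (R ^ 2 * (c2 * R ^ (5 / 2 : ℝ))) = (C2 * c2) * R ^ (9 / 2 : ℝ) := by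
        have e4 : R ^ (9 / 2 : ℝ) = R ^ 2 * R ^ (5 / 2 : ℝ) := by
          rw [← Real.rpow_natCast R 2, ← Real.rpow_add hR]
          norm_num
        rw [e4]
        ring
      rw [e3, Real.mul_rpow (by positivity) (by positivity), ← Real.rpow_mul hR.le]
      norm_num
    have e5 : R ^ (9 / 4 : ℝ) ≤ R ^ 2 := by
      rw [← Real.rpow_natCast R 2]
      exact Real.rpow_le_rpow_of_exponent_ge hR hR1 (by norm_num)
    have e6 : (C2 * c2) ^ (1 / 2 : ℝ) * R ^ (9 / 4 : ℝ) ≤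
        (C2 * c2) ^ (1 / 2 : ℝ) * R ^ 2 := mul_le_mul_of_nonneg_left e5 (by positivity)
    rw [e2]
    linarith
  have hfin : ∫⁻ z, (∫⁻ x in Bl, ENNReal.ofReal (|Gam δ (C.w z.1 z.2) x| *
      Real.exp (-yy x / R))) ∂(mz C 1) =
      ∫⁻ z, (∫⁻ x in Bl, ENNReal.ofReal (|gam (uv C A ev z) x| *
        Real.exp (-yy x / R))) ∂(mz C 1) := by
    refine lintegral_congr fun z => ?_
    refine lintegral_congr_ae ?_
    filter_upwards [ae_restrict_of_ae (Gam_uv h (C.w z.1 z.2))] with x hx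
    rw [hx]
    rfl
  change ∫⁻ z, (∫⁻ x in Bl, ENNReal.ofReal (|Gam δ (C.w z.1 z.2) x| *
      Real.exp (-yy x / R))) ∂(mz C 1) ≤ _
  rw [hfin]
  exact key.trans (ENNReal.ofReal_le_ofReal hnum)

end Pool.Agent.W_332fe5
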