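import Pool.Agent.W_332fe5_h65.R3

set_option autoImplicit false

/-! Block 5, G1: the swirl of a field. -/

open MeasureTheory ProbabilityTheory Set Filter Topology
open scoped ENNReal NNReal ContDiff

namespace Pool.Agent.W_332fe5

theorem Fld.memLp {u : E3 → E3} {N : ℝ} (h : Fld u N) : MemLp u 2 volume :=
  ⟨h.meas.aestronglyMeasurable, h.norm.trans_lt ENNReal.ofReal_lt_top⟩

private theorem G1_aux_sub (x y : E3) : mm x - mm y = mm (x - y) := by
  ext i
  fin_cases i
  · simp [mm]
    ring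
  · simp [mm]
  · simp [mm]

private theorem G1_aux_norm_sq (x : E3) : ‖mm x‖ ^ 2 = ax2 x := by
  rw [EuclideanSpace.real_norm_sq_eq, Fin.sum_univ_three]
  simp [mm, ax2]
  ring

private theorem G1_aux_ax2 (x : E3) : 0 ≤ ax2 x := by
  unfold ax2
  positivity

private theorem G1_aux_norm (x : E3) : ‖mm x‖ = Real.sqrt (ax2 x) := by
  rw [← G1_aux_norm_sq, Real.sqrt_sq (norm_nonneg _)]

private theorem G1_aux_le (x : E3) : ‖mm x‖ ≤ ‖x‖ := by
  have h1 : ‖mm x‖ ^ 2 ≤ ‖x‖ ^ 2 := by
    rw [G1_aux_norm_sq, EuclideanSpace.real_norm_sq_eq, Fin.sum_univ_three]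
    unfold ax2
    nlinarith [sq_nonneg (x 2)]
  exact le_of_sq_le_sq h1 (norm_nonneg _)

private theorem G1_aux_cont : Continuous mm := by
  have hl : LipschitzWith 1 mm := by
    apply LipschitzWith.of_dist_le_mul
    intro x y
    rw [dist_eq_norm, dist_eq_norm, NNReal.coe_one, one_mul, G1_aux_sub]
    exact G1_aux_le _
  exact hl.continuous

theorem gam_meas {u : E3 → E3} {N : ℝ} (h : Fld u N) : StronglyMeasurable (gam u) :=
  h.meas.inner G1_aux_cont.stronglyMeasurable

/-- `|u · m| ≤ √(x₁² + x₂²) |u|`. -/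
theorem abs_gam_le (u : E3 → E3) (x : E3) : |gam u x| ≤ Real.sqrt (ax2 x) * ‖u x‖ := by
  rw [← G1_aux_norm, mul_comm]
  exact abs_real_inner_le_norm _ _

theorem abs_gam_le_norm {u : E3 → E3} {N : ℝ} (h : Fld u N) : ∀ᵐ x, |gam u x| ≤ ‖u x‖ := by
  filter_upwards [h.supp] with x hx
  by_cases hxB : x ∈ Bl
  · have h1 : ‖x‖ < 1 := by
      rw [Bl, mem_ball_zero_iff] at hxB
      exact hxB
    have h2 : Real.sqrt (ax2 x) ≤ 1 := by
      rw [← G1_aux_norm]
      exact (G1_aux_le x).trans h1.le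
    refine (abs_gam_le u x).trans ?_
    calc Real.sqrt (ax2 x) * ‖u x‖ ≤ 1 * ‖u x‖ := by gcongr
      _ = ‖u x‖ := one_mul _
  · have h1 := abs_gam_le u x
    rw [hx hxB, norm_zero, mul_zero] at h1
    rw [hx hxB, norm_zero]
    exact h1

theorem gam_ae_zero {u : E3 → E3} {N : ℝ} (h : Fld u N) :
    ∀ᵐ x ∂(volume : Measure E3), x ∉ Bl → gam u x = 0 := by
  filter_upwards [h.supp] with x hx hxB
  unfold gam
  rw [hx hxB, inner_zero_left]

theorem gam_memLp {u : E3 → E3} {N : ℝ} (h : Fld u N) : MemLp (gam u) 2 volume :=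
  h.memLp.mono (gam_meas h).aestronglyMeasurable (by
    filter_upwards [abs_gam_le_norm h] with x hx
    rwa [Real.norm_eq_abs])

theorem gam_norm {u : E3 → E3} {N : ℝ} (h : Fld u N) :
    eLpNorm (gam u) 2 volume ≤ ENNReal.ofReal N := by
  refine (eLpNorm_mono_ae ?_).trans h.norm
  filter_upwards [abs_gam_le_norm h] with x hx
  rwa [Real.norm_eq_abs]

private theorem G1_aux_int {F : Type} [NormedAddCommGroup F] {f : E3 → F} (h1 : MemLp f 2 volume)
    (h2 : ∀ᵐ x ∂(volume : Measure E3), x ∉ Bl → f x = 0) : Integrable f := by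
  have h3 : IsFiniteMeasure ((volume : Measure E3).restrict Bl) :=
    ⟨by rw [Measure.restrict_apply_univ]; exact measure_ball_lt_top⟩
  have h4 : IntegrableOn f Bl := (h1.restrict Bl).integrable (by norm_num)
  exact h4.integrable_of_ae_notMem_eq_zero h2

/-- Square integrable functions that vanish outside the ball are integrable. -/
theorem gam_integrable {u : E3 → E3} {N : ℝ} (h : Fld u N) : Integrable (gam u) :=
  G1_aux_int (gam_memLp h) (gam_ae_zero h)

theorem norm_integrable {u : E3 → E3} {N : ℝ} (h : Fld u N) : Integrable u :=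
  G1_aux_int h.memLp h.supp

/-- PROOF: `gam u (x + z) - gam u x = (u (x + z) - u x) · m (x + z) + u x · m z`; where the first
term does not vanish, `x` or `x + z` is in the ball, so `|m (x + z)| ≤ 2`. -/
theorem gam_shift {u : E3 → E3} {N : ℝ} (h : Fld u N) (z : E3) (hz : ‖z‖ ≤ 1) :
    eLpNorm (fun x => gam u (x + z) - gam u x) 2 volume ≤
      ENNReal.ofReal (3 * N * ‖z‖ ^ (3 / 4 : ℝ)) := by
  have hN := h.nonneg
  have hsh : StronglyMeasurable (fun x => u (x + z)) :=
    h.meas.comp_measurable (measurable_add_const z)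
  have hm1 : AEStronglyMeasurable (fun x => inner ℝ (u (x + z) - u x) (mm (x + z)))
      (volume : Measure E3) :=
    ((hsh.sub h.meas).inner (G1_aux_cont.comp (continuous_add_const z)).stronglyMeasurable
      ).aestronglyMeasurable
  have hm2 : AEStronglyMeasurable (fun x => inner ℝ (u x) (mm z)) (volume : Measure E3) :=
    (h.meas.inner stronglyMeasurable_const).aestronglyMeasurable
  have e : (fun x => gam u (x + z) - gam u x) = (fun x => inner ℝ (u (x + z) - u x) (mm (x + z))) +
      fun x => inner ℝ (u x) (mm z) := by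
    funext x
    have h1 : mm z = mm (x + z) - mm x := by
      rw [G1_aux_sub, add_sub_cancel_left]
    rw [Pi.add_apply, h1, inner_sub_left, inner_sub_right]
    unfold gam
    ring
  rw [e]
  refine (eLpNorm_add_le hm1 hm2 (by norm_num)).trans ?_
  have hsupp2 : ∀ᵐ x ∂(volume : Measure E3), x + z ∉ Bl → u (x + z) = 0 :=
    (measurePreserving_add_right (volume : Measure E3) z).quasiMeasurePreserving.ae h.supp
  have b1 : eLpNorm (fun x => inner ℝ (u (x + z) - u x) (mm (x + z))) 2 (volume : Measure E3) ≤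
      ENNReal.ofReal 2 * eLpNorm (fun x => u (x + z) - u x) 2 volume := by
    apply eLpNorm_le_mul_eLpNorm_of_ae_le_mul
    filter_upwards [h.supp, hsupp2] with x hx hx2
    have h1 := norm_inner_le_norm (𝕜 := ℝ) (u (x + z) - u x) (mm (x + z))
    by_cases hc : x ∉ Bl ∧ x + z ∉ Bl
    · rw [hx hc.1, hx2 hc.2, sub_zero, inner_zero_left, norm_zero, norm_zero, mul_zero]
    · have h2 : ‖x + z‖ ≤ 2 := by
        rw [not_and_or, not_not, not_not] at hc
        rcases hc with hc | hc
        · rw [Bl, mem_ball_zero_iff] at hc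
          have := norm_add_le x z
          linarith
        · rw [Bl, mem_ball_zero_iff] at hc
          linarith
      refine h1.trans ?_
      rw [mul_comm]
      exact mul_le_mul_of_nonneg_right ((G1_aux_le _).trans h2) (norm_nonneg _)
  have b2 : eLpNorm (fun x => inner ℝ (u x) (mm z)) 2 (volume : Measure E3) ≤
      ENNReal.ofReal ‖z‖ * eLpNorm u 2 volume := by
    apply eLpNorm_le_mul_eLpNorm_of_ae_le_mul
    refine Filter.Eventually.of_forall fun x => ?_
    refine (norm_inner_le_norm (𝕜 := ℝ) (u x) (mm z)).trans ?_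
    rw [mul_comm]
    exact mul_le_mul_of_nonneg_right (G1_aux_le _) (norm_nonneg _)
  have hz34 : ‖z‖ ≤ ‖z‖ ^ (3 / 4 : ℝ) := by
    rcases (norm_nonneg z).eq_or_lt with h0 | h0
    · rw [← h0]
      exact Real.rpow_nonneg le_rfl _
    · have := Real.rpow_le_rpow_of_exponent_ge h0 hz (by norm_num : (3 / 4 : ℝ) ≤ 1)
      rwa [Real.rpow_one] at this
  have hzp : 0 ≤ ‖z‖ ^ (3 / 4 : ℝ) := Real.rpow_nonneg (norm_nonneg _) _
  calc eLpNorm (fun x => inner ℝ (u (x + z) - u x) (mm (x + z))) 2 (volume : Measure E3) +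
      eLpNorm (fun x => inner ℝ (u x) (mm z)) 2 (volume : Measure E3)
      ≤ ENNReal.ofReal 2 * ENNReal.ofReal (N * ‖z‖ ^ (3 / 4 : ℝ)) +
        ENNReal.ofReal ‖z‖ * ENNReal.ofReal N :=
        add_le_add (b1.trans (mul_le_mul' le_rfl (h.shift z))) (b2.trans (mul_le_mul' le_rfl h.norm))
    _ = ENNReal.ofReal (2 * (N * ‖z‖ ^ (3 / 4 : ℝ)) + ‖z‖ * N) := by
        rw [← ENNReal.ofReal_mul (by norm_num), ← ENNReal.ofReal_mul (norm_nonneg _),
          ← ENNReal.ofReal_add (by positivity) (by positivity)]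
    _ ≤ ENNReal.ofReal (3 * N * ‖z‖ ^ (3 / 4 : ℝ)) := by
        apply ENNReal.ofReal_le_ofReal
        nlinarith [mul_le_mul_of_nonneg_right hz34 hN]

/-- `Γ k` is integrable: `|Γ k| ≤ 2 |u|`. -/
theorem norm_gam_smul_kk (u : E3 → E3) (x : E3) : ‖gam u x • kk x‖ ≤ 2 * ‖u x‖ := by
  have h0 := G1_aux_ax2 x
  have h1 : ‖(!₂[x 0, x 1, 0] : E3)‖ = Real.sqrt (ax2 x) := by
    have h2 : ‖(!₂[x 0, x 1, 0] : E3)‖ ^ 2 = ax2 x := by
      rw [EuclideanSpace.real_norm_sq_eq, Fin.sum_univ_three]
      simp [ax2]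
    rw [← h2, Real.sqrt_sq (norm_nonneg _)]
  rw [norm_smul, Real.norm_eq_abs]
  unfold kk
  rw [norm_smul, h1, Real.norm_eq_abs, abs_of_nonneg (by positivity : 0 ≤ 2 / ax2 x)]
  rcases h0.eq_or_lt with h2 | h2
  · rw [← h2]
    simp
  · have h3 : Real.sqrt (ax2 x) * (2 / ax2 x * Real.sqrt (ax2 x)) = 2 := by
      have h4 := Real.mul_self_sqrt h0
      field_simp
      nlinarith
    calc |gam u x| * (2 / ax2 x * Real.sqrt (ax2 x)) ≤
        (Real.sqrt (ax2 x) * ‖u x‖) * (2 / ax2 x * Real.sqrt (ax2 x)) :=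
          mul_le_mul_of_nonneg_right (abs_gam_le u x) (by positivity)
      _ = (Real.sqrt (ax2 x) * (2 / ax2 x * Real.sqrt (ax2 x))) * ‖u x‖ := by ring
      _ = 2 * ‖u x‖ := by rw [h3]

theorem kk_measurable : Measurable kk := by
  have h1 : Measurable ax2 := by
    unfold ax2
    fun_prop
  have h2 : Measurable (fun x : E3 => (!₂[x 0, x 1, 0] : E3)) := by
    have h4 : Continuous (fun x : E3 => (!₂[x 0, x 1, 0] : E3)) := by
      have hl : LipschitzWith 1 (fun x : E3 => (!₂[x 0, x 1, 0] : E3)) := by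
        apply LipschitzWith.of_dist_le_mul
        intro x y
        rw [dist_eq_norm, dist_eq_norm, NNReal.coe_one, one_mul]
        have h5 : ‖(!₂[x 0, x 1, 0] : E3) - !₂[y 0, y 1, 0]‖ ^ 2 ≤ ‖x - y‖ ^ 2 := by
          rw [EuclideanSpace.real_norm_sq_eq, EuclideanSpace.real_norm_sq_eq, Fin.sum_univ_three,
            Fin.sum_univ_three]
          simp
          positivity
        exact le_of_sq_le_sq h5 (norm_nonneg _)
      exact hl.continuous
    exact h4.measurable
  exact (measurable_const.div h1).smul h2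

theorem gam_smul_kk_integrable {u : E3 → E3} {N : ℝ} (h : Fld u N) :
    Integrable fun x => gam u x • kk x := by
  refine ((norm_integrable h).norm.const_mul 2).mono' ?_ ?_
  · exact (gam_meas h).aestronglyMeasurable.smul kk_measurable.aestronglyMeasurable
  · exact Filter.Eventually.of_forall fun x => norm_gam_smul_kk u x

theorem gam_smul_u_integrable {u : E3 → E3} {N : ℝ} (h : Fld u N) :
    Integrable fun x => gam u x • u x := by
  have h1 : MemLp (gam u • u) 1 volume := h.memLp.smul (gam_memLp h)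
  exact memLp_one_iff_integrable.1 h1

end Pool.Agent.W_332fe5
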