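import Pool.Agent.W_332fe5_h65.B5Defs

set_option autoImplicit false

/-! Block 5, K1: the field `k` and its truncation near the axis. -/

open MeasureTheory ProbabilityTheory Set Filter Topology
open scoped ENNReal NNReal ContDiff

namespace Pool.Agent.W_332fe5

/-- The field `k`, truncated near the axis. -/
noncomputable def kt (τ : ℝ) (x : E3) : E3 := (2 / max (ax2 x) τ) • !₂[x 0, x 1, 0]

theorem kt_eq {τ : ℝ} {x : E3} (h : τ ≤ ax2 x) : kt τ x = kk x := by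
  unfold kt kk
  rw [max_eq_left h]

/-- the projection along the axis -/
private noncomputable def K1_pr (x : E3) : E3 := !₂[x 0, x 1, 0]

private theorem K1_norm_pr (x : E3) : ‖K1_pr x‖ ^ 2 = ax2 x := by
  rw [EuclideanSpace.real_norm_sq_eq, Fin.sum_univ_three]
  simp [K1_pr, ax2]

private theorem K1_pr_sub (x y : E3) : ‖K1_pr x - K1_pr y‖ ≤ ‖x - y‖ := by
  have h1 : ‖K1_pr x - K1_pr y‖ ^ 2 ≤ ‖x - y‖ ^ 2 := by
    rw [EuclideanSpace.real_norm_sq_eq, EuclideanSpace.real_norm_sq_eq, Fin.sum_univ_three,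
      Fin.sum_univ_three]
    simp [K1_pr]
    positivity
  exact le_of_sq_le_sq h1 (norm_nonneg _)

private theorem K1_kt (τ : ℝ) (x : E3) : kt τ x = (2 / max (ax2 x) τ) • K1_pr x := rfl

/-- PROOF: with `a = max |p|² τ`, `b = max |q|² τ`, `p / a - q / b = (p - q) / a + q (b - a) / (ab)`,
`|b - a| ≤ | |p|² - |q|² | ≤ |p - q| (|p| + |q|)`, `|q| (|p| + |q|) ≤ b + √(ab)`. -/
theorem kt_lipschitz {τ : ℝ} (hτ : 0 < τ) (x y : E3) : ‖kt τ x - kt τ y‖ ≤ 6 / τ * ‖x - y‖ := by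
  obtain ⟨a, ha⟩ : ∃ a, a = max (ax2 x) τ := ⟨_, rfl⟩
  obtain ⟨b, hb⟩ : ∃ b, b = max (ax2 y) τ := ⟨_, rfl⟩
  obtain ⟨P, hP⟩ : ∃ P, P = ‖K1_pr x‖ := ⟨_, rfl⟩
  obtain ⟨Q, hQ⟩ : ∃ Q, Q = ‖K1_pr y‖ := ⟨_, rfl⟩
  have haτ : τ ≤ a := ha ▸ le_max_right _ _
  have hbτ : τ ≤ b := hb ▸ le_max_right _ _
  have ha0 : 0 < a := hτ.trans_le haτ
  have hb0 : 0 < b := hτ.trans_le hbτ
  have hP0 : 0 ≤ P := hP ▸ norm_nonneg _
  have hQ0 : 0 ≤ Q := hQ ▸ norm_nonneg _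
  have hPa : P ^ 2 ≤ a := by
    rw [hP, K1_norm_pr, ha]
    exact le_max_left _ _
  have hQb : Q ^ 2 ≤ b := by
    rw [hQ, K1_norm_pr, hb]
    exact le_max_left _ _
  obtain ⟨d, hd⟩ : ∃ d, d = ‖K1_pr x - K1_pr y‖ := ⟨_, rfl⟩
  have hd0 : 0 ≤ d := hd ▸ norm_nonneg _
  have hPQ : |P - Q| ≤ d := by
    rw [hP, hQ, hd]
    exact abs_norm_sub_norm_le _ _
  have hab : |b - a| ≤ d * (P + Q) := by
    have h1 : |b - a| ≤ |Q ^ 2 - P ^ 2| := by
      rw [ha, hb, hQ, hP, K1_norm_pr, K1_norm_pr]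
      exact abs_max_sub_max_le_abs _ _ _
    have h2 : |Q ^ 2 - P ^ 2| = |P - Q| * (P + Q) := by
      rw [abs_sub_comm, show P ^ 2 - Q ^ 2 = (P - Q) * (P + Q) by ring, abs_mul,
        abs_of_nonneg (add_nonneg hP0 hQ0)]
    rw [h2] at h1
    exact h1.trans (mul_le_mul_of_nonneg_right hPQ (add_nonneg hP0 hQ0))
  have e : kt τ x - kt τ y = (2 / a) • (K1_pr x - K1_pr y) +
      (2 * (b - a) / (a * b)) • K1_pr y := by
    rw [K1_kt, K1_kt, ← ha, ← hb, smul_sub]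
    have h3 : (2 * (b - a) / (a * b)) = 2 / a - 2 / b := by
      field_simp
    rw [h3, sub_smul]
    abel
  rw [e]
  refine (norm_add_le _ _).trans ?_
  rw [norm_smul, norm_smul, ← hd, ← hQ, Real.norm_eq_abs, Real.norm_eq_abs,
    abs_of_pos (by positivity : 0 < 2 / a), abs_div, abs_mul, abs_two,
    abs_of_pos (mul_pos ha0 hb0)]
  have h4 : 2 * |b - a| / (a * b) * Q ≤ 4 / τ * d := by
    have h5 : |b - a| * Q ≤ d * (b + (a + b) / 2) := by
      refine (mul_le_mul_of_nonneg_right hab hQ0).trans ?_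
      rw [mul_assoc]
      refine mul_le_mul_of_nonneg_left ?_ hd0
      nlinarith [sq_nonneg (P - Q)]
    have h6 : (b + (a + b) / 2) / (a * b) ≤ 2 / τ := by
      have h7 : (b + (a + b) / 2) / (a * b) = 3 / 2 * (1 / a) + 1 / 2 * (1 / b) := by
        field_simp
        ring
      have h8 : 1 / a ≤ 1 / τ := one_div_le_one_div_of_le hτ haτ
      have h9 : 1 / b ≤ 1 / τ := one_div_le_one_div_of_le hτ hbτ
      have h10 : 2 / τ = 2 * (1 / τ) := by ring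
      rw [h7, h10]
      linarith
    calc 2 * |b - a| / (a * b) * Q = 2 * (|b - a| * Q) / (a * b) := by ring
      _ ≤ 2 * (d * (b + (a + b) / 2)) / (a * b) := by gcongr
      _ = 2 * d * ((b + (a + b) / 2) / (a * b)) := by ring
      _ ≤ 2 * d * (2 / τ) := mul_le_mul_of_nonneg_left h6 (by positivity)
      _ = 4 / τ * d := by ring
  have h11 : 2 / a * d ≤ 2 / τ * d := by gcongr
  have h12 : d ≤ ‖x - y‖ := hd ▸ K1_pr_sub x y
  calc 2 / a * d + 2 * |b - a| / (a * b) * Q ≤ 2 / τ * d + 4 / τ * d := add_le_add h11 h4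
    _ = 6 / τ * d := by ring
    _ ≤ 6 / τ * ‖x - y‖ := by gcongr

theorem kt_norm {τ : ℝ} (hτ : 0 < τ) (x : E3) : ‖kt τ x‖ ≤ 2 / Real.sqrt τ := by
  obtain ⟨a, ha⟩ : ∃ a, a = max (ax2 x) τ := ⟨_, rfl⟩
  have haτ : τ ≤ a := ha ▸ le_max_right _ _
  have ha0 : 0 < a := hτ.trans_le haτ
  have h1 : ‖K1_pr x‖ ≤ Real.sqrt a := by
    apply Real.le_sqrt_of_sq_le
    rw [K1_norm_pr, ha]
    exact le_max_left _ _
  rw [K1_kt, ← ha, norm_smul, Real.norm_eq_abs, abs_of_pos (by positivity : 0 < 2 / a)]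
  have h2 : 0 < Real.sqrt a := Real.sqrt_pos.2 ha0
  have h3 : 0 < Real.sqrt τ := Real.sqrt_pos.2 hτ
  calc 2 / a * ‖K1_pr x‖ ≤ 2 / a * Real.sqrt a := by gcongr
    _ = 2 / Real.sqrt a := by
      rw [div_mul_eq_mul_div, div_eq_div_iff ha0.ne' h2.ne', mul_assoc, Real.mul_self_sqrt ha0.le]
    _ ≤ 2 / Real.sqrt τ := by
      have h4 : Real.sqrt τ ≤ Real.sqrt a := Real.sqrt_le_sqrt haτ
      gcongr

theorem kt_continuous {τ : ℝ} (hτ : 0 < τ) : Continuous (kt τ) :=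
  (LipschitzWith.of_dist_le' (K := 6 / τ) fun x y => by
    rw [dist_eq_norm, dist_eq_norm]
    exact kt_lipschitz hτ x y).continuous

/-- A compact set off the axis has a neighbourhood at a positive distance of the axis. -/
theorem exists_tau {K : Set E3} (hK : IsCompact K) (h : Disjoint K Axis) :
    ∃ τ : ℝ, 0 < τ ∧ ∃ ε₀ : ℝ, 0 < ε₀ ∧ ∀ x ∈ K, ∀ y, ‖x - y‖ ≤ ε₀ → τ ≤ ax2 y := by
  rcases K.eq_empty_or_nonempty with rfl | hne
  · exact ⟨1, one_pos, 1, one_pos, fun x hx => absurd hx (Set.notMem_empty x)⟩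
  have hc : Continuous (fun x : E3 => ‖K1_pr x‖) := by
    have hl : LipschitzWith 1 K1_pr := by
      apply LipschitzWith.of_dist_le_mul
      intro x y
      rw [dist_eq_norm, dist_eq_norm, NNReal.coe_one, one_mul]
      exact K1_pr_sub x y
    exact hl.continuous.norm
  obtain ⟨x0, hx0, hmin⟩ := hK.exists_isMinOn hne hc.continuousOn
  have hm : 0 < ‖K1_pr x0‖ := by
    rcases (norm_nonneg (K1_pr x0)).eq_or_lt with h0 | h0
    · exfalso
      refine Set.disjoint_left.1 h hx0 ?_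
      change ax2 x0 = 0
      rw [← K1_norm_pr, ← h0]
      norm_num
    · exact h0
  refine ⟨(‖K1_pr x0‖ / 2) ^ 2, by positivity, ‖K1_pr x0‖ / 2, by positivity, ?_⟩
  intro x hx y hxy
  have h1 : ‖K1_pr x0‖ ≤ ‖K1_pr x‖ := hmin hx
  have h2 : ‖K1_pr x‖ - ‖K1_pr y‖ ≤ ‖x - y‖ :=
    (norm_sub_norm_le _ _).trans (K1_pr_sub x y)
  rw [← K1_norm_pr y]
  have h3 : ‖K1_pr x0‖ / 2 ≤ ‖K1_pr y‖ := by linarith
  gcongr

end Pool.Agent.W_332fe5
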