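import Pool.Agent.W_332fe5_h65.K1

set_option autoImplicit false

/-! Block 5, K2: integration by parts. -/

open MeasureTheory ProbabilityTheory Set Filter Topology
open scoped ENNReal NNReal ContDiff

namespace Pool.Agent.W_332fe5

/-- The integral of a derivative of a compactly supported function. -/
theorem K2_const {ψ : E3 → ℝ} (h1 : ContDiff ℝ 1 ψ) (h2 : HasCompactSupport ψ)
    (v : E3) : ∫ x, fderiv ℝ ψ x v = 0 := by
  have hc : Continuous fun x => fderiv ℝ ψ x v :=
    (h1.continuous_fderiv (by norm_num)).clm_apply continuous_const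
  have hs : HasCompactSupport fun x => fderiv ℝ ψ x v := h2.fderiv_apply (𝕜 := ℝ) v
  have key := integral_mul_fderiv_eq_neg_fderiv_mul_of_integrable (μ := (volume : Measure E3))
    (f := fun _ : E3 => (1 : ℝ)) (g := ψ) (v := v) (by simp)
    (by simpa using hc.integrable_of_hasCompactSupport hs)
    (by simpa using h1.continuous.integrable_of_hasCompactSupport h2)
    (fun x _ => differentiableAt_const _) (fun x _ => (h1.differentiable (by norm_num)) x)
  simpa using key

theorem K2_ax2_hasFDerivAt (x : E3) (i : Fin 3) : HasFDerivAt (fun z : E3 => z i)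
    (EuclideanSpace.proj i : E3 →L[ℝ] ℝ) x :=
  (EuclideanSpace.proj i : E3 →L[ℝ] ℝ).hasFDerivAt

/-- `k_i` is smooth off the axis, for `i = 0, 1`. -/
theorem K2_smooth {x : E3} (hx : ax2 x ≠ 0) (i : Fin 3) :
    ContDiffAt ℝ 1 (fun z : E3 => 2 / ax2 z * z i) x := by
  have h0 : ∀ j : Fin 3, ContDiffAt ℝ 1 (fun z : E3 => z j) x := fun j =>
    (EuclideanSpace.proj j : E3 →L[ℝ] ℝ).contDiff.contDiffAt
  have h1 : ContDiffAt ℝ 1 (fun z : E3 => ax2 z) x := by
    unfold ax2
    exact ((h0 0).pow 2).add ((h0 1).pow 2)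
  exact (contDiffAt_const.div h1 hx).mul (h0 i)

theorem K2_deriv {x : E3} (hx : ax2 x ≠ 0) (i : Fin 3) :
    HasFDerivAt (fun z : E3 => 2 / ax2 z * z i)
      ((2 / ax2 x) • (EuclideanSpace.proj i : E3 →L[ℝ] ℝ) +
        (x i) • ((-(2 / ax2 x ^ 2)) • ((2 * x 0) • (EuclideanSpace.proj 0 : E3 →L[ℝ] ℝ) +
          (2 * x 1) • (EuclideanSpace.proj 1 : E3 →L[ℝ] ℝ)))) x := by
  have h1 : HasFDerivAt (fun z : E3 => ax2 z)
      ((2 * x 0) • (EuclideanSpace.proj 0 : E3 →L[ℝ] ℝ) +
          (2 * x 1) • (EuclideanSpace.proj 1 : E3 →L[ℝ] ℝ)) x := by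
    have e := ((K2_ax2_hasFDerivAt x 0).pow 2).add ((K2_ax2_hasFDerivAt x 1).pow 2)
    refine e.congr_fderiv ?_
    simp
  have h2 : HasDerivAt (fun t : ℝ => 2 / t) (-(2 / ax2 x ^ 2)) (ax2 x) := by
    have e := (hasDerivAt_const (ax2 x) (2 : ℝ)).div (hasDerivAt_id (ax2 x)) hx
    refine e.congr_deriv ?_
    simp [neg_div]
  have h3 := h2.comp_hasFDerivAt x h1
  have h4 := h3.mul (K2_ax2_hasFDerivAt x i)
  refine h4.congr_fderiv ?_
  simp

/-- `div k = 0` off the axis.
PROOF: on a neighbourhood of `tsupport ψ` the function `k` is smooth;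
`∫ ∂_j (ψ k_j) = 0` (`integral_bilinear_hasLineDerivAt_right_eq_neg_left_of_integrable` or
similar) and `∑ ∂_j k_j = 0`. -/
theorem integral_fderiv_kk {ψ : E3 → ℝ} (h1 : ContDiff ℝ 1 ψ) (h2 : HasCompactSupport ψ)
    (h3 : Disjoint (tsupport ψ) Axis) : ∫ x, fderiv ℝ ψ x (kk x) = 0 := by
  have hF1 : ∀ i : Fin 3, ContDiff ℝ 1 (fun z : E3 => ψ z * (2 / ax2 z * z i)) := by
    intro i
    rw [contDiff_iff_contDiffAt]
    intro x
    by_cases hx : x ∈ tsupport ψ
    · have hx' : ax2 x ≠ 0 := fun h => Set.disjoint_left.1 h3 hx h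
      exact h1.contDiffAt.mul (K2_smooth hx' i)
    · have e : (fun z : E3 => ψ z * (2 / ax2 z * z i)) =ᶠ[𝓝 x] fun _ => 0 := by
        have := (notMem_tsupport_iff_eventuallyEq).1 hx
        filter_upwards [this] with z hz
        simp [hz]
      exact contDiffAt_const.congr_of_eventuallyEq e
  have hF2 : ∀ i : Fin 3, HasCompactSupport (fun z : E3 => ψ z * (2 / ax2 z * z i)) :=
    fun i => h2.mul_right
  have hF3 : ∀ i : Fin 3, ∫ x, fderiv ℝ (fun z : E3 => ψ z * (2 / ax2 z * z i)) x
      (EuclideanSpace.single i 1) = 0 := fun i => K2_const (hF1 i) (hF2 i) _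
  have hF4 : ∀ i : Fin 3, Integrable fun x => fderiv ℝ (fun z : E3 => ψ z * (2 / ax2 z * z i)) x
      (EuclideanSpace.single i 1) := by
    intro i
    have hc : Continuous fun x => fderiv ℝ (fun z : E3 => ψ z * (2 / ax2 z * z i)) x
        (EuclideanSpace.single i 1) :=
      ((hF1 i).continuous_fderiv (by norm_num)).clm_apply continuous_const
    exact hc.integrable_of_hasCompactSupport ((hF2 i).fderiv_apply (𝕜 := ℝ) _)
  have key : ∀ x, fderiv ℝ ψ x (kk x) =
      fderiv ℝ (fun z : E3 => ψ z * (2 / ax2 z * z 0)) x (EuclideanSpace.single 0 1) +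
      fderiv ℝ (fun z : E3 => ψ z * (2 / ax2 z * z 1)) x (EuclideanSpace.single 1 1) := by
    intro x
    by_cases hx : x ∈ tsupport ψ
    · have hx' : ax2 x ≠ 0 := fun h => Set.disjoint_left.1 h3 hx h
      have hψ : HasFDerivAt ψ (fderiv ℝ ψ x) x := (h1.differentiable (by norm_num) x).hasFDerivAt
      have d0 := (hψ.mul (K2_deriv hx' 0)).fderiv
      have d1 := (hψ.mul (K2_deriv hx' 1)).fderiv
      have ek : kk x = (2 / ax2 x * x 0) • EuclideanSpace.single (0 : Fin 3) (1 : ℝ) +
          (2 / ax2 x * x 1) • EuclideanSpace.single (1 : Fin 3) (1 : ℝ) := by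
        ext j
        fin_cases j <;> simp [kk]
      have e0 : fderiv ℝ (fun z : E3 => ψ z * (2 / ax2 z * z 0)) x = _ := d0
      have e1 : fderiv ℝ (fun z : E3 => ψ z * (2 / ax2 z * z 1)) x = _ := d1
      rw [e0, e1, ek, map_add, map_smul, map_smul]
      simp only [add_apply, smul_apply, smul_eq_mul, PiLp.proj_apply, PiLp.single_apply]
      simp only [if_true, Fin.isValue, one_ne_zero, zero_ne_one, if_false]
      have hq : ax2 x = x 0 ^ 2 + x 1 ^ 2 := rfl
      have h5 : 2 / ax2 x + 2 / ax2 x + (x 0 * (-(2 / ax2 x ^ 2) * (2 * x 0)) +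
          x 1 * (-(2 / ax2 x ^ 2) * (2 * x 1))) = 0 := by
        field_simp
        rw [hq]
        ring
      linear_combination (-ψ x) * h5
    · have e : ψ =ᶠ[𝓝 x] fun _ => 0 := (notMem_tsupport_iff_eventuallyEq).1 hx
      have e0 : ∀ i : Fin 3, (fun z : E3 => ψ z * (2 / ax2 z * z i)) =ᶠ[𝓝 x] fun _ => 0 := by
        intro i
        filter_upwards [e] with z hz
        simp [hz]
      rw [e.fderiv_eq, (e0 0).fderiv_eq, (e0 1).fderiv_eq]
      simp
  simp only [key]
  rw [integral_add (hF4 0) (hF4 1), hF3 0, hF3 1, add_zero]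

/-- PROOF: `∫ ∂_j ψ v_j`. -/
theorem integral_fderiv_const {ψ : E3 → ℝ} (h1 : ContDiff ℝ 1 ψ) (h2 : HasCompactSupport ψ)
    (v : E3) : ∫ x, fderiv ℝ ψ x v = 0 := K2_const h1 h2 v

/-- Integration by parts for the Laplacian: `∫ F ΔG = - ∫ ∇F · ∇G`, if one of the two
functions is compactly supported.
PROOF: `∫ ∂_i (F ∂_i G) = 0` for each `i`. -/
theorem integral_slap {F G : E3 → ℝ} (hF : ContDiff ℝ 1 F) (hG : ContDiff ℝ 2 G)
    (hc : HasCompactSupport F ∨ HasCompactSupport G) : ∫ x, F x * slap G x =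
      -∫ x, ∑ i : Fin 3, fderiv ℝ F x (EuclideanSpace.single i 1) *
        fderiv ℝ G x (EuclideanSpace.single i 1) := by
  have hG1 : ∀ i : Fin 3, ContDiff ℝ 1 fun z => fderiv ℝ G z (EuclideanSpace.single i 1) :=
    fun i => (hG.fderiv_right (m := 1) (by norm_num)).clm_apply contDiff_const
  have hG2 : ∀ i : Fin 3, Continuous fun x => fderiv ℝ (fun z => fderiv ℝ G z
      (EuclideanSpace.single i 1)) x (EuclideanSpace.single i 1) :=
    fun i => ((hG1 i).continuous_fderiv (by norm_num)).clm_apply continuous_const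
  have hF1 : ∀ i : Fin 3, Continuous fun x => fderiv ℝ F x (EuclideanSpace.single i 1) :=
    fun i => (hF.continuous_fderiv (by norm_num)).clm_apply continuous_const
  have c1 : ∀ i : Fin 3, HasCompactSupport fun x => F x * fderiv ℝ (fun z => fderiv ℝ G z
      (EuclideanSpace.single i 1)) x (EuclideanSpace.single i 1) := by
    intro i
    rcases hc with hc | hc
    · exact hc.mul_right
    · exact ((hc.fderiv_apply (𝕜 := ℝ) (EuclideanSpace.single i 1)).fderiv_apply (𝕜 := ℝ)
        (EuclideanSpace.single i 1)).mul_left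
  have c2 : ∀ i : Fin 3, HasCompactSupport fun x => fderiv ℝ F x (EuclideanSpace.single i 1) *
      fderiv ℝ G x (EuclideanSpace.single i 1) := by
    intro i
    rcases hc with hc | hc
    · exact (hc.fderiv_apply (𝕜 := ℝ) (EuclideanSpace.single i 1)).mul_right
    · exact (hc.fderiv_apply (𝕜 := ℝ) (EuclideanSpace.single i 1)).mul_left
  have c3 : ∀ i : Fin 3, HasCompactSupport fun x => F x *
      fderiv ℝ G x (EuclideanSpace.single i 1) := by
    intro i
    rcases hc with hc | hc
    · exact hc.mul_right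
    · exact (hc.fderiv_apply (𝕜 := ℝ) (EuclideanSpace.single i 1)).mul_left
  have i1 : ∀ i : Fin 3, Integrable fun x => F x * fderiv ℝ (fun z => fderiv ℝ G z
      (EuclideanSpace.single i 1)) x (EuclideanSpace.single i 1) := fun i =>
    (hF.continuous.mul (hG2 i)).integrable_of_hasCompactSupport (c1 i)
  have i2 : ∀ i : Fin 3, Integrable fun x => fderiv ℝ F x (EuclideanSpace.single i 1) *
      fderiv ℝ G x (EuclideanSpace.single i 1) := fun i =>
    ((hF1 i).mul (hG1 i).continuous).integrable_of_hasCompactSupport (c2 i)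
  have i3 : ∀ i : Fin 3, Integrable fun x => F x * fderiv ℝ G x (EuclideanSpace.single i 1) :=
    fun i => (hF.continuous.mul (hG1 i).continuous).integrable_of_hasCompactSupport (c3 i)
  have k : ∀ i : Fin 3, ∫ x, F x * fderiv ℝ (fun z => fderiv ℝ G z
      (EuclideanSpace.single i 1)) x (EuclideanSpace.single i 1) =
      -∫ x, fderiv ℝ F x (EuclideanSpace.single i 1) *
        fderiv ℝ G x (EuclideanSpace.single i 1) := by
    intro i
    exact integral_mul_fderiv_eq_neg_fderiv_mul_of_integrable (μ := (volume : Measure E3))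
      (i2 i) (i1 i) (i3 i) (fun x _ => hF.differentiable (by norm_num) x)
      (fun x _ => (hG1 i).differentiable (by norm_num) x)
  have e1 : ∀ x, F x * slap G x = ∑ i : Fin 3, F x * fderiv ℝ (fun z => fderiv ℝ G z
      (EuclideanSpace.single i 1)) x (EuclideanSpace.single i 1) := by
    intro x
    rw [slap, Finset.mul_sum]
  simp only [e1]
  rw [integral_finsetSum _ (fun i _ => i1 i), integral_finsetSum _ (fun i _ => i2 i),
    ← Finset.sum_neg_distrib]
  exact Finset.sum_congr rfl fun i _ => k i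

end Pool.Agent.W_332fe5
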