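import Pool.Agent.W_332fe5_h65.B5Defs

set_option autoImplicit false

/-! Block 5, L0: calculus of radial test functions with a cutoff near the axis. -/

open MeasureTheory ProbabilityTheory Set Filter Topology
open scoped ENNReal NNReal ContDiff

namespace Pool.Agent.W_332fe5

/-- Profiles of radial test functions. -/
structure RF (f : ℝ → ℝ) : Prop where
  smooth : ContDiff ℝ ∞ f
  nonneg : ∀ s, s ≤ 1 / 2 → 0 ≤ f s
  low : ∃ a : ℝ, 0 < a ∧ ∀ s, s ≤ a → f s = 0

/-- The test function `f(y) χ(ρ² / κ²)`. -/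
noncomputable def ck (κ : ℝ) (f : ℝ → ℝ) (x : E3) : ℝ :=
  f (yy x) * Real.smoothTransition (ax2 x / κ ^ 2 - 1)

private theorem L0_iter2 (f : ℝ → ℝ) (s : ℝ) : iteratedDeriv 2 f s = deriv (deriv f) s := by
  rw [show (2 : ℕ) = 1 + 1 from rfl, iteratedDeriv_succ, iteratedDeriv_one]

private theorem L0_yy_hasFDerivAt (x : E3) : HasFDerivAt yy (-(innerSL ℝ x)) x := by
  have h := ((hasStrictFDerivAt_norm_sq x).hasFDerivAt.const_sub 1).mul_const (1 / 2 : ℝ)
  have h2 := h.congr_of_eventuallyEq (f₁ := yy) (Eventually.of_forall fun z => by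
    simp only [yy]
    ring)
  convert! h2 using 1
  ext v
  simp

private theorem L0_yy_contDiff : ContDiff ℝ ∞ yy := by
  have : yy = fun x : E3 => (1 - ‖x‖ ^ 2) / 2 := rfl
  rw [this]
  exact (contDiff_const.sub (contDiff_norm_sq ℝ)).div_const 2

private theorem L0_coord (i : Fin 3) : ContDiff ℝ ∞ fun x : E3 => x i :=
  (EuclideanSpace.proj i : E3 →L[ℝ] ℝ).contDiff

private theorem L0_coord_hasFDerivAt (i : Fin 3) (x : E3) :
    HasFDerivAt (fun x : E3 => x i) (EuclideanSpace.proj i : E3 →L[ℝ] ℝ) x :=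
  (EuclideanSpace.proj i : E3 →L[ℝ] ℝ).hasFDerivAt

private theorem L0_ax2_contDiff : ContDiff ℝ ∞ ax2 := by
  have : ax2 = fun x : E3 => x 0 ^ 2 + x 1 ^ 2 := rfl
  rw [this]
  exact ((L0_coord 0).pow 2).add ((L0_coord 1).pow 2)

private theorem L0_fderiv_comp {g : E3 → ℝ} (hg : ContDiff ℝ ∞ g) {f : ℝ → ℝ}
    (hf : ContDiff ℝ ∞ f) (x v : E3) :
    fderiv ℝ (fun x => f (g x)) x v = deriv f (g x) * fderiv ℝ g x v := by
  have h1 := (hf.differentiable (by simp)).differentiableAt (x := g x)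
  have h2 := (hg.differentiable (by simp)).differentiableAt (x := x)
  have := h1.hasDerivAt.comp_hasFDerivAt x h2.hasFDerivAt
  have h3 := this.fderiv
  have h4 : fderiv ℝ (fun x => f (g x)) x = deriv f (g x) • fderiv ℝ g x := h3
  rw [h4]
  simp

private theorem L0_fd_contDiff {F : E3 → ℝ} (hF : ContDiff ℝ 2 F) (v : E3) :
    ContDiff ℝ 1 (fun z => fderiv ℝ F z v) :=
  (hF.fderiv_right (m := 1) (by norm_num)).clm_apply contDiff_const

private theorem L0_slap_comp {g : E3 → ℝ} (hg : ContDiff ℝ ∞ g) {f : ℝ → ℝ}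
    (hf : ContDiff ℝ ∞ f) (x : E3) :
    slap (fun x => f (g x)) x = iteratedDeriv 2 f (g x) *
      ∑ j : Fin 3, (fderiv ℝ g x (EuclideanSpace.single j 1)) ^ 2 + deriv f (g x) * slap g x := by
  have hf' : ContDiff ℝ ∞ (deriv f) := (contDiff_infty_iff_deriv.1 hf).2
  unfold slap
  rw [Finset.mul_sum, Finset.mul_sum, ← Finset.sum_add_distrib]
  refine Finset.sum_congr rfl fun j _ => ?_
  have h1 : (fun z => fderiv ℝ (fun x => f (g x)) z (EuclideanSpace.single j 1)) =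
      fun z => deriv f (g z) * fderiv ℝ g z (EuclideanSpace.single j 1) :=
    funext fun z => L0_fderiv_comp hg hf z _
  rw [h1]
  have h2 : DifferentiableAt ℝ (fun z => deriv f (g z)) x :=
    ((hf'.comp hg).differentiable (by simp)).differentiableAt
  have h3 : DifferentiableAt ℝ (fun z => fderiv ℝ g z (EuclideanSpace.single j 1)) x :=
    ((L0_fd_contDiff (hg.of_le (by norm_cast)) _).differentiable
      (by norm_num)).differentiableAt
  rw [fderiv_fun_mul h2 h3]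
  simp only [_root_.add_apply, _root_.smul_apply, smul_eq_mul]
  rw [L0_fderiv_comp hg hf', L0_iter2]
  ring

private theorem L0_fderiv_yy (x v : E3) : fderiv ℝ yy x v = -inner ℝ x v := by
  rw [(L0_yy_hasFDerivAt x).fderiv]
  simp

private theorem L0_inner_single (x : E3) (j : Fin 3) :
    inner ℝ x (EuclideanSpace.single j (1 : ℝ)) = x j := by
  rw [EuclideanSpace.inner_single_right]
  simp

private theorem L0_slap_yy (x : E3) : slap yy x = -3 := by
  unfold slap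
  have h : ∀ j : Fin 3, fderiv ℝ (fun z => fderiv ℝ yy z (EuclideanSpace.single j 1)) x
    (EuclideanSpace.single j 1) = -1 := by
    intro j
    have h1 : (fun z => fderiv ℝ yy z (EuclideanSpace.single j (1 : ℝ))) = fun z : E3 => -(z j) := by
      funext z
      rw [L0_fderiv_yy, L0_inner_single]
    have h2 : HasFDerivAt (fun z : E3 => -(z j)) (-(EuclideanSpace.proj j : E3 →L[ℝ] ℝ)) x :=
      (L0_coord_hasFDerivAt j x).neg
    rw [h1, h2.fderiv]
    simp
  rw [Finset.sum_congr rfl fun j _ => h j]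
  simp

private theorem L0_norm_sq (x : E3) : ‖x‖ ^ 2 = x 0 ^ 2 + x 1 ^ 2 + x 2 ^ 2 := by
  rw [EuclideanSpace.norm_sq_eq]
  simp [Fin.sum_univ_three]

/-- `∇ (f(y)) = - f'(y) x`. -/
theorem fderiv_rad {f : ℝ → ℝ} (hf : ContDiff ℝ ∞ f) (x v : E3) :
    fderiv ℝ (fun x => f (yy x)) x v = -(deriv f (yy x) * inner ℝ x v) := by
  rw [L0_fderiv_comp L0_yy_contDiff hf, L0_fderiv_yy]
  ring

/-- `Δ (f(y)) = |x|² f''(y) - 3 f'(y)`, `|x|² = 1 - 2 y`. -/
theorem slap_rad {f : ℝ → ℝ} (hf : ContDiff ℝ ∞ f) (x : E3) :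
    slap (fun x => f (yy x)) x =
      (1 - 2 * yy x) * iteratedDeriv 2 f (yy x) - 3 * deriv f (yy x) := by
  rw [L0_slap_comp L0_yy_contDiff hf, L0_slap_yy]
  have h : ∑ j : Fin 3, (fderiv ℝ yy x (EuclideanSpace.single j 1)) ^ 2 = 1 - 2 * yy x := by
    simp only [L0_fderiv_yy, L0_inner_single, Fin.sum_univ_three, yy, L0_norm_sq]
    ring
  rw [h]
  ring

private theorem L0_ax_hasFDerivAt (κ : ℝ) (x : E3) :
    HasFDerivAt (fun x : E3 => ax2 x / κ ^ 2 - 1)
      ((2 * x 0 / κ ^ 2) • (EuclideanSpace.proj 0 : E3 →L[ℝ] ℝ) +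
        (2 * x 1 / κ ^ 2) • (EuclideanSpace.proj 1 : E3 →L[ℝ] ℝ)) x := by
  have h0 := (L0_coord_hasFDerivAt 0 x).mul (L0_coord_hasFDerivAt 0 x)
  have h1 := (L0_coord_hasFDerivAt 1 x).mul (L0_coord_hasFDerivAt 1 x)
  have h2 := ((h0.add h1).mul_const (κ ^ 2)⁻¹).sub_const 1
  have h3 := h2.congr_of_eventuallyEq (f₁ := fun x : E3 => ax2 x / κ ^ 2 - 1)
    (Eventually.of_forall fun z => by
      simp only [ax2, div_eq_mul_inv, Pi.mul_apply, Pi.add_apply]; ring)
  convert! h3 using 1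
  ext v
  simp
  ring

private theorem L0_ax_contDiff (κ : ℝ) : ContDiff ℝ ∞ (fun x : E3 => ax2 x / κ ^ 2 - 1) :=
  (L0_ax2_contDiff.div_const _).sub contDiff_const

private theorem L0_fderiv_ax (κ : ℝ) (x v : E3) :
    fderiv ℝ (fun x : E3 => ax2 x / κ ^ 2 - 1) x v = 2 * (x 0 * v 0 + x 1 * v 1) / κ ^ 2 := by
  rw [(L0_ax_hasFDerivAt κ x).fderiv]
  simp
  ring

theorem fderiv_axr {s : ℝ → ℝ} (hs : ContDiff ℝ ∞ s) (κ : ℝ) (x v : E3) :
    fderiv ℝ (fun x => s (ax2 x / κ ^ 2 - 1)) x v =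
      deriv s (ax2 x / κ ^ 2 - 1) * (2 * (x 0 * v 0 + x 1 * v 1) / κ ^ 2) := by
  rw [L0_fderiv_comp (L0_ax_contDiff κ) hs, L0_fderiv_ax]

private theorem L0_slap_ax (κ : ℝ) (x : E3) :
    slap (fun x : E3 => ax2 x / κ ^ 2 - 1) x = 4 / κ ^ 2 := by
  unfold slap
  have h : ∀ (j : Fin 3), fderiv ℝ (fun z => fderiv ℝ (fun x : E3 => ax2 x / κ ^ 2 - 1) z
      (EuclideanSpace.single j 1)) x (EuclideanSpace.single j 1) = if j = 2 then 0 else
        2 / κ ^ 2 := by
    intro j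
    have h1 : (fun z => fderiv ℝ (fun x : E3 => ax2 x / κ ^ 2 - 1) z
        (EuclideanSpace.single j (1 : ℝ))) = fun z : E3 => (if j = 2 then 0 else
        2 / κ ^ 2) * z j := by
      funext z
      rw [L0_fderiv_ax]
      fin_cases j <;> simp <;> ring
    rw [h1, ((L0_coord_hasFDerivAt j x).const_mul _).fderiv]
    fin_cases j <;> simp
  rw [Finset.sum_congr rfl fun j _ => h j, Fin.sum_univ_three]
  simp
  ring

theorem slap_axr {s : ℝ → ℝ} (hs : ContDiff ℝ ∞ s) (κ : ℝ) (x : E3) :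
    slap (fun x => s (ax2 x / κ ^ 2 - 1)) x =
      iteratedDeriv 2 s (ax2 x / κ ^ 2 - 1) * (4 * ax2 x / κ ^ 4) +
        deriv s (ax2 x / κ ^ 2 - 1) * (4 / κ ^ 2) := by
  rw [L0_slap_comp (L0_ax_contDiff κ) hs, L0_slap_ax]
  have h : ∑ j : Fin 3, (fderiv ℝ (fun x : E3 => ax2 x / κ ^ 2 - 1) x
      (EuclideanSpace.single j 1)) ^ 2 = 4 * ax2 x / κ ^ 4 := by
    rw [Fin.sum_univ_three, L0_fderiv_ax, L0_fderiv_ax, L0_fderiv_ax]
    simp [ax2]
    ring
  rw [h]

theorem slap_mul {F G : E3 → ℝ} (hF : ContDiff ℝ 2 F) (hG : ContDiff ℝ 2 G) (x : E3) :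
    slap (fun x => F x * G x) x = F x * slap G x + G x * slap F x +
      2 * ∑ i : Fin 3, fderiv ℝ F x (EuclideanSpace.single i 1) *
        fderiv ℝ G x (EuclideanSpace.single i 1) := by
  unfold slap
  rw [Finset.mul_sum, Finset.mul_sum, Finset.mul_sum, ← Finset.sum_add_distrib,
    ← Finset.sum_add_distrib]
  refine Finset.sum_congr rfl fun j _ => ?_
  have hFd : ∀ z, DifferentiableAt ℝ F z := fun z =>
    (hF.differentiable (by norm_num)).differentiableAt
  have hGd : ∀ z, DifferentiableAt ℝ G z := fun z =>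
    (hG.differentiable (by norm_num)).differentiableAt
  have hF1 : ∀ z, DifferentiableAt ℝ (fun z => fderiv ℝ F z (EuclideanSpace.single j 1)) z :=
    fun z => ((L0_fd_contDiff hF _).differentiable (by norm_num)).differentiableAt
  have hG1 : ∀ z, DifferentiableAt ℝ (fun z => fderiv ℝ G z (EuclideanSpace.single j 1)) z :=
    fun z => ((L0_fd_contDiff hG _).differentiable (by norm_num)).differentiableAt
  have h1 : (fun z => fderiv ℝ (fun x => F x * G x) z (EuclideanSpace.single j 1)) =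
      fun z => F z * fderiv ℝ G z (EuclideanSpace.single j 1) +
        G z * fderiv ℝ F z (EuclideanSpace.single j 1) := by
    funext z
    rw [fderiv_fun_mul (hFd z) (hGd z)]
    simp
  rw [h1, fderiv_fun_add ((hFd x).fun_mul (hG1 x)) ((hGd x).fun_mul (hF1 x)),
    fderiv_fun_mul (hFd x) (hG1 x), fderiv_fun_mul (hGd x) (hF1 x)]
  simp only [_root_.add_apply, _root_.smul_apply, smul_eq_mul]
  ring

private theorem L0_ck_contDiff (κ : ℝ) {f : ℝ → ℝ} (hf : RF f) : ContDiff ℝ ∞ (ck κ f) :=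
  (hf.smooth.comp L0_yy_contDiff).mul (Real.smoothTransition.contDiff.comp (L0_ax_contDiff κ))

theorem ck_TA {κ : ℝ} (hκ : 0 < κ) {f : ℝ → ℝ} (hf : RF f) : TA (ck κ f) := by
  obtain ⟨a, ha, hlow⟩ := hf.low
  have hyc : Continuous yy := L0_yy_contDiff.continuous
  have hac : Continuous ax2 := L0_ax2_contDiff.continuous
  have hs1 : tsupport (ck κ f) ⊆ {x | a ≤ yy x} := by
    refine closure_minimal ?_ (isClosed_le continuous_const hyc)
    intro x hx
    by_contra h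
    exact hx (by simp only [ck]; rw [hlow _ (not_le.1 h).le, zero_mul])
  have hs2 : tsupport (ck κ f) ⊆ {x | κ ^ 2 ≤ ax2 x} := by
    refine closure_minimal ?_ (isClosed_le continuous_const hac)
    intro x hx
    by_contra h
    have h1 : ax2 x / κ ^ 2 - 1 ≤ 0 := by
      rw [sub_nonpos, div_le_one (by positivity)]
      exact (not_le.1 h).le
    exact hx (by simp only [ck]; rw [Real.smoothTransition.zero_of_nonpos h1, mul_zero])
  have hsb : tsupport (ck κ f) ⊆ Bl := by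
    intro x hx
    have h1 : a ≤ yy x := hs1 hx
    simp only [Bl, Metric.mem_ball, dist_zero_right]
    simp only [yy] at h1
    nlinarith [norm_nonneg x]
  refine ⟨⟨L0_ck_contDiff κ hf, ?_, hsb⟩, ?_, ?_⟩
  · exact (isCompact_closedBall (0 : E3) 1).of_isClosed_subset (isClosed_tsupport _)
      (hsb.trans Metric.ball_subset_closedBall)
  · intro x
    refine mul_nonneg (hf.nonneg _ ?_) (Real.smoothTransition.nonneg _)
    simp only [yy]
    nlinarith [sq_nonneg ‖x‖]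
  · rw [Set.disjoint_left]
    intro x hx hx'
    have h1 : κ ^ 2 ≤ ax2 x := hs2 hx
    have h2 : ax2 x = 0 := hx'
    rw [h2] at h1
    exact absurd h1 (not_le.2 (by positivity))

theorem smoothTransition_deriv_bound : ∃ L : ℝ, 0 ≤ L ∧ ∀ s : ℝ,
    |deriv Real.smoothTransition s| ≤ L ∧ |iteratedDeriv 2 Real.smoothTransition s| ≤ L ∧
    (s ≤ 0 ∨ 1 ≤ s → deriv Real.smoothTransition s = 0 ∧
      iteratedDeriv 2 Real.smoothTransition s = 0) ∧ 0 ≤ deriv Real.smoothTransition s := by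
  have hc0 : ContDiff ℝ 2 Real.smoothTransition := Real.smoothTransition.contDiff
  have hc1 : Continuous (deriv Real.smoothTransition) := hc0.continuous_deriv (by norm_num)
  have hc2 : Continuous (iteratedDeriv 2 Real.smoothTransition) :=
    hc0.continuous_iteratedDeriv 2 le_rfl
  have hlt : ∀ s : ℝ, s < 0 ∨ 1 < s → deriv Real.smoothTransition s = 0 := by
    intro s hs
    rcases hs with hs | hs
    · have h1 : Real.smoothTransition =ᶠ[𝓝 s] fun _ => 0 := by
        filter_upwards [Iio_mem_nhds hs] with t ht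
        exact Real.smoothTransition.zero_of_nonpos (le_of_lt ht)
      rw [h1.deriv_eq, deriv_const]
    · have h1 : Real.smoothTransition =ᶠ[𝓝 s] fun _ => 1 := by
        filter_upwards [Ioi_mem_nhds hs] with t ht
        exact Real.smoothTransition.one_of_one_le (le_of_lt ht)
      rw [h1.deriv_eq, deriv_const]
  have hlt2 : ∀ s : ℝ, s < 0 ∨ 1 < s → iteratedDeriv 2 Real.smoothTransition s = 0 := by
    intro s hs
    rw [L0_iter2]
    have h1 : deriv Real.smoothTransition =ᶠ[𝓝 s] fun _ => 0 := by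
      rcases hs with hs | hs
      · filter_upwards [Iio_mem_nhds hs] with t ht
        exact hlt t (Or.inl ht)
      · filter_upwards [Ioi_mem_nhds hs] with t ht
        exact hlt t (Or.inr ht)
    rw [h1.deriv_eq, deriv_const]
  have key : ∀ g : ℝ → ℝ, Continuous g → (∀ s : ℝ, s < 0 ∨ 1 < s → g s = 0) →
      ∀ s : ℝ, s ≤ 0 ∨ 1 ≤ s → g s = 0 := by
    intro g hg h s hs
    have hcl : IsClosed {t | g t = 0} := isClosed_eq hg continuous_const
    rcases hs with hs | hs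
    · have h1 : closure (Iio (0 : ℝ)) ⊆ {t | g t = 0} :=
        closure_minimal (fun t ht => h t (Or.inl ht)) hcl
      rw [closure_Iio] at h1
      exact h1 hs
    · have h1 : closure (Ioi (1 : ℝ)) ⊆ {t | g t = 0} :=
        closure_minimal (fun t ht => h t (Or.inr ht)) hcl
      rw [closure_Ioi] at h1
      exact h1 hs
  have hk1 := key _ hc1 hlt
  have hk2 := key _ hc2 hlt2
  have hbd : ∀ g : ℝ → ℝ, Continuous g → (∀ s : ℝ, s ≤ 0 ∨ 1 ≤ s → g s = 0) →
      ∃ M : ℝ, 0 ≤ M ∧ ∀ s, |g s| ≤ M := by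
    intro g hg h
    obtain ⟨M, hM⟩ := isCompact_Icc (a := (0 : ℝ)) (b := 1) |>.exists_bound_of_continuousOn
      hg.continuousOn
    refine ⟨max M 0, le_max_right _ _, fun s => ?_⟩
    by_cases hs : s ∈ Icc (0 : ℝ) 1
    · exact (hM s hs).trans (le_max_left _ _)
    · have : s ≤ 0 ∨ 1 ≤ s := by
        rw [mem_Icc, not_and_or, not_le, not_le] at hs
        rcases hs with hs | hs
        · exact Or.inl hs.le
        · exact Or.inr hs.le
      rw [h s this, abs_zero]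
      exact le_max_right _ _
  obtain ⟨M1, h1, h1'⟩ := hbd _ hc1 hk1
  obtain ⟨M2, h2, h2'⟩ := hbd _ hc2 hk2
  refine ⟨max M1 M2, h1.trans (le_max_left _ _), fun s => ⟨(h1' s).trans (le_max_left _ _),
    (h2' s).trans (le_max_right _ _), fun hs => ⟨hk1 s hs, hk2 s hs⟩, ?_⟩⟩
  exact Real.smoothTransition.monotone.deriv_nonneg

/-- `(Δ + k · ∇ + v · ∇) (f χ) = χ ((1 - 2y) f'' - 5 f' - f' x · v) + error`, the error lives where
`κ² ≤ ax2 x ≤ 2 κ²`.
PROOF: `slap_mul`, the formulas above, `fderiv (f y) x (kk x) = - 2 f'(y)` off the axis. -/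
theorem ck_calc {f : ℝ → ℝ} (hf : RF f) : ∃ L : ℝ, 0 ≤ L ∧ ∀ κ : ℝ, 0 < κ → κ ≤ 1 →
    ∀ x ∈ Bl, ax2 x ≠ 0 → ∀ v : E3,
    |(slap (ck κ f) x + fderiv ℝ (ck κ f) x (kk x) + fderiv ℝ (ck κ f) x v) -
      Real.smoothTransition (ax2 x / κ ^ 2 - 1) *
        ((1 - 2 * yy x) * iteratedDeriv 2 f (yy x) - 5 * deriv f (yy x) -
          deriv f (yy x) * inner ℝ x v)| ≤
      if ax2 x ≤ 2 * κ ^ 2 then L * (κ⁻¹ ^ 2 + κ⁻¹ * ‖v‖) else 0 := by
  obtain ⟨L, hL, hst⟩ := smoothTransition_deriv_bound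
  have hf1c : Continuous (deriv f) := hf.smooth.continuous_deriv (by norm_cast)
  obtain ⟨A, hA⟩ := isCompact_Icc (a := (0 : ℝ)) (b := 1 / 2) |>.exists_bound_of_continuousOn
    hf.smooth.continuous.continuousOn
  obtain ⟨B, hB⟩ := isCompact_Icc (a := (0 : ℝ)) (b := 1 / 2) |>.exists_bound_of_continuousOn
    hf1c.continuousOn
  have hA0 : 0 ≤ A := (norm_nonneg _).trans (hA 0 ⟨le_rfl, by norm_num⟩)
  have hB0 : 0 ≤ B := (norm_nonneg _).trans (hB 0 ⟨le_rfl, by norm_num⟩)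
  refine ⟨16 * A * L + 8 * B * L, by positivity, fun κ hκ hκ1 x hx hax v => ?_⟩
  have hyx : yy x ∈ Icc (0 : ℝ) (1 / 2) := by
    simp only [Bl, Metric.mem_ball, dist_zero_right] at hx
    simp only [yy]
    constructor
    · nlinarith [norm_nonneg x]
    · nlinarith [sq_nonneg ‖x‖]
  have hax0 : 0 ≤ ax2 x := by simp only [ax2]; positivity
  -- the derivatives
  have hsm : ContDiff ℝ ∞ Real.smoothTransition := Real.smoothTransition.contDiff
  have hF : ContDiff ℝ 2 (fun x => f (yy x)) :=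
    (hf.smooth.comp L0_yy_contDiff).of_le (by norm_cast)
  have hG : ContDiff ℝ 2 (fun x : E3 => Real.smoothTransition (ax2 x / κ ^ 2 - 1)) :=
    (hsm.comp (L0_ax_contDiff κ)).of_le (by norm_cast)
  have hck : ck κ f = fun x => f (yy x) * Real.smoothTransition (ax2 x / κ ^ 2 - 1) := rfl
  have hfd : ∀ w, fderiv ℝ (ck κ f) x w = f (yy x) * (deriv Real.smoothTransition
      (ax2 x / κ ^ 2 - 1) * (2 * (x 0 * w 0 + x 1 * w 1) / κ ^ 2)) +
      Real.smoothTransition (ax2 x / κ ^ 2 - 1) * (-(deriv f (yy x) * inner ℝ x w)) := by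
    intro w
    rw [hck, fderiv_fun_mul ((hF.differentiable (by norm_num)).differentiableAt)
      ((hG.differentiable (by norm_num)).differentiableAt)]
    simp only [_root_.add_apply, _root_.smul_apply, smul_eq_mul]
    rw [fderiv_rad hf.smooth, fderiv_axr hsm]
  have hik : inner ℝ x (kk x) = 2 := by
    have : inner ℝ x (kk x) = (2 / ax2 x) * (x 0 * x 0 + x 1 * x 1) := by
      rw [kk, inner_smul_right, PiLp.inner_apply]
      simp [Fin.sum_univ_three]
    rw [this, show x 0 * x 0 + x 1 * x 1 = ax2 x by simp only [ax2]; ring]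
    field_simp
  have hkk : x 0 * kk x 0 + x 1 * kk x 1 = 2 := by
    have h1 : kk x 0 = 2 / ax2 x * x 0 := by simp [kk]
    have h2 : kk x 1 = 2 / ax2 x * x 1 := by simp [kk]
    rw [h1, h2, show x 0 * (2 / ax2 x * x 0) + x 1 * (2 / ax2 x * x 1) =
      (2 / ax2 x) * ax2 x by simp only [ax2]; ring]
    field_simp
  have hsum : ∑ i : Fin 3, fderiv ℝ (fun x => f (yy x)) x (EuclideanSpace.single i 1) *
      fderiv ℝ (fun x : E3 => Real.smoothTransition (ax2 x / κ ^ 2 - 1)) x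
        (EuclideanSpace.single i 1) = -(deriv f (yy x) * deriv Real.smoothTransition
          (ax2 x / κ ^ 2 - 1) * (2 * ax2 x / κ ^ 2)) := by
    simp only [fderiv_rad hf.smooth, fderiv_axr hsm, L0_inner_single, Fin.sum_univ_three]
    simp
    rw [ax2]
    ring
  have hslap : slap (ck κ f) x = f (yy x) * (iteratedDeriv 2 Real.smoothTransition
      (ax2 x / κ ^ 2 - 1) * (4 * ax2 x / κ ^ 4) + deriv Real.smoothTransition
        (ax2 x / κ ^ 2 - 1) * (4 / κ ^ 2)) + Real.smoothTransition (ax2 x / κ ^ 2 - 1) *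
      ((1 - 2 * yy x) * iteratedDeriv 2 f (yy x) - 3 * deriv f (yy x)) +
      2 * (-(deriv f (yy x) * deriv Real.smoothTransition
          (ax2 x / κ ^ 2 - 1) * (2 * ax2 x / κ ^ 2))) := by
    rw [hck, slap_mul hF hG, hsum, slap_rad hf.smooth, slap_axr hsm]
  set s := ax2 x / κ ^ 2 - 1 with hs
  obtain ⟨hs1, hs2, hs3, -⟩ := hst s
  have heq : (slap (ck κ f) x + fderiv ℝ (ck κ f) x (kk x) + fderiv ℝ (ck κ f) x v) -
      Real.smoothTransition s *
        ((1 - 2 * yy x) * iteratedDeriv 2 f (yy x) - 5 * deriv f (yy x) -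
          deriv f (yy x) * inner ℝ x v) =
      f (yy x) * (iteratedDeriv 2 Real.smoothTransition s * (4 * ax2 x / κ ^ 4) +
        deriv Real.smoothTransition s * (8 / κ ^ 2)) +
      f (yy x) * (deriv Real.smoothTransition s * (2 * (x 0 * v 0 + x 1 * v 1) / κ ^ 2)) -
      deriv f (yy x) * deriv Real.smoothTransition s * (4 * ax2 x / κ ^ 2) := by
    rw [hslap, hfd, hfd, hik, hkk]
    ring
  rw [heq]
  split_ifs with hle
  · have hκi : (0 : ℝ) < κ⁻¹ := inv_pos.2 hκ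
    have hκi1 : 1 ≤ κ⁻¹ := (one_le_inv₀ hκ).2 hκ1
    have hκ2 : 1 / κ ^ 2 = κ⁻¹ ^ 2 := by rw [inv_pow, one_div]
    have hq1 : |4 * ax2 x / κ ^ 4| ≤ 8 * κ⁻¹ ^ 2 := by
      rw [abs_of_nonneg (by positivity), ← hκ2, div_le_iff₀ (by positivity)]
      have : 8 * (1 / κ ^ 2) * κ ^ 4 = 8 * κ ^ 2 := by field_simp
      rw [this]
      linarith
    have hq2 : |8 / κ ^ 2| ≤ 8 * κ⁻¹ ^ 2 := by
      rw [abs_of_nonneg (by positivity), ← hκ2]
      apply le_of_eq
      ring
    have hq3 : |4 * ax2 x / κ ^ 2| ≤ 8 * κ⁻¹ ^ 2 := by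
      have h1 : |4 * ax2 x / κ ^ 2| ≤ 8 := by
        rw [abs_of_nonneg (by positivity), div_le_iff₀ (by positivity)]
        linarith
      nlinarith [sq_nonneg (κ⁻¹)]
    have hcs : (x 0 * v 0 + x 1 * v 1) ^ 2 ≤ ax2 x * ‖v‖ ^ 2 := by
      rw [L0_norm_sq v]
      simp only [ax2]
      nlinarith [sq_nonneg (x 0 * v 1 - x 1 * v 0), sq_nonneg (x 0 * v 2), sq_nonneg (x 1 * v 2)]
    have hcs2 : |x 0 * v 0 + x 1 * v 1| ≤ 2 * κ * ‖v‖ := by
      apply abs_le_of_sq_le_sq _ (by positivity)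
      calc (x 0 * v 0 + x 1 * v 1) ^ 2 ≤ ax2 x * ‖v‖ ^ 2 := hcs
        _ ≤ (2 * κ ^ 2) * ‖v‖ ^ 2 := mul_le_mul_of_nonneg_right hle (sq_nonneg _)
        _ ≤ (2 * κ * ‖v‖) ^ 2 := by nlinarith [sq_nonneg (κ * ‖v‖)]
    have hq4 : |2 * (x 0 * v 0 + x 1 * v 1) / κ ^ 2| ≤ 4 * (κ⁻¹ * ‖v‖) := by
      rw [abs_div, abs_mul, abs_two, abs_of_nonneg (sq_nonneg κ), div_le_iff₀ (by positivity)]
      have : 4 * (κ⁻¹ * ‖v‖) * κ ^ 2 = 4 * κ * ‖v‖ := by field_simp
      rw [this]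
      linarith
    have hfA : |f (yy x)| ≤ A := hA _ hyx
    have hfB : |deriv f (yy x)| ≤ B := hB _ hyx
    have t1 : |f (yy x) * (iteratedDeriv 2 Real.smoothTransition s * (4 * ax2 x / κ ^ 4) +
        deriv Real.smoothTransition s * (8 / κ ^ 2))| ≤ 16 * A * L * κ⁻¹ ^ 2 := by
      rw [abs_mul]
      have h1 : |iteratedDeriv 2 Real.smoothTransition s * (4 * ax2 x / κ ^ 4) +
        deriv Real.smoothTransition s * (8 / κ ^ 2)| ≤ L * (8 * κ⁻¹ ^ 2) + L * (8 * κ⁻¹ ^ 2) := by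
        refine (abs_add_le _ _).trans (add_le_add ?_ ?_)
        · rw [abs_mul]; exact mul_le_mul hs2 hq1 (abs_nonneg _) hL
        · rw [abs_mul]; exact mul_le_mul hs1 hq2 (abs_nonneg _) hL
      calc _ ≤ A * (L * (8 * κ⁻¹ ^ 2) + L * (8 * κ⁻¹ ^ 2)) :=
            mul_le_mul hfA h1 (abs_nonneg _) hA0
        _ = _ := by ring
    have t2 : |f (yy x) * (deriv Real.smoothTransition s *
        (2 * (x 0 * v 0 + x 1 * v 1) / κ ^ 2))| ≤ 4 * A * L * (κ⁻¹ * ‖v‖) := by
      rw [abs_mul, abs_mul]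
      calc _ ≤ A * (L * (4 * (κ⁻¹ * ‖v‖))) := mul_le_mul hfA
            (mul_le_mul hs1 hq4 (abs_nonneg _) hL) (by positivity) hA0
        _ = _ := by ring
    have t3 : |deriv f (yy x) * deriv Real.smoothTransition s * (4 * ax2 x / κ ^ 2)| ≤
        8 * B * L * κ⁻¹ ^ 2 := by
      rw [abs_mul, abs_mul]
      calc _ ≤ (B * L) * (8 * κ⁻¹ ^ 2) := mul_le_mul
            (mul_le_mul hfB hs1 (abs_nonneg _) hB0) hq3 (abs_nonneg _) (by positivity)
        _ = _ := by ring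
    have t4 : 0 ≤ A * L * (κ⁻¹ * ‖v‖) := by positivity
    have t5 : 0 ≤ B * L * (κ⁻¹ * ‖v‖) := by positivity
    have t6 := (abs_sub _ _).trans (add_le_add ((abs_add_le _ _).trans (add_le_add t1 t2)) t3)
    refine t6.trans ?_
    nlinarith
  · have hs4 : s ≤ 0 ∨ 1 ≤ s := by
      right
      rw [hs, le_sub_iff_add_le, le_div_iff₀ (by positivity)]
      linarith [not_le.1 hle]
    obtain ⟨h1, h2⟩ := hs3 hs4
    rw [h1, h2]
    simp

end Pool.Agent.W_332fe5
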