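import Pool.Agent.W_332fe5_h65.B5Defs

set_option autoImplicit false

/-! Block 5, W1: integrals of functions of `y`. -/

open MeasureTheory ProbabilityTheory Set Filter Topology
open scoped ENNReal NNReal

namespace Pool.Agent.W_332fe5

theorem W1_vol : (volume : Measure E3) (Metric.ball 0 1) = ENNReal.ofReal (Real.pi * 4 / 3) := by
  rw [EuclideanSpace.volume_ball_fin_three]
  simp

theorem W1_polar {f : ℝ → ℝ≥0∞} (hf : Measurable f) :
    ∫⁻ x : E3, f ‖x‖ = ENNReal.ofReal (4 * Real.pi) *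
      ∫⁻ r in Ioi (0 : ℝ), ENNReal.ofReal (r ^ 2) * f r := by
  have hdim : Module.finrank ℝ E3 = 3 := by simp
  have hmp := (volume : Measure E3).measurePreserving_homeomorphUnitSphereProd
  have h1 : ∫⁻ x : E3, f ‖x‖ = ∫⁻ x : ({(0 : E3)}ᶜ : Set E3), f ‖x.1‖
      ∂((volume : Measure E3).comap (↑)) := by
    rw [lintegral_subtype_comap (measurableSet_singleton _).compl fun x : E3 => f ‖x‖,
      restrict_compl_singleton]
  have hg : Measurable (fun p : Metric.sphere (0 : E3) 1 × Ioi (0 : ℝ) => f p.2.1) := by fun_prop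
  have h2 : ∫⁻ x : ({(0 : E3)}ᶜ : Set E3), f ‖x.1‖ ∂((volume : Measure E3).comap (↑)) =
      ∫⁻ p : Metric.sphere (0 : E3) 1 × Ioi (0 : ℝ), f p.2.1
        ∂((volume : Measure E3).toSphere.prod (Measure.volumeIoiPow (Module.finrank ℝ E3 - 1))) := by
    rw [← hmp.lintegral_comp hg]
    refine lintegral_congr fun x => ?_
    simp
  rw [h1, h2, lintegral_prod _ hg.aemeasurable]
  simp only [lintegral_const]
  rw [Measure.toSphere_apply_univ, hdim, W1_vol]
  have h3 : ∫⁻ r : Ioi (0 : ℝ), f r.1 ∂(Measure.volumeIoiPow 2) =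
      ∫⁻ r in Ioi (0 : ℝ), ENNReal.ofReal (r ^ 2) * f r := by
    unfold Measure.volumeIoiPow
    rw [lintegral_withDensity_eq_lintegral_mul _ (by fun_prop) (by fun_prop)]
    simp only [Pi.mul_apply]
    rw [lintegral_subtype_comap measurableSet_Ioi fun r : ℝ => ENNReal.ofReal (r ^ 2) * f r]
  rw [show (3 - 1 : ℕ) = 2 from rfl, h3, mul_comm]
  congr 1
  rw [show ((3 : ℕ) : ℝ≥0∞) = ENNReal.ofReal 3 by norm_num, ← ENNReal.ofReal_mul (by norm_num)]
  congr 1
  ring

theorem yy_pos {x : E3} (h : x ∈ Bl) : 0 < yy x := by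
  unfold Bl at h
  rw [mem_ball_zero_iff] at h
  unfold yy
  have h0 := norm_nonneg x
  nlinarith

theorem yy_le (x : E3) : yy x ≤ 1 / 2 := by
  unfold yy
  have := sq_nonneg ‖x‖
  linarith

theorem yy_meas : Measurable yy := by
  unfold yy
  fun_prop

theorem vol_Bl : volume Bl ≤ ENNReal.ofReal 13 := by
  unfold Bl
  rw [W1_vol]
  apply ENNReal.ofReal_le_ofReal
  have := Real.pi_le_four
  linarith

/-- PROOF: polar coordinates: `∫_B g(y(x)) dx = 4π ∫_0^1 g((1 - r²)/2) r² dr ≤
4π ∫_0^1 g((1 - r²)/2) r dr = 4π ∫_0^(1/2) g(y) dy`, `4π ≤ 13`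
(`Measure.measurePreserving_homeomorphUnitSphereProd`, `Measure.volumeIoiPow`; or from
`integral_fun_norm_addHaar` for the map of the measures of intervals). -/
theorem lint_rad {g : ℝ → ℝ≥0∞} (hg : Measurable g) :
    ∫⁻ x in Bl, g (yy x) ≤ ENNReal.ofReal 13 * ∫⁻ y in Ioo (0 : ℝ) (1 / 2), g y := by
  classical
  obtain ⟨f, hf⟩ : ∃ f : ℝ → ℝ≥0∞, f = (Iio (1 : ℝ)).indicator (fun r => g ((1 - r ^ 2) / 2)) :=
    ⟨_, rfl⟩
  have hfm : Measurable f := by
    rw [hf]
    exact (hg.comp (by fun_prop)).indicator measurableSet_Iio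
  have h1 : ∫⁻ x in Bl, g (yy x) = ∫⁻ x : E3, f ‖x‖ := by
    rw [← lintegral_indicator (by unfold Bl; exact measurableSet_ball)]
    refine lintegral_congr fun x => ?_
    rw [hf]
    by_cases hx : x ∈ Bl
    · rw [indicator_of_mem hx, indicator_of_mem]
      · rfl
      · unfold Bl at hx
        rwa [mem_ball_zero_iff] at hx
    · rw [indicator_of_notMem hx, indicator_of_notMem]
      unfold Bl at hx
      rwa [mem_ball_zero_iff] at hx
  rw [h1, W1_polar hfm]
  have h2 : ∫⁻ r in Ioi (0 : ℝ), ENNReal.ofReal (r ^ 2) * f r ≤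
      ∫⁻ r in Ioo (0 : ℝ) 1, ENNReal.ofReal |-r| * g ((1 - r ^ 2) / 2) := by
    rw [← lintegral_indicator measurableSet_Ioi, ← lintegral_indicator measurableSet_Ioo]
    refine lintegral_mono fun r => ?_
    by_cases hr : r ∈ Ioo (0 : ℝ) 1
    · rw [indicator_of_mem (show r ∈ Ioi (0 : ℝ) from hr.1), indicator_of_mem hr, hf,
        indicator_of_mem (show r ∈ Iio (1 : ℝ) from hr.2)]
      gcongr
      rw [abs_neg, abs_of_pos hr.1]
      nlinarith [hr.1, hr.2]
    · rw [indicator_of_notMem hr]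
      by_cases hr0 : r ∈ Ioi (0 : ℝ)
      · rw [indicator_of_mem hr0, hf, indicator_of_notMem, mul_zero]
        intro h
        exact hr ⟨hr0, h⟩
      · rw [indicator_of_notMem hr0]
  have h3 : ∫⁻ r in Ioo (0 : ℝ) 1, ENNReal.ofReal |-r| * g ((1 - r ^ 2) / 2) =
      ∫⁻ y in Ioo (0 : ℝ) (1 / 2), g y := by
    have himg : (fun r : ℝ => (1 - r ^ 2) / 2) '' Ioo (0 : ℝ) 1 = Ioo (0 : ℝ) (1 / 2) := by
      ext y
      constructor
      · rintro ⟨r, hr, rfl⟩
        constructor
        · simp only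
          nlinarith [hr.1, hr.2]
        · simp only
          nlinarith [hr.1, hr.2]
      · intro hy
        have h0 : 0 ≤ 1 - 2 * y := by linarith [hy.2]
        refine ⟨√(1 - 2 * y), ⟨Real.sqrt_pos.2 (by linarith [hy.2]), ?_⟩, ?_⟩
        · rw [Real.sqrt_lt' one_pos]
          linarith [hy.1]
        · simp only
          rw [Real.sq_sqrt h0]
          ring
    have h4 := lintegral_image_eq_lintegral_abs_deriv_mul (s := Ioo (0 : ℝ) 1)
      (f := fun r : ℝ => (1 - r ^ 2) / 2) (f' := fun r => -r) measurableSet_Ioo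
      (fun r _ => by
        have h5 : HasDerivAt (fun r : ℝ => r ^ 2) (2 * r) r := by
          simpa using hasDerivAt_pow 2 r
        have h6 := (h5.const_sub 1).div_const 2
        have h7 : -(2 * r) / 2 = -r := by ring
        rw [h7] at h6
        exact h6.hasDerivWithinAt)
      (by
        intro a ha b hb hab
        have hab' : (1 - a ^ 2) / 2 = (1 - b ^ 2) / 2 := hab
        have : a ^ 2 = b ^ 2 := by linarith
        exact (sq_eq_sq₀ ha.1.le hb.1.le).1 this) g
    rw [himg] at h4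
    exact h4.symm
  calc ENNReal.ofReal (4 * Real.pi) * ∫⁻ r in Ioi (0 : ℝ), ENNReal.ofReal (r ^ 2) * f r ≤
      ENNReal.ofReal (4 * Real.pi) * ∫⁻ y in Ioo (0 : ℝ) (1 / 2), g y := by
        rw [← h3]; gcongr
    _ ≤ ENNReal.ofReal 13 * ∫⁻ y in Ioo (0 : ℝ) (1 / 2), g y := by
        gcongr
        have := Real.pi_lt_d2
        linarith

/-- PROOF: `lint_rad`, `∫_0^∞ y^a e^(-y/s) dy = Γ(a+1) s^(a+1)`. -/
theorem lint_exp {a : ℝ} (ha : -1 < a) : ∃ c : ℝ, 0 ≤ c ∧ ∀ s : ℝ, 0 < s →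
    ∫⁻ x in Bl, ENNReal.ofReal (yy x ^ a * Real.exp (-yy x / s)) ≤
      ENNReal.ofReal (c * s ^ (a + 1)) := by
  have hG : 0 < Real.Gamma (a + 1) := Real.Gamma_pos_of_pos (by linarith)
  refine ⟨13 * Real.Gamma (a + 1), by positivity, fun s hs => ?_⟩
  have h1 := lint_rad (g := fun y => ENNReal.ofReal (y ^ a * Real.exp (-y / s))) (by fun_prop)
  refine h1.trans ?_
  have h2 : ∫⁻ y in Ioo (0 : ℝ) (1 / 2), ENNReal.ofReal (y ^ a * Real.exp (-y / s)) ≤
      ∫⁻ y in Ioi (0 : ℝ), ENNReal.ofReal (y ^ a * Real.exp (-y / s)) :=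
    lintegral_mono_set (fun y hy => hy.1)
  have hint : IntegrableOn (fun y : ℝ => y ^ a * Real.exp (-y / s)) (Ioi 0) := by
    have := integrableOn_rpow_mul_exp_neg_mul_rpow (p := 1) (s := a) (b := 1 / s) ha one_pos
      (by positivity)
    refine this.congr_fun (fun y _ => ?_) measurableSet_Ioi
    simp only [Real.rpow_one]
    congr 2
    ring
  have h3 : ∫⁻ y in Ioi (0 : ℝ), ENNReal.ofReal (y ^ a * Real.exp (-y / s)) =
      ENNReal.ofReal (Real.Gamma (a + 1) * s ^ (a + 1)) := by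
    rw [← ofReal_integral_eq_lintegral_ofReal hint]
    · congr 1
      have h4 := Real.integral_rpow_mul_exp_neg_mul_Ioi (a := a + 1) (r := 1 / s) (by linarith)
        (by positivity)
      rw [show (1 : ℝ) / (1 / s) = s by field_simp] at h4
      rw [mul_comm, ← h4]
      refine setIntegral_congr_fun measurableSet_Ioi fun y _ => ?_
      rw [show a + 1 - 1 = a by ring]
      congr 2
      ring
    · filter_upwards [ae_restrict_mem measurableSet_Ioi] with y hy
      have : 0 < y := hy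
      positivity
  calc _ ≤ ENNReal.ofReal 13 * ENNReal.ofReal (Real.Gamma (a + 1) * s ^ (a + 1)) := by
        rw [← h3]; gcongr
    _ = ENNReal.ofReal (13 * Real.Gamma (a + 1) * s ^ (a + 1)) := by
        rw [← ENNReal.ofReal_mul (by norm_num)]
        congr 1
        ring

theorem lint_pow {a : ℝ} (ha : -1 < a) : ∃ c : ℝ, 0 ≤ c ∧ ∀ s : ℝ, 0 < s →
    ∫⁻ x in Bl, (if yy x ≤ s then ENNReal.ofReal (yy x ^ a) else 0) ≤
      ENNReal.ofReal (c * s ^ (a + 1)) := by
  have ha1 : 0 < a + 1 := by linarith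
  refine ⟨13 / (a + 1), by positivity, fun s hs => ?_⟩
  have hm : Measurable (fun y : ℝ => if y ≤ s then ENNReal.ofReal (y ^ a) else 0) := by
    apply Measurable.ite measurableSet_Iic (by fun_prop) measurable_const
  refine (lint_rad hm).trans ?_
  have h2 : ∫⁻ y in Ioo (0 : ℝ) (1 / 2), (if y ≤ s then ENNReal.ofReal (y ^ a) else 0) ≤
      ∫⁻ y in Ioc (0 : ℝ) s, ENNReal.ofReal (y ^ a) := by
    rw [← lintegral_indicator measurableSet_Ioo, ← lintegral_indicator measurableSet_Ioc]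
    refine lintegral_mono fun y => ?_
    by_cases hy : y ∈ Ioo (0 : ℝ) (1 / 2)
    · rw [indicator_of_mem hy]
      split_ifs with hys
      · rw [indicator_of_mem (show y ∈ Ioc (0 : ℝ) s from ⟨hy.1, hys⟩)]
      · exact zero_le
    · rw [indicator_of_notMem hy]; exact zero_le
  have hint : IntegrableOn (fun y : ℝ => y ^ a) (Ioc 0 s) := by
    have := intervalIntegral.intervalIntegrable_rpow' (a := 0) (b := s) ha
    rwa [intervalIntegrable_iff_integrableOn_Ioc_of_le hs.le] at this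
  have h3 : ∫⁻ y in Ioc (0 : ℝ) s, ENNReal.ofReal (y ^ a) =
      ENNReal.ofReal (s ^ (a + 1) / (a + 1)) := by
    rw [← ofReal_integral_eq_lintegral_ofReal hint]
    · congr 1
      rw [← intervalIntegral.integral_of_le hs.le, integral_rpow (Or.inl ha),
        Real.zero_rpow ha1.ne', sub_zero]
    · filter_upwards [ae_restrict_mem measurableSet_Ioc] with y hy
      exact Real.rpow_nonneg hy.1.le _
  calc _ ≤ ENNReal.ofReal 13 * ENNReal.ofReal (s ^ (a + 1) / (a + 1)) := by
        rw [← h3]; gcongr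
    _ = ENNReal.ofReal (13 / (a + 1) * s ^ (a + 1)) := by
        rw [← ENNReal.ofReal_mul (by norm_num)]
        congr 1
        ring

end Pool.Agent.W_332fe5
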