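import Pool.Agent.W_332fe5_h65.L0
import Pool.Agent.W_332fe5_h65.W1
import Pool.Agent.W_332fe5_h65.D1

set_option autoImplicit false

/-! Block 5, L1: removing the cutoff near the axis, for fixed `u`. -/

open MeasureTheory ProbabilityTheory Set Filter Topology
open scoped ENNReal NNReal ContDiff

namespace Pool.Agent.W_332fe5

/-- The functional `GP` for radial functions. -/
noncomputable def GR (j f : ℝ → ℝ) (u : E3 → E3) : ℝ :=
  ∫ x in Bl, j (gam u x) * ((1 - 2 * yy x) * iteratedDeriv 2 f (yy x) - 5 * deriv f (yy x) -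
    deriv f (yy x) * inner ℝ x (u x))

private theorem L1_ax2_nonneg (x : E3) : 0 ≤ ax2 x := by
  unfold ax2
  positivity

private theorem L1_ax2_le (x : E3) : ax2 x ≤ ‖x‖ ^ 2 := by
  rw [EuclideanSpace.real_norm_sq_eq, Fin.sum_univ_three]
  unfold ax2
  nlinarith [sq_nonneg (x 2)]

private theorem L1_norm_lt {x : E3} (h : x ∈ Bl) : ‖x‖ < 1 := by
  unfold Bl at h
  rwa [mem_ball_zero_iff] at h

private theorem L1_Bl_meas : MeasurableSet Bl := Metric.isOpen_ball.measurableSet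

private theorem L1_ax2_meas : Measurable ax2 := by
  unfold ax2
  fun_prop

/-- the tube about the axis -/
private def L1_T (κ : ℝ) : Set E3 := {x : E3 | x ∈ Bl ∧ ax2 x ≤ 2 * κ ^ 2}

private theorem L1_T_meas (κ : ℝ) : MeasurableSet (L1_T κ) :=
  L1_Bl_meas.inter (measurableSet_le L1_ax2_meas measurable_const)

/-- PROOF: the tube is in the box `[-√2 κ, √2 κ]² × [-1, 1]`. -/
theorem tube_vol (κ : ℝ) (hκ : 0 < κ) :
    volume {x : E3 | x ∈ Bl ∧ ax2 x ≤ 2 * κ ^ 2} ≤ ENNReal.ofReal (16 * κ ^ 2) := by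
  set a : Fin 3 → ℝ := ![Real.sqrt 2 * κ, Real.sqrt 2 * κ, 1] with ha
  have hs : Real.sqrt 2 ^ 2 = 2 := Real.sq_sqrt (by norm_num)
  have hs0 : 0 ≤ Real.sqrt 2 := Real.sqrt_nonneg 2
  have h0 : 0 ≤ Real.sqrt 2 * κ := mul_nonneg hs0 hκ.le
  have h1 : {x : E3 | x ∈ Bl ∧ ax2 x ≤ 2 * κ ^ 2} ⊆
      (@WithLp.ofLp 2 (Fin 3 → ℝ)) ⁻¹' (Set.pi univ fun i => Icc (-a i) (a i)) := by
    rintro x ⟨hx1, hx2⟩ i _
    have hn := L1_norm_lt hx1
    have hn2 : ‖x‖ ^ 2 < 1 := by nlinarith [norm_nonneg x]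
    rw [EuclideanSpace.real_norm_sq_eq, Fin.sum_univ_three] at hn2
    unfold ax2 at hx2
    have e : (Real.sqrt 2 * κ) ^ 2 = 2 * κ ^ 2 := by rw [mul_pow, hs]
    fin_cases i
    · show -(Real.sqrt 2 * κ) ≤ x 0 ∧ x 0 ≤ Real.sqrt 2 * κ
      exact abs_le.1 (abs_le_of_sq_le_sq (by rw [e]; nlinarith [sq_nonneg (x 1)]) h0)
    · show -(Real.sqrt 2 * κ) ≤ x 1 ∧ x 1 ≤ Real.sqrt 2 * κ
      exact abs_le.1 (abs_le_of_sq_le_sq (by rw [e]; nlinarith [sq_nonneg (x 0)]) h0)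
    · show -1 ≤ x 2 ∧ x 2 ≤ 1
      exact abs_le.1 (abs_le_of_sq_le_sq (by nlinarith [sq_nonneg (x 0), sq_nonneg (x 1)])
        zero_le_one)
  refine (measure_mono h1).trans ?_
  rw [(PiLp.volume_preserving_ofLp (Fin 3)).measure_preimage
    (MeasurableSet.univ_pi fun i => measurableSet_Icc).nullMeasurableSet, volume_pi_pi]
  simp only [Real.volume_Icc]
  rw [Fin.prod_univ_three]
  have e0 : a 0 - -a 0 = 2 * (Real.sqrt 2 * κ) := by
    simp only [ha, Matrix.cons_val_zero]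
    ring
  have e1 : a 1 - -a 1 = 2 * (Real.sqrt 2 * κ) := by
    simp only [ha, Matrix.cons_val_one, Matrix.cons_val_zero]
    ring
  have e2 : a 2 - -a 2 = 2 := by
    simp only [ha, Matrix.cons_val]
    norm_num
  rw [e0, e1, e2, ← ENNReal.ofReal_mul (by positivity), ← ENNReal.ofReal_mul (by positivity)]
  refine ENNReal.ofReal_le_ofReal (le_of_eq ?_)
  calc 2 * (Real.sqrt 2 * κ) * (2 * (Real.sqrt 2 * κ)) * 2 =
      8 * (Real.sqrt 2 ^ 2) * κ ^ 2 := by ring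
    _ = 16 * κ ^ 2 := by rw [hs]; ring

theorem Axis_null : volume Axis = 0 := by
  set S : Submodule ℝ E3 := LinearMap.ker (EuclideanSpace.proj (0 : Fin 3) : E3 →L[ℝ] ℝ).toLinearMap
    with hS
  have h1 : Axis ⊆ (S : Set E3) := by
    intro x hx
    have hx' : x 0 ^ 2 + x 1 ^ 2 = 0 := hx
    have h2 : x 0 = 0 := by nlinarith [sq_nonneg (x 0), sq_nonneg (x 1)]
    exact LinearMap.mem_ker.2 h2
  refine measure_mono_null h1 (Measure.addHaar_submodule volume S ?_)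
  intro h
  have h2 : (EuclideanSpace.single (0 : Fin 3) (1 : ℝ)) ∈ S := by
    rw [h]
    exact Submodule.mem_top
  have h3 : (EuclideanSpace.single (0 : Fin 3) (1 : ℝ)) (0 : Fin 3) = 0 := LinearMap.mem_ker.1 h2
  simp at h3

/-- the bracket in `GR` -/
private noncomputable def L1_P (f : ℝ → ℝ) (u : E3 → E3) (x : E3) : ℝ :=
  (1 - 2 * yy x) * iteratedDeriv 2 f (yy x) - 5 * deriv f (yy x) -
    deriv f (yy x) * inner ℝ x (u x)

private theorem L1_K {j : ℝ → ℝ} {K : ℝ} (hj : Ent j K) : 0 ≤ K := (abs_nonneg _).trans (hj.d1 0)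

private theorem L1_bd {f : ℝ → ℝ} (hf : RF f) : ∃ B : ℝ, 0 ≤ B ∧ ∀ x ∈ Bl,
    |deriv f (yy x)| ≤ B ∧ |iteratedDeriv 2 f (yy x)| ≤ B := by
  have hc1 : Continuous (deriv f) := hf.smooth.continuous_deriv (by norm_num)
  have hc2 : Continuous (iteratedDeriv 2 f) :=
    (contDiff_infty.1 hf.smooth 2).continuous_iteratedDeriv 2 le_rfl
  obtain ⟨B1, hB1⟩ := (isCompact_Icc (a := (0 : ℝ)) (b := 1 / 2)).exists_bound_of_continuousOn
    hc1.continuousOn
  obtain ⟨B2, hB2⟩ := (isCompact_Icc (a := (0 : ℝ)) (b := 1 / 2)).exists_bound_of_continuousOn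
    hc2.continuousOn
  refine ⟨max B1 B2, ?_, fun x hx => ?_⟩
  · exact ((norm_nonneg _).trans (hB1 0 ⟨le_refl _, by norm_num⟩)).trans (le_max_left _ _)
  · have hy : yy x ∈ Icc (0 : ℝ) (1 / 2) := ⟨(yy_pos hx).le, yy_le x⟩
    exact ⟨(hB1 _ hy).trans (le_max_left _ _), (hB2 _ hy).trans (le_max_right _ _)⟩

private theorem L1_dom {j : ℝ → ℝ} {Kj : ℝ} (hj : Ent j Kj) {f : ℝ → ℝ} (hf : RF f) :
    ∃ B : ℝ, 0 ≤ B ∧ ∀ (u : E3 → E3), ∀ x ∈ Bl,
      |j (gam u x) * L1_P f u x| ≤ B * (‖u x‖ + ‖u x‖ ^ 2) := by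
  obtain ⟨B, hB, hBx⟩ := L1_bd hf
  have hK := L1_K hj
  refine ⟨6 * (Kj * B), by positivity, fun u x hx => ?_⟩
  obtain ⟨h1, h2⟩ := hBx x hx
  have hn := L1_norm_lt hx
  have hn0 := norm_nonneg x
  have hu0 := norm_nonneg (u x)
  have hg : |gam u x| ≤ ‖u x‖ := by
    refine (abs_gam_le u x).trans ?_
    have h3 : Real.sqrt (ax2 x) ≤ 1 := by
      rw [Real.sqrt_le_one]
      exact (L1_ax2_le x).trans (by nlinarith)
    calc Real.sqrt (ax2 x) * ‖u x‖ ≤ 1 * ‖u x‖ := mul_le_mul_of_nonneg_right h3 hu0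
      _ = ‖u x‖ := one_mul _
  have hjg : |j (gam u x)| ≤ Kj * ‖u x‖ := by
    rw [abs_of_nonneg (hj.nonneg _)]
    exact (hj.le _).trans (mul_le_mul_of_nonneg_left hg hK)
  have hy1 := (yy_pos hx).le
  have hy2 := yy_le x
  have hP : |L1_P f u x| ≤ B * (6 + ‖u x‖) := by
    unfold L1_P
    have a1 : |(1 - 2 * yy x) * iteratedDeriv 2 f (yy x)| ≤ B := by
      rw [abs_mul]
      have : |1 - 2 * yy x| ≤ 1 := by
        rw [abs_le]
        constructor <;> linarith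
      calc |1 - 2 * yy x| * |iteratedDeriv 2 f (yy x)| ≤ 1 * B :=
            mul_le_mul this h2 (abs_nonneg _) zero_le_one
        _ = B := one_mul _
    have a2 : |5 * deriv f (yy x)| ≤ 5 * B := by
      rw [abs_mul, abs_of_nonneg (by norm_num : (0 : ℝ) ≤ 5)]
      exact mul_le_mul_of_nonneg_left h1 (by norm_num)
    have a3 : |deriv f (yy x) * inner ℝ x (u x)| ≤ B * ‖u x‖ := by
      rw [abs_mul]
      refine mul_le_mul h1 ?_ (abs_nonneg _) hB
      refine (abs_real_inner_le_norm _ _).trans ?_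
      calc ‖x‖ * ‖u x‖ ≤ 1 * ‖u x‖ := mul_le_mul_of_nonneg_right hn.le hu0
        _ = ‖u x‖ := one_mul _
    rw [abs_le] at a1 a2 a3 ⊢
    constructor <;> nlinarith
  rw [abs_mul]
  calc |j (gam u x)| * |L1_P f u x| ≤ (Kj * ‖u x‖) * (B * (6 + ‖u x‖)) :=
        mul_le_mul hjg hP (abs_nonneg _) (by positivity)
    _ = (Kj * B) * (6 * ‖u x‖ + ‖u x‖ ^ 2) := by ring
    _ ≤ (Kj * B) * (6 * (‖u x‖ + ‖u x‖ ^ 2)) := by
        refine mul_le_mul_of_nonneg_left ?_ (by positivity)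
        nlinarith
    _ = 6 * (Kj * B) * (‖u x‖ + ‖u x‖ ^ 2) := by ring

private theorem L1_err {j : ℝ → ℝ} {Kj : ℝ} (hj : Ent j Kj) {f : ℝ → ℝ} (hf : RF f) :
    ∃ L : ℝ, 0 ≤ L ∧ ∀ κ : ℝ, 0 < κ → κ ≤ 1 → ∀ (u : E3 → E3), ∀ x ∈ Bl, ax2 x ≠ 0 →
      |j (gam u x) * (slap (ck κ f) x + fderiv ℝ (ck κ f) x (kk x) + fderiv ℝ (ck κ f) x (u x)) -
        Real.smoothTransition (ax2 x / κ ^ 2 - 1) * (j (gam u x) * L1_P f u x)| ≤
      (L1_T κ).indicator (fun x => L * (κ⁻¹ * ‖u x‖ + ‖u x‖ ^ 2)) x := by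
  obtain ⟨L, hL, hLx⟩ := ck_calc hf
  have hK := L1_K hj
  refine ⟨2 * (Kj * L), by positivity, fun κ hκ hκ1 u x hx hax => ?_⟩
  have h1 := hLx κ hκ hκ1 x hx hax (u x)
  have e1 : j (gam u x) * (slap (ck κ f) x + fderiv ℝ (ck κ f) x (kk x) +
      fderiv ℝ (ck κ f) x (u x)) -
      Real.smoothTransition (ax2 x / κ ^ 2 - 1) * (j (gam u x) * L1_P f u x) =
      j (gam u x) * ((slap (ck κ f) x + fderiv ℝ (ck κ f) x (kk x) +
        fderiv ℝ (ck κ f) x (u x)) - Real.smoothTransition (ax2 x / κ ^ 2 - 1) *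
        ((1 - 2 * yy x) * iteratedDeriv 2 f (yy x) - 5 * deriv f (yy x) -
          deriv f (yy x) * inner ℝ x (u x))) := by
    unfold L1_P
    ring
  rw [e1, abs_mul]
  have hu0 := norm_nonneg (u x)
  by_cases hT : ax2 x ≤ 2 * κ ^ 2
  · rw [if_pos hT] at h1
    rw [indicator_of_mem (show x ∈ L1_T κ from ⟨hx, hT⟩)]
    have hs : Real.sqrt (ax2 x) ≤ 2 * κ := by
      rw [Real.sqrt_le_left (by positivity)]
      nlinarith [sq_nonneg κ]
    have hg : |j (gam u x)| ≤ Kj * (2 * κ * ‖u x‖) := by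
      rw [abs_of_nonneg (hj.nonneg _)]
      refine (hj.le _).trans (mul_le_mul_of_nonneg_left ?_ hK)
      exact (abs_gam_le u x).trans (mul_le_mul_of_nonneg_right hs hu0)
    calc |j (gam u x)| * |(slap (ck κ f) x + fderiv ℝ (ck κ f) x (kk x) +
          fderiv ℝ (ck κ f) x (u x)) - Real.smoothTransition (ax2 x / κ ^ 2 - 1) *
          ((1 - 2 * yy x) * iteratedDeriv 2 f (yy x) - 5 * deriv f (yy x) -
            deriv f (yy x) * inner ℝ x (u x))| ≤
          (Kj * (2 * κ * ‖u x‖)) * (L * (κ⁻¹ ^ 2 + κ⁻¹ * ‖u x‖)) :=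
          mul_le_mul hg h1 (abs_nonneg _) (by positivity)
      _ = 2 * (Kj * L) * ((κ * κ⁻¹) * κ⁻¹ * ‖u x‖ + (κ * κ⁻¹) * ‖u x‖ ^ 2) := by ring
      _ = 2 * (Kj * L) * (κ⁻¹ * ‖u x‖ + ‖u x‖ ^ 2) := by
          rw [mul_inv_cancel₀ hκ.ne', one_mul, one_mul]
  · rw [if_neg hT] at h1
    rw [indicator_of_notMem (fun h => hT h.2)]
    have h2 := le_antisymm h1 (abs_nonneg _)
    rw [h2, mul_zero]

private theorem L1_int1 {u : E3 → E3} {N : ℝ} (h : Fld u N) :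
    Integrable (fun x => ‖u x‖) (volume : Measure E3) := (norm_integrable h).norm

private theorem L1_int2 {u : E3 → E3} {N : ℝ} (h : Fld u N) :
    Integrable (fun x => ‖u x‖ ^ 2) (volume : Measure E3) := h.memLp.norm.integrable_sq

private theorem L1_sq {u : E3 → E3} {N : ℝ} (h : Fld u N) : ∫ x, ‖u x‖ ^ 2 ≤ N ^ 2 := by
  have h1 := ofReal_integral_eq_lintegral_ofReal (L1_int2 h)
    (Eventually.of_forall fun x => sq_nonneg ‖u x‖)
  have h2 : ∫⁻ x, ENNReal.ofReal (‖u x‖ ^ 2) = eLpNorm u 2 (volume : Measure E3) ^ 2 := by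
    have h3 := eLpNorm_nnreal_pow_eq_lintegral (μ := (volume : Measure E3)) (f := u)
      (p := 2) (by norm_num)
    have h4 : ((2 : ℝ≥0) : ℝ) = ((2 : ℕ) : ℝ) := by norm_num
    have h5 : ((2 : ℝ≥0) : ℝ≥0∞) = 2 := by norm_num
    rw [h5, h4] at h3
    simp only [ENNReal.rpow_natCast] at h3
    rw [h3]
    refine lintegral_congr fun x => ?_
    rw [ENNReal.ofReal_pow (norm_nonneg _), ofReal_norm]
  have h6 : ENNReal.ofReal (∫ x, ‖u x‖ ^ 2) ≤ ENNReal.ofReal (N ^ 2) := by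
    rw [h1, h2, ENNReal.ofReal_pow h.nonneg]
    exact pow_le_pow_left' h.norm 2
  exact (ENNReal.ofReal_le_ofReal_iff (sq_nonneg N)).1 h6

private theorem L1_sq_set {u : E3 → E3} {N : ℝ} (h : Fld u N) (s : Set E3) :
    ∫ x in s, ‖u x‖ ^ 2 ≤ N ^ 2 :=
  (setIntegral_le_integral (L1_int2 h) (Eventually.of_forall fun x => sq_nonneg _)).trans (L1_sq h)

private theorem L1_Bl_int {u : E3 → E3} {N : ℝ} (h : Fld u N) {B : ℝ} (hB : 0 ≤ B) :
    ∫ x in Bl, B * (‖u x‖ + ‖u x‖ ^ 2) ≤ B * (7 + 2 * N ^ 2) := by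
  have hv : (volume : Measure E3) Bl < ⊤ := measure_ball_lt_top
  have hc : IntegrableOn (fun _ : E3 => (1 / 2 : ℝ)) Bl := integrableOn_const hv.ne
  rw [integral_const_mul]
  refine mul_le_mul_of_nonneg_left ?_ hB
  have h1 : ∫ x in Bl, (‖u x‖ + ‖u x‖ ^ 2) ≤ ∫ x in Bl, ((1 / 2 : ℝ) + 3 / 2 * ‖u x‖ ^ 2) := by
    refine setIntegral_mono ((L1_int1 h).integrableOn.add (L1_int2 h).integrableOn)
      (hc.add ((L1_int2 h).integrableOn.const_mul _)) fun x => ?_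
    show ‖u x‖ + ‖u x‖ ^ 2 ≤ (1 / 2 : ℝ) + 3 / 2 * ‖u x‖ ^ 2
    nlinarith [sq_nonneg (‖u x‖ - 1)]
  refine h1.trans ?_
  rw [integral_add hc ((L1_int2 h).integrableOn.const_mul _), integral_const_mul,
    setIntegral_const, smul_eq_mul]
  have h2 := L1_sq_set h Bl
  have h3 : (volume : Measure E3).real Bl ≤ 13 := by
    have := ENNReal.toReal_mono ENNReal.ofReal_ne_top vol_Bl
    rwa [ENNReal.toReal_ofReal (by norm_num)] at this
  nlinarith [sq_nonneg N]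

private theorem L1_P_meas {j : ℝ → ℝ} {Kj : ℝ} (hj : Ent j Kj) {f : ℝ → ℝ} (hf : RF f)
    {u : E3 → E3} {N : ℝ} (h : Fld u N) :
    StronglyMeasurable fun x => j (gam u x) * L1_P f u x := by
  have hc1 : Continuous (deriv f) := hf.smooth.continuous_deriv (by norm_num)
  have hc2 : Continuous (iteratedDeriv 2 f) :=
    (contDiff_infty.1 hf.smooth 2).continuous_iteratedDeriv 2 le_rfl
  have hy : Measurable yy := yy_meas
  have h1 : Measurable fun x => j (gam u x) :=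
    hj.smooth.continuous.measurable.comp (gam_meas h).measurable
  have h2 : Measurable fun x => deriv f (yy x) := hc1.measurable.comp hy
  have h3 : Measurable fun x => iteratedDeriv 2 f (yy x) := hc2.measurable.comp hy
  have h4 : Measurable fun x => (inner ℝ x (u x) : ℝ) :=
    (stronglyMeasurable_id.inner h.meas).measurable
  unfold L1_P
  exact (h1.mul ((((measurable_const.sub (hy.const_mul 2)).mul h3).sub (h2.const_mul 5)).sub
    (h2.mul h4))).stronglyMeasurable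

private theorem L1_P_int {j : ℝ → ℝ} {Kj : ℝ} (hj : Ent j Kj) {f : ℝ → ℝ} (hf : RF f)
    {u : E3 → E3} {N : ℝ} (h : Fld u N) :
    IntegrableOn (fun x => j (gam u x) * L1_P f u x) Bl := by
  obtain ⟨B, hB, hBx⟩ := L1_dom hj hf
  refine Integrable.mono' (((L1_int1 h).integrableOn.add (L1_int2 h).integrableOn).const_mul B)
    (L1_P_meas hj hf h).aestronglyMeasurable ?_
  refine (ae_restrict_iff' L1_Bl_meas).2 (Eventually.of_forall fun x hx => ?_)
  rw [Real.norm_eq_abs]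
  exact hBx u x hx

theorem GR_bound {j : ℝ → ℝ} {Kj : ℝ} (hj : Ent j Kj) {f : ℝ → ℝ} (hf : RF f) :
    ∃ L : ℝ, 0 ≤ L ∧ ∀ (u : E3 → E3) (N : ℝ), Fld u N → |GR j f u| ≤ L * (1 + N ^ 2) := by
  obtain ⟨B, hB, hBx⟩ := L1_dom hj hf
  refine ⟨7 * B, by positivity, fun u N h => ?_⟩
  have h1 : |GR j f u| ≤ ∫ x in Bl, B * (‖u x‖ + ‖u x‖ ^ 2) := by
    unfold GR
    rw [← Real.norm_eq_abs]
    refine norm_integral_le_of_norm_le
      (((L1_int1 h).integrableOn.add (L1_int2 h).integrableOn).const_mul B) ?_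
    refine (ae_restrict_iff' L1_Bl_meas).2 (Eventually.of_forall fun x hx => ?_)
    rw [Real.norm_eq_abs]
    exact hBx u x hx
  refine h1.trans ((L1_Bl_int h hB).trans ?_)
  nlinarith [sq_nonneg N, mul_nonneg hB (sq_nonneg N)]

/-- the integrand of `GP` for `ck κ f` -/
private noncomputable def L1_Q (j f : ℝ → ℝ) (κ : ℝ) (u : E3 → E3) (x : E3) : ℝ :=
  j (gam u x) * (slap (ck κ f) x + fderiv ℝ (ck κ f) x (kk x) + fderiv ℝ (ck κ f) x (u x))

private theorem L1_Q_meas {j : ℝ → ℝ} {Kj : ℝ} (hj : Ent j Kj) {f : ℝ → ℝ} (hf : RF f)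
    {κ : ℝ} (hκ : 0 < κ) {u : E3 → E3} {N : ℝ} (h : Fld u N) :
    StronglyMeasurable (L1_Q j f κ u) := by
  have h0 : ContDiff ℝ ∞ (ck κ f) := (ck_TA hκ hf).cb.1
  have hc : Continuous (fderiv ℝ (ck κ f)) := h0.continuous_fderiv (by norm_num)
  have h1 : StronglyMeasurable fun x => j (gam u x) :=
    hj.smooth.continuous.comp_stronglyMeasurable (gam_meas h)
  have h2 : ∀ {v : E3 → E3}, StronglyMeasurable v →
      StronglyMeasurable fun x => fderiv ℝ (ck κ f) x (v x) := fun hv =>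
    isBoundedBilinearMap_apply.continuous.comp_stronglyMeasurable
      (hc.stronglyMeasurable.prodMk hv)
  have h3 : Continuous (slap (ck κ f)) := by
    unfold slap
    refine continuous_finsetSum _ fun i _ => ?_
    have h4 : ContDiff ℝ 1 (fun z => fderiv ℝ (ck κ f) z (EuclideanSpace.single i 1)) :=
      (h0.fderiv_right (m := 1) (by norm_cast)).clm_apply contDiff_const
    exact (h4.continuous_fderiv (by norm_num)).clm_apply continuous_const
  exact h1.mul ((h3.stronglyMeasurable.add (h2 kk_measurable.stronglyMeasurable)).add (h2 h.meas))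

private theorem L1_GP_eq {j : ℝ → ℝ} {Kj : ℝ} (hj : Ent j Kj) (f : ℝ → ℝ) (κ : ℝ)
    {u : E3 → E3} {N : ℝ} (h : Fld u N) : GP j (ck κ f) u = ∫ x in Bl, L1_Q j f κ u x := by
  rw [setIntegral_eq_integral_of_ae_compl_eq_zero]
  · rfl
  · filter_upwards [gam_ae_zero h] with x hx hxB
    unfold L1_Q
    rw [hx hxB, hj.zero, zero_mul]

private theorem L1_ae_ax : ∀ᵐ x ∂(volume : Measure E3), ax2 x ≠ 0 := by
  have h := Axis_null
  rw [measure_eq_zero_iff_ae_notMem] at h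
  exact h

private theorem L1_st (x : ℝ) : |Real.smoothTransition x| ≤ 1 := by
  rw [abs_of_nonneg (Real.smoothTransition.nonneg _)]
  exact Real.smoothTransition.le_one _

private theorem L1_M_int {j : ℝ → ℝ} {Kj : ℝ} (hj : Ent j Kj) {f : ℝ → ℝ} (hf : RF f)
    (κ : ℝ) {u : E3 → E3} {N : ℝ} (h : Fld u N) :
    IntegrableOn (fun x => Real.smoothTransition (ax2 x / κ ^ 2 - 1) *
      (j (gam u x) * L1_P f u x)) Bl := by
  refine Integrable.bdd_mul (c := 1) (L1_P_int hj hf h) ?_ ?_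
  · exact (Real.smoothTransition.continuous.measurable.comp
      ((L1_ax2_meas.div_const _).sub_const 1)).aestronglyMeasurable
  · exact Eventually.of_forall fun x => by
      rw [Real.norm_eq_abs]
      exact L1_st _

private theorem L1_T_int {κ : ℝ} {u : E3 → E3} {N : ℝ} (h : Fld u N) (L : ℝ) :
    IntegrableOn ((L1_T κ).indicator fun x => L * (κ⁻¹ * ‖u x‖ + ‖u x‖ ^ 2)) Bl := by
  have h1 : Integrable (fun x => L * (κ⁻¹ * ‖u x‖ + ‖u x‖ ^ 2)) (volume : Measure E3) :=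
    (((L1_int1 h).const_mul _).add (L1_int2 h)).const_mul L
  exact (h1.indicator (L1_T_meas κ)).integrableOn

private theorem L1_diff {j : ℝ → ℝ} {Kj : ℝ} (hj : Ent j Kj) {f : ℝ → ℝ} (hf : RF f) :
    ∃ L : ℝ, 0 ≤ L ∧ ∀ κ : ℝ, 0 < κ → κ ≤ 1 → ∀ (u : E3 → E3) (N : ℝ), Fld u N →
      ∀ t : ℝ, 0 < t → |GP j (ck κ f) u - ∫ x in Bl, Real.smoothTransition (ax2 x / κ ^ 2 - 1) *
        (j (gam u x) * L1_P f u x)| ≤
      L * (8 * t + (1 / (2 * t) + 1) * ∫ x in L1_T κ, ‖u x‖ ^ 2) := by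
  obtain ⟨L, hL, hLx⟩ := L1_err hj hf
  refine ⟨L, hL, fun κ hκ hκ1 u N h t ht => ?_⟩
  have hae : ∀ᵐ x ∂((volume : Measure E3).restrict Bl), |L1_Q j f κ u x -
      Real.smoothTransition (ax2 x / κ ^ 2 - 1) * (j (gam u x) * L1_P f u x)| ≤
      (L1_T κ).indicator (fun x => L * (κ⁻¹ * ‖u x‖ + ‖u x‖ ^ 2)) x := by
    refine (ae_restrict_iff' L1_Bl_meas).2 ?_
    filter_upwards [L1_ae_ax] with x hx hxB
    exact hLx κ hκ hκ1 u x hxB hx
  have hM := L1_M_int hj hf κ h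
  have hT := L1_T_int (κ := κ) h L
  have hdiff : IntegrableOn (fun x => L1_Q j f κ u x -
      Real.smoothTransition (ax2 x / κ ^ 2 - 1) * (j (gam u x) * L1_P f u x)) Bl := by
    refine Integrable.mono' hT
      ((L1_Q_meas hj hf hκ h).aestronglyMeasurable.sub hM.aestronglyMeasurable) ?_
    filter_upwards [hae] with x hx
    rwa [Real.norm_eq_abs]
  have hQ : IntegrableOn (L1_Q j f κ u) Bl := by
    have := hdiff.add hM
    refine this.congr (Eventually.of_forall fun x => ?_)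
    show L1_Q j f κ u x - Real.smoothTransition (ax2 x / κ ^ 2 - 1) *
      (j (gam u x) * L1_P f u x) + Real.smoothTransition (ax2 x / κ ^ 2 - 1) *
      (j (gam u x) * L1_P f u x) = L1_Q j f κ u x
    ring
  rw [L1_GP_eq hj f κ h, ← integral_sub hQ hM, ← Real.norm_eq_abs]
  refine (norm_integral_le_of_norm_le hT (by
    filter_upwards [hae] with x hx
    rwa [Real.norm_eq_abs])).trans ?_
  have hTB : Bl ∩ L1_T κ = L1_T κ := inter_eq_right.2 fun x hx => hx.1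
  rw [setIntegral_indicator (L1_T_meas κ), hTB, integral_const_mul]
  refine mul_le_mul_of_nonneg_left ?_ hL
  have hv : (volume : Measure E3) (L1_T κ) ≤ ENNReal.ofReal (16 * κ ^ 2) := tube_vol κ hκ
  have hv' : (volume : Measure E3) (L1_T κ) ≠ ⊤ := (hv.trans_lt ENNReal.ofReal_lt_top).ne
  have hc : IntegrableOn (fun _ : E3 => (t / 2 * κ⁻¹ ^ 2 : ℝ)) (L1_T κ) := integrableOn_const hv'
  have h1 : ∫ x in L1_T κ, (κ⁻¹ * ‖u x‖ + ‖u x‖ ^ 2) ≤
      ∫ x in L1_T κ, (t / 2 * κ⁻¹ ^ 2 + (1 / (2 * t) + 1) * ‖u x‖ ^ 2) := by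
    refine setIntegral_mono (((L1_int1 h).integrableOn.const_mul _).add (L1_int2 h).integrableOn)
      (hc.add ((L1_int2 h).integrableOn.const_mul _)) fun x => ?_
    show κ⁻¹ * ‖u x‖ + ‖u x‖ ^ 2 ≤ t / 2 * κ⁻¹ ^ 2 + (1 / (2 * t) + 1) * ‖u x‖ ^ 2
    have h2 : 0 ≤ (t * κ⁻¹ - ‖u x‖) ^ 2 / (2 * t) := by positivity
    have h3 : (t * κ⁻¹ - ‖u x‖) ^ 2 / (2 * t) =
        t / 2 * κ⁻¹ ^ 2 - κ⁻¹ * ‖u x‖ + 1 / (2 * t) * ‖u x‖ ^ 2 := by
      field_simp
      ring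
    rw [h3] at h2
    linarith
  refine h1.trans ?_
  rw [integral_add hc ((L1_int2 h).integrableOn.const_mul _), setIntegral_const,
    integral_const_mul, smul_eq_mul]
  have h4 : (volume : Measure E3).real (L1_T κ) ≤ 16 * κ ^ 2 := by
    have := ENNReal.toReal_mono ENNReal.ofReal_ne_top hv
    rwa [ENNReal.toReal_ofReal (by positivity)] at this
  have h5 : (volume : Measure E3).real (L1_T κ) * (t / 2 * κ⁻¹ ^ 2) ≤ 8 * t := by
    calc (volume : Measure E3).real (L1_T κ) * (t / 2 * κ⁻¹ ^ 2) ≤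
        16 * κ ^ 2 * (t / 2 * κ⁻¹ ^ 2) := mul_le_mul_of_nonneg_right h4 (by positivity)
      _ = 8 * t * (κ * κ⁻¹) ^ 2 := by ring
      _ = 8 * t := by rw [mul_inv_cancel₀ hκ.ne', one_pow, mul_one]
  linarith

/-- PROOF: `ck_calc` with `v = u x`, `j(Γ) ≤ K |Γ| ≤ K √(ax2) |u| ≤ 2 K κ |u|` on the tube,
`tube_vol`, Cauchy-Schwarz. -/
theorem GP_ck_bound {j : ℝ → ℝ} {Kj : ℝ} (hj : Ent j Kj) {f : ℝ → ℝ} (hf : RF f) :
    ∃ L : ℝ, 0 ≤ L ∧ ∀ κ : ℝ, 0 < κ → κ ≤ 1 → ∀ (u : E3 → E3) (N : ℝ), Fld u N →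
      |GP j (ck κ f) u| ≤ L * (1 + N ^ 2) := by
  obtain ⟨L, hL, hLx⟩ := L1_diff hj hf
  obtain ⟨B, hB, hBx⟩ := L1_dom hj hf
  refine ⟨8 * L + 7 * B, by positivity, fun κ hκ hκ1 u N h => ?_⟩
  have h1 := hLx κ hκ hκ1 u N h 1 one_pos
  have h2 := L1_sq_set h (L1_T κ)
  have h3 : |∫ x in Bl, Real.smoothTransition (ax2 x / κ ^ 2 - 1) *
      (j (gam u x) * L1_P f u x)| ≤ B * (7 + 2 * N ^ 2) := by
    refine le_trans ?_ (L1_Bl_int h hB)
    rw [← Real.norm_eq_abs]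
    refine norm_integral_le_of_norm_le
      (((L1_int1 h).integrableOn.add (L1_int2 h).integrableOn).const_mul B) ?_
    refine (ae_restrict_iff' L1_Bl_meas).2 (Eventually.of_forall fun x hx => ?_)
    rw [Real.norm_eq_abs, abs_mul]
    calc |Real.smoothTransition (ax2 x / κ ^ 2 - 1)| * |j (gam u x) * L1_P f u x| ≤
        1 * |j (gam u x) * L1_P f u x| := mul_le_mul_of_nonneg_right (L1_st _) (abs_nonneg _)
      _ = |j (gam u x) * L1_P f u x| := one_mul _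
      _ ≤ _ := hBx u x hx
  have h4 : L * (8 * 1 + (1 / (2 * 1) + 1) * ∫ x in L1_T κ, ‖u x‖ ^ 2) ≤
      L * (8 + 3 / 2 * N ^ 2) := by
    refine mul_le_mul_of_nonneg_left ?_ hL
    linarith
  have h5 := abs_sub_abs_le_abs_sub (GP j (ck κ f) u)
    (∫ x in Bl, Real.smoothTransition (ax2 x / κ ^ 2 - 1) * (j (gam u x) * L1_P f u x))
  have h6 : 0 ≤ L * N ^ 2 := by positivity
  have h7 : 0 ≤ B * N ^ 2 := by positivity
  nlinarith

/-- PROOF: the main term by dominated convergence; the error is at most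
`C (‖u 1_tube‖₂ + ‖u 1_tube‖₂²)` (same estimate), and `‖u 1_tube‖₂ → 0` (the tubes shrink to the
axis, a null set). -/
theorem GP_ck_lim {j : ℝ → ℝ} {Kj : ℝ} (hj : Ent j Kj) {f : ℝ → ℝ} (hf : RF f) {u : E3 → E3}
    {N : ℝ} (hu : Fld u N) :
    Tendsto (fun n : ℕ => GP j (ck (1 / ((n : ℝ) + 1)) f) u) atTop (𝓝 (GR j f u)) := by
  obtain ⟨L, hL, hLx⟩ := L1_diff hj hf
  obtain ⟨B, hB, hBx⟩ := L1_dom hj hf
  have hκ : ∀ n : ℕ, (0 : ℝ) < 1 / ((n : ℝ) + 1) := fun n => by positivity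
  have hκ1 : ∀ n : ℕ, 1 / ((n : ℝ) + 1) ≤ (1 : ℝ) := fun n => by
    rw [div_le_one (by positivity)]
    linarith [(Nat.cast_nonneg n : (0 : ℝ) ≤ n)]
  have hκ0 : Tendsto (fun n : ℕ => 1 / ((n : ℝ) + 1)) atTop (𝓝 0) :=
    tendsto_one_div_add_atTop_nhds_zero_nat
  -- the main term
  have h1 : Tendsto (fun n : ℕ => ∫ x in Bl,
      Real.smoothTransition (ax2 x / (1 / ((n : ℝ) + 1)) ^ 2 - 1) *
        (j (gam u x) * L1_P f u x)) atTop (𝓝 (GR j f u)) := by
    show Tendsto _ atTop (𝓝 (∫ x in Bl, j (gam u x) * L1_P f u x))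
    refine tendsto_integral_of_dominated_convergence
      (fun x => B * (‖u x‖ + ‖u x‖ ^ 2)) (fun n => (L1_M_int hj hf _ hu).aestronglyMeasurable)
      (((L1_int1 hu).integrableOn.add (L1_int2 hu).integrableOn).const_mul B) ?_ ?_
    · intro n
      refine (ae_restrict_iff' L1_Bl_meas).2 (Eventually.of_forall fun x hx => ?_)
      rw [Real.norm_eq_abs, abs_mul]
      calc |Real.smoothTransition (ax2 x / (1 / ((n : ℝ) + 1)) ^ 2 - 1)| *
          |j (gam u x) * L1_P f u x| ≤ 1 * |j (gam u x) * L1_P f u x| :=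
            mul_le_mul_of_nonneg_right (L1_st _) (abs_nonneg _)
        _ = |j (gam u x) * L1_P f u x| := one_mul _
        _ ≤ _ := hBx u x hx
    · refine ae_restrict_of_ae ?_
      filter_upwards [L1_ae_ax] with x hx
      have hpos : 0 < ax2 x := lt_of_le_of_ne (L1_ax2_nonneg x) (Ne.symm hx)
      have h2 : ∀ᶠ n : ℕ in atTop, Real.smoothTransition (ax2 x / (1 / ((n : ℝ) + 1)) ^ 2 - 1) *
          (j (gam u x) * L1_P f u x) = j (gam u x) * L1_P f u x := by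
        have h3 : Tendsto (fun n : ℕ => 2 * (1 / ((n : ℝ) + 1)) ^ 2) atTop (𝓝 0) := by
          have := (hκ0.pow 2).const_mul 2
          simpa using this
        filter_upwards [h3.eventually (gt_mem_nhds hpos)] with n hn
        have h4 : 1 ≤ ax2 x / (1 / ((n : ℝ) + 1)) ^ 2 - 1 := by
          have h5 : 2 ≤ ax2 x / (1 / ((n : ℝ) + 1)) ^ 2 := by
            rw [le_div_iff₀ (pow_pos (hκ n) 2)]
            exact hn.le
          linarith
        rw [Real.smoothTransition.one_of_one_le h4, one_mul]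
      exact (tendsto_congr' h2).2 tendsto_const_nhds
  -- the square mass of the tubes
  have hI : Tendsto (fun n : ℕ => ∫ x in L1_T (1 / ((n : ℝ) + 1)), ‖u x‖ ^ 2) atTop (𝓝 0) := by
    have h2 : Tendsto (fun n : ℕ => (volume : Measure E3) (L1_T (1 / ((n : ℝ) + 1)))) atTop
        (𝓝 0) := by
      have h3 : Tendsto (fun n : ℕ => ENNReal.ofReal (16 * (1 / ((n : ℝ) + 1)) ^ 2)) atTop
          (𝓝 0) := by
        have h4 : Tendsto (fun n : ℕ => 16 * (1 / ((n : ℝ) + 1)) ^ 2) atTop (𝓝 0) := by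
          have := (hκ0.pow 2).const_mul 16
          simpa using this
        have h5 := ENNReal.tendsto_ofReal h4
        rwa [ENNReal.ofReal_zero] at h5
      exact tendsto_of_tendsto_of_tendsto_of_le_of_le tendsto_const_nhds h3
        (fun n => zero_le) (fun n => tube_vol _ (hκ n))
    have h6 := (L1_int2 hu).2
    have h7 := tendsto_setLIntegral_zero h6.ne h2
    have h8 : ∀ n : ℕ, ‖∫ x in L1_T (1 / ((n : ℝ) + 1)), ‖u x‖ ^ 2‖ₑ ≤
        ∫⁻ x in L1_T (1 / ((n : ℝ) + 1)), ‖‖u x‖ ^ 2‖ₑ := fun n =>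
      enorm_integral_le_lintegral_enorm _
    have h9 := tendsto_of_tendsto_of_tendsto_of_le_of_le tendsto_const_nhds h7
      (fun n => zero_le) h8
    rw [tendsto_zero_iff_norm_tendsto_zero]
    have h10 := (ENNReal.tendsto_toReal ENNReal.zero_ne_top).comp h9
    refine h10.congr fun n => ?_
    simp only [Function.comp_apply, toReal_enorm]
  have h2 : Tendsto (fun n : ℕ => GP j (ck (1 / ((n : ℝ) + 1)) f) u - ∫ x in Bl,
      Real.smoothTransition (ax2 x / (1 / ((n : ℝ) + 1)) ^ 2 - 1) *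
        (j (gam u x) * L1_P f u x)) atTop (𝓝 0) := by
    rw [Metric.tendsto_atTop]
    intro ε hε
    set t := ε / (32 * (L + 1)) with ht
    have hL1 : 0 < L + 1 := by linarith
    have ht0 : 0 < t := by positivity
    have h3 : Tendsto (fun n : ℕ => L * (8 * t + (1 / (2 * t) + 1) *
        ∫ x in L1_T (1 / ((n : ℝ) + 1)), ‖u x‖ ^ 2)) atTop (𝓝 (L * (8 * t))) := by
      have := ((hI.const_mul (1 / (2 * t) + 1)).const_add (8 * t)).const_mul L
      simpa using this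
    have h4 : L * (8 * t) < ε := by
      have h5 : L * (8 * t) = ε * (L / (4 * (L + 1))) := by
        rw [ht]
        field_simp
        ring
      rw [h5]
      have h6 : L / (4 * (L + 1)) < 1 := by
        rw [div_lt_one (by positivity)]
        linarith
      calc ε * (L / (4 * (L + 1))) < ε * 1 := mul_lt_mul_of_pos_left h6 hε
        _ = ε := mul_one _
    obtain ⟨n0, hn0⟩ := eventually_atTop.1 (h3.eventually (gt_mem_nhds h4))
    refine ⟨n0, fun n hn => ?_⟩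
    rw [Real.dist_eq, sub_zero]
    exact (hLx _ (hκ n) (hκ1 n) u N hu t ht0).trans_lt (hn0 n hn)
  have h3 := h2.add h1
  rw [zero_add] at h3
  refine h3.congr fun n => ?_
  ring

end Pool.Agent.W_332fe5
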