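import Pool.Agent.W_332fe5_h65.R3

set_option autoImplicit false

/-! Block 5, M1: mollifications converge almost everywhere. -/

open MeasureTheory ProbabilityTheory Set Filter Topology
open scoped ENNReal NNReal ContDiff

namespace Pool.Agent.W_332fe5

theorem M1_compact {ε : ℝ} (hε : 0 < ε) (x : E3) : HasCompactSupport (hk ε x) :=
  (isCompact_closedBall x ε).of_isClosed_subset (isClosed_tsupport _) (R3_supp hε x)

theorem M1_integral {ε : ℝ} (hε : 0 < ε) (x : E3) : ∫ y, hk ε x y = 1 := by
  have h1 : ∫ y, rho ε (x - y) = ∫ y, rho ε y := integral_sub_left_eq_self (rho ε) volume x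
  unfold hk
  rw [h1]
  exact rho_integral hε

theorem M1_nonneg {ε : ℝ} (hε : 0 < ε) (x y : E3) : 0 ≤ hk ε x y := rho_nonneg hε _

theorem M1_le {ε : ℝ} (hε : 0 < ε) (x y : E3) : hk ε x y ≤ (ε ^ 3 * ∫ z, ker z)⁻¹ := by
  unfold hk rho
  have h1 := ker_integral_pos
  exact mul_le_of_le_one_right (by positivity) (ker_le_one _)

theorem M1_off {ε : ℝ} (hε : 0 < ε) {x y : E3} (h : y ∉ Metric.closedBall x ε) :
    hk ε x y = 0 := by
  apply rho_zero hε
  rw [Metric.mem_closedBall, dist_comm, dist_eq_norm, not_le] at h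
  exact h.le

/-- PROOF: `ρ_ε ≤ C ε⁻³` on the closed ball of radius `ε`, so `|∫ f ρ_ε(x - ·) - f x| ≤
∫ ρ_ε(x - y) |f y - f x| dy ≤ C' ⨍_{closedBall x ε} |f - f x|`, which tends to zero at Lebesgue
points: `(Besicovitch.vitaliFamily volume).ae_tendsto_average_norm_sub` and
`Besicovitch.tendsto_filterAt`. -/
theorem moll_ae {f : E3 → ℝ} (hf : LocallyIntegrable f volume) :
    ∀ᵐ x ∂(volume : Measure E3), Tendsto (fun ε : ℝ => ∫ y, f y * hk ε x y) (𝓝[>] 0) (𝓝 (f x)) := by
  have hI := ker_integral_pos
  set c0 : ℝ := (volume : Measure E3).real (Metric.ball (0 : E3) 1) with hc0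
  filter_upwards [(Besicovitch.vitaliFamily (volume : Measure E3)).ae_tendsto_average_norm_sub hf]
    with x hx
  have h1 : Tendsto (fun ε : ℝ => ⨍ y in Metric.closedBall x ε, ‖f y - f x‖) (𝓝[>] 0) (𝓝 0) :=
    hx.comp (Besicovitch.tendsto_filterAt _ x)
  have h2 : Tendsto (fun ε : ℝ => (c0 / ∫ z, ker z) *
      ⨍ y in Metric.closedBall x ε, ‖f y - f x‖) (𝓝[>] 0) (𝓝 0) := by
    have := h1.const_mul (c0 / ∫ z, ker z)
    simpa using this
  rw [tendsto_iff_norm_sub_tendsto_zero]
  refine squeeze_zero' (Eventually.of_forall fun _ => norm_nonneg _) ?_ h2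
  filter_upwards [self_mem_nhdsWithin] with ε hε
  have hε0 : (0 : ℝ) < ε := hε
  -- integrability
  have hcont : Continuous (hk ε x) := (hk_contDiff ε x).continuous
  have i1 : Integrable (fun y => f y * hk ε x y) := by
    have := hf.integrable_smul_left_of_hasCompactSupport hcont (M1_compact hε0 x)
    refine this.congr (Eventually.of_forall fun y => ?_)
    simp [mul_comm]
  have i2 : Integrable (fun y => f x * hk ε x y) :=
    (hcont.integrable_of_hasCompactSupport (M1_compact hε0 x)).const_mul _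
  have e1 : ∫ y, f y * hk ε x y - f x * hk ε x y = (∫ y, f y * hk ε x y) - f x := by
    rw [integral_sub i1 i2, integral_const_mul, M1_integral hε0 x, mul_one]
  rw [← e1]
  have i3 : IntegrableOn (fun y => ‖f y - f x‖) (Metric.closedBall x ε) := by
    have h3 : IntegrableOn f (Metric.closedBall x ε) :=
      hf.integrableOn_isCompact (isCompact_closedBall x ε)
    exact (h3.sub (integrableOn_const (isCompact_closedBall x ε).measure_lt_top.ne)).norm
  have h4 : ‖∫ y, f y * hk ε x y - f x * hk ε x y‖ ≤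
      ∫ y, (Metric.closedBall x ε).indicator
        (fun y => (ε ^ 3 * ∫ z, ker z)⁻¹ * ‖f y - f x‖) y := by
    refine norm_integral_le_of_norm_le ?_ (Eventually.of_forall fun y => ?_)
    · have i4 : IntegrableOn (fun y => (ε ^ 3 * ∫ z, ker z)⁻¹ * ‖f y - f x‖)
          (Metric.closedBall x ε) := i3.const_mul _
      exact i4.integrable_indicator Metric.isClosed_closedBall.measurableSet
    · rw [← sub_mul, norm_mul]
      by_cases hy : y ∈ Metric.closedBall x ε
      · rw [indicator_of_mem hy, mul_comm, Real.norm_of_nonneg (M1_nonneg hε0 x y)]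
        exact mul_le_mul_of_nonneg_right (M1_le hε0 x y) (norm_nonneg _)
      · rw [indicator_of_notMem hy, M1_off hε0 hy, norm_zero, mul_zero]
  refine h4.trans (le_of_eq ?_)
  rw [integral_indicator Metric.isClosed_closedBall.measurableSet, integral_const_mul,
    setAverage_eq, smul_eq_mul, Measure.addHaar_real_closedBall _ _ hε0.le,
    finrank_euclideanSpace, Fintype.card_fin, ← hc0]
  have hc00 : 0 < c0 := by
    rw [hc0]
    exact ENNReal.toReal_pos (Metric.measure_ball_pos _ _ one_pos).ne'
      (measure_ball_lt_top).ne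
  field_simp

end Pool.Agent.W_332fe5
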