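import Pool.Agent.W_332fe5_h65.P4
import Pool.Agent.W_332fe5_h65.M1

set_option autoImplicit false

/-! Block 5, P5: the entropy inequality for densities. -/

open MeasureTheory ProbabilityTheory Set Filter Topology
open scoped ENNReal NNReal

namespace Pool.Agent.W_332fe5

/-- `G` satisfies the entropy inequality at the time `t`. -/
def Adm {zt p κ δ q : ℝ} (C : Core zt p κ δ q) (A : L2 →L[ℝ] L2)
    (ev : L2 → E3 → E3) (j : ℝ → ℝ) (t : ℝ) (G : C.Ω → E3 → ℝ) : Prop :=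
  Measurable (Function.uncurry G) ∧ ∀ Φ : E3 → ℝ, TA Φ → 0 ≤ RH C A ev j Φ t ∧
    ∫⁻ ω, (∫⁻ x, ENNReal.ofReal (j (G ω x) * Φ x)) ∂C.P ≤ ENNReal.ofReal (RH C A ev j Φ t)

/-- PROOF: for `Φ` in `TA`: `fub_le` along `e n`, `fub_lintegral`, Fatou (twice, or on the product)
with the measurable versions of `X_joint`; where `G ω x = 0` the integrand is `j 0 = 0`; `Φ`
vanishes outside the ball. -/
theorem adm_of_lim {zt p κ δ q K : ℝ} {A : L2 →L[ℝ] L2} {ev : L2 → E3 → E3}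
    (h : Ctx zt p κ δ q A K ev) (C : Core zt p κ δ q) {j : ℝ → ℝ} {Kj : ℝ} (hj : Ent j Kj)
    {t : ℝ} (ht : t ∈ Icc (0 : ℝ) 1) {G : C.Ω → E3 → ℝ} (hG : Measurable (Function.uncurry G))
    {e : ℕ → ℝ} (he : ∀ n, 0 < e n) (he0 : Tendsto e atTop (𝓝 0))
    (hl : ∀ᵐ ω ∂C.P, ∀ᵐ x ∂(volume : Measure E3), x ∈ Bl → G ω x = 0 ∨
      Tendsto (fun n => C.X (hk (e n) x) t ω) atTop (𝓝 (G ω x))) :
    Adm C A ev j t G := by
  refine ⟨hG, fun Φ hΦ => ?_⟩
  obtain ⟨C0, hC0, ε₀, hε₀, hε₀1, hsupp, hle⟩ := fub_le h hj hΦ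
  obtain ⟨n₀, hn₀⟩ := eventually_atTop.1 ((tendsto_order.1 he0).2 ε₀ hε₀)
  set e' : ℕ → ℝ := fun n => e (n + n₀) with he'
  have he'p : ∀ n, 0 < e' n := fun n => he _
  have he'l : ∀ n, e' n ≤ ε₀ := fun n => (hn₀ (n + n₀) (by omega)).le
  have he'0 : Tendsto e' atTop (𝓝 0) := he0.comp (tendsto_add_atTop_nat n₀)
  have hR : ∀ n, (1 - 2 * ε₀) + e' n < 1 := fun n => by have := he'l n; linarith
  have hlim : Tendsto (fun n => RH C A ev j Φ t + C0 * e' n ^ (1 / 16 : ℝ)) atTop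
      (𝓝 (RH C A ev j Φ t)) := by
    have h1 : Tendsto (fun n => e' n ^ (1 / 16 : ℝ)) atTop (𝓝 (0 ^ (1 / 16 : ℝ))) :=
      he'0.rpow_const (Or.inr (by norm_num))
    rw [Real.zero_rpow (by norm_num)] at h1
    simpa using (h1.const_mul C0).const_add (RH C A ev j Φ t)
  have hbd : ∀ n, ∫ x, Φ x * (∫ ω, j (C.X (hk (e' n) x) t ω) ∂C.P) ≤
      RH C A ev j Φ t + C0 * e' n ^ (1 / 16 : ℝ) := fun n => hle C (e' n) (he'p n) (he'l n) t ht
  refine ⟨?_, ?_⟩
  · refine ge_of_tendsto' hlim fun n => le_trans ?_ (hbd n)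
    exact integral_nonneg fun x => mul_nonneg (hΦ.nonneg x) (integral_nonneg fun ω => hj.nonneg _)
  choose Y hYm hY using fun n => X_joint C (he'p n) (hR n)
  have hjm : Measurable j := hj.smooth.continuous.measurable
  have hΦm : Measurable Φ := (P3_cont hΦ.cb).measurable
  have hFm : ∀ n, Measurable (Function.uncurry fun (ω : C.Ω) (x : E3) =>
      ENNReal.ofReal (j (Y n x (t, ω)) * Φ x)) := by
    intro n
    refine Measurable.ennreal_ofReal ((hjm.comp ?_).mul (hΦm.comp measurable_snd))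
    exact (hYm n).comp (measurable_snd.prodMk (measurable_const.prodMk measurable_fst))
  have hFe : ∀ n, ∫⁻ ω, (∫⁻ x, ENNReal.ofReal (j (Y n x (t, ω)) * Φ x)) ∂C.P ≤
      ENNReal.ofReal (RH C A ev j Φ t + C0 * e' n ^ (1 / 16 : ℝ)) := by
    intro n
    have h1 := fub_lintegral h C (he'p n) (hR n) hj hΦ hsupp ht
    have h2 : ∫⁻ ω, (∫⁻ x, ENNReal.ofReal (j (Y n x (t, ω)) * Φ x)) ∂C.P =
        ∫⁻ ω, (∫⁻ x, ENNReal.ofReal (j (C.X (hk (e' n) x) t ω) * Φ x)) ∂C.P := by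
      refine lintegral_congr fun ω => lintegral_congr fun x => ?_
      by_cases hx : ‖x‖ ≤ 1 - 2 * ε₀
      · rw [hY n x hx t ω]
      · rw [hsupp x (not_le.1 hx)]; simp
    rw [h2, h1]
    exact ENNReal.ofReal_le_ofReal (hbd n)
  calc ∫⁻ ω, (∫⁻ x, ENNReal.ofReal (j (G ω x) * Φ x)) ∂C.P
      ≤ ∫⁻ ω, (∫⁻ x, liminf (fun n => ENNReal.ofReal (j (Y n x (t, ω)) * Φ x)) atTop) ∂C.P := by
        refine lintegral_mono_ae ?_
        filter_upwards [hl] with ω hω
        refine lintegral_mono_ae ?_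
        filter_upwards [hω] with x hx
        by_cases hxR : ‖x‖ ≤ 1 - 2 * ε₀
        · have hxB : x ∈ Bl := by
            unfold Bl
            rw [mem_ball_zero_iff]; linarith
          rcases hx hxB with h0 | h0
          · rw [h0, hj.zero]; simp
          · have h1 : Tendsto (fun n => Y n x (t, ω)) atTop (𝓝 (G ω x)) := by
              have h2 := h0.comp (tendsto_add_atTop_nat n₀)
              refine h2.congr fun n => ?_
              exact (hY n x hxR t ω).symm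
            have h3 : Tendsto (fun n => ENNReal.ofReal (j (Y n x (t, ω)) * Φ x)) atTop
                (𝓝 (ENNReal.ofReal (j (G ω x) * Φ x))) :=
              ENNReal.tendsto_ofReal (((hj.smooth.continuous.tendsto _).comp h1).mul_const _)
            exact h3.liminf_eq.ge
        · rw [hsupp x (not_le.1 hxR)]; simp
    _ ≤ ∫⁻ ω, liminf (fun n => ∫⁻ x, ENNReal.ofReal (j (Y n x (t, ω)) * Φ x)) atTop ∂C.P := by
        refine lintegral_mono fun ω => ?_
        exact lintegral_liminf_le fun n => (hFm n).comp measurable_prodMk_left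
    _ ≤ liminf (fun n => ∫⁻ ω, (∫⁻ x, ENNReal.ofReal (j (Y n x (t, ω)) * Φ x)) ∂C.P) atTop :=
        lintegral_liminf_le fun n => (hFm n).lintegral_prod_right'
    _ ≤ liminf (fun n => ENNReal.ofReal (RH C A ev j Φ t + C0 * e' n ^ (1 / 16 : ℝ))) atTop :=
        liminf_le_liminf (Eventually.of_forall hFe)
    _ = ENNReal.ofReal (RH C A ev j Φ t) := (ENNReal.tendsto_ofReal hlim).liminf_eq

/-- The sequence `1 / (n + 2)`. -/
noncomputable def P5_e (n : ℕ) : ℝ := 1 / ((n : ℝ) + 2)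

theorem P5_e_pos (n : ℕ) : 0 < P5_e n := by unfold P5_e; positivity

theorem P5_e_lim : Tendsto P5_e atTop (𝓝 0) := by
  unfold P5_e
  have h1 : Tendsto (fun n : ℕ => (n : ℝ) + 2) atTop atTop :=
    tendsto_atTop_add_const_right _ _ tendsto_natCast_atTop_atTop
  refine h1.inv_tendsto_atTop.congr fun n => ?_
  simp

theorem P5_e_lim' : Tendsto P5_e atTop (𝓝[>] 0) :=
  tendsto_nhdsWithin_iff.2 ⟨P5_e_lim, Eventually.of_forall fun n => P5_e_pos n⟩

/-- For almost all `t` the swirl itself satisfies the entropy inequality, for all `j`.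
PROOF: `e n = 1 / (n + 2)`; `X_eq_gU` for all `n` and all `R = 1 - 1 / (m + 2)`, for almost all `t`
(Fubini in `(t, ω)`), `moll_ae` (`gam` is integrable: `gam_integrable`, `exists_fld`); after `S`
the swirl vanishes (`uv_zero`). -/
theorem adm_ae {zt p κ δ q K : ℝ} {A : L2 →L[ℝ] L2} {ev : L2 → E3 → E3}
    (h : Ctx zt p κ δ q A K ev) (C : Core zt p κ δ q) :
    ∀ᵐ t ∂(volume.restrict (Ioo (0 : ℝ) 1)), ∀ (j : ℝ → ℝ) (Kj : ℝ), Ent j Kj →
      Adm C A ev j t (fun ω => gam (uv C A ev (t, ω))) := by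
  obtain ⟨K', hK', hF⟩ := exists_fld h
  have h1 : ∀ᵐ z ∂(mz C 1), ∀ n : ℕ, z.1 < C.S z.2 → ∀ᵐ x ∂(volume : Measure E3),
      ‖x‖ ≤ 1 - 2 * P5_e n → C.X (hk (P5_e n) x) z.1 z.2 = gU (P5_e n) (uv C A ev z) x :=
    ae_all_iff.2 fun n => X_eq_gU h C (P5_e_pos n) (by have := P5_e_pos n; linarith)
  rw [mz_eq] at h1
  have h2 := Measure.ae_ae_of_ae_prod h1
  filter_upwards [h2, ae_restrict_mem measurableSet_Ioo] with t ht1 ht2 j Kj hj
  have hGm : Measurable (Function.uncurry fun ω => gam (uv C A ev (t, ω))) :=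
    (gam_joint h C).measurable.comp
      ((measurable_const.prodMk measurable_fst).prodMk measurable_snd)
  refine adm_of_lim h C hj (Ioo_subset_Icc_self ht2) hGm P5_e_pos P5_e_lim ?_
  filter_upwards [ht1] with ω hω
  by_cases hS : t < C.S ω
  · have hfl : Fld (uv C A ev (t, ω)) (K' * ‖C.w t ω‖) := hF (C.w t ω)
    have hm := moll_ae (gam_integrable hfl).locallyIntegrable
    have h3 : ∀ᵐ x ∂(volume : Measure E3), ∀ n : ℕ, ‖x‖ ≤ 1 - 2 * P5_e n →
        C.X (hk (P5_e n) x) t ω = gU (P5_e n) (uv C A ev (t, ω)) x :=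
      ae_all_iff.2 fun n => hω n hS
    filter_upwards [hm, h3] with x hx1 hx2 hxB
    right
    have h4 : Tendsto (fun n => gU (P5_e n) (uv C A ev (t, ω)) x) atTop
        (𝓝 (gam (uv C A ev (t, ω)) x)) := hx1.comp P5_e_lim'
    refine h4.congr' ?_
    have hx : ‖x‖ < 1 := by
      unfold Bl at hxB
      exact mem_ball_zero_iff.1 hxB
    have h5 : ∀ᶠ n in atTop, P5_e n < (1 - ‖x‖) / 2 :=
      (tendsto_order.1 P5_e_lim).2 _ (by linarith)
    filter_upwards [h5] with n hn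
    exact (hx2 n (by linarith)).symm
  · have hu := uv_zero h C (t, ω) (not_lt.1 hS)
    filter_upwards [hu] with x hx _
    left
    simp [gam, hx]

/-- A bounded density of `X · t` satisfies the entropy inequality.
PROOF: `X (hk ε x) t ω = ∫ G ω y hk ε x y`, `moll_ae`. -/
theorem adm_dens {zt p κ δ q K : ℝ} {A : L2 →L[ℝ] L2} {ev : L2 → E3 → E3}
    (h : Ctx zt p κ δ q A K ev) (C : Core zt p κ δ q) {t : ℝ} (ht : t ∈ Icc (0 : ℝ) 1)
    {G : C.Ω → E3 → ℝ} (hG : Measurable (Function.uncurry G)) (hG1 : ∀ ω x, |G ω x| ≤ 1)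
    (hX : ∀ᵐ ω ∂C.P, ∀ φ ∈ CB, C.X φ t ω = ∫ x, G ω x * φ x) (j : ℝ → ℝ) (Kj : ℝ)
    (hj : Ent j Kj) : Adm C A ev j t G := by
  refine adm_of_lim h C hj ht hG P5_e_pos P5_e_lim ?_
  filter_upwards [hX] with ω hω
  have hloc : LocallyIntegrable (G ω) volume := by
    refine (locallyIntegrable_const (1 : ℝ)).mono
      (hG.comp measurable_prodMk_left).aestronglyMeasurable (Eventually.of_forall fun x => ?_)
    simpa using hG1 ω x
  filter_upwards [moll_ae hloc] with x hx1 hxB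
  right
  have h4 : Tendsto (fun n => ∫ y, G ω y * hk (P5_e n) x y) atTop (𝓝 (G ω x)) :=
    hx1.comp P5_e_lim'
  refine h4.congr' ?_
  have hx : ‖x‖ < 1 := by
    unfold Bl at hxB
    exact mem_ball_zero_iff.1 hxB
  have h5 : ∀ᶠ n in atTop, P5_e n < 1 - ‖x‖ :=
    (tendsto_order.1 P5_e_lim).2 _ (by linarith)
  filter_upwards [h5] with n hn
  exact (hω _ (hk_mem_CB (P5_e_pos n) (by linarith))).symm

end Pool.Agent.W_332fe5
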