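import Pool.Agent.W_332fe5_h65.L1
import Pool.Agent.W_332fe5_h65.P5

set_option autoImplicit false

/-! Block 5, L2: removing the cutoff near the axis, in the entropy inequality. -/

open MeasureTheory ProbabilityTheory Set Filter Topology
open scoped ENNReal NNReal

namespace Pool.Agent.W_332fe5

private theorem L2_Bl_meas : MeasurableSet Bl := Metric.isOpen_ball.measurableSet

theorem GR_sm {zt p κ δ q K : ℝ} {A : L2 →L[ℝ] L2} {ev : L2 → E3 → E3}
    (h : Ctx zt p κ δ q A K ev) (C : Core zt p κ δ q) {j : ℝ → ℝ} {Kj : ℝ} (hj : Ent j Kj)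
    {f : ℝ → ℝ} (hf : RF f) : StronglyMeasurable fun z => GR j f (uv C A ev z) := by
  have hc1 : Continuous (deriv f) := hf.smooth.continuous_deriv (by norm_num)
  have hc2 : Continuous (iteratedDeriv 2 f) :=
    (contDiff_infty.1 hf.smooth 2).continuous_iteratedDeriv 2 le_rfl
  have hy : Measurable fun y : (ℝ × C.Ω) × E3 => yy y.2 := yy_meas.comp measurable_snd
  have h1 : StronglyMeasurable fun y : (ℝ × C.Ω) × E3 => j (gam (uv C A ev y.1) y.2) :=
    hj.smooth.continuous.comp_stronglyMeasurable (gam_joint h C)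
  have h2 : Measurable fun y : (ℝ × C.Ω) × E3 => deriv f (yy y.2) := hc1.measurable.comp hy
  have h3 : Measurable fun y : (ℝ × C.Ω) × E3 => iteratedDeriv 2 f (yy y.2) :=
    hc2.measurable.comp hy
  have h4 : Measurable fun y : (ℝ × C.Ω) × E3 => (inner ℝ y.2 (uv C A ev y.1 y.2) : ℝ) :=
    (measurable_snd.stronglyMeasurable.inner (uv_sm h C)).measurable
  have h5 : Measurable fun y : (ℝ × C.Ω) × E3 => j (gam (uv C A ev y.1) y.2) *
      ((1 - 2 * yy y.2) * iteratedDeriv 2 f (yy y.2) - 5 * deriv f (yy y.2) -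
        deriv f (yy y.2) * inner ℝ y.2 (uv C A ev y.1 y.2)) :=
    h1.measurable.mul ((((measurable_const.sub (hy.const_mul 2)).mul h3).sub (h2.const_mul 5)).sub
      (h2.mul h4))
  unfold GR
  exact StronglyMeasurable.integral_prod_right (ν := (volume : Measure E3).restrict Bl)
    (f := fun z x => j (gam (uv C A ev z) x) *
      ((1 - 2 * yy x) * iteratedDeriv 2 f (yy x) - 5 * deriv f (yy x) -
        deriv f (yy x) * inner ℝ x (uv C A ev z x))) h5.stronglyMeasurable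

private theorem L2_dom {zt p κ δ q K : ℝ} {A : L2 →L[ℝ] L2} {ev : L2 → E3 → E3}
    (h : Ctx zt p κ δ q A K ev) (C : Core zt p κ δ q) (L K' : ℝ) {t : ℝ} (ht : t ≤ 1) :
    Integrable (fun z => L * (1 + (K' * nw C z) ^ 2)) (mz C t) := by
  obtain ⟨C1, _, hC1⟩ := exists_nw_sq h
  have h1 := (hC1 C).1
  have hfin : IsFiniteMeasure (mz C 1) := ⟨by rw [mz_univ]; exact ENNReal.ofReal_lt_top⟩
  have h2 : Integrable (fun z => L * (1 + (K' * nw C z) ^ 2)) (mz C 1) := by
    refine Integrable.const_mul ((integrable_const 1).add ?_) L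
    refine (h1.const_mul (K' ^ 2)).congr (Eventually.of_forall fun z => ?_)
    show K' ^ 2 * nw C z ^ 2 = (K' * nw C z) ^ 2
    ring
  exact h2.mono_measure (mz_mono C ht)

theorem GR_integrable {zt p κ δ q K : ℝ} {A : L2 →L[ℝ] L2} {ev : L2 → E3 → E3}
    (h : Ctx zt p κ δ q A K ev) (C : Core zt p κ δ q) {j : ℝ → ℝ} {Kj : ℝ} (hj : Ent j Kj)
    {f : ℝ → ℝ} (hf : RF f) : Integrable (fun z => GR j f (uv C A ev z)) (mz C 1) := by
  obtain ⟨K', _, hK'⟩ := exists_fld h
  obtain ⟨L, _, hL⟩ := GR_bound hj hf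
  refine Integrable.mono' (L2_dom h C L K' le_rfl) (GR_sm h C hj hf).aestronglyMeasurable ?_
  refine Eventually.of_forall fun z => ?_
  rw [Real.norm_eq_abs]
  exact hL _ _ (hK' (C.w z.1 z.2))

private theorem L2_ck_le {f : ℝ → ℝ} (hf : RF f) (κ : ℝ) (x : E3) : ck κ f x ≤ f (yy x) := by
  unfold ck
  have h1 := hf.nonneg _ (yy_le x)
  calc f (yy x) * Real.smoothTransition (ax2 x / κ ^ 2 - 1) ≤ f (yy x) * 1 :=
        mul_le_mul_of_nonneg_left (Real.smoothTransition.le_one _) h1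
    _ = f (yy x) := mul_one _

private theorem L2_ck_nonneg {f : ℝ → ℝ} (hf : RF f) (κ : ℝ) (x : E3) : 0 ≤ ck κ f x :=
  mul_nonneg (hf.nonneg _ (yy_le x)) (Real.smoothTransition.nonneg _)

private theorem L2_ck_ev (f : ℝ → ℝ) {x : E3} (hx : ax2 x ≠ 0) :
    ∀ᶠ n : ℕ in atTop, ck (1 / ((n : ℝ) + 1)) f x = f (yy x) := by
  have h0 : 0 ≤ ax2 x := by
    unfold ax2
    positivity
  have hpos : 0 < ax2 x := lt_of_le_of_ne h0 (Ne.symm hx)
  have hκ0 : Tendsto (fun n : ℕ => 1 / ((n : ℝ) + 1)) atTop (𝓝 0) :=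
    tendsto_one_div_add_atTop_nhds_zero_nat
  have h3 : Tendsto (fun n : ℕ => 2 * (1 / ((n : ℝ) + 1)) ^ 2) atTop (𝓝 0) := by
    have := (hκ0.pow 2).const_mul 2
    simpa using this
  filter_upwards [h3.eventually (gt_mem_nhds hpos)] with n hn
  have h4 : 1 ≤ ax2 x / (1 / ((n : ℝ) + 1)) ^ 2 - 1 := by
    have h5 : 2 ≤ ax2 x / (1 / ((n : ℝ) + 1)) ^ 2 := by
      rw [le_div_iff₀ (by positivity)]
      exact hn.le
    linarith
  unfold ck
  rw [Real.smoothTransition.one_of_one_le h4, mul_one]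

private theorem L2_ae_ax : ∀ᵐ x ∂(volume : Measure E3), ax2 x ≠ 0 := by
  have h := Axis_null
  rw [measure_eq_zero_iff_ae_notMem] at h
  exact h

private theorem L2_Gam0 {j : ℝ → ℝ} {Kj : ℝ} (hj : Ent j Kj) {f : ℝ → ℝ} (hf : RF f) :
    Tendsto (fun n : ℕ => ∫ x, j (Gam0 x) * ck (1 / ((n : ℝ) + 1)) f x) atTop
      (𝓝 (∫ x in Bl, j (Gam0 x) * f (yy x))) := by
  have hK : 0 ≤ Kj := (abs_nonneg _).trans (hj.d1 0)
  have h0 : ∀ n : ℕ, ∫ x, j (Gam0 x) * ck (1 / ((n : ℝ) + 1)) f x =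
      ∫ x in Bl, j (Gam0 x) * ck (1 / ((n : ℝ) + 1)) f x := by
    intro n
    rw [setIntegral_eq_integral_of_forall_compl_eq_zero]
    intro x hx
    have h1 : Gam0 x = 0 := by
      unfold Gam0
      exact indicator_of_notMem hx _
    rw [h1, hj.zero, zero_mul]
  simp only [h0]
  obtain ⟨B, hB⟩ := (isCompact_Icc (a := (0 : ℝ)) (b := 1 / 2)).exists_bound_of_continuousOn
    hf.smooth.continuous.continuousOn
  have hB0 : 0 ≤ B := (norm_nonneg _).trans (hB 0 ⟨le_refl _, by norm_num⟩)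
  have hv : (volume : Measure E3) Bl < ∞ := measure_ball_lt_top
  refine tendsto_integral_of_dominated_convergence (fun _ => Kj * 1 * B) (fun n => ?_)
    (integrableOn_const hv.ne) ?_ ?_
  · have h1 : Measurable fun x => j (Gam0 x) := hj.smooth.continuous.measurable.comp Gam0_meas
    have h2 : Continuous (ck (1 / ((n : ℝ) + 1)) f) :=
      (ck_TA (by positivity) hf).cb.1.continuous
    exact (h1.mul h2.measurable).aestronglyMeasurable
  · intro n
    refine (ae_restrict_iff' L2_Bl_meas).2 (Eventually.of_forall fun x hx => ?_)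
    rw [Real.norm_eq_abs, abs_mul]
    have h1 : |j (Gam0 x)| ≤ Kj * 1 := by
      rw [abs_of_nonneg (hj.nonneg _)]
      refine (hj.le _).trans (mul_le_mul_of_nonneg_left ?_ hK)
      rw [abs_of_nonneg (Gam0_nonneg x)]
      exact Gam0_le_one x
    have h2 : |ck (1 / ((n : ℝ) + 1)) f x| ≤ B := by
      rw [abs_of_nonneg (L2_ck_nonneg hf _ x)]
      refine (L2_ck_le hf _ x).trans ((le_abs_self _).trans ?_)
      exact hB _ ⟨(yy_pos hx).le, yy_le x⟩
    exact mul_le_mul h1 h2 (abs_nonneg _) (by positivity)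
  · refine ae_restrict_of_ae ?_
    filter_upwards [L2_ae_ax] with x hx
    refine (tendsto_congr' ?_).2 tendsto_const_nhds
    filter_upwards [L2_ck_ev f hx] with n hn
    rw [hn]

/-- PROOF: `Adm` for `ck (1/(n+1)) f` (`ck_TA`), `n → ∞`: left side by Fatou (the functions
converge off the axis, `Axis_null`), right side by dominated convergence (`GP_ck_lim`,
`GP_ck_bound`, `exists_fld`, `exists_nw_sq`). -/
theorem stage1 {zt p κ δ q K : ℝ} {A : L2 →L[ℝ] L2} {ev : L2 → E3 → E3}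
    (h : Ctx zt p κ δ q A K ev) (C : Core zt p κ δ q) {j : ℝ → ℝ} {Kj : ℝ} (hj : Ent j Kj)
    {t : ℝ} (ht : t ∈ Icc (0 : ℝ) 1) {G : C.Ω → E3 → ℝ} (hA : Adm C A ev j t G)
    {f : ℝ → ℝ} (hf : RF f) :
    0 ≤ (∫ x in Bl, j (Gam0 x) * f (yy x)) + ∫ z, GR j f (uv C A ev z) ∂(mz C t) ∧
    ∫⁻ ω, (∫⁻ x in Bl, ENNReal.ofReal (j (G ω x) * f (yy x))) ∂C.P ≤
      ENNReal.ofReal ((∫ x in Bl, j (Gam0 x) * f (yy x)) +
        ∫ z, GR j f (uv C A ev z) ∂(mz C t)) := by
  obtain ⟨hGm, hA2⟩ := hA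
  have hTA : ∀ n : ℕ, TA (ck (1 / ((n : ℝ) + 1)) f) := fun n => ck_TA (by positivity) hf
  have hκ1 : ∀ n : ℕ, 1 / ((n : ℝ) + 1) ≤ (1 : ℝ) := fun n => by
    rw [div_le_one (by positivity)]
    linarith [(Nat.cast_nonneg n : (0 : ℝ) ≤ n)]
  obtain ⟨K', _, hK'⟩ := exists_fld h
  obtain ⟨L, _, hL⟩ := GP_ck_bound hj hf
  -- the right side
  have hR : Tendsto (fun n : ℕ => RH C A ev j (ck (1 / ((n : ℝ) + 1)) f) t) atTop
      (𝓝 ((∫ x in Bl, j (Gam0 x) * f (yy x)) + ∫ z, GR j f (uv C A ev z) ∂(mz C t))) := by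
    refine (L2_Gam0 hj hf).add ?_
    refine tendsto_integral_of_dominated_convergence
      (fun z => L * (1 + (K' * nw C z) ^ 2))
      (fun n => (GP_sm h C hj (hTA n).cb).aestronglyMeasurable) (L2_dom h C L K' ht.2)
      (fun n => Eventually.of_forall fun z => ?_) (Eventually.of_forall fun z => ?_)
    · rw [Real.norm_eq_abs]
      exact hL _ (by positivity) (hκ1 n) _ _ (hK' (C.w z.1 z.2))
    · exact GP_ck_lim hj hf (hK' (C.w z.1 z.2))
  refine ⟨ge_of_tendsto' hR fun n => (hA2 _ (hTA n)).1, ?_⟩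
  -- the left side
  have hm : ∀ n : ℕ, Measurable fun y : C.Ω × E3 =>
      ENNReal.ofReal (j (G y.1 y.2) * ck (1 / ((n : ℝ) + 1)) f y.2) := by
    intro n
    have h1 : Measurable fun y : C.Ω × E3 => j (G y.1 y.2) :=
      hj.smooth.continuous.measurable.comp hGm
    exact (h1.mul ((hTA n).cb.1.continuous.measurable.comp measurable_snd)).ennreal_ofReal
  have hg : ∀ n : ℕ, Measurable fun ω =>
      ∫⁻ x, ENNReal.ofReal (j (G ω x) * ck (1 / ((n : ℝ) + 1)) f x) :=
    fun n => (hm n).lintegral_prod_right'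
  have h1 : ∀ ω, ∫⁻ x in Bl, ENNReal.ofReal (j (G ω x) * f (yy x)) ≤
      liminf (fun n : ℕ => ∫⁻ x, ENNReal.ofReal (j (G ω x) * ck (1 / ((n : ℝ) + 1)) f x))
        atTop := by
    intro ω
    have h2 : ∫⁻ x in Bl, ENNReal.ofReal (j (G ω x) * f (yy x)) =
        ∫⁻ x in Bl, liminf (fun n : ℕ =>
          ENNReal.ofReal (j (G ω x) * ck (1 / ((n : ℝ) + 1)) f x)) atTop := by
      refine lintegral_congr_ae (ae_restrict_of_ae ?_)
      filter_upwards [L2_ae_ax] with x hx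
      refine (Tendsto.liminf_eq ((tendsto_congr' ?_).2 tendsto_const_nhds)).symm
      filter_upwards [L2_ck_ev f hx] with n hn
      rw [hn]
    rw [h2]
    refine (lintegral_liminf_le fun n => (hm n).comp
      (measurable_const.prodMk measurable_id)).trans ?_
    exact liminf_le_liminf (Eventually.of_forall fun n => setLIntegral_le_lintegral _ _)
  refine (lintegral_mono h1).trans ((lintegral_liminf_le hg).trans ?_)
  have h3 : Tendsto (fun n : ℕ => ENNReal.ofReal (RH C A ev j (ck (1 / ((n : ℝ) + 1)) f) t)) atTop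
      (𝓝 (ENNReal.ofReal ((∫ x in Bl, j (Gam0 x) * f (yy x)) +
        ∫ z, GR j f (uv C A ev z) ∂(mz C t)))) := ENNReal.tendsto_ofReal hR
  rw [← h3.liminf_eq]
  exact liminf_le_liminf (Eventually.of_forall fun n => (hA2 _ (hTA n)).2)

end Pool.Agent.W_332fe5
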