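import Pool.Agent.W_332fe5_h65.L0

set_option autoImplicit false

/-! Block 5, L3: the cutoff at the wall, calculus in one variable. -/

open MeasureTheory ProbabilityTheory Set Filter Topology
open scoped ENNReal NNReal ContDiff

namespace Pool.Agent.W_332fe5

/-- The admissible profiles `H`, with `(1 - 2y) H'' - 5 H' ≤ G`. -/
structure HG (H G : ℝ → ℝ) (c : ℝ) : Prop where
  smooth : ContDiffOn ℝ ∞ H (Ioi 0)
  meas : Measurable G
  hm : Measurable H
  cpos : 0 ≤ c
  pos : ∀ y, 0 < y → y ≤ 1 / 2 → 0 ≤ H y ∧ H y ≤ c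
  d1 : ∀ y, 0 < y → y ≤ 1 / 2 → |deriv H y| ≤ c * y ^ (-(1 / 5) : ℝ)
  d2 : ∀ y, 0 < y → y ≤ 1 / 2 → |iteratedDeriv 2 H y| ≤ c * y ^ (-(6 / 5) : ℝ)
  le : ∀ y, 0 < y → y ≤ 1 / 2 → (1 - 2 * y) * iteratedDeriv 2 H y - 5 * deriv H y ≤ G y
  gd : ∀ y, 0 < y → y ≤ 1 / 2 → |G y| ≤ c * y ^ (-(6 / 5) : ℝ)

/-- The cutoff at the wall. -/
noncomputable def cut (r y : ℝ) : ℝ :=
  (1 - Real.exp (-y / r)) * Real.smoothTransition (y / r ^ 8 - 1)

noncomputable def fr (r : ℝ) (H : ℝ → ℝ) (y : ℝ) : ℝ := H y * cut r y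

private theorem L3_th {r y : ℝ} (hr : 0 < r) (hy : 0 < y) :
    0 ≤ 1 - Real.exp (-y / r) ∧ 1 - Real.exp (-y / r) ≤ 1 ∧ 1 - Real.exp (-y / r) ≤ y / r := by
  refine ⟨?_, ?_, ?_⟩
  · have : Real.exp (-y / r) ≤ 1 := by
      rw [Real.exp_le_one_iff]
      exact div_nonpos_of_nonpos_of_nonneg (by linarith) hr.le
    linarith
  · linarith [Real.exp_pos (-y / r)]
  · have := Real.add_one_le_exp (-y / r)
    have h2 : -y / r = -(y / r) := by ring
    rw [h2] at this ⊢
    linarith

theorem cut_nonneg {r y : ℝ} (hr : 0 < r) (hy : 0 < y) : 0 ≤ cut r y :=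
  mul_nonneg (L3_th hr hy).1 (Real.smoothTransition.nonneg _)

theorem cut_le_one {r y : ℝ} (hr : 0 < r) (hy : 0 < y) : cut r y ≤ 1 := by
  have h := L3_th hr hy
  unfold cut
  calc _ ≤ 1 * (1 : ℝ) := mul_le_mul h.2.1 (Real.smoothTransition.le_one _)
        (Real.smoothTransition.nonneg _) zero_le_one
    _ = 1 := one_mul 1

theorem cut_lim {y : ℝ} (hy : 0 < y) :
    Tendsto (fun n : ℕ => cut (1 / ((n : ℝ) + 2)) y) atTop (𝓝 1) := by
  have hn : Tendsto (fun n : ℕ => (n : ℝ) + 2) atTop atTop :=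
    tendsto_atTop_add_const_right _ _ tendsto_natCast_atTop_atTop
  have h1 : Tendsto (fun n : ℕ => 1 - Real.exp (-y / (1 / ((n : ℝ) + 2)))) atTop (𝓝 (1 - 0)) := by
    refine tendsto_const_nhds.sub (Real.tendsto_exp_atBot.comp ?_)
    have : (fun n : ℕ => -y / (1 / ((n : ℝ) + 2))) = fun n : ℕ => (-y) * ((n : ℝ) + 2) := by
      funext n
      rw [div_div_eq_mul_div, div_one]
    rw [this]
    exact hn.const_mul_atTop_of_neg (by linarith)
  have h2 : Tendsto (fun n : ℕ => Real.smoothTransition (y / (1 / ((n : ℝ) + 2)) ^ 8 - 1)) atTop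
      (𝓝 1) := by
    refine tendsto_const_nhds.congr' ?_
    filter_upwards [hn.eventually_ge_atTop (2 / y), hn.eventually_ge_atTop 1] with n h h'
    symm
    apply Real.smoothTransition.one_of_one_le
    have h3 : y / (1 / ((n : ℝ) + 2)) ^ 8 = y * ((n : ℝ) + 2) ^ 8 := by
      rw [div_pow, one_pow, div_div_eq_mul_div, div_one]
    rw [h3]
    have h4 : ((n : ℝ) + 2) ≤ ((n : ℝ) + 2) ^ 8 := le_self_pow₀ h' (by norm_num)
    have h5 : 2 ≤ y * ((n : ℝ) + 2) := by
      rw [div_le_iff₀ hy] at h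
      linarith
    nlinarith
  have h3 := h1.mul h2
  simp only [sub_zero, one_mul] at h3
  exact h3

private theorem L3_cut_contDiff (r : ℝ) : ContDiff ℝ ∞ (cut r) := by
  have h : cut r = fun y => (1 - Real.exp (-y / r)) * Real.smoothTransition (y / r ^ 8 - 1) := rfl
  rw [h]
  refine (contDiff_const.sub (Real.contDiff_exp.comp (contDiff_neg.div_const r))).mul ?_
  exact Real.smoothTransition.contDiff.comp ((contDiff_id.div_const _).sub contDiff_const)

private theorem L3_cut_zero {r y : ℝ} (hr : 0 < r) (hy : y ≤ r ^ 8) : cut r y = 0 := by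
  unfold cut
  rw [Real.smoothTransition.zero_of_nonpos, mul_zero]
  rw [sub_nonpos, div_le_one (by positivity)]
  exact hy

theorem fr_RF {H G : ℝ → ℝ} {c : ℝ} (hH : HG H G c) {r : ℝ} (hr : 0 < r) : RF (fr r H) := by
  have hr8 : 0 < r ^ 8 := by positivity
  refine ⟨?_, ?_, r ^ 8, hr8, ?_⟩
  · rw [contDiff_iff_contDiffAt]
    intro y
    by_cases hy : 0 < y
    · exact (hH.smooth.contDiffAt (Ioi_mem_nhds hy)).mul (L3_cut_contDiff r).contDiffAt
    · have : fr r H =ᶠ[𝓝 y] fun _ => 0 := by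
        filter_upwards [Iio_mem_nhds ((not_lt.1 hy).trans_lt hr8)] with z hz
        simp only [fr, L3_cut_zero hr (le_of_lt hz), mul_zero]
      exact contDiffAt_const.congr_of_eventuallyEq this
  · intro s hs
    by_cases h : s ≤ r ^ 8
    · simp only [fr, L3_cut_zero hr h, mul_zero, le_refl]
    · have hs0 : 0 < s := hr8.trans (not_le.1 h)
      exact mul_nonneg (hH.pos s hs0 hs).1 (cut_nonneg hr hs0)
  · intro s hs
    simp only [fr, L3_cut_zero hr hs, mul_zero]

/-- The first derivative of the cutoff. -/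
private noncomputable def L3_B1 (r y : ℝ) : ℝ :=
  (Real.exp (-y / r) / r) * Real.smoothTransition (y / r ^ 8 - 1) +
    (1 - Real.exp (-y / r)) * (deriv Real.smoothTransition (y / r ^ 8 - 1) / r ^ 8)

/-- The second derivative of the cutoff. -/
private noncomputable def L3_B2 (r y : ℝ) : ℝ :=
  -(Real.exp (-y / r) / r ^ 2) * Real.smoothTransition (y / r ^ 8 - 1) +
    2 * (Real.exp (-y / r) / r) * (deriv Real.smoothTransition (y / r ^ 8 - 1) / r ^ 8) +
    (1 - Real.exp (-y / r)) * (iteratedDeriv 2 Real.smoothTransition (y / r ^ 8 - 1) / r ^ 16)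

private theorem L3_exp (r y : ℝ) :
    HasDerivAt (fun y => Real.exp (-y / r)) (-(Real.exp (-y / r) / r)) y := by
  have h1 : HasDerivAt (fun y : ℝ => -y / r) (-1 / r) y := (hasDerivAt_neg y).div_const r
  have h2 := h1.exp
  convert! h2 using 1
  ring

private theorem L3_lin (r y : ℝ) : HasDerivAt (fun y : ℝ => y / r ^ 8 - 1) (1 / r ^ 8) y :=
  ((hasDerivAt_id y).div_const (r ^ 8)).sub_const 1

private theorem L3_ch (r y : ℝ) :
    HasDerivAt (fun y => Real.smoothTransition (y / r ^ 8 - 1))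
      (deriv Real.smoothTransition (y / r ^ 8 - 1) / r ^ 8) y := by
  have h0 : ContDiff ℝ 1 Real.smoothTransition := Real.smoothTransition.contDiff
  have h1 := ((h0.differentiable (by norm_num)).differentiableAt
    (x := y / r ^ 8 - 1)).hasDerivAt
  have h2 := h1.comp y (L3_lin r y)
  convert! h2 using 1
  ring

private theorem L3_ch2 (r y : ℝ) :
    HasDerivAt (fun y => deriv Real.smoothTransition (y / r ^ 8 - 1) / r ^ 8)
      (iteratedDeriv 2 Real.smoothTransition (y / r ^ 8 - 1) / r ^ 16) y := by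
  have h0 : ContDiff ℝ 2 Real.smoothTransition := Real.smoothTransition.contDiff
  have h0' : ContDiff ℝ 1 (deriv Real.smoothTransition) := h0.deriv'
  have h1 := ((h0'.differentiable (by norm_num)).differentiableAt
    (x := y / r ^ 8 - 1)).hasDerivAt
  have h2 := (h1.comp y (L3_lin r y)).div_const (r ^ 8)
  rw [show (2 : ℕ) = 1 + 1 from rfl, iteratedDeriv_succ, iteratedDeriv_one]
  convert! h2 using 1
  ring

private theorem L3_cut1 (r y : ℝ) : HasDerivAt (cut r) (L3_B1 r y) y := by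
  have h := ((L3_exp r y).const_sub 1).mul (L3_ch r y)
  convert! h using 1
  simp only [L3_B1]
  ring

private theorem L3_cut2 {r : ℝ} (hr : 0 < r) (y : ℝ) : HasDerivAt (L3_B1 r) (L3_B2 r y) y := by
  have h1 := ((L3_exp r y).div_const r).mul (L3_ch r y)
  have h2 := ((L3_exp r y).const_sub 1).mul (L3_ch2 r y)
  have h := h1.add h2
  convert! h using 1
  simp only [L3_B2]
  field_simp
  ring

/-- PROOF: with `θ = 1 - e^(-y/r)`, `χ = smoothTransition (y/r⁸ - 1)`:
`(1-2y) f'' - 5 f' = θχ ((1-2y) H'' - 5 H') + Hχ ((1-2y) θ'' - 5 θ')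
+ (1-2y) (H θ χ'' + 2 H' θ' χ + 2 H' θ χ' + 2 H θ' χ') - 5 H θ χ'`; the second term is `≤ 0`;
`θ ≤ y/r`, `θ' = e^(-y/r)/r`, `χ' = 0` outside `r⁸ ≤ y ≤ 2 r⁸`, so `|χ'| ≤ 2L/y`, `|χ''| ≤ 4L/y²`
(`smoothTransition_deriv_bound`); `y^(-1/5) ≤ y^(-1)`. -/
theorem fr_calc {H G : ℝ → ℝ} {c : ℝ} (hH : HG H G c) : ∃ L : ℝ, 0 ≤ L ∧ ∀ r : ℝ, 0 < r →
    r ≤ 1 / 2 → ∀ y : ℝ, 0 < y → y ≤ 1 / 2 →
    (1 - 2 * y) * iteratedDeriv 2 (fr r H) y - 5 * deriv (fr r H) y ≤ G y * cut r y +
      L * (y ^ (-(1 / 5) : ℝ) * r⁻¹ * Real.exp (-y / r) +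
        if y ≤ 2 * r ^ 8 then 1 / (r * y) else 0) ∧
    |deriv (fr r H) y| ≤ |deriv H y| +
      L * (r⁻¹ * Real.exp (-y / r) + if y ≤ 2 * r ^ 8 then r⁻¹ else 0) := by
  obtain ⟨L, hL, hst⟩ := smoothTransition_deriv_bound
  have hc := hH.cpos
  refine ⟨2 * c + 22 * c * L, by positivity, fun r hr hr2 y hy hy2 => ?_⟩
  -- derivatives of `H`
  have hH1 : ∀ z, 0 < z → HasDerivAt H (deriv H z) z := fun z hz =>
    ((hH.smooth.contDiffAt (Ioi_mem_nhds hz)).differentiableAt (by simp)).hasDerivAt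
  have hHs : ContDiffOn ℝ ∞ (deriv H) (Ioi 0) :=
    hH.smooth.deriv_of_isOpen isOpen_Ioi (by simp)
  have hH2 : ∀ z, 0 < z → HasDerivAt (deriv H) (iteratedDeriv 2 H z) z := fun z hz => by
    rw [show (2 : ℕ) = 1 + 1 from rfl, iteratedDeriv_succ, iteratedDeriv_one]
    exact ((hHs.contDiffAt (Ioi_mem_nhds hz)).differentiableAt (by simp)).hasDerivAt
  -- derivatives of `f`
  have hf1 : ∀ z, 0 < z → deriv (fr r H) z = deriv H z * cut r z + H z * L3_B1 r z := fun z hz =>
    ((hH1 z hz).mul (L3_cut1 r z)).deriv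
  have hf2 : iteratedDeriv 2 (fr r H) y = iteratedDeriv 2 H y * cut r y +
      deriv H y * L3_B1 r y + (deriv H y * L3_B1 r y + H y * L3_B2 r y) := by
    rw [show iteratedDeriv 2 (fr r H) y = deriv (deriv (fr r H)) y by
      rw [show (2 : ℕ) = 1 + 1 from rfl, iteratedDeriv_succ, iteratedDeriv_one]]
    have h1 : deriv (fr r H) =ᶠ[𝓝 y] fun z => deriv H z * cut r z + H z * L3_B1 r z := by
      filter_upwards [Ioi_mem_nhds hy] with z hz
      exact hf1 z hz
    rw [h1.deriv_eq]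
    exact (((hH2 y hy).mul (L3_cut1 r y)).add ((hH1 y hy).mul (L3_cut2 hr y))).deriv
  rw [hf2, hf1 y hy]
  -- the numbers
  obtain ⟨hθ0, hθ1, hθ2⟩ := L3_th hr hy
  obtain ⟨hs1, hs2, hs3, hs4⟩ := hst (y / r ^ 8 - 1)
  have hX0 := Real.smoothTransition.nonneg (y / r ^ 8 - 1)
  have hX1 := Real.smoothTransition.le_one (y / r ^ 8 - 1)
  have hE0 := Real.exp_pos (-y / r)
  obtain ⟨hH0, hHc⟩ := hH.pos y hy hy2
  have hd1 := hH.d1 y hy hy2
  have hle := hH.le y hy hy2
  have hcut : cut r y = (1 - Real.exp (-y / r)) * Real.smoothTransition (y / r ^ 8 - 1) := rfl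
  simp only [hcut, L3_B1, L3_B2]
  set E := Real.exp (-y / r) with hE
  set X := Real.smoothTransition (y / r ^ 8 - 1) with hX
  set X1 := deriv Real.smoothTransition (y / r ^ 8 - 1) / r ^ 8 with hX1'
  set X2 := iteratedDeriv 2 Real.smoothTransition (y / r ^ 8 - 1) / r ^ 16 with hX2'
  set D1 := deriv H y with hD1
  set D2 := iteratedDeriv 2 H y with hD2
  set P := y ^ (-(1 / 5) : ℝ) with hP
  have hP0 : 0 < P := Real.rpow_pos_of_pos hy _
  have hPy : P ≤ 1 / y := by
    have h1 : 1 / y = y ^ (-1 : ℝ) := by rw [Real.rpow_neg_one, one_div]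
    rw [hP, h1]
    exact Real.rpow_le_rpow_of_exponent_ge hy (by linarith) (by norm_num)
  have hri : 0 < r⁻¹ := inv_pos.2 hr
  -- bounds for `X1`, `X2`
  have hXb : (y ≤ 2 * r ^ 8 → |X1| ≤ 2 * L / y ∧ |X2| ≤ 4 * L / y ^ 2) ∧
      (¬ y ≤ 2 * r ^ 8 → X1 = 0 ∧ X2 = 0) := by
    constructor
    · intro h
      constructor
      · rw [hX1', abs_div, abs_of_pos (show (0 : ℝ) < r ^ 8 by positivity),
          div_le_div_iff₀ (by positivity) hy]
        calc |deriv Real.smoothTransition (y / r ^ 8 - 1)| * y ≤ L * (2 * r ^ 8) :=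
              mul_le_mul hs1 h hy.le hL
          _ = 2 * L * r ^ 8 := by ring
      · rw [hX2', abs_div, abs_of_pos (show (0 : ℝ) < r ^ 16 by positivity),
          div_le_div_iff₀ (by positivity) (by positivity)]
        calc |iteratedDeriv 2 Real.smoothTransition (y / r ^ 8 - 1)| * y ^ 2 ≤
              L * (2 * r ^ 8) ^ 2 :=
              mul_le_mul hs2 (pow_le_pow_left₀ hy.le h 2) (by positivity) hL
          _ = 4 * L * r ^ 16 := by ring
    · intro h
      have h1 : y / r ^ 8 - 1 ≤ 0 ∨ 1 ≤ y / r ^ 8 - 1 := by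
        right
        rw [le_sub_iff_add_le, le_div_iff₀ (by positivity)]
        linarith [not_le.1 h]
      obtain ⟨h2, h3⟩ := hs3 h1
      rw [hX1', hX2', h2, h3]
      simp
  have hEr : E / r = r⁻¹ * E := by ring
  -- the terms
  have hD1' : |D1| ≤ c * P := hd1
  have hT1 : |D1 * (E / r) * X| ≤ c * (P * r⁻¹ * E) := by
    rw [abs_mul, abs_mul, abs_of_nonneg (show 0 ≤ E / r by positivity), abs_of_nonneg hX0, hEr]
    calc |D1| * (r⁻¹ * E) * X ≤ (c * P) * (r⁻¹ * E) * 1 := by gcongr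
      _ = c * (P * r⁻¹ * E) := by ring
  constructor
  · -- the main inequality
    have hy12 : 0 ≤ 1 - 2 * y := by linarith
    have hy12' : 1 - 2 * y ≤ 1 := by linarith
    have e1 : (1 - E) * X * ((1 - 2 * y) * D2 - 5 * D1) ≤ G y * ((1 - E) * X) := by
      have h0 : 0 ≤ (1 - E) * X := mul_nonneg hθ0 hX0
      nlinarith [mul_le_mul_of_nonneg_left hle h0]
    have e2 : H y * X * ((1 - 2 * y) * (-(E / r ^ 2)) - 5 * (E / r)) ≤ 0 := by
      refine mul_nonpos_of_nonneg_of_nonpos (mul_nonneg hH0 hX0) ?_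
      have h1 : 0 ≤ (1 - 2 * y) * (E / r ^ 2) := by positivity
      have h2 : 0 ≤ E / r := by positivity
      linarith
    have e3 : (1 - 2 * y) * (2 * (D1 * (E / r) * X)) ≤ 2 * c * (P * r⁻¹ * E) := by
      have h1 := le_abs_self (D1 * (E / r) * X)
      have h2 : 0 ≤ |D1 * (E / r) * X| := abs_nonneg _
      nlinarith
    have e4 : (1 - 2 * y) * (2 * (D1 * ((1 - E) * X1)) + 2 * (H y * ((E / r) * X1)) +
        H y * ((1 - E) * X2)) - 5 * (H y * ((1 - E) * X1)) ≤
        22 * c * L * (if y ≤ 2 * r ^ 8 then 1 / (r * y) else 0) := by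
      split_ifs with hy8
      · obtain ⟨hb1, hb2⟩ := hXb.1 hy8
        have hθr : 1 - E ≤ y / r := hθ2
        have hE1 : E ≤ 1 := by linarith
        have g1 : |D1 * ((1 - E) * X1)| ≤ 2 * c * L * (1 / (r * y)) := by
          rw [abs_mul, abs_mul, abs_of_nonneg hθ0]
          calc |D1| * ((1 - E) * |X1|) ≤ (c * (1 / y)) * ((y / r) * (2 * L / y)) := by
                refine mul_le_mul (hD1'.trans (mul_le_mul_of_nonneg_left hPy hc)) ?_
                  (by positivity) (by positivity)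
                exact mul_le_mul hθr hb1 (abs_nonneg _) (by positivity)
            _ = 2 * c * L * (1 / (r * y)) := by field_simp
        have g2 : |H y * ((E / r) * X1)| ≤ 2 * c * L * (1 / (r * y)) := by
          rw [abs_mul, abs_mul, abs_of_nonneg hH0, abs_of_nonneg (show 0 ≤ E / r by positivity)]
          calc H y * (E / r * |X1|) ≤ c * (1 / r * (2 * L / y)) := by
                refine mul_le_mul hHc ?_ (by positivity) hc
                exact mul_le_mul (div_le_div_of_nonneg_right hE1 hr.le) hb1 (abs_nonneg _)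
                  (by positivity)
            _ = 2 * c * L * (1 / (r * y)) := by field_simp
        have g3 : |H y * ((1 - E) * X2)| ≤ 4 * c * L * (1 / (r * y)) := by
          rw [abs_mul, abs_mul, abs_of_nonneg hH0, abs_of_nonneg hθ0]
          calc H y * ((1 - E) * |X2|) ≤ c * ((y / r) * (4 * L / y ^ 2)) := by
                refine mul_le_mul hHc ?_ (by positivity) hc
                exact mul_le_mul hθr hb2 (abs_nonneg _) (by positivity)
            _ = 4 * c * L * (1 / (r * y)) := by field_simp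
        have g4 : |H y * ((1 - E) * X1)| ≤ 2 * c * L * (1 / (r * y)) := by
          rw [abs_mul, abs_mul, abs_of_nonneg hH0, abs_of_nonneg hθ0]
          calc H y * ((1 - E) * |X1|) ≤ c * ((y / r) * (2 * L / y)) := by
                refine mul_le_mul hHc ?_ (by positivity) hc
                exact mul_le_mul hθr hb1 (abs_nonneg _) (by positivity)
            _ = 2 * c * L * (1 / r) := by field_simp
            _ ≤ 2 * c * L * (1 / (r * y)) := by
                refine mul_le_mul_of_nonneg_left ?_ (by positivity)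
                apply one_div_le_one_div_of_le (by positivity)
                nlinarith
        have a1 := (abs_le.1 g1)
        have a2 := (abs_le.1 g2)
        have a3 := (abs_le.1 g3)
        have a4 := (abs_le.1 g4)
        set Q := 1 / (r * y) with hQ
        have hQ0 : 0 ≤ c * L * Q := by positivity
        have s1 : 2 * (D1 * ((1 - E) * X1)) + 2 * (H y * ((E / r) * X1)) +
          H y * ((1 - E) * X2) ≤ 12 * (c * L * Q) := by linarith [a1.2, a2.2, a3.2]
        have s2 : (1 - 2 * y) * (2 * (D1 * ((1 - E) * X1)) + 2 * (H y * ((E / r) * X1)) +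
          H y * ((1 - E) * X2)) ≤ 12 * (c * L * Q) := by
          nlinarith [mul_le_mul_of_nonneg_left s1 hy12]
        linarith [a4.1]
      · obtain ⟨hb1, hb2⟩ := hXb.2 hy8
        rw [hb1, hb2]
        simp
    have hI0 : 0 ≤ (if y ≤ 2 * r ^ 8 then 1 / (r * y) else 0 : ℝ) := by
      split_ifs
      · positivity
      · exact le_rfl
    have hT0 : 0 ≤ P * r⁻¹ * E := by positivity
    have hcL : 0 ≤ c * L := by positivity
    have k1 : 2 * c * (P * r⁻¹ * E) + 22 * c * L * (if y ≤ 2 * r ^ 8 then 1 / (r * y) else 0) ≤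
        (2 * c + 22 * c * L) * (P * r⁻¹ * E + if y ≤ 2 * r ^ 8 then 1 / (r * y) else 0) := by
      nlinarith [mul_nonneg hc hI0, mul_nonneg hcL hT0]
    have k2 : (1 - 2 * y) * (D2 * ((1 - E) * X) + D1 * (E / r * X + (1 - E) * X1) +
        (D1 * (E / r * X + (1 - E) * X1) + H y * (-(E / r ^ 2) * X + 2 * (E / r) * X1 +
          (1 - E) * X2))) - 5 * (D1 * ((1 - E) * X) + H y * (E / r * X + (1 - E) * X1)) =
        (1 - E) * X * ((1 - 2 * y) * D2 - 5 * D1) +
        H y * X * ((1 - 2 * y) * (-(E / r ^ 2)) - 5 * (E / r)) +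
        (1 - 2 * y) * (2 * (D1 * (E / r) * X)) +
        ((1 - 2 * y) * (2 * (D1 * ((1 - E) * X1)) + 2 * (H y * ((E / r) * X1)) +
        H y * ((1 - E) * X2)) - 5 * (H y * ((1 - E) * X1))) := by ring
    rw [k2]
    linarith
  · -- the first derivative
    have b1 : |D1 * ((1 - E) * X)| ≤ |D1| := by
      rw [abs_mul, abs_of_nonneg (mul_nonneg hθ0 hX0)]
      have : (1 - E) * X ≤ 1 := by nlinarith
      nlinarith [abs_nonneg D1]
    have b2 : |H y * (E / r * X)| ≤ c * (r⁻¹ * E) := by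
      rw [abs_of_nonneg (by positivity), hEr]
      calc H y * (r⁻¹ * E * X) ≤ c * (r⁻¹ * E * 1) := by gcongr
        _ = c * (r⁻¹ * E) := by ring
    have b3 : |H y * ((1 - E) * X1)| ≤ 2 * c * L * (if y ≤ 2 * r ^ 8 then r⁻¹ else 0) := by
      split_ifs with hy8
      · obtain ⟨hb1, -⟩ := hXb.1 hy8
        rw [abs_mul, abs_mul, abs_of_nonneg hH0, abs_of_nonneg hθ0]
        calc H y * ((1 - E) * |X1|) ≤ c * ((y / r) * (2 * L / y)) := by
              refine mul_le_mul hHc ?_ (by positivity) hc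
              exact mul_le_mul hθ2 hb1 (abs_nonneg _) (by positivity)
          _ = 2 * c * L * r⁻¹ := by field_simp
      · obtain ⟨hb1, -⟩ := hXb.2 hy8
        rw [hb1]
        simp
    have hI0 : 0 ≤ (if y ≤ 2 * r ^ 8 then r⁻¹ else 0 : ℝ) := by
      split_ifs
      · positivity
      · exact le_rfl
    have hT0 : 0 ≤ r⁻¹ * E := by positivity
    have hcL : 0 ≤ c * L := by positivity
    have k3 : D1 * ((1 - E) * X) + H y * (E / r * X + (1 - E) * X1) =
        D1 * ((1 - E) * X) + H y * (E / r * X) + H y * ((1 - E) * X1) := by ring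
    rw [k3]
    refine ((abs_add_le _ _).trans (add_le_add ((abs_add_le _ _).trans (add_le_add b1 b2))
      b3)).trans ?_
    nlinarith [mul_nonneg hc hI0, mul_nonneg hc hT0, mul_nonneg hcL hT0, mul_nonneg hcL hI0]

end Pool.Agent.W_332fe5
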