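import Pool.Agent.W_332fe5_h65.P0

set_option autoImplicit false

/-! Block 5, P1: `∫_0^1 ‖w‖² dt ≤ C` for every `ω`. -/

open MeasureTheory ProbabilityTheory Set Filter Topology
open scoped ENNReal NNReal

namespace Pool.Agent.W_332fe5

/-- PROOF: `w t ω` vanishes outside the ball (`Ctx.supp`), `q ≥ 2`, so
`‖w‖₂ ≤ |B|^(1/2 - 1/q) ‖w‖_q` (`eLpNorm_le_eLpNorm_mul_rpow_measure_univ` on `volume.restrict Bl`). -/
theorem norm_w_le {zt p κ δ q K : ℝ} {A : L2 →L[ℝ] L2} {ev : L2 → E3 → E3}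
    (h : Ctx zt p κ δ q A K ev) : ∃ C1 : ℝ, 0 < C1 ∧ ∀ f : L2, f ∈ Hs Bl →
      ‖f‖ₑ ≤ ENNReal.ofReal C1 * eLpNorm f (ENNReal.ofReal q) volume := by
  have hq := h.par.hq
  have hB : (volume : Measure E3) Bl ≠ ∞ := Metric.isBounded_ball.measure_lt_top.ne
  set e : ℝ := 1 / (2 : ℝ≥0∞).toReal - 1 / (ENNReal.ofReal q).toReal with he
  have he0 : 0 ≤ e := by
    rw [he, ENNReal.toReal_ofNat, ENNReal.toReal_ofReal (by linarith)]
    have : 1 / q ≤ 1 / 2 := one_div_le_one_div_of_le (by norm_num) hq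
    linarith
  have hfin : (volume : Measure E3) Bl ^ e ≠ ∞ := ENNReal.rpow_ne_top_of_nonneg he0 hB
  refine ⟨((volume : Measure E3) Bl ^ e).toReal + 1, by positivity, fun f hf => ?_⟩
  have h1 : (f : E3 → E3) =ᵐ[volume] Bl.indicator f := by
    filter_upwards [h.supp f hf] with x hx
    by_cases hb : x ∈ Bl
    · rw [indicator_of_mem hb]
    · rw [indicator_of_notMem hb, hx hb]
  have hm : MeasurableSet Bl := Metric.isOpen_ball.measurableSet
  rw [Lp.enorm_def, eLpNorm_congr_ae h1, eLpNorm_indicator_eq_eLpNorm_restrict hm]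
  have h2q : (2 : ℝ≥0∞) ≤ ENNReal.ofReal q := by
    have : (2 : ℝ≥0∞) = ENNReal.ofReal 2 := by simp
    rw [this]
    exact ENNReal.ofReal_le_ofReal hq
  have h3 := eLpNorm_le_eLpNorm_mul_rpow_measure_univ (μ := (volume : Measure E3).restrict Bl)
    (f := (f : E3 → E3)) h2q (Lp.aestronglyMeasurable f).restrict
  rw [Measure.restrict_apply_univ] at h3
  refine h3.trans ?_
  rw [mul_comm]
  refine mul_le_mul' ?_ (eLpNorm_mono_measure _ Measure.restrict_le_self)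
  rw [← ENNReal.ofReal_toReal hfin]
  exact ENNReal.ofReal_le_ofReal (by rw [ENNReal.toReal_ofReal ENNReal.toReal_nonneg]; linarith)

private theorem P1_young {p κ r t : ℝ} (hp : 2 < p) (hr : 0 ≤ r) (ht : 0 < t) :
    r ^ 2 ≤ r ^ p * t ^ κ + t ^ (-(2 * κ / (p - 2))) := by
  have h0 : 0 ≤ t ^ (-(2 * κ / (p - 2))) := (Real.rpow_pos_of_pos ht _).le
  have h0' : 0 ≤ r ^ p * t ^ κ := mul_nonneg (Real.rpow_nonneg hr _) (Real.rpow_nonneg ht.le _)
  rcases hr.eq_or_lt with h1 | h1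
  · rw [← h1] at h0' ⊢
    have : (0 : ℝ) ^ 2 = 0 := by norm_num
    rw [this]
    linarith
  · have e1 : r ^ p = r ^ 2 * r ^ (p - 2) := by
      rw [← Real.rpow_natCast r 2, ← Real.rpow_add h1]
      norm_num
    rcases le_total 1 (r ^ (p - 2) * t ^ κ) with h2 | h2
    · have : r ^ 2 ≤ r ^ p * t ^ κ := by
        rw [e1, mul_assoc]
        exact le_mul_of_one_le_right (sq_nonneg r) h2
      linarith
    · have h3 : r ^ (p - 2) ≤ t ^ (-κ) := by
        rw [Real.rpow_neg ht.le, ← one_div, le_div_iff₀ (Real.rpow_pos_of_pos ht _)]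
        exact h2
      have h4 : (r ^ (p - 2)) ^ (2 / (p - 2)) ≤ (t ^ (-κ)) ^ (2 / (p - 2)) :=
        Real.rpow_le_rpow (Real.rpow_nonneg hr _) h3 (by apply div_nonneg <;> linarith)
      rw [← Real.rpow_mul hr, ← Real.rpow_mul ht.le] at h4
      have e2 : (p - 2) * (2 / (p - 2)) = 2 := by field_simp [show p - 2 ≠ 0 by linarith]
      have e3 : -κ * (2 / (p - 2)) = -(2 * κ / (p - 2)) := by ring
      rw [e2, e3, Real.rpow_two] at h4
      linarith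

/-- PROOF: Hoelder in `t` with the exponents `p/2` and `p/(p-2)`:
`‖w‖_q² = (‖w‖_q^p t^κ)^(2/p) t^(-2κ/p)`, and `∫_0^1 t^(-2κ/(p-2)) dt < ∞` since `κ < p/2 - 1`
(`ENNReal.lintegral_mul_le_Lp_mul_Lq`); `Core.w_int`. Measurability: `C.w_meas`; for
`t ↦ eLpNorm (w t ω) q` use that `eLpNorm` is lower semicontinuous / or bound
`∫⁻ ‖w‖_2^p t^κ ≤ C1^p ∫⁻ ‖w‖_q^p t^κ ≤ C1^p` FIRST, then Hoelder with the measurable
function `‖w t ω‖ₑ`. -/
theorem exists_w_sq {zt p κ δ q K : ℝ} {A : L2 →L[ℝ] L2} {ev : L2 → E3 → E3}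
    (h : Ctx zt p κ δ q A K ev) : ∃ C1 : ℝ, 0 < C1 ∧ ∀ C : Core zt p κ δ q, ∀ ω,
      ∫⁻ t in Ioo (0 : ℝ) 1, ‖C.w t ω‖ₑ ^ 2 ≤ ENNReal.ofReal C1 := by
  obtain ⟨C0, hC0, hC⟩ := norm_w_le h
  have hp := h.par.hp
  have hk := h.par.k1
  set e : ℝ := -(2 * κ / (p - 2)) with he
  have he1 : -1 < e := by
    have hp2 : 0 < p - 2 := by linarith
    rw [he, neg_lt_neg_iff, div_lt_one hp2]
    linarith
  have hint : IntegrableOn (fun t : ℝ => t ^ e) (Ioo 0 1) := by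
    rw [← intervalIntegrable_iff_integrableOn_Ioo_of_le zero_le_one]
    exact intervalIntegral.intervalIntegrable_rpow' he1
  have hpos : 0 ≤ ∫ t in Ioo (0 : ℝ) 1, t ^ e :=
    setIntegral_nonneg measurableSet_Ioo fun t ht => Real.rpow_nonneg ht.1.le _
  have hCp : 0 < C0 ^ p := Real.rpow_pos_of_pos hC0 _
  refine ⟨C0 ^ p + ∫ t in Ioo (0 : ℝ) 1, t ^ e, by linarith, fun C ω => ?_⟩
  have hme : Measurable fun t : ℝ => ENNReal.ofReal (t ^ e) :=
    (measurable_id.pow_const e).ennreal_ofReal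
  have h1 : ∫⁻ t in Ioo (0 : ℝ) 1, ‖C.w t ω‖ₑ ^ 2 ≤
      ∫⁻ t in Ioo (0 : ℝ) 1, (ENNReal.ofReal (C0 ^ p) *
        (eLpNorm (C.w t ω) (ENNReal.ofReal q) volume ^ p * ENNReal.ofReal (t ^ κ)) +
        ENNReal.ofReal (t ^ e)) := by
    refine setLIntegral_mono' measurableSet_Ioo fun t ht => ?_
    have h2 := hC (C.w t ω) (C.w_mem t ω)
    have h3 := P1_young (κ := κ) hp (norm_nonneg (C.w t ω)) ht.1
    have h4 : ‖C.w t ω‖ₑ ^ 2 ≤ ‖C.w t ω‖ₑ ^ p * ENNReal.ofReal (t ^ κ) +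
        ENNReal.ofReal (t ^ e) := by
      rw [← ofReal_norm, ENNReal.ofReal_rpow_of_nonneg (norm_nonneg _) (by linarith),
        ← ENNReal.ofReal_pow (norm_nonneg _), ← ENNReal.ofReal_mul (Real.rpow_nonneg (norm_nonneg _) _),
        ← ENNReal.ofReal_add (mul_nonneg (Real.rpow_nonneg (norm_nonneg _) _)
          (Real.rpow_nonneg ht.1.le _)) (Real.rpow_nonneg ht.1.le _)]
      exact ENNReal.ofReal_le_ofReal h3
    refine h4.trans (add_le_add ?_ le_rfl)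
    rw [← mul_assoc]
    refine mul_le_mul' ?_ le_rfl
    have h5 := ENNReal.rpow_le_rpow h2 (show (0 : ℝ) ≤ p by linarith)
    rw [ENNReal.mul_rpow_of_nonneg _ _ (by linarith),
      ENNReal.ofReal_rpow_of_nonneg hC0.le (by linarith)] at h5
    exact h5
  refine h1.trans ?_
  rw [lintegral_add_right _ hme, lintegral_const_mul' _ _ ENNReal.ofReal_ne_top,
    ENNReal.ofReal_add hCp.le hpos]
  refine add_le_add ?_ ?_
  · calc _ ≤ ENNReal.ofReal (C0 ^ p) * 1 := mul_le_mul' le_rfl (C.w_int ω)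
      _ = _ := mul_one _
  · rw [ofReal_integral_eq_lintegral_ofReal hint
      ((ae_restrict_mem measurableSet_Ioo).mono fun t ht => Real.rpow_nonneg ht.1.le _)]

theorem nw_meas {zt p κ δ q : ℝ} (C : Core zt p κ δ q) : Measurable (nw C) :=
  C.w_meas.norm.measurable

private theorem P1_lint {zt p κ δ q : ℝ} (C : Core zt p κ δ q) {C1 : ℝ}
    (hC : ∀ ω, ∫⁻ t in Ioo (0 : ℝ) 1, ‖C.w t ω‖ₑ ^ 2 ≤ ENNReal.ofReal C1) :
    ∫⁻ z, ENNReal.ofReal (nw C z ^ 2) ∂(mz C 1) ≤ ENNReal.ofReal C1 := by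
  have hm : Measurable fun z => ENNReal.ofReal (nw C z ^ 2) :=
    ((nw_meas C).pow_const 2).ennreal_ofReal
  rw [mz_eq, lintegral_prod_symm' _ hm]
  have h1 : ∀ ω, ∫⁻ t in Ioo (0 : ℝ) 1, ENNReal.ofReal (nw C (t, ω) ^ 2) ≤
      ENNReal.ofReal C1 := fun ω => by
    refine le_trans (le_of_eq ?_) (hC ω)
    refine lintegral_congr fun t => ?_
    unfold nw
    rw [ENNReal.ofReal_pow (norm_nonneg _), ofReal_norm]
  refine (lintegral_mono h1).trans ?_
  rw [lintegral_const, measure_univ, mul_one]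

theorem exists_nw_sq {zt p κ δ q K : ℝ} {A : L2 →L[ℝ] L2} {ev : L2 → E3 → E3}
    (h : Ctx zt p κ δ q A K ev) : ∃ C1 : ℝ, 0 < C1 ∧ ∀ C : Core zt p κ δ q,
      Integrable (fun z => nw C z ^ 2) (mz C 1) ∧ ∫ z, nw C z ^ 2 ∂(mz C 1) ≤ C1 ∧
      ∫⁻ z, ENNReal.ofReal (nw C z ^ 2) ∂(mz C 1) ≤ ENNReal.ofReal C1 := by
  obtain ⟨C1, hC1, hC⟩ := exists_w_sq h
  refine ⟨C1, hC1, fun C => ?_⟩
  have hm : Measurable fun z => nw C z ^ 2 := (nw_meas C).pow_const 2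
  have h1 := P1_lint C (hC C)
  have h2 : Integrable (fun z => nw C z ^ 2) (mz C 1) := by
    refine ⟨hm.aestronglyMeasurable, ?_⟩
    rw [hasFiniteIntegral_iff_ofReal (ae_of_all _ fun z => sq_nonneg _)]
    exact h1.trans_lt ENNReal.ofReal_lt_top
  refine ⟨h2, ?_, h1⟩
  rw [integral_eq_lintegral_of_nonneg_ae (ae_of_all _ fun z => sq_nonneg _)
    hm.aestronglyMeasurable]
  exact ENNReal.toReal_le_of_le_ofReal hC1.le h1

private theorem P1_int {Ω : Type} [MeasurableSpace Ω] {P : Measure Ω} [IsProbabilityMeasure P]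
    {f : Ω → ℝ} (hf : Measurable f) (h0 : ∀ ω, 0 ≤ f ω) (h : Integrable (fun ω => f ω ^ 2) P) :
    Integrable f P := by
  refine Integrable.mono' ((integrable_const (1 : ℝ)).add h) hf.aestronglyMeasurable
    (ae_of_all _ fun ω => ?_)
  rw [Real.norm_eq_abs, abs_of_nonneg (h0 ω)]
  simp only [Pi.add_apply]
  nlinarith [sq_nonneg (f ω - 1), h0 ω]

/-- For almost all `t` the norm of `w t` is integrable. -/
theorem nw_ae {zt p κ δ q K : ℝ} {A : L2 →L[ℝ] L2} {ev : L2 → E3 → E3}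
    (h : Ctx zt p κ δ q A K ev) (C : Core zt p κ δ q) :
    ∀ᵐ t ∂(volume.restrict (Ioo (0 : ℝ) 1)), Integrable (fun ω => ‖C.w t ω‖) C.P := by
  obtain ⟨C1, _, hC⟩ := exists_nw_sq h
  have h1 := (hC C).1
  rw [mz_eq] at h1
  have h2 : ∀ᵐ t ∂(volume.restrict (Ioo (0 : ℝ) 1)), Integrable (fun ω => nw C (t, ω) ^ 2) C.P :=
    h1.prod_right_ae
  have h3 : ∀ t, Measurable fun ω => nw C (t, ω) := fun t =>
    (nw_meas C).comp measurable_prodMk_left
  exact h2.mono fun t ht => P1_int (h3 t) (fun ω => norm_nonneg _) ht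

end Pool.Agent.W_332fe5
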