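import Pool.Agent.W_332fe5_h65.W1
import Pool.Agent.W_332fe5_h65.P1

set_option autoImplicit false

/-! Block 5, W2: weighted integrals of the field. -/

open MeasureTheory ProbabilityTheory Set Filter Topology
open scoped ENNReal NNReal

namespace Pool.Agent.W_332fe5

theorem W2_mBl : MeasurableSet Bl := by
  unfold Bl
  exact measurableSet_ball

/-- Cauchy-Schwarz for lower integrals. -/
theorem W2_cs {X : Type*} [MeasurableSpace X] (μ : Measure X) {f g : X → ℝ≥0∞}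
    (hf : AEMeasurable f μ) (hg : AEMeasurable g μ) :
    ∫⁻ x, f x * g x ∂μ ≤ (∫⁻ x, f x ^ 2 ∂μ) ^ (1 / 2 : ℝ) * (∫⁻ x, g x ^ 2 ∂μ) ^ (1 / 2 : ℝ) := by
  have h := ENNReal.lintegral_mul_le_Lp_mul_Lq μ Real.HolderConjugate.two_two hf hg
  simpa only [Pi.mul_apply, ENNReal.rpow_ofNat] using h

/-- PROOF: Cauchy-Schwarz with `Fld.hardy`: `|u| g = (|u| y^(-3/4)) (g y^(3/4))`. -/
theorem fld_cs {u : E3 → E3} {N : ℝ} (h : Fld u N) {g : ℝ → ℝ≥0∞} (hg : Measurable g) :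
    ∫⁻ x in Bl, ‖u x‖ₑ * g (yy x) ≤ ENNReal.ofReal N *
      (∫⁻ x in Bl, g (yy x) ^ 2 * ENNReal.ofReal (yy x ^ (3 / 2 : ℝ))) ^ (1 / 2 : ℝ) := by
  have hum : Measurable fun x => ‖u x‖ₑ := h.meas.measurable.enorm
  have hym : Measurable yy := yy_meas
  have h1 : ∫⁻ x in Bl, ‖u x‖ₑ * g (yy x) =
      ∫⁻ x in Bl, (‖u x‖ₑ * ENNReal.ofReal (yy x ^ (-(3 / 4) : ℝ))) *
        (g (yy x) * ENNReal.ofReal (yy x ^ (3 / 4 : ℝ))) := by
    refine setLIntegral_congr_fun W2_mBl fun x hx => ?_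
    have hy := yy_pos hx
    have h2 : ENNReal.ofReal (yy x ^ (-(3 / 4) : ℝ)) * ENNReal.ofReal (yy x ^ (3 / 4 : ℝ)) = 1 := by
      rw [← ENNReal.ofReal_mul (by positivity), ← Real.rpow_add hy]
      norm_num
    calc ‖u x‖ₑ * g (yy x) = ‖u x‖ₑ * g (yy x) *
          (ENNReal.ofReal (yy x ^ (-(3 / 4) : ℝ)) * ENNReal.ofReal (yy x ^ (3 / 4 : ℝ))) := by
          rw [h2, mul_one]
      _ = _ := by ring
  rw [h1]
  refine (W2_cs _ (by fun_prop) (by fun_prop)).trans ?_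
  have h3 : ∫⁻ x in Bl, (‖u x‖ₑ * ENNReal.ofReal (yy x ^ (-(3 / 4) : ℝ))) ^ 2 =
      ∫⁻ x in Bl, ‖u x‖ₑ ^ 2 * ENNReal.ofReal (yy x ^ (-(3 / 2) : ℝ)) := by
    refine setLIntegral_congr_fun W2_mBl fun x hx => ?_
    have hy := yy_pos hx
    rw [mul_pow, ← ENNReal.ofReal_pow (by positivity), ← Real.rpow_natCast, ← Real.rpow_mul hy.le]
    norm_num
  have h4 : ∫⁻ x in Bl, (g (yy x) * ENNReal.ofReal (yy x ^ (3 / 4 : ℝ))) ^ 2 =
      ∫⁻ x in Bl, g (yy x) ^ 2 * ENNReal.ofReal (yy x ^ (3 / 2 : ℝ)) := by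
    refine setLIntegral_congr_fun W2_mBl fun x hx => ?_
    have hy := yy_pos hx
    rw [mul_pow, ← ENNReal.ofReal_pow (by positivity), ← Real.rpow_natCast, ← Real.rpow_mul hy.le]
    norm_num
  rw [h3, h4]
  gcongr
  calc (∫⁻ x in Bl, ‖u x‖ₑ ^ 2 * ENNReal.ofReal (yy x ^ (-(3 / 2) : ℝ))) ^ (1 / 2 : ℝ) ≤
      ENNReal.ofReal (N ^ 2) ^ (1 / 2 : ℝ) := by
        gcongr
        exact h.hardy
    _ = ENNReal.ofReal N := by
        rw [ENNReal.ofReal_rpow_of_nonneg (by positivity) (by norm_num), ← Real.sqrt_eq_rpow,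
          Real.sqrt_sq h.nonneg]

theorem fld_sup {u : E3 → E3} {N : ℝ} (h : Fld u N) {g : ℝ → ℝ≥0∞} {M : ℝ} (hM : 0 ≤ M)
    (hg : ∀ y, 0 < y → y ≤ 1 / 2 → g y ≤ ENNReal.ofReal (M * y ^ (-(3 / 2) : ℝ))) :
    ∫⁻ x in Bl, ‖u x‖ₑ ^ 2 * g (yy x) ≤ ENNReal.ofReal (M * N ^ 2) := by
  have hum : Measurable fun x => ‖u x‖ₑ := h.meas.measurable.enorm
  have hym : Measurable yy := yy_meas
  calc ∫⁻ x in Bl, ‖u x‖ₑ ^ 2 * g (yy x) ≤
      ∫⁻ x in Bl, ENNReal.ofReal M * (‖u x‖ₑ ^ 2 * ENNReal.ofReal (yy x ^ (-(3 / 2) : ℝ))) := by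
        refine setLIntegral_mono' W2_mBl fun x hx => ?_
        calc ‖u x‖ₑ ^ 2 * g (yy x) ≤
            ‖u x‖ₑ ^ 2 * ENNReal.ofReal (M * yy x ^ (-(3 / 2) : ℝ)) := by
              gcongr
              exact hg _ (yy_pos hx) (yy_le x)
          _ = _ := by
              rw [ENNReal.ofReal_mul hM]
              ring
    _ = ENNReal.ofReal M *
        ∫⁻ x in Bl, ‖u x‖ₑ ^ 2 * ENNReal.ofReal (yy x ^ (-(3 / 2) : ℝ)) := by
        rw [lintegral_const_mul _ (by fun_prop)]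
    _ ≤ ENNReal.ofReal M * ENNReal.ofReal (N ^ 2) := by
        gcongr
        exact h.hardy
    _ = ENNReal.ofReal (M * N ^ 2) := by rw [ENNReal.ofReal_mul hM]

/-- PROOF: `fld_cs` for each `z` (`exists_fld`), then `∫⁻ nw ≤ (∫⁻ nw²)^(1/2) (mz univ)^(1/2)`,
`exists_nw_sq`, `mz_univ`, `mz_mono`. -/
theorem drift_le {zt p κ δ q K : ℝ} {A : L2 →L[ℝ] L2} {ev : L2 → E3 → E3}
    (h : Ctx zt p κ δ q A K ev) : ∃ C2 : ℝ, 0 ≤ C2 ∧ ∀ C : Core zt p κ δ q, ∀ t ∈ Icc (0 : ℝ) 1,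
      ∀ g : ℝ → ℝ≥0∞, Measurable g →
      ∫⁻ z, (∫⁻ x in Bl, ‖uv C A ev z x‖ₑ * g (yy x)) ∂(mz C t) ≤
        (ENNReal.ofReal (C2 * t) *
          ∫⁻ x in Bl, g (yy x) ^ 2 * ENNReal.ofReal (yy x ^ (3 / 2 : ℝ))) ^ (1 / 2 : ℝ) := by
  obtain ⟨K', hK', hfld⟩ := exists_fld h
  obtain ⟨C1, hC1, hnw⟩ := exists_nw_sq h
  refine ⟨K' ^ 2 * C1, by positivity, fun C t ht g hg => ?_⟩
  obtain ⟨I, hI⟩ : ∃ I : ℝ≥0∞, I =
      ∫⁻ x in Bl, g (yy x) ^ 2 * ENNReal.ofReal (yy x ^ (3 / 2 : ℝ)) := ⟨_, rfl⟩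
  rw [← hI]
  have hm : Measurable (nw C) := nw_meas C
  have h1 : ∀ z, ∫⁻ x in Bl, ‖uv C A ev z x‖ₑ * g (yy x) ≤
      (ENNReal.ofReal K' * I ^ (1 / 2 : ℝ)) * ENNReal.ofReal (nw C z) := by
    intro z
    refine (fld_cs (hfld (C.w z.1 z.2)) hg).trans (le_of_eq ?_)
    rw [← hI, ENNReal.ofReal_mul hK'.le]
    unfold nw
    ring
  have h2 : ∫⁻ z, ENNReal.ofReal (nw C z) ∂(mz C t) ≤
      ENNReal.ofReal C1 ^ (1 / 2 : ℝ) * ENNReal.ofReal t ^ (1 / 2 : ℝ) := by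
    have h3 := W2_cs (mz C t) (f := fun z => ENNReal.ofReal (nw C z)) (g := fun _ => 1)
      (by fun_prop) (by fun_prop)
    simp only [mul_one, one_pow, lintegral_const, one_mul] at h3
    rw [mz_univ] at h3
    refine h3.trans ?_
    gcongr
    calc ∫⁻ z, ENNReal.ofReal (nw C z) ^ 2 ∂(mz C t) ≤
        ∫⁻ z, ENNReal.ofReal (nw C z) ^ 2 ∂(mz C 1) :=
          lintegral_mono' (mz_mono C ht.2) le_rfl
      _ = ∫⁻ z, ENNReal.ofReal (nw C z ^ 2) ∂(mz C 1) := by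
          refine lintegral_congr fun z => ?_
          rw [ENNReal.ofReal_pow]
          exact norm_nonneg _
      _ ≤ ENNReal.ofReal C1 := (hnw C).2.2
  calc ∫⁻ z, (∫⁻ x in Bl, ‖uv C A ev z x‖ₑ * g (yy x)) ∂(mz C t) ≤
      ∫⁻ z, (ENNReal.ofReal K' * I ^ (1 / 2 : ℝ)) * ENNReal.ofReal (nw C z) ∂(mz C t) :=
        lintegral_mono h1
    _ = (ENNReal.ofReal K' * I ^ (1 / 2 : ℝ)) * ∫⁻ z, ENNReal.ofReal (nw C z) ∂(mz C t) := by
        rw [lintegral_const_mul _ (by fun_prop)]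
    _ ≤ (ENNReal.ofReal K' * I ^ (1 / 2 : ℝ)) *
        (ENNReal.ofReal C1 ^ (1 / 2 : ℝ) * ENNReal.ofReal t ^ (1 / 2 : ℝ)) := by
        gcongr
    _ = (ENNReal.ofReal (K' ^ 2 * C1 * t) * I) ^ (1 / 2 : ℝ) := by
        rw [ENNReal.mul_rpow_of_nonneg _ _ (by norm_num), ENNReal.ofReal_mul (by positivity),
          ENNReal.mul_rpow_of_nonneg _ _ (by norm_num), ENNReal.ofReal_mul (by positivity),
          ENNReal.mul_rpow_of_nonneg _ _ (by norm_num)]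
        have h5 : ENNReal.ofReal (K' ^ 2) ^ (1 / 2 : ℝ) = ENNReal.ofReal K' := by
          rw [ENNReal.ofReal_rpow_of_nonneg (by positivity) (by norm_num), ← Real.sqrt_eq_rpow,
            Real.sqrt_sq hK'.le]
        rw [h5]
        ring

end Pool.Agent.W_332fe5
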