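import Pool.Agent.W_332fe5_h65.L1
import Pool.Agent.W_332fe5_h65.L3
import Pool.Agent.W_332fe5_h65.W2

set_option autoImplicit false

/-! Block 5, L4: removing the cutoff at the wall, for fixed `u`. -/

open MeasureTheory ProbabilityTheory Set Filter Topology
open scoped ENNReal NNReal ContDiff

namespace Pool.Agent.W_332fe5

/-- The functional with the cutoff of the good and bad terms. -/
noncomputable def QU (r : ℝ) (j H G : ℝ → ℝ) (u : E3 → E3) : ℝ :=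
  ∫ x in Bl, j (gam u x) * (G (yy x) * cut r (yy x) + |deriv H (yy x)| * ‖u x‖)

/-- The limit functional. -/
noncomputable def QL (j H G : ℝ → ℝ) (u : E3 → E3) : ℝ :=
  ∫ x in Bl, j (gam u x) * (G (yy x) + |deriv H (yy x)| * ‖u x‖)

theorem l4_Bl_meas : MeasurableSet Bl := Metric.isOpen_ball.measurableSet

theorem l4_j_le {j : ℝ → ℝ} {Kj : ℝ} (hj : Ent j Kj) (s : ℝ) : j s ≤ Kj * |s| := by
  have h1 : Differentiable ℝ j := hj.smooth.differentiable (by norm_num)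
  have h2 := Convex.norm_image_sub_le_of_norm_deriv_le (f := j) (s := Set.univ) (x := 0) (y := s)
    (C := Kj) (fun x _ => h1 x) (fun x _ => by rw [Real.norm_eq_abs]; exact hj.d1 x) convex_univ
    (mem_univ _) (mem_univ _)
  rw [hj.zero, sub_zero, sub_zero, Real.norm_eq_abs, Real.norm_eq_abs] at h2
  exact (le_abs_self _).trans h2

theorem l4_K_nonneg {j : ℝ → ℝ} {Kj : ℝ} (hj : Ent j Kj) : 0 ≤ Kj :=
  (abs_nonneg _).trans (hj.d1 0)

theorem l4_mm_norm (x : E3) : ‖mm x‖ ≤ ‖x‖ := by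
  have h : ‖mm x‖ ^ 2 ≤ ‖x‖ ^ 2 := by
    rw [EuclideanSpace.norm_sq_eq, EuclideanSpace.norm_sq_eq, Fin.sum_univ_three,
      Fin.sum_univ_three]
    simp only [mm, Real.norm_eq_abs, sq_abs]
    simp
    nlinarith [sq_nonneg (x 2)]
  exact le_of_sq_le_sq h (norm_nonneg _)

theorem l4_gam_le (u : E3 → E3) {x : E3} (hx : x ∈ Bl) : |gam u x| ≤ ‖u x‖ := by
  unfold gam
  have h1 : ‖x‖ < 1 := by simpa [Bl] using hx
  calc |inner ℝ (u x) (mm x)| ≤ ‖u x‖ * ‖mm x‖ := abs_real_inner_le_norm _ _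
    _ ≤ ‖u x‖ * 1 := by
      gcongr
      exact (l4_mm_norm x).trans h1.le
    _ = ‖u x‖ := mul_one _

theorem l4_jgam_le {j : ℝ → ℝ} {Kj : ℝ} (hj : Ent j Kj) (u : E3 → E3) {x : E3} (hx : x ∈ Bl) :
    j (gam u x) ≤ Kj * ‖u x‖ :=
  (l4_j_le hj _).trans (mul_le_mul_of_nonneg_left (l4_gam_le u hx) (l4_K_nonneg hj))

theorem l4_mm_cont : Continuous mm := by
  unfold mm
  fun_prop

theorem l4_gam_meas {u : E3 → E3} {N : ℝ} (hu : Fld u N) : Measurable (gam u) := by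
  unfold gam
  exact (hu.meas.measurable.inner l4_mm_cont.measurable)

theorem l4_jgam_meas {j : ℝ → ℝ} {Kj : ℝ} (hj : Ent j Kj) {u : E3 → E3} {N : ℝ} (hu : Fld u N) :
    Measurable fun x => j (gam u x) :=
  hj.smooth.continuous.measurable.comp (l4_gam_meas hu)

theorem l4_int {j : ℝ → ℝ} {Kj : ℝ} (hj : Ent j Kj) {u : E3 → E3} {N : ℝ} (hu : Fld u N)
    {g1 g2 : ℝ → ℝ} (m1 : Measurable g1) (m2 : Measurable g2)
    (h1 : ∀ y, 0 < y → y ≤ 1 / 2 → 0 ≤ g1 y) (h2 : ∀ y, 0 < y → y ≤ 1 / 2 → 0 ≤ g2 y)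
    {B1 B2 : ℝ} (hB1 : 0 ≤ B1) (hB2 : 0 ≤ B2)
    (hb1 : ∫⁻ x in Bl, ‖u x‖ₑ * ENNReal.ofReal (g1 (yy x)) ≤ ENNReal.ofReal B1)
    (hb2 : ∫⁻ x in Bl, ‖u x‖ₑ ^ 2 * ENNReal.ofReal (g2 (yy x)) ≤ ENNReal.ofReal B2) :
    IntegrableOn (fun x => j (gam u x) * (g1 (yy x) + g2 (yy x) * ‖u x‖)) Bl ∧
    ∫ x in Bl, j (gam u x) * (g1 (yy x) + g2 (yy x) * ‖u x‖) ≤ Kj * (B1 + B2) := by
  have hK := l4_K_nonneg hj
  have hmeas : Measurable fun x => j (gam u x) * (g1 (yy x) + g2 (yy x) * ‖u x‖) :=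
    (l4_jgam_meas hj hu).mul ((m1.comp yy_meas).add ((m2.comp yy_meas).mul hu.meas.measurable.norm))
  have hnn : ∀ x ∈ Bl, 0 ≤ j (gam u x) * (g1 (yy x) + g2 (yy x) * ‖u x‖) := fun x hx =>
    mul_nonneg (hj.nonneg _) (add_nonneg (h1 _ (yy_pos hx) (yy_le x))
      (mul_nonneg (h2 _ (yy_pos hx) (yy_le x)) (norm_nonneg _)))
  have hnn' : 0 ≤ᵐ[volume.restrict Bl] fun x =>
      j (gam u x) * (g1 (yy x) + g2 (yy x) * ‖u x‖) := by
    filter_upwards [ae_restrict_mem l4_Bl_meas] with x hx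
    exact hnn x hx
  have hle : ∫⁻ x in Bl, ENNReal.ofReal (j (gam u x) * (g1 (yy x) + g2 (yy x) * ‖u x‖)) ≤
      ENNReal.ofReal (Kj * (B1 + B2)) := by
    calc ∫⁻ x in Bl, ENNReal.ofReal (j (gam u x) * (g1 (yy x) + g2 (yy x) * ‖u x‖))
        ≤ ∫⁻ x in Bl, ENNReal.ofReal Kj * (‖u x‖ₑ * ENNReal.ofReal (g1 (yy x)) +
            ‖u x‖ₑ ^ 2 * ENNReal.ofReal (g2 (yy x))) := by
          refine setLIntegral_mono' l4_Bl_meas fun x hx => ?_
          have a1 := h1 _ (yy_pos hx) (yy_le x)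
          have a2 := h2 _ (yy_pos hx) (yy_le x)
          rw [← ofReal_norm, ← ENNReal.ofReal_pow (norm_nonneg _),
            ← ENNReal.ofReal_mul (norm_nonneg _), ← ENNReal.ofReal_mul (by positivity),
            ← ENNReal.ofReal_add (by positivity) (by positivity), ← ENNReal.ofReal_mul hK]
          apply ENNReal.ofReal_le_ofReal
          calc j (gam u x) * (g1 (yy x) + g2 (yy x) * ‖u x‖)
              ≤ (Kj * ‖u x‖) * (g1 (yy x) + g2 (yy x) * ‖u x‖) := by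
                gcongr
                exact l4_jgam_le hj u hx
            _ = Kj * (‖u x‖ * g1 (yy x) + ‖u x‖ ^ 2 * g2 (yy x)) := by ring
      _ = ENNReal.ofReal Kj * ((∫⁻ x in Bl, ‖u x‖ₑ * ENNReal.ofReal (g1 (yy x))) +
            ∫⁻ x in Bl, ‖u x‖ₑ ^ 2 * ENNReal.ofReal (g2 (yy x))) := by
          have mu1 : Measurable fun x => ‖u x‖ₑ * ENNReal.ofReal (g1 (yy x)) :=
            hu.meas.measurable.enorm.mul (m1.comp yy_meas).ennreal_ofReal
          have mu2 : Measurable fun x => ‖u x‖ₑ ^ 2 * ENNReal.ofReal (g2 (yy x)) :=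
            (hu.meas.measurable.enorm.pow_const 2).mul (m2.comp yy_meas).ennreal_ofReal
          have mu12 : Measurable fun x => ‖u x‖ₑ * ENNReal.ofReal (g1 (yy x)) +
              ‖u x‖ₑ ^ 2 * ENNReal.ofReal (g2 (yy x)) := mu1.add mu2
          rw [lintegral_const_mul _ mu12, lintegral_add_left mu1]
      _ ≤ ENNReal.ofReal Kj * (ENNReal.ofReal B1 + ENNReal.ofReal B2) := by gcongr
      _ = ENNReal.ofReal (Kj * (B1 + B2)) := by
          rw [← ENNReal.ofReal_add hB1 hB2, ← ENNReal.ofReal_mul hK]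
  have hint : IntegrableOn (fun x => j (gam u x) * (g1 (yy x) + g2 (yy x) * ‖u x‖)) Bl := by
    refine ⟨hmeas.aestronglyMeasurable, ?_⟩
    rw [hasFiniteIntegral_iff_ofReal hnn']
    exact hle.trans_lt ENNReal.ofReal_lt_top
  refine ⟨hint, ?_⟩
  rw [integral_eq_lintegral_of_nonneg_ae hnn' hmeas.aestronglyMeasurable]
  exact ENNReal.toReal_le_of_le_ofReal (mul_nonneg hK (add_nonneg hB1 hB2)) hle

theorem l4_cs {u : E3 → E3} {N : ℝ} (hu : Fld u N) {g : ℝ → ℝ} (hg : Measurable g)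
    (h0 : ∀ y, 0 < y → y ≤ 1 / 2 → 0 ≤ g y) {S : ℝ} (hS : 0 ≤ S)
    (h : ∫⁻ x in Bl, ENNReal.ofReal (g (yy x) ^ 2 * yy x ^ (3 / 2 : ℝ)) ≤ ENNReal.ofReal S) :
    ∫⁻ x in Bl, ‖u x‖ₑ * ENNReal.ofReal (g (yy x)) ≤ ENNReal.ofReal (N * S ^ (1 / 2 : ℝ)) := by
  refine (fld_cs hu hg.ennreal_ofReal).trans ?_
  have h1 : ∫⁻ x in Bl, ENNReal.ofReal (g (yy x)) ^ 2 * ENNReal.ofReal (yy x ^ (3 / 2 : ℝ)) =
      ∫⁻ x in Bl, ENNReal.ofReal (g (yy x) ^ 2 * yy x ^ (3 / 2 : ℝ)) := by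
    refine setLIntegral_congr_fun l4_Bl_meas fun x hx => ?_
    have := h0 _ (yy_pos hx) (yy_le x)
    rw [← ENNReal.ofReal_pow this, ← ENNReal.ofReal_mul (by positivity)]
  rw [h1, ENNReal.ofReal_mul hu.nonneg]
  gcongr
  rw [← ENNReal.ofReal_rpow_of_nonneg hS (by norm_num)]
  gcongr

theorem l4_cut_meas (r : ℝ) : Measurable (cut r) := by
  unfold cut
  have h1 : Continuous Real.smoothTransition := Real.smoothTransition.continuous
  have : Continuous fun y : ℝ => (1 - Real.exp (-y / r)) * Real.smoothTransition (y / r ^ 8 - 1) := by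
    fun_prop
  exact this.measurable

theorem l4_QU_pt {j : ℝ → ℝ} {Kj : ℝ} (hj : Ent j Kj) {H G : ℝ → ℝ} {r : ℝ} (hr : 0 < r)
    {u : E3 → E3} {x : E3} (hx : x ∈ Bl) :
    ‖j (gam u x) * (G (yy x) * cut r (yy x) + |deriv H (yy x)| * ‖u x‖)‖ ≤
      j (gam u x) * (|G (yy x)| + |deriv H (yy x)| * ‖u x‖) := by
  have hy := yy_pos hx
  rw [Real.norm_eq_abs, abs_mul, abs_of_nonneg (hj.nonneg _)]
  refine mul_le_mul_of_nonneg_left ?_ (hj.nonneg _)
  refine (abs_add_le _ _).trans ?_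
  rw [abs_mul, abs_mul, abs_abs, abs_norm, abs_of_nonneg (cut_nonneg hr hy)]
  gcongr
  exact mul_le_of_le_one_right (abs_nonneg _) (cut_le_one hr hy)

/-- PROOF: `|j(Γ) G| ≤ K c |u| y^(-6/5)`, `fld_cs` with `∫ y^(3/2 - 12/5) < ∞` (`lint_pow`);
`|j(Γ) H' u| ≤ K c |u|² y^(-1/5)`, `fld_sup` (`y^(-1/5) ≤ y^(-3/2)`). -/
theorem QU_bound {j : ℝ → ℝ} {Kj : ℝ} (hj : Ent j Kj) {H G : ℝ → ℝ} {c : ℝ} (hH : HG H G c) :
    ∃ L : ℝ, 0 ≤ L ∧ ∀ r : ℝ, 0 < r → ∀ (u : E3 → E3) (N : ℝ), Fld u N →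
      IntegrableOn (fun x => j (gam u x) * (|G (yy x)| + |deriv H (yy x)| * ‖u x‖)) Bl ∧
      |QU r j H G u| ≤ L * (1 + N ^ 2) ∧ |QL j H G u| ≤ L * (1 + N ^ 2) := by
  obtain ⟨c1, hc1, hp⟩ := lint_pow (a := -(9 / 10)) (by norm_num)
  have hK := l4_K_nonneg hj
  have hc := hH.cpos
  set S : ℝ := c ^ 2 * (c1 * (1 / 2) ^ (-(9 / 10) + 1 : ℝ)) with hSdef
  have hS : 0 ≤ S := by positivity
  refine ⟨Kj * (S ^ (1 / 2 : ℝ) + c), by positivity, fun r hr u N hu => ?_⟩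
  have hN := hu.nonneg
  have hb1 : ∫⁻ x in Bl, ‖u x‖ₑ * ENNReal.ofReal |G (yy x)| ≤
      ENNReal.ofReal (N * S ^ (1 / 2 : ℝ)) := by
    refine l4_cs hu (g := fun y => |G y|) hH.meas.abs (fun y _ _ => abs_nonneg _) hS ?_
    calc ∫⁻ x in Bl, ENNReal.ofReal (|G (yy x)| ^ 2 * yy x ^ (3 / 2 : ℝ))
        ≤ ∫⁻ x in Bl, ENNReal.ofReal (c ^ 2) * (if yy x ≤ 1 / 2 then
            ENNReal.ofReal (yy x ^ (-(9 / 10) : ℝ)) else 0) := by
          refine setLIntegral_mono' l4_Bl_meas fun x hx => ?_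
          have hy := yy_pos hx
          have hy2 := yy_le x
          rw [if_pos hy2, ← ENNReal.ofReal_mul (by positivity)]
          apply ENNReal.ofReal_le_ofReal
          calc |G (yy x)| ^ 2 * yy x ^ (3 / 2 : ℝ)
              ≤ (c * yy x ^ (-(6 / 5) : ℝ)) ^ 2 * yy x ^ (3 / 2 : ℝ) := by
                gcongr
                exact hH.gd _ hy hy2
            _ = c ^ 2 * yy x ^ (-(9 / 10) : ℝ) := by
                rw [mul_pow, ← Real.rpow_natCast (yy x ^ (-(6 / 5) : ℝ)), ← Real.rpow_mul hy.le,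
                  mul_assoc, ← Real.rpow_add hy]
                norm_num
      _ = ENNReal.ofReal (c ^ 2) * ∫⁻ x in Bl, (if yy x ≤ 1 / 2 then
            ENNReal.ofReal (yy x ^ (-(9 / 10) : ℝ)) else 0) := by
          refine lintegral_const_mul _ ?_
          exact Measurable.ite (measurableSet_le yy_meas measurable_const)
            (yy_meas.pow_const _).ennreal_ofReal measurable_const
      _ ≤ ENNReal.ofReal (c ^ 2) * ENNReal.ofReal (c1 * (1 / 2) ^ (-(9 / 10) + 1 : ℝ)) := by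
          gcongr
          exact hp (1 / 2) (by norm_num)
      _ = ENNReal.ofReal S := by rw [← ENNReal.ofReal_mul (by positivity)]
  have hb2 : ∫⁻ x in Bl, ‖u x‖ₑ ^ 2 * ENNReal.ofReal |deriv H (yy x)| ≤
      ENNReal.ofReal (c * N ^ 2) := by
    refine fld_sup hu (g := fun y => ENNReal.ofReal |deriv H y|) hc fun y hy hy2 => ?_
    apply ENNReal.ofReal_le_ofReal
    refine (hH.d1 y hy hy2).trans (mul_le_mul_of_nonneg_left ?_ hc)
    exact Real.rpow_le_rpow_of_exponent_ge hy (by linarith) (by norm_num)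
  obtain ⟨hi, hle⟩ := l4_int hj hu hH.meas.abs (measurable_deriv H).abs
    (fun y _ _ => abs_nonneg _) (fun y _ _ => abs_nonneg _) (by positivity) (by positivity) hb1 hb2
  have hle2 : Kj * (N * S ^ (1 / 2 : ℝ) + c * N ^ 2) ≤
      Kj * (S ^ (1 / 2 : ℝ) + c) * (1 + N ^ 2) := by
    rw [mul_assoc]
    refine mul_le_mul_of_nonneg_left ?_ hK
    have hs2 : 0 ≤ S ^ (1 / 2 : ℝ) := by positivity
    nlinarith [mul_nonneg hs2 (sq_nonneg (N - 1)), mul_nonneg hs2 (sq_nonneg N), mul_nonneg hs2 hN]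
  refine ⟨hi, ?_, ?_⟩
  · refine le_trans ?_ (hle.trans hle2)
    unfold QU
    rw [← Real.norm_eq_abs]
    refine norm_integral_le_of_norm_le hi ?_
    filter_upwards [ae_restrict_mem l4_Bl_meas] with x hx
    exact l4_QU_pt hj hr hx
  · refine le_trans ?_ (hle.trans hle2)
    unfold QL
    rw [← Real.norm_eq_abs]
    refine norm_integral_le_of_norm_le hi ?_
    filter_upwards [ae_restrict_mem l4_Bl_meas] with x hx
    rw [Real.norm_eq_abs, abs_mul, abs_of_nonneg (hj.nonneg _)]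
    refine mul_le_mul_of_nonneg_left ?_ (hj.nonneg _)
    refine (abs_add_le _ _).trans ?_
    rw [abs_mul, abs_abs, abs_norm]

/-- PROOF: dominated convergence, `cut_lim`. -/
theorem QU_lim {j : ℝ → ℝ} {Kj : ℝ} (hj : Ent j Kj) {H G : ℝ → ℝ} {c : ℝ} (hH : HG H G c)
    {u : E3 → E3} {N : ℝ} (hu : Fld u N) :
    Tendsto (fun n : ℕ => QU (1 / ((n : ℝ) + 2)) j H G u) atTop (𝓝 (QL j H G u)) := by
  obtain ⟨L, hL, hb⟩ := QU_bound hj hH
  have hi := (hb 1 one_pos u N hu).1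
  unfold QU QL
  refine tendsto_integral_of_dominated_convergence
    (fun x => j (gam u x) * (|G (yy x)| + |deriv H (yy x)| * ‖u x‖)) (fun n => ?_) hi
    (fun n => ?_) ?_
  · have m1 : Measurable fun x => j (gam u x) * (G (yy x) * cut (1 / ((n : ℝ) + 2)) (yy x) +
        |deriv H (yy x)| * ‖u x‖) :=
      (l4_jgam_meas hj hu).mul (((hH.meas.comp yy_meas).mul ((l4_cut_meas _).comp yy_meas)).add
        (((measurable_deriv H).abs.comp yy_meas).mul hu.meas.measurable.norm))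
    exact m1.aestronglyMeasurable
  · filter_upwards [ae_restrict_mem l4_Bl_meas] with x hx
    exact l4_QU_pt hj (by positivity) hx
  · filter_upwards [ae_restrict_mem l4_Bl_meas] with x hx
    refine Tendsto.const_mul _ (Tendsto.add ?_ tendsto_const_nhds)
    have := (cut_lim (yy_pos hx)).const_mul (G (yy x))
    rwa [mul_one] at this

theorem l4_RF_bound {f : ℝ → ℝ} (hf : RF f) : ∃ C : ℝ, 0 ≤ C ∧ ∀ y : ℝ, 0 < y → y ≤ 1 / 2 →
    |deriv f y| ≤ C ∧ |iteratedDeriv 2 f y| ≤ C := by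
  have c1 : Continuous (deriv f) := hf.smooth.continuous_deriv (by simp)
  have c2 : Continuous (iteratedDeriv 2 f) := hf.smooth.continuous_iteratedDeriv 2 (by norm_cast)
  obtain ⟨C1, h1⟩ := (isCompact_Icc (a := (0 : ℝ)) (b := 1 / 2)).exists_bound_of_continuousOn
    c1.continuousOn
  obtain ⟨C2, h2⟩ := (isCompact_Icc (a := (0 : ℝ)) (b := 1 / 2)).exists_bound_of_continuousOn
    c2.continuousOn
  refine ⟨max (max C1 C2) 0, le_max_right _ _, fun y h0 hy => ⟨?_, ?_⟩⟩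
  · exact (h1 y ⟨h0.le, hy⟩).trans ((le_max_left _ _).trans (le_max_left _ _))
  · exact (h2 y ⟨h0.le, hy⟩).trans ((le_max_right _ _).trans (le_max_left _ _))

/-- The integrand of `GR` is integrable. -/
theorem l4_GR_int {j : ℝ → ℝ} {Kj : ℝ} (hj : Ent j Kj) {f : ℝ → ℝ} (hf : RF f) {u : E3 → E3}
    {N : ℝ} (hu : Fld u N) :
    IntegrableOn (fun x => j (gam u x) * ((1 - 2 * yy x) * iteratedDeriv 2 f (yy x) -
      5 * deriv f (yy x) - deriv f (yy x) * inner ℝ x (u x))) Bl := by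
  obtain ⟨C, hC, hb⟩ := l4_RF_bound hf
  obtain ⟨c1, hc1, hp⟩ := lint_pow (a := 3 / 2) (by norm_num)
  have hN := hu.nonneg
  set S : ℝ := (6 * C) ^ 2 * (c1 * (1 / 2) ^ (3 / 2 + 1 : ℝ)) with hSdef
  have hS : 0 ≤ S := by positivity
  have hb1 : ∫⁻ x in Bl, ‖u x‖ₑ * ENNReal.ofReal ((fun _ : ℝ => 6 * C) (yy x)) ≤
      ENNReal.ofReal (N * S ^ (1 / 2 : ℝ)) := by
    refine l4_cs hu (g := fun y => 6 * C) measurable_const (fun y _ _ => by positivity) hS ?_
    calc ∫⁻ x in Bl, ENNReal.ofReal ((6 * C) ^ 2 * yy x ^ (3 / 2 : ℝ))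
        ≤ ∫⁻ x in Bl, ENNReal.ofReal ((6 * C) ^ 2) * (if yy x ≤ 1 / 2 then
            ENNReal.ofReal (yy x ^ (3 / 2 : ℝ)) else 0) := by
          refine setLIntegral_mono' l4_Bl_meas fun x hx => ?_
          rw [if_pos (yy_le x), ← ENNReal.ofReal_mul (by positivity)]
      _ = ENNReal.ofReal ((6 * C) ^ 2) * ∫⁻ x in Bl, (if yy x ≤ 1 / 2 then
            ENNReal.ofReal (yy x ^ (3 / 2 : ℝ)) else 0) := by
          refine lintegral_const_mul _ ?_
          exact Measurable.ite (measurableSet_le yy_meas measurable_const)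
            (yy_meas.pow_const _).ennreal_ofReal measurable_const
      _ ≤ ENNReal.ofReal ((6 * C) ^ 2) * ENNReal.ofReal (c1 * (1 / 2) ^ (3 / 2 + 1 : ℝ)) := by
          gcongr
          exact hp (1 / 2) (by norm_num)
      _ = ENNReal.ofReal S := by rw [← ENNReal.ofReal_mul (by positivity)]
  have hb2 : ∫⁻ x in Bl, ‖u x‖ₑ ^ 2 * ENNReal.ofReal ((fun _ : ℝ => C) (yy x)) ≤
      ENNReal.ofReal (C * N ^ 2) := by
    refine fld_sup hu (g := fun y => ENNReal.ofReal C) hC fun y hy hy2 => ?_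
    apply ENNReal.ofReal_le_ofReal
    refine le_mul_of_one_le_right hC ?_
    exact Real.one_le_rpow_of_pos_of_le_one_of_nonpos hy (by linarith) (by norm_num)
  obtain ⟨hi, -⟩ := l4_int hj hu (g1 := fun _ => 6 * C) (g2 := fun _ => C) measurable_const
    measurable_const (fun y _ _ => by positivity) (fun y _ _ => hC) (by positivity)
    (by positivity) hb1 hb2
  refine Integrable.mono' hi ?_ ?_
  · have c1 : Continuous (deriv f) := hf.smooth.continuous_deriv (by simp)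
    have c2 : Continuous (iteratedDeriv 2 f) := hf.smooth.continuous_iteratedDeriv 2 (by norm_cast)
    have m1 : Measurable fun x => j (gam u x) * ((1 - 2 * yy x) * iteratedDeriv 2 f (yy x) -
        5 * deriv f (yy x) - deriv f (yy x) * inner ℝ x (u x)) :=
      (l4_jgam_meas hj hu).mul (((((yy_meas.const_mul 2).const_sub 1).mul
        (c2.measurable.comp yy_meas)).sub ((c1.measurable.comp yy_meas).const_mul 5)).sub
        ((c1.measurable.comp yy_meas).mul (measurable_id.inner hu.meas.measurable)))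
    exact m1.aestronglyMeasurable
  · filter_upwards [ae_restrict_mem l4_Bl_meas] with x hx
    have hy := yy_pos hx
    have hy2 := yy_le x
    obtain ⟨a1, a2⟩ := hb _ hy hy2
    have hx1 : ‖x‖ ≤ 1 := by
      have : ‖x‖ < 1 := by simpa [Bl] using hx
      exact this.le
    have a3 : |inner ℝ x (u x)| ≤ ‖u x‖ := by
      refine (abs_real_inner_le_norm _ _).trans ?_
      exact mul_le_of_le_one_left (norm_nonneg _) hx1
    rw [Real.norm_eq_abs, abs_mul, abs_of_nonneg (hj.nonneg _)]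
    refine mul_le_mul_of_nonneg_left ?_ (hj.nonneg _)
    have b1 : |(1 - 2 * yy x) * iteratedDeriv 2 f (yy x)| ≤ C := by
      rw [abs_mul, abs_of_nonneg (by linarith)]
      calc (1 - 2 * yy x) * |iteratedDeriv 2 f (yy x)| ≤ 1 * C := by
            gcongr
            linarith
        _ = C := one_mul _
    have b2 : |5 * deriv f (yy x)| ≤ 5 * C := by
      rw [abs_mul, abs_of_pos (by norm_num : (0 : ℝ) < 5)]
      gcongr
    have b3 : |deriv f (yy x) * inner ℝ x (u x)| ≤ C * ‖u x‖ := by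
      rw [abs_mul]
      gcongr
    calc |(1 - 2 * yy x) * iteratedDeriv 2 f (yy x) - 5 * deriv f (yy x) -
          deriv f (yy x) * inner ℝ x (u x)|
        ≤ |(1 - 2 * yy x) * iteratedDeriv 2 f (yy x)| + |5 * deriv f (yy x)| +
          |deriv f (yy x) * inner ℝ x (u x)| :=
          (abs_sub _ _).trans (add_le_add_left (abs_sub _ _) _)
      _ ≤ C + 5 * C + C * ‖u x‖ := by gcongr
      _ = 6 * C + C * ‖u x‖ := by ring

theorem l4_add {u : E3 → E3} {N : ℝ} (hu : Fld u N) {g g' : ℝ → ℝ} (m : Measurable g)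
    (h0 : ∀ y, 0 < y → y ≤ 1 / 2 → 0 ≤ g y)
    (h0' : ∀ y, 0 < y → y ≤ 1 / 2 → 0 ≤ g' y) {A A' L : ℝ} (hA : 0 ≤ A) (hA' : 0 ≤ A') (hL : 0 ≤ L)
    (h : ∫⁻ x in Bl, ‖u x‖ₑ * ENNReal.ofReal (g (yy x)) ≤ ENNReal.ofReal A)
    (h' : ∫⁻ x in Bl, ‖u x‖ₑ * ENNReal.ofReal (g' (yy x)) ≤ ENNReal.ofReal A') :
    ∫⁻ x in Bl, ‖u x‖ₑ * ENNReal.ofReal (L * (g (yy x) + g' (yy x))) ≤
      ENNReal.ofReal (L * (A + A')) := by
  have m1 : Measurable fun x => ‖u x‖ₑ * ENNReal.ofReal (g (yy x)) :=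
    hu.meas.measurable.enorm.mul (m.comp yy_meas).ennreal_ofReal
  calc ∫⁻ x in Bl, ‖u x‖ₑ * ENNReal.ofReal (L * (g (yy x) + g' (yy x)))
      = ∫⁻ x in Bl, ENNReal.ofReal L * (‖u x‖ₑ * ENNReal.ofReal (g (yy x)) +
          ‖u x‖ₑ * ENNReal.ofReal (g' (yy x))) := by
        refine setLIntegral_congr_fun l4_Bl_meas fun x hx => ?_
        have a1 := h0 _ (yy_pos hx) (yy_le x)
        have a2 := h0' _ (yy_pos hx) (yy_le x)
        rw [ENNReal.ofReal_mul hL, ENNReal.ofReal_add a1 a2]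
        ring
    _ = ENNReal.ofReal L * ((∫⁻ x in Bl, ‖u x‖ₑ * ENNReal.ofReal (g (yy x))) +
          ∫⁻ x in Bl, ‖u x‖ₑ * ENNReal.ofReal (g' (yy x))) := by
        rw [lintegral_const_mul' _ _ ENNReal.ofReal_ne_top, lintegral_add_left m1]
    _ ≤ ENNReal.ofReal L * (ENNReal.ofReal A + ENNReal.ofReal A') := by gcongr
    _ = ENNReal.ofReal (L * (A + A')) := by
        rw [← ENNReal.ofReal_add hA hA', ← ENNReal.ofReal_mul hL]

theorem l4_exp_bound {t : ℝ} (ht : 0 < t) : t ^ (3 / 2 : ℝ) * Real.exp (-t) ≤ 3 := by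
  have h1 : t ^ (3 / 2 : ℝ) ≤ 1 + t ^ 2 := by
    rcases le_total t 1 with h | h
    · have := Real.rpow_le_one ht.le h (by norm_num : (0 : ℝ) ≤ 3 / 2)
      nlinarith [sq_nonneg t]
    · have : t ^ (3 / 2 : ℝ) ≤ t ^ (2 : ℝ) := Real.rpow_le_rpow_of_exponent_le h (by norm_num)
      rw [Real.rpow_two] at this
      linarith
  have h2 := Real.quadratic_le_exp_of_nonneg ht.le
  have h3 : 1 + t ^ 2 ≤ 3 * Real.exp t := by nlinarith
  calc t ^ (3 / 2 : ℝ) * Real.exp (-t) ≤ (3 * Real.exp t) * Real.exp (-t) := by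
        gcongr
        exact h1.trans h3
    _ = 3 := by rw [mul_assoc, ← Real.exp_add]; simp

/-- PROOF: `fr_calc` pointwise (`- f' x · u ≤ |f'| |u|`, `j ≥ 0`); errors: `j(Γ) ≤ K |u|`,
`∫ |u| y^(-1/5) r⁻¹ e^(-y/r) ≤ N (c r^(-2 + 11/10 + 1))^(1/2) = c' N r^(1/20)` (`fld_cs`, `lint_exp`),
`∫_{y ≤ 2 r⁸} |u| / (r y) ≤ c N r⁻¹ (r⁸)^(1/4) = c N r` (`fld_cs`, `lint_pow`),
`∫ |u|² r⁻¹ e^(-y/r) ≤ c N² r^(1/2)` (`fld_sup`: `y^(3/2) e^(-y/r) ≤ c r^(3/2)`),
`∫_{y ≤ 2 r⁸} |u|² / r ≤ c N² r^11` (`fld_sup`). -/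
theorem GR_fr_le {j : ℝ → ℝ} {Kj : ℝ} (hj : Ent j Kj) {H G : ℝ → ℝ} {c : ℝ} (hH : HG H G c) :
    ∃ L : ℝ, 0 ≤ L ∧ ∀ r : ℝ, 0 < r → r ≤ 1 / 2 → ∀ (u : E3 → E3) (N : ℝ), Fld u N →
      GR j (fr r H) u ≤ QU r j H G u + L * r ^ (1 / 20 : ℝ) * (1 + N ^ 2) := by
  obtain ⟨L, hL, hcalc⟩ := fr_calc hH
  obtain ⟨c1, hc1, he⟩ := lint_exp (a := 11 / 10) (by norm_num)
  obtain ⟨c2, hc2, hp⟩ := lint_pow (a := -(1 / 2)) (by norm_num)
  obtain ⟨L0, hL0, hQ⟩ := QU_bound hj hH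
  have hK := l4_K_nonneg hj
  refine ⟨Kj * (L * (c1 ^ (1 / 2 : ℝ) + (2 * c2) ^ (1 / 2 : ℝ)) + L * 6), by positivity,
    fun r hr hr2 u N hu => ?_⟩
  have hN := hu.nonneg
  have hr1 : r ≤ 1 := by linarith
  -- the four error terms
  set ga : ℝ → ℝ := fun y => y ^ (-(1 / 5) : ℝ) * r⁻¹ * Real.exp (-y / r) with hga
  set gb : ℝ → ℝ := fun y => if y ≤ 2 * r ^ 8 then 1 / (r * y) else 0 with hgb
  set gc : ℝ → ℝ := fun y => L * (r⁻¹ * Real.exp (-y / r) + if y ≤ 2 * r ^ 8 then r⁻¹ else 0)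
    with hgc
  have ma : Measurable ga := by
    rw [hga]
    exact ((measurable_id.pow_const _).mul_const _).mul
      (Real.measurable_exp.comp (measurable_id.neg.div_const r))
  have mb : Measurable gb := by
    rw [hgb]
    exact Measurable.ite (measurableSet_le measurable_id measurable_const)
      (measurable_const.div (measurable_id.const_mul r)) measurable_const
  have mc : Measurable gc := by
    rw [hgc]
    exact (((Real.measurable_exp.comp (measurable_id.neg.div_const r)).const_mul _).add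
      (Measurable.ite (measurableSet_le measurable_id measurable_const) measurable_const
        measurable_const)).const_mul _
  have na : ∀ y, 0 < y → y ≤ 1 / 2 → 0 ≤ ga y := fun y hy _ => by
    rw [hga]; positivity
  have nb : ∀ y, 0 < y → y ≤ 1 / 2 → 0 ≤ gb y := fun y hy _ => by
    rw [hgb]; dsimp only; split_ifs <;> positivity
  have nc : ∀ y, 0 < y → y ≤ 1 / 2 → 0 ≤ gc y := fun y hy _ => by
    rw [hgc]; dsimp only; split_ifs <;> positivity
  have ea : ∫⁻ x in Bl, ‖u x‖ₑ * ENNReal.ofReal (ga (yy x)) ≤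
      ENNReal.ofReal (N * (c1 ^ (1 / 2 : ℝ) * r ^ (1 / 20 : ℝ))) := by
    have hS : 0 ≤ r⁻¹ ^ 2 * (c1 * (r / 2) ^ (11 / 10 + 1 : ℝ)) := by positivity
    refine (l4_cs hu ma na hS ?_).trans ?_
    · calc ∫⁻ x in Bl, ENNReal.ofReal (ga (yy x) ^ 2 * yy x ^ (3 / 2 : ℝ))
          = ∫⁻ x in Bl, ENNReal.ofReal (r⁻¹ ^ 2) *
              ENNReal.ofReal (yy x ^ (11 / 10 : ℝ) * Real.exp (-yy x / (r / 2))) := by
            refine setLIntegral_congr_fun l4_Bl_meas fun x hx => ?_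
            have hy := yy_pos hx
            rw [← ENNReal.ofReal_mul (by positivity)]
            congr 1
            rw [hga]
            dsimp only
            rw [mul_pow, mul_pow, ← Real.rpow_natCast (yy x ^ (-(1 / 5) : ℝ)),
              ← Real.rpow_mul hy.le, ← Real.exp_nat_mul]
            have e1 : yy x ^ (11 / 10 : ℝ) = yy x ^ (-(1 / 5) * ((2 : ℕ) : ℝ)) *
                yy x ^ (3 / 2 : ℝ) := by
              rw [← Real.rpow_add hy]; norm_num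
            have e2 : ((2 : ℕ) : ℝ) * (-yy x / r) = -yy x / (r / 2) := by
              push_cast; field_simp
            rw [e1, e2]
            ring
        _ = ENNReal.ofReal (r⁻¹ ^ 2) * ∫⁻ x in Bl,
              ENNReal.ofReal (yy x ^ (11 / 10 : ℝ) * Real.exp (-yy x / (r / 2))) := by
            rw [lintegral_const_mul' _ _ ENNReal.ofReal_ne_top]
        _ ≤ ENNReal.ofReal (r⁻¹ ^ 2) * ENNReal.ofReal (c1 * (r / 2) ^ (11 / 10 + 1 : ℝ)) := by
            gcongr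
            exact he (r / 2) (by positivity)
        _ = _ := by rw [← ENNReal.ofReal_mul (by positivity)]
    · apply ENNReal.ofReal_le_ofReal
      refine mul_le_mul_of_nonneg_left ?_ hN
      have e1 : r⁻¹ ^ 2 * (c1 * (r / 2) ^ (11 / 10 + 1 : ℝ)) ≤ c1 * r ^ (1 / 10 : ℝ) := by
        have e2 : (r / 2) ^ (11 / 10 + 1 : ℝ) ≤ r ^ (11 / 10 + 1 : ℝ) :=
          Real.rpow_le_rpow (by positivity) (by linarith) (by norm_num)
        have e3 : r ^ (11 / 10 + 1 : ℝ) = r ^ (1 / 10 : ℝ) * r ^ 2 := by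
          rw [← Real.rpow_natCast r 2, ← Real.rpow_add hr]; norm_num
        calc r⁻¹ ^ 2 * (c1 * (r / 2) ^ (11 / 10 + 1 : ℝ))
            ≤ r⁻¹ ^ 2 * (c1 * (r ^ (1 / 10 : ℝ) * r ^ 2)) := by
              rw [← e3]; gcongr
          _ = c1 * r ^ (1 / 10 : ℝ) := by field_simp
      calc (r⁻¹ ^ 2 * (c1 * (r / 2) ^ (11 / 10 + 1 : ℝ))) ^ (1 / 2 : ℝ)
          ≤ (c1 * r ^ (1 / 10 : ℝ)) ^ (1 / 2 : ℝ) := Real.rpow_le_rpow hS e1 (by norm_num)
        _ = c1 ^ (1 / 2 : ℝ) * r ^ (1 / 20 : ℝ) := by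
            rw [Real.mul_rpow hc1 (by positivity), ← Real.rpow_mul hr.le]
            norm_num
  have eb : ∫⁻ x in Bl, ‖u x‖ₑ * ENNReal.ofReal (gb (yy x)) ≤
      ENNReal.ofReal (N * ((2 * c2) ^ (1 / 2 : ℝ) * r ^ (1 / 20 : ℝ))) := by
    have hS : 0 ≤ r⁻¹ ^ 2 * (c2 * (2 * r ^ 8) ^ (-(1 / 2) + 1 : ℝ)) := by positivity
    refine (l4_cs hu mb nb hS ?_).trans ?_
    · calc ∫⁻ x in Bl, ENNReal.ofReal (gb (yy x) ^ 2 * yy x ^ (3 / 2 : ℝ))
          = ∫⁻ x in Bl, ENNReal.ofReal (r⁻¹ ^ 2) * (if yy x ≤ 2 * r ^ 8 then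
              ENNReal.ofReal (yy x ^ (-(1 / 2) : ℝ)) else 0) := by
            refine setLIntegral_congr_fun l4_Bl_meas fun x hx => ?_
            have hy := yy_pos hx
            rw [hgb]
            dsimp only
            split_ifs with h
            · rw [← ENNReal.ofReal_mul (by positivity)]
              congr 1
              have e1 : yy x ^ (3 / 2 : ℝ) = yy x ^ (-(1 / 2) : ℝ) * yy x ^ 2 := by
                rw [← Real.rpow_natCast (yy x) 2, ← Real.rpow_add hy]; norm_num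
              rw [e1]
              field_simp
            · simp
        _ = ENNReal.ofReal (r⁻¹ ^ 2) * ∫⁻ x in Bl, (if yy x ≤ 2 * r ^ 8 then
              ENNReal.ofReal (yy x ^ (-(1 / 2) : ℝ)) else 0) := by
            rw [lintegral_const_mul' _ _ ENNReal.ofReal_ne_top]
        _ ≤ ENNReal.ofReal (r⁻¹ ^ 2) * ENNReal.ofReal (c2 * (2 * r ^ 8) ^ (-(1 / 2) + 1 : ℝ)) := by
            gcongr
            exact hp (2 * r ^ 8) (by positivity)
        _ = _ := by rw [← ENNReal.ofReal_mul (by positivity)]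
    · apply ENNReal.ofReal_le_ofReal
      refine mul_le_mul_of_nonneg_left ?_ hN
      have e1 : r⁻¹ ^ 2 * (c2 * (2 * r ^ 8) ^ (-(1 / 2) + 1 : ℝ)) ≤ 2 * c2 * r ^ (1 / 10 : ℝ) := by
        have e2 : (2 * r ^ 8 : ℝ) ^ (-(1 / 2) + 1 : ℝ) ≤ 2 * r ^ 4 := by
          rw [Real.mul_rpow (by norm_num) (by positivity)]
          have e3 : (2 : ℝ) ^ (-(1 / 2) + 1 : ℝ) ≤ 2 := by
            calc (2 : ℝ) ^ (-(1 / 2) + 1 : ℝ) ≤ 2 ^ (1 : ℝ) :=
                  Real.rpow_le_rpow_of_exponent_le (by norm_num) (by norm_num)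
              _ = 2 := Real.rpow_one 2
          have e4 : (r ^ 8 : ℝ) ^ (-(1 / 2) + 1 : ℝ) = r ^ 4 := by
            rw [← Real.rpow_natCast r 8, ← Real.rpow_mul hr.le, ← Real.rpow_natCast r 4]
            norm_num
          rw [e4]
          gcongr
        have e5 : r ^ 2 ≤ r ^ (1 / 10 : ℝ) := by
          rw [← Real.rpow_natCast r 2]
          exact Real.rpow_le_rpow_of_exponent_ge hr hr1 (by norm_num)
        calc r⁻¹ ^ 2 * (c2 * (2 * r ^ 8) ^ (-(1 / 2) + 1 : ℝ))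
            ≤ r⁻¹ ^ 2 * (c2 * (2 * r ^ 4)) := by gcongr
          _ = 2 * c2 * r ^ 2 := by field_simp
          _ ≤ 2 * c2 * r ^ (1 / 10 : ℝ) := by gcongr
      calc (r⁻¹ ^ 2 * (c2 * (2 * r ^ 8) ^ (-(1 / 2) + 1 : ℝ))) ^ (1 / 2 : ℝ)
          ≤ (2 * c2 * r ^ (1 / 10 : ℝ)) ^ (1 / 2 : ℝ) := Real.rpow_le_rpow hS e1 (by norm_num)
        _ = (2 * c2) ^ (1 / 2 : ℝ) * r ^ (1 / 20 : ℝ) := by
            rw [Real.mul_rpow (by positivity) (by positivity), ← Real.rpow_mul hr.le]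
            norm_num
  have ec : ∫⁻ x in Bl, ‖u x‖ₑ ^ 2 * ENNReal.ofReal (gc (yy x)) ≤
      ENNReal.ofReal (L * 6 * r ^ (1 / 20 : ℝ) * N ^ 2) := by
    refine fld_sup hu (g := fun y => ENNReal.ofReal (gc y)) (by positivity) fun y hy hy2 => ?_
    apply ENNReal.ofReal_le_ofReal
    have e1 : r⁻¹ * Real.exp (-y / r) ≤ 3 * r ^ (1 / 20 : ℝ) * y ^ (-(3 / 2) : ℝ) := by
      have e2 := l4_exp_bound (div_pos hy hr)
      rw [Real.div_rpow hy.le hr.le, ← neg_div] at e2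
      have e3 : r ^ (1 / 2 : ℝ) ≤ r ^ (1 / 20 : ℝ) :=
        Real.rpow_le_rpow_of_exponent_ge hr hr1 (by norm_num)
      have e4 : r ^ (3 / 2 : ℝ) = r ^ (1 / 2 : ℝ) * r := by
        nth_rewrite 3 [← Real.rpow_one r]
        rw [← Real.rpow_add hr]; norm_num
      have e5 : y ^ (3 / 2 : ℝ) * Real.exp (-y / r) ≤ 3 * r ^ (3 / 2 : ℝ) := by
        rw [div_mul_eq_mul_div, div_le_iff₀ (by positivity)] at e2
        exact e2
      rw [Real.rpow_neg hy.le, ← div_eq_mul_inv, le_div_iff₀ (by positivity)]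
      calc r⁻¹ * Real.exp (-y / r) * y ^ (3 / 2 : ℝ)
          = r⁻¹ * (y ^ (3 / 2 : ℝ) * Real.exp (-y / r)) := by ring
        _ ≤ r⁻¹ * (3 * r ^ (3 / 2 : ℝ)) := by gcongr
        _ = 3 * r ^ (1 / 2 : ℝ) := by rw [e4]; field_simp
        _ ≤ 3 * r ^ (1 / 20 : ℝ) := by gcongr
    have e6 : (if y ≤ 2 * r ^ 8 then r⁻¹ else 0) ≤ 3 * r ^ (1 / 20 : ℝ) * y ^ (-(3 / 2) : ℝ) := by
      split_ifs with h
      · rw [Real.rpow_neg hy.le, ← div_eq_mul_inv, le_div_iff₀ (by positivity)]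
        have e7 : y ^ (3 / 2 : ℝ) ≤ 3 * r ^ 12 := by
          calc y ^ (3 / 2 : ℝ) ≤ (2 * r ^ 8) ^ (3 / 2 : ℝ) :=
                Real.rpow_le_rpow hy.le h (by norm_num)
            _ = 2 ^ (3 / 2 : ℝ) * r ^ 12 := by
                rw [Real.mul_rpow (by norm_num) (by positivity), ← Real.rpow_natCast r 8,
                  ← Real.rpow_mul hr.le, ← Real.rpow_natCast r 12]
                norm_num
            _ ≤ 3 * r ^ 12 := by
                gcongr
                have e8 : ((2 : ℝ) ^ (3 / 2 : ℝ)) ^ 2 = 8 := by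
                  rw [← Real.rpow_natCast ((2 : ℝ) ^ (3 / 2 : ℝ)), ← Real.rpow_mul (by norm_num)]
                  norm_num
                nlinarith [Real.rpow_nonneg (by norm_num : (0 : ℝ) ≤ 2) (3 / 2 : ℝ)]
        have e9 : r ^ 11 ≤ r ^ (1 / 20 : ℝ) := by
          rw [← Real.rpow_natCast r 11]
          exact Real.rpow_le_rpow_of_exponent_ge hr hr1 (by norm_num)
        calc r⁻¹ * y ^ (3 / 2 : ℝ) ≤ r⁻¹ * (3 * r ^ 12) := by gcongr
          _ = 3 * r ^ 11 := by field_simp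
          _ ≤ 3 * r ^ (1 / 20 : ℝ) := by gcongr
      · positivity
    rw [hgc]
    dsimp only
    calc L * (r⁻¹ * Real.exp (-y / r) + if y ≤ 2 * r ^ 8 then r⁻¹ else 0)
        ≤ L * (3 * r ^ (1 / 20 : ℝ) * y ^ (-(3 / 2) : ℝ) +
            3 * r ^ (1 / 20 : ℝ) * y ^ (-(3 / 2) : ℝ)) := by gcongr
      _ = L * 6 * r ^ (1 / 20 : ℝ) * y ^ (-(3 / 2) : ℝ) := by ring
  have eab := l4_add hu (g := ga) (g' := gb) ma na nb (by positivity) (by positivity) hL ea eb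
  obtain ⟨hi, hle⟩ := l4_int hj hu (g1 := fun y => L * (ga y + gb y)) (g2 := gc)
    ((ma.add mb).const_mul L) mc
    (fun y hy hy2 => mul_nonneg hL (add_nonneg (na y hy hy2) (nb y hy hy2))) nc
    (by positivity) (by positivity) eab ec
  -- the main term
  have hQi : IntegrableOn (fun x => j (gam u x) * (G (yy x) * cut r (yy x) +
      |deriv H (yy x)| * ‖u x‖)) Bl := by
    refine Integrable.mono' (hQ r hr u N hu).1 ?_ ?_
    · have m1 : Measurable fun x => j (gam u x) * (G (yy x) * cut r (yy x) +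
          |deriv H (yy x)| * ‖u x‖) :=
        (l4_jgam_meas hj hu).mul (((hH.meas.comp yy_meas).mul ((l4_cut_meas _).comp yy_meas)).add
          (((measurable_deriv H).abs.comp yy_meas).mul hu.meas.measurable.norm))
      exact m1.aestronglyMeasurable
    · filter_upwards [ae_restrict_mem l4_Bl_meas] with x hx
      exact l4_QU_pt hj hr hx
  have hmain : GR j (fr r H) u ≤ QU r j H G u +
      ∫ x in Bl, j (gam u x) * (L * (ga (yy x) + gb (yy x)) + gc (yy x) * ‖u x‖) := by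
    unfold GR QU
    rw [← integral_add hQi hi]
    refine setIntegral_mono_on (l4_GR_int hj (fr_RF hH hr) hu) (hQi.add hi) l4_Bl_meas
      fun x hx => ?_
    have hy := yy_pos hx
    have hy2 := yy_le x
    obtain ⟨b1, b2⟩ := hcalc r hr hr2 _ hy hy2
    have hx1 : ‖x‖ ≤ 1 := by
      have : ‖x‖ < 1 := by simpa [Bl] using hx
      exact this.le
    have b3 : |inner ℝ x (u x)| ≤ ‖u x‖ := by
      refine (abs_real_inner_le_norm _ _).trans ?_
      exact mul_le_of_le_one_left (norm_nonneg _) hx1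
    have b4 : -(deriv (fr r H) (yy x) * inner ℝ x (u x)) ≤
        (|deriv H (yy x)| + gc (yy x)) * ‖u x‖ := by
      calc -(deriv (fr r H) (yy x) * inner ℝ x (u x))
          ≤ |deriv (fr r H) (yy x) * inner ℝ x (u x)| := neg_le_abs _
        _ = |deriv (fr r H) (yy x)| * |inner ℝ x (u x)| := abs_mul _ _
        _ ≤ (|deriv H (yy x)| + gc (yy x)) * ‖u x‖ := by
            refine mul_le_mul b2 b3 (abs_nonneg _) ?_
            exact add_nonneg (abs_nonneg _) (nc _ hy hy2)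
    rw [← mul_add]
    refine mul_le_mul_of_nonneg_left ?_ (hj.nonneg _)
    have b5 : (1 - 2 * yy x) * iteratedDeriv 2 (fr r H) (yy x) - 5 * deriv (fr r H) (yy x) ≤
        G (yy x) * cut r (yy x) + L * (ga (yy x) + gb (yy x)) := b1
    linarith
  refine hmain.trans ?_
  rw [add_le_add_iff_left]
  refine hle.trans ?_
  have hr20 : 0 ≤ r ^ (1 / 20 : ℝ) := by positivity
  have hs1 : 0 ≤ c1 ^ (1 / 2 : ℝ) := by positivity
  have hs2 : 0 ≤ (2 * c2) ^ (1 / 2 : ℝ) := by positivity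
  have hN2 : N ≤ 1 + N ^ 2 := by nlinarith [sq_nonneg (N - 1)]
  calc Kj * (L * (N * (c1 ^ (1 / 2 : ℝ) * r ^ (1 / 20 : ℝ)) +
        N * ((2 * c2) ^ (1 / 2 : ℝ) * r ^ (1 / 20 : ℝ))) + L * 6 * r ^ (1 / 20 : ℝ) * N ^ 2)
      = Kj * (L * (c1 ^ (1 / 2 : ℝ) + (2 * c2) ^ (1 / 2 : ℝ)) * r ^ (1 / 20 : ℝ) * N +
          L * 6 * r ^ (1 / 20 : ℝ) * N ^ 2) := by ring
    _ ≤ Kj * (L * (c1 ^ (1 / 2 : ℝ) + (2 * c2) ^ (1 / 2 : ℝ)) * r ^ (1 / 20 : ℝ) * (1 + N ^ 2) +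
          L * 6 * r ^ (1 / 20 : ℝ) * (1 + N ^ 2)) := by
        gcongr
        linarith
    _ = Kj * (L * (c1 ^ (1 / 2 : ℝ) + (2 * c2) ^ (1 / 2 : ℝ)) + L * 6) * r ^ (1 / 20 : ℝ) *
          (1 + N ^ 2) := by ring

end Pool.Agent.W_332fe5
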