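import Pool.Agent.W_332fe5_h65.L4
import Pool.Agent.W_332fe5_h65.L2

set_option autoImplicit false

/-! Block 5, L5: the entropy inequality (5.3) without cutoffs. -/

open MeasureTheory ProbabilityTheory Set Filter Topology
open scoped ENNReal NNReal

namespace Pool.Agent.W_332fe5

theorem L5_mm_cont : Continuous mm := by
  unfold mm
  fun_prop

theorem L5_yy_cont : Continuous yy := by
  unfold yy
  fun_prop

theorem L5_gam_sm {zt p κ δ q K : ℝ} {A : L2 →L[ℝ] L2} {ev : L2 → E3 → E3}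
    (h : Ctx zt p κ δ q A K ev) (C : Core zt p κ δ q) :
    StronglyMeasurable fun p : (ℝ × C.Ω) × E3 => gam (uv C A ev p.1) p.2 :=
  (uv_sm h C).inner (L5_mm_cont.stronglyMeasurable.comp_measurable measurable_snd)

theorem QL_sm {zt p κ δ q K : ℝ} {A : L2 →L[ℝ] L2} {ev : L2 → E3 → E3}
    (h : Ctx zt p κ δ q A K ev) (C : Core zt p κ δ q) {j : ℝ → ℝ} {Kj : ℝ} (hj : Ent j Kj)
    {H G : ℝ → ℝ} {c : ℝ} (hH : HG H G c) : StronglyMeasurable fun z => QL j H G (uv C A ev z) := by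
  unfold QL
  refine StronglyMeasurable.integral_prod_right' (f := fun p : (ℝ × C.Ω) × E3 =>
    j (gam (uv C A ev p.1) p.2) * (G (yy p.2) + |deriv H (yy p.2)| * ‖uv C A ev p.1 p.2‖)) ?_
  have m1 : Measurable fun p : (ℝ × C.Ω) × E3 => yy p.2 :=
    L5_yy_cont.measurable.comp measurable_snd
  refine Measurable.stronglyMeasurable ?_
  refine (hj.smooth.continuous.measurable.comp (L5_gam_sm h C).measurable).mul ?_
  exact (hH.meas.comp m1).add
    (((measurable_deriv H).comp m1).abs.mul (uv_sm h C).measurable.norm)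

theorem L5_cut_meas (r : ℝ) : Measurable (cut r) := by
  have h1 : Continuous (cut r) := by
    unfold cut
    refine Continuous.mul (by fun_prop) ?_
    exact Real.smoothTransition.continuous.comp (by fun_prop)
  exact h1.measurable

theorem QU_sm {zt p κ δ q K : ℝ} {A : L2 →L[ℝ] L2} {ev : L2 → E3 → E3}
    (h : Ctx zt p κ δ q A K ev) (C : Core zt p κ δ q) {j : ℝ → ℝ} {Kj : ℝ} (hj : Ent j Kj)
    {H G : ℝ → ℝ} {c : ℝ} (hH : HG H G c) (r : ℝ) :
    StronglyMeasurable fun z => QU r j H G (uv C A ev z) := by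
  unfold QU
  refine StronglyMeasurable.integral_prod_right' (f := fun p : (ℝ × C.Ω) × E3 =>
    j (gam (uv C A ev p.1) p.2) * (G (yy p.2) * cut r (yy p.2) +
      |deriv H (yy p.2)| * ‖uv C A ev p.1 p.2‖)) ?_
  have m1 : Measurable fun p : (ℝ × C.Ω) × E3 => yy p.2 :=
    L5_yy_cont.measurable.comp measurable_snd
  refine Measurable.stronglyMeasurable ?_
  refine (hj.smooth.continuous.measurable.comp (L5_gam_sm h C).measurable).mul ?_
  exact ((hH.meas.comp m1).mul ((L5_cut_meas r).comp m1)).add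
    (((measurable_deriv H).comp m1).abs.mul (uv_sm h C).measurable.norm)

instance L5_finB : IsFiniteMeasure ((volume : Measure E3).restrict Bl) :=
  ⟨by rw [Measure.restrict_apply_univ]; exact measure_ball_lt_top⟩

theorem L5_mz_fin {zt p κ δ q : ℝ} (C : Core zt p κ δ q) (t : ℝ) : IsFiniteMeasure (mz C t) :=
  ⟨by rw [mz_univ]; exact ENNReal.ofReal_lt_top⟩

theorem L5_rn (n : ℕ) : (0 : ℝ) < 1 / ((n : ℝ) + 2) ∧ 1 / ((n : ℝ) + 2) ≤ 1 / 2 := by
  have h1 : (0 : ℝ) < (n : ℝ) + 2 := by positivity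
  refine ⟨by positivity, ?_⟩
  have h2 : (0 : ℝ) ≤ (n : ℝ) := Nat.cast_nonneg n
  exact one_div_le_one_div_of_le (by norm_num) (by linarith)

theorem L5_rn_lim : Tendsto (fun n : ℕ => (1 / ((n : ℝ) + 2)) ^ (1 / 20 : ℝ)) atTop (𝓝 0) := by
  have h1 : Tendsto (fun n : ℕ => 1 / ((n : ℝ) + 2)) atTop (𝓝 0) := by
    have h2 : Tendsto (fun n : ℕ => (n : ℝ) + 2) atTop atTop :=
      tendsto_atTop_add_const_right _ _ tendsto_natCast_atTop_atTop
    have h4 := tendsto_inv_atTop_zero.comp h2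
    refine h4.congr fun n => ?_
    simp
  have h3 := h1.rpow_const (p := (1 / 20 : ℝ)) (Or.inr (by norm_num))
  rwa [Real.zero_rpow (by norm_num)] at h3

theorem L5_Gam0_abs {x : E3} (hx : x ∈ Bl) : |Gam0 x| ≤ 1 := by
  have hy : 0 < yy x := yy_pos hx
  have hy2 := yy_le x
  unfold Gam0
  rw [indicator_of_mem hx]
  have h1 : (0 : ℝ) ≤ (2 * yy x) ^ mu := Real.rpow_nonneg (by linarith) _
  have h2 : (2 * yy x) ^ mu ≤ 1 := Real.rpow_le_one (by linarith) (by linarith) (by
    unfold mu; norm_num)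
  have h3 : 0 ≤ ax2 x := by unfold ax2; positivity
  have h4 : ax2 x ≤ 1 := by
    have : ‖x‖ ^ 2 = x 0 ^ 2 + x 1 ^ 2 + x 2 ^ 2 := by
      rw [EuclideanSpace.norm_sq_eq, Fin.sum_univ_three]
      simp only [Real.norm_eq_abs, sq_abs]
    unfold yy at hy
    unfold ax2
    nlinarith [sq_nonneg (x 2)]
  rw [abs_of_nonneg (mul_nonneg h1 h3)]
  exact mul_le_one₀ h2 h3 h4

theorem L5_Gam0_meas : Measurable Gam0 := by
  unfold Gam0
  refine Measurable.indicator ?_ Metric.isOpen_ball.measurableSet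
  have h1 : Measurable yy := L5_yy_cont.measurable
  have h2 : Measurable ax2 := by
    unfold ax2
    fun_prop
  exact ((h1.const_mul 2).pow_const mu).mul h2

/-- (5.3). PROOF: `stage1` for `fr (1/(n+2)) H` (`fr_RF`), `GR_fr_le`, `n → ∞`: left side Fatou
(`cut_lim`), right side dominated convergence (`QU_lim`, `QU_bound`, `exists_nw_sq`). -/
theorem stage2 {zt p κ δ q K : ℝ} {A : L2 →L[ℝ] L2} {ev : L2 → E3 → E3}
    (h : Ctx zt p κ δ q A K ev) (C : Core zt p κ δ q) {j : ℝ → ℝ} {Kj : ℝ} (hj : Ent j Kj)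
    {t : ℝ} (ht : t ∈ Icc (0 : ℝ) 1) {G : C.Ω → E3 → ℝ} (hA : Adm C A ev j t G)
    {H G' : ℝ → ℝ} {c : ℝ} (hH : HG H G' c) :
    Integrable (fun z => QL j H G' (uv C A ev z)) (mz C 1) ∧
    0 ≤ (∫ x in Bl, j (Gam0 x) * H (yy x)) + ∫ z, QL j H G' (uv C A ev z) ∂(mz C t) ∧
    ∫⁻ ω, (∫⁻ x in Bl, ENNReal.ofReal (j (G ω x) * H (yy x))) ∂C.P ≤
      ENNReal.ofReal ((∫ x in Bl, j (Gam0 x) * H (yy x)) +
        ∫ z, QL j H G' (uv C A ev z) ∂(mz C t)) := by
  obtain ⟨K', hK', hF⟩ := exists_fld h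
  obtain ⟨C1, hC1, hn⟩ := exists_nw_sq h
  obtain ⟨hn1, hn2, hn3⟩ := hn C
  obtain ⟨L1, hL1, hQ⟩ := QU_bound hj hH
  obtain ⟨L2', hL2, hGR⟩ := GR_fr_le hj hH
  have := L5_mz_fin C 1
  have := L5_mz_fin C t
  have hB : MeasurableSet Bl := Metric.isOpen_ball.measurableSet
  -- the fields
  have hfz : ∀ z : ℝ × C.Ω, Fld (uv C A ev z) (K' * nw C z) := fun z => hF _
  set D : ℝ × C.Ω → ℝ := fun z => 1 + (K' * nw C z) ^ 2 with hD
  have hDi1 : Integrable D (mz C 1) := by
    have h1 : Integrable (fun z => (1 : ℝ) + K' ^ 2 * nw C z ^ 2) (mz C 1) :=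
      (integrable_const (1 : ℝ)).add (hn1.const_mul (K' ^ 2))
    refine h1.congr (Eventually.of_forall fun z => ?_)
    simp only [hD]
    ring
  have hmono : mz C t ≤ mz C 1 := mz_mono C ht.2
  have hDi : Integrable D (mz C t) := hDi1.mono_measure hmono
  have hD0 : ∀ z, 0 ≤ D z := fun z => by
    simp only [hD]
    positivity
  have hQLi : Integrable (fun z => QL j H G' (uv C A ev z)) (mz C 1) := by
    refine Integrable.mono' (hDi1.const_mul L1) (QL_sm h C hj hH).aestronglyMeasurable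
      (Eventually.of_forall fun z => ?_)
    exact (hQ 1 one_pos _ _ (hfz z)).2.2
  have hQLt : Integrable (fun z => QL j H G' (uv C A ev z)) (mz C t) := hQLi.mono_measure hmono
  set r : ℕ → ℝ := fun n => 1 / ((n : ℝ) + 2) with hr
  have hr0 : ∀ n, 0 < r n := fun n => (L5_rn n).1
  have hr1 : ∀ n, r n ≤ 1 / 2 := fun n => (L5_rn n).2
  have hQUt : ∀ n, Integrable (fun z => QU (r n) j H G' (uv C A ev z)) (mz C t) := by
    intro n
    refine Integrable.mono' (hDi.const_mul L1) (QU_sm h C hj hH (r n)).aestronglyMeasurable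
      (Eventually.of_forall fun z => ?_)
    exact (hQ (r n) (hr0 n) _ _ (hfz z)).2.1
  -- the sequence of inequalities
  have hst := fun n => stage1 h C hj ht hA (fr_RF hH (hr0 n))
  set a : ℕ → ℝ := fun n => ∫ x in Bl, j (Gam0 x) * fr (r n) H (yy x) with ha
  set b : ℕ → ℝ := fun n => ∫ z, QU (r n) j H G' (uv C A ev z) ∂(mz C t) with hb
  set e : ℕ → ℝ := fun n => L2' * (r n) ^ (1 / 20 : ℝ) * ∫ z, D z ∂(mz C t) with he
  have hGRle : ∀ n, ∫ z, GR j (fr (r n) H) (uv C A ev z) ∂(mz C t) ≤ b n + e n := by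
    intro n
    have i1 : Integrable (fun z => L2' * (r n) ^ (1 / 20 : ℝ) * D z) (mz C t) :=
      hDi.const_mul _
    have h1 : ∫ z, GR j (fr (r n) H) (uv C A ev z) ∂(mz C t) ≤
        ∫ z, (QU (r n) j H G' (uv C A ev z) + L2' * (r n) ^ (1 / 20 : ℝ) * D z) ∂(mz C t) := by
      refine integral_mono ((GR_integrable h C hj (fr_RF hH (hr0 n))).mono_measure hmono)
        ((hQUt n).add i1) fun z => ?_
      exact hGR (r n) (hr0 n) (hr1 n) _ _ (hfz z)
    rw [integral_add (hQUt n) i1, integral_const_mul] at h1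
    exact h1
  have hR0 : ∀ n, 0 ≤ a n + (b n + e n) := by
    intro n
    have := (hst n).1
    linarith [hGRle n]
  have hRle : ∀ n, ∫⁻ ω, (∫⁻ x in Bl, ENNReal.ofReal (j (G ω x) * fr (r n) H (yy x))) ∂C.P ≤
      ENNReal.ofReal (a n + (b n + e n)) := by
    intro n
    refine (hst n).2.trans (ENNReal.ofReal_le_ofReal ?_)
    linarith [hGRle n]
  -- limits of the right hand side
  have tcut : ∀ x ∈ Bl, Tendsto (fun n => cut (r n) (yy x)) atTop (𝓝 1) := fun x hx =>
    cut_lim (yy_pos hx)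
  have tfr : ∀ x ∈ Bl, Tendsto (fun n => fr (r n) H (yy x)) atTop (𝓝 (H (yy x))) := by
    intro x hx
    have := (tcut x hx).const_mul (H (yy x))
    rw [mul_one] at this
    exact this
  have hfrb : ∀ n, ∀ x ∈ Bl, |fr (r n) H (yy x)| ≤ c := by
    intro n x hx
    have hy := yy_pos hx
    have h1 := hH.pos (yy x) hy (yy_le x)
    have h2 := cut_nonneg (hr0 n) hy
    have h3 := cut_le_one (hr0 n) hy
    unfold fr
    rw [abs_of_nonneg (mul_nonneg h1.1 h2)]
    exact (mul_le_of_le_one_right h1.1 h3).trans h1.2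
  have hfrm : ∀ n, Measurable fun x : E3 => fr (r n) H (yy x) := fun n =>
    (fr_RF hH (hr0 n)).smooth.continuous.measurable.comp L5_yy_cont.measurable
  have hjb : ∃ M : ℝ, ∀ s : ℝ, |s| ≤ 1 → |j s| ≤ M := by
    obtain ⟨M, hM⟩ := (isCompact_Icc (a := (-1 : ℝ)) (b := 1)).exists_bound_of_continuousOn
      hj.smooth.continuous.continuousOn
    exact ⟨M, fun s hs => hM s (abs_le.1 hs)⟩
  obtain ⟨M, hM⟩ := hjb
  have hM0 : 0 ≤ M := (abs_nonneg _).trans (hM 0 (by simp))
  have ta : Tendsto a atTop (𝓝 (∫ x in Bl, j (Gam0 x) * H (yy x))) := by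
    refine tendsto_integral_of_dominated_convergence (fun _ => M * c) ?_ (integrable_const _) ?_ ?_
    · intro n
      exact ((hj.smooth.continuous.measurable.comp L5_Gam0_meas).mul (hfrm n)).aestronglyMeasurable
    · intro n
      filter_upwards [ae_restrict_mem hB] with x hx
      rw [Real.norm_eq_abs, abs_mul]
      exact mul_le_mul (hM _ (L5_Gam0_abs hx)) (hfrb n x hx) (abs_nonneg _) hM0
    · filter_upwards [ae_restrict_mem hB] with x hx
      exact (tfr x hx).const_mul _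
  have tb : Tendsto b atTop (𝓝 (∫ z, QL j H G' (uv C A ev z) ∂(mz C t))) := by
    refine tendsto_integral_of_dominated_convergence (fun z => L1 * D z) ?_
      (hDi.const_mul L1) ?_ ?_
    · intro n
      exact (QU_sm h C hj hH (r n)).aestronglyMeasurable
    · intro n
      exact Eventually.of_forall fun z => (hQ (r n) (hr0 n) _ _ (hfz z)).2.1
    · exact Eventually.of_forall fun z => QU_lim hj hH (hfz z)
  have te : Tendsto e atTop (𝓝 0) := by
    have h1 := (L5_rn_lim.const_mul L2').mul_const (∫ z, D z ∂(mz C t))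
    rw [mul_zero, zero_mul] at h1
    exact h1
  set R : ℝ := (∫ x in Bl, j (Gam0 x) * H (yy x)) + ∫ z, QL j H G' (uv C A ev z) ∂(mz C t)
    with hR
  have tR : Tendsto (fun n => a n + (b n + e n)) atTop (𝓝 R) := by
    have := ta.add (tb.add te)
    rw [add_zero] at this
    exact this
  refine ⟨hQLi, ge_of_tendsto' tR hR0, ?_⟩
  -- Fatou
  have hGm := hA.1
  have hFm : ∀ n, Measurable fun p : C.Ω × E3 =>
      ENNReal.ofReal (j (G p.1 p.2) * fr (r n) H (yy p.2)) := fun n =>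
    ((hj.smooth.continuous.measurable.comp hGm).mul
      ((hfrm n).comp measurable_snd)).ennreal_ofReal
  have hin : ∀ ω, ∫⁻ x in Bl, ENNReal.ofReal (j (G ω x) * H (yy x)) ≤
      liminf (fun n => ∫⁻ x in Bl, ENNReal.ofReal (j (G ω x) * fr (r n) H (yy x))) atTop := by
    intro ω
    have h1 : ∫⁻ x in Bl, ENNReal.ofReal (j (G ω x) * H (yy x)) =
        ∫⁻ x in Bl, liminf (fun n => ENNReal.ofReal (j (G ω x) * fr (r n) H (yy x))) atTop := by
      refine setLIntegral_congr_fun hB fun x hx => ?_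
      have t1 : Tendsto (fun n => ENNReal.ofReal (j (G ω x) * fr (r n) H (yy x))) atTop
          (𝓝 (ENNReal.ofReal (j (G ω x) * H (yy x)))) :=
        ENNReal.tendsto_ofReal ((tfr x hx).const_mul _)
      exact t1.liminf_eq.symm
    rw [h1]
    exact lintegral_liminf_le fun n => (hFm n).comp (measurable_const.prodMk measurable_id)
  calc ∫⁻ ω, (∫⁻ x in Bl, ENNReal.ofReal (j (G ω x) * H (yy x))) ∂C.P
      ≤ ∫⁻ ω, liminf (fun n => ∫⁻ x in Bl,
          ENNReal.ofReal (j (G ω x) * fr (r n) H (yy x))) atTop ∂C.P := lintegral_mono hin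
    _ ≤ liminf (fun n => ∫⁻ ω, (∫⁻ x in Bl,
          ENNReal.ofReal (j (G ω x) * fr (r n) H (yy x))) ∂C.P) atTop :=
        lintegral_liminf_le fun n => (hFm n).lintegral_prod_right'
    _ ≤ liminf (fun n => ENNReal.ofReal (a n + (b n + e n))) atTop :=
        liminf_le_liminf (Eventually.of_forall hRle)
    _ = ENNReal.ofReal R := (ENNReal.tendsto_ofReal tR).liminf_eq

end Pool.Agent.W_332fe5
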