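import Pool.Agent.W_332fe5_h65.P1
import Pool.Agent.W_332fe5_h65.G2

set_option autoImplicit false

/-! Block 5, P2: joint measurability in `(x, t, ω)` and bounds of the functionals at `hk ε x`. -/

open MeasureTheory ProbabilityTheory Set Filter Topology
open scoped ENNReal NNReal

namespace Pool.Agent.W_332fe5

/-- the retraction onto the ball of radius `R` -/
noncomputable def P2_pi (R : ℝ) (x : E3) : E3 := (R / max R ‖x‖) • x

theorem P2_pi_cont {R : ℝ} (hR : 0 ≤ R) : Continuous (P2_pi R) := by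
  rcases hR.eq_or_lt with h0 | h0
  · have h1 : P2_pi R = fun _ => 0 := by
      funext x
      unfold P2_pi
      rw [← h0, zero_div, zero_smul]
    rw [h1]
    exact continuous_const
  · unfold P2_pi
    refine (continuous_const.div (continuous_const.max continuous_norm) fun x => ?_).smul
      continuous_id
    exact (h0.trans_le (le_max_left _ _)).ne'

theorem P2_pi_norm {R : ℝ} (hR : 0 ≤ R) (x : E3) : ‖P2_pi R x‖ ≤ R := by
  unfold P2_pi
  rw [norm_smul, Real.norm_of_nonneg (div_nonneg hR (hR.trans (le_max_left _ _)))]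
  rcases (hR.trans (le_max_left R ‖x‖)).eq_or_lt with h0 | h0
  · rw [← h0, div_zero, zero_mul]
    exact hR
  · rw [div_mul_eq_mul_div, div_le_iff₀ h0]
    exact mul_le_mul_of_nonneg_left (le_max_right _ _) hR

theorem P2_pi_eq {R : ℝ} {x : E3} (hx : ‖x‖ ≤ R) : P2_pi R x = x := by
  unfold P2_pi
  rw [max_eq_left hx]
  rcases ((norm_nonneg x).trans hx).eq_or_lt with h0 | h0
  · have h1 : x = 0 := norm_le_zero_iff.1 (by rw [h0]; exact hx)
    rw [h1, smul_zero]
  · rw [div_self h0.ne', one_smul]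

/-- PROOF: `Y x t ω = X (hk ε (π x)) t ω` with the continuous retraction `π` onto the closed ball of
radius `R` (`π x = (R / max R ‖x‖) • x`; for `R ≤ 0` the claim is easy: `π = 0`). For fixed `x`,
`(t, ω) ↦ X (hk ε (π x)) t ω` is measurable (`X_cont`, `X_meas`,
`measurable_uncurry_of_continuous_of_measurable`); for fixed `(t, ω)` it is continuous in `x`
(`X_lin` with `a = -1`, `X_bdd`, `c4_hk_sub`); the same lemma again. -/
theorem X_joint {zt p κ δ q : ℝ} (C : Core zt p κ δ q) {ε R : ℝ} (hε : 0 < ε) (hR : R + ε < 1) :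
    ∃ Y : E3 → ℝ × C.Ω → ℝ, Measurable (Function.uncurry Y) ∧
      (∀ x, ‖x‖ ≤ R → ∀ t ω, Y x (t, ω) = C.X (hk ε x) t ω) := by
  rcases lt_or_ge R 0 with hR0 | hR0
  · refine ⟨fun _ _ => 0, measurable_const, fun x hx => ?_⟩
    have := norm_nonneg x
    linarith
  · have hmem : ∀ x : E3, hk ε (P2_pi R x) ∈ CB := fun x =>
      hk_mem_CB hε (by
        have := P2_pi_norm hR0 x
        linarith)
    refine ⟨fun x z => C.X (hk ε (P2_pi R x)) z.1 z.2, ?_, fun x hx t ω => by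
      show C.X (hk ε (P2_pi R x)) t ω = _
      rw [P2_pi_eq hx]⟩
    refine measurable_uncurry_of_continuous_of_measurable ?_ ?_
    · rintro ⟨t, ω⟩
      obtain ⟨N, hN⟩ := C.X_bdd ω
      obtain ⟨L, hL0, hL⟩ := c4_hk_sub hε
      have hb : ∀ x x' : E3, dist (C.X (hk ε (P2_pi R x)) t ω) (C.X (hk ε (P2_pi R x')) t ω) ≤
          |N| * (L * ‖P2_pi R x - P2_pi R x'‖) := by
        intro x x'
        have e1 := C.X_lin _ (hmem x) _ (hmem x') (-1) t ω
        have e2 : (fun y => hk ε (P2_pi R x) y + -1 * hk ε (P2_pi R x') y) =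
            fun y => hk ε (P2_pi R x) y - hk ε (P2_pi R x') y := by
          funext y
          ring
        have hCB : (fun y => hk ε (P2_pi R x) y - hk ε (P2_pi R x') y) ∈ CB := by
          have hh := hmem x
          have hh' := hmem x'
          have hsub : tsupport (fun y => hk ε (P2_pi R x) y - hk ε (P2_pi R x') y) ⊆
              tsupport (hk ε (P2_pi R x)) ∪ tsupport (hk ε (P2_pi R x')) := by
            refine closure_minimal ?_ ((isClosed_tsupport _).union (isClosed_tsupport _))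
            intro y hy
            by_contra hc
            rw [mem_union, not_or] at hc
            apply hy
            show hk ε (P2_pi R x) y - hk ε (P2_pi R x') y = 0
            rw [image_eq_zero_of_notMem_tsupport hc.1, image_eq_zero_of_notMem_tsupport hc.2,
              sub_zero]
          refine ⟨hh.1.sub hh'.1, ?_, ?_⟩
          · exact (hh.2.1.isCompact.union hh'.2.1.isCompact).of_isClosed_subset
              (isClosed_tsupport _) hsub
          · exact hsub.trans (union_subset hh.2.2 hh'.2.2)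
        rw [e2] at e1
        rw [Real.dist_eq]
        have e3 : C.X (hk ε (P2_pi R x)) t ω - C.X (hk ε (P2_pi R x')) t ω =
            C.X (fun y => hk ε (P2_pi R x) y - hk ε (P2_pi R x') y) t ω := by
          rw [e1]
          ring
        rw [e3]
        refine (hN _ hCB t).trans ?_
        have h5 : 0 ≤ c4 (fun y => hk ε (P2_pi R x) y - hk ε (P2_pi R x') y) := by
          unfold c4
          exact Finset.sum_nonneg fun k _ => Real.iSup_nonneg fun _ => norm_nonneg _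
        exact mul_le_mul (le_abs_self N) (hL _ _) h5 (abs_nonneg _)
      rw [continuous_iff_continuousAt]
      intro x0
      show Tendsto _ _ _
      rw [tendsto_iff_dist_tendsto_zero]
      refine squeeze_zero (fun _ => dist_nonneg) (fun x => hb x x0) ?_
      have h1 : Tendsto (fun x => |N| * (L * ‖P2_pi R x - P2_pi R x0‖)) (𝓝 x0)
          (𝓝 (|N| * (L * ‖P2_pi R x0 - P2_pi R x0‖))) :=
        (continuous_const.mul (continuous_const.mul
          ((P2_pi_cont hR0).sub continuous_const).norm)).tendsto x0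
      rw [sub_self, norm_zero, mul_zero, mul_zero] at h1
      exact h1
    · intro x
      exact measurable_uncurry_of_continuous_of_measurable
        (u := fun t ω => C.X (hk ε (P2_pi R x)) t ω)
        (fun ω => C.X_cont _ (hmem x) ω) (fun t => C.X_meas _ (hmem x) t)

theorem P2_mm_cont : Continuous mm := by
  unfold mm
  refine (PiLp.continuous_toLp 2 _).comp ?_
  refine continuous_pi fun i => ?_
  fin_cases i
  · exact (EuclideanSpace.proj (𝕜 := ℝ) (1 : Fin 3)).continuous.neg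
  · exact (EuclideanSpace.proj (𝕜 := ℝ) (0 : Fin 3)).continuous
  · exact continuous_const

/-- application of the derivative of the mollifier to a measurable field -/
theorem P2_app {Z : Type} [MeasurableSpace Z] {ε : ℝ} {a : Z → E3} {v : Z → E3}
    (ha : StronglyMeasurable a) (hv : StronglyMeasurable v) :
    StronglyMeasurable fun z => fderiv ℝ (rho ε) (a z) (v z) := by
  have h1 : Continuous fun x : E3 × E3 => fderiv ℝ (rho ε) x.1 x.2 :=
    (((rho_contDiff ε).continuous_fderiv (by simp)).comp continuous_fst).clm_apply continuous_snd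
  exact h1.comp_stronglyMeasurable (ha.prodMk hv)

/-- joint measurability of the field and of the swirl over `(x, z, y)` -/
theorem P2_u {zt p κ δ q K : ℝ} {A : L2 →L[ℝ] L2} {ev : L2 → E3 → E3}
    (h : Ctx zt p κ δ q A K ev) (C : Core zt p κ δ q) :
    StronglyMeasurable fun y : (E3 × (ℝ × C.Ω)) × E3 => uv C A ev y.1.2 y.2 :=
  (uv_sm h C).comp_measurable
    (g := fun y : (E3 × (ℝ × C.Ω)) × E3 => (y.1.2, y.2))
    ((measurable_snd.comp measurable_fst).prodMk measurable_snd)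

theorem P2_gam {zt p κ δ q K : ℝ} {A : L2 →L[ℝ] L2} {ev : L2 → E3 → E3}
    (h : Ctx zt p κ δ q A K ev) (C : Core zt p κ δ q) :
    StronglyMeasurable fun y : (E3 × (ℝ × C.Ω)) × E3 => gam (uv C A ev y.1.2) y.2 :=
  (P2_u h C).inner (P2_mm_cont.stronglyMeasurable.comp_measurable measurable_snd)

theorem P2_sub (Ω : Type) [MeasurableSpace Ω] :
    StronglyMeasurable fun y : (E3 × (ℝ × Ω)) × E3 => y.1.1 - y.2 :=
  ((measurable_fst.comp measurable_fst).sub measurable_snd).stronglyMeasurable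

/-- PROOF: `aU (uv z) (hk ε x) = ∫ y, F (x, z, y)` with `F` jointly strongly measurable
(`uv_sm`, `fderiv_hk`, `slap_hk`, `kk_measurable`): `StronglyMeasurable.integral_prod_right`. -/
theorem aU_joint {zt p κ δ q K : ℝ} {A : L2 →L[ℝ] L2} {ev : L2 → E3 → E3}
    (h : Ctx zt p κ δ q A K ev) (C : Core zt p κ δ q) {ε : ℝ} (hε : 0 < ε) :
    StronglyMeasurable fun y : E3 × (ℝ × C.Ω) => aU (uv C A ev y.2) (hk ε y.1) := by
  have _ := hε
  have h1 : StronglyMeasurable fun y : (E3 × (ℝ × C.Ω)) × E3 => gam (uv C A ev y.1.2) y.2 *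
      (slap (rho ε) (y.1.1 - y.2) + -fderiv ℝ (rho ε) (y.1.1 - y.2) (kk y.2) +
        -fderiv ℝ (rho ε) (y.1.1 - y.2) (uv C A ev y.1.2 y.2)) := by
    refine (P2_gam h C).mul (((?_ : StronglyMeasurable _).add (?_ : StronglyMeasurable _)).add
      (?_ : StronglyMeasurable _))
    · exact (slap_rho_continuous ε).comp_stronglyMeasurable (P2_sub C.Ω)
    · exact (P2_app (P2_sub C.Ω)
        (kk_measurable.comp measurable_snd).stronglyMeasurable).neg
    · exact (P2_app (P2_sub C.Ω) (P2_u h C)).neg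
  have h2 := h1.integral_prod_right' (ν := (volume : Measure E3))
  have e : (fun y : E3 × (ℝ × C.Ω) => aU (uv C A ev y.2) (hk ε y.1)) =
      fun y => ∫ x, gam (uv C A ev y.2) x * (slap (rho ε) (y.1 - x) +
        -fderiv ℝ (rho ε) (y.1 - x) (kk x) + -fderiv ℝ (rho ε) (y.1 - x) (uv C A ev y.2 x)) := by
    funext y
    unfold aU
    congr 1
    funext x
    rw [slap_hk, fderiv_hk, fderiv_hk]
  rw [e]
  exact h2

theorem bU_joint {zt p κ δ q K : ℝ} {A : L2 →L[ℝ] L2} {ev : L2 → E3 → E3}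
    (h : Ctx zt p κ δ q A K ev) (C : Core zt p κ δ q) (c : ℝ) {ε : ℝ} (hε : 0 < ε) :
    StronglyMeasurable fun y : E3 × (ℝ × C.Ω) => bU c (uv C A ev y.2) (hk ε y.1) := by
  have _ := hε
  have h1 : StronglyMeasurable fun y : (E3 × (ℝ × C.Ω)) × E3 => gam (uv C A ev y.1.2) y.2 *
      (-fderiv ℝ (rho ε) (y.1.1 - y.2) y.2 + 3 * rho ε (y.1.1 - y.2)) := by
    refine (P2_gam h C).mul ((?_ : StronglyMeasurable _).add (?_ : StronglyMeasurable _))
    · exact (P2_app (P2_sub C.Ω) measurable_snd.stronglyMeasurable).neg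
    · exact (continuous_const.mul (rho_contDiff ε).continuous).comp_stronglyMeasurable
        (P2_sub C.Ω)
  have h2 := (h1.integral_prod_right' (ν := (volume : Measure E3))).const_mul (-c)
  have e : (fun y : E3 × (ℝ × C.Ω) => bU c (uv C A ev y.2) (hk ε y.1)) =
      fun y => -c * ∫ x, gam (uv C A ev y.2) x *
        (-fderiv ℝ (rho ε) (y.1 - x) x + 3 * rho ε (y.1 - x)) := by
    funext y
    unfold bU
    congr 2
    funext x
    rw [fderiv_hk]
    rfl
  rw [e]
  exact h2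

theorem gU_joint {zt p κ δ q K : ℝ} {A : L2 →L[ℝ] L2} {ev : L2 → E3 → E3}
    (h : Ctx zt p κ δ q A K ev) (C : Core zt p κ δ q) {ε : ℝ} (hε : 0 < ε) :
    StronglyMeasurable fun y : E3 × (ℝ × C.Ω) => gU ε (uv C A ev y.2) y.1 := by
  have _ := hε
  have h1 : StronglyMeasurable fun y : (E3 × (ℝ × C.Ω)) × E3 => gam (uv C A ev y.1.2) y.2 *
      rho ε (y.1.1 - y.2) :=
    (P2_gam h C).mul ((rho_contDiff ε).continuous.comp_stronglyMeasurable (P2_sub C.Ω))
  exact h1.integral_prod_right' (ν := (volume : Measure E3))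

theorem gam_joint {zt p κ δ q K : ℝ} {A : L2 →L[ℝ] L2} {ev : L2 → E3 → E3}
    (h : Ctx zt p κ δ q A K ev) (C : Core zt p κ δ q) :
    StronglyMeasurable fun y : (ℝ × C.Ω) × E3 => gam (uv C A ev y.1) y.2 :=
  (uv_sm h C).inner (P2_mm_cont.stronglyMeasurable.comp_measurable measurable_snd)

theorem P2_L1 {u : E3 → E3} {N : ℝ} (h : Fld u N) :
    ∫ x, ‖u x‖ ≤ (volume Bl).toReal ^ (1 / 2 : ℝ) * N := by
  have hBm : MeasurableSet Bl := Metric.isOpen_ball.measurableSet
  have hBt : volume Bl ≠ ⊤ := by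
    unfold Bl
    exact measure_ball_lt_top.ne
  rw [integral_norm_eq_lintegral_enorm h.meas.aestronglyMeasurable]
  have h1 : ∫⁻ x, ‖u x‖ₑ = ∫⁻ x in Bl, ‖u x‖ₑ := by
    rw [← lintegral_indicator hBm]
    refine lintegral_congr_ae ?_
    filter_upwards [h.supp] with x hx
    by_cases hxB : x ∈ Bl
    · rw [indicator_of_mem hxB]
    · rw [indicator_of_notMem hxB, hx hxB, enorm_zero]
  have h2 : ∫⁻ x in Bl, ‖u x‖ₑ ≤ ENNReal.ofReal N * (volume Bl) ^ (1 / 2 : ℝ) := by
    rw [← eLpNorm_one_eq_lintegral_enorm]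
    refine (eLpNorm_le_eLpNorm_mul_rpow_measure_univ (p := 1) (q := 2) (by norm_num)
      h.meas.aestronglyMeasurable).trans ?_
    rw [Measure.restrict_apply_univ]
    refine mul_le_mul' ((eLpNorm_mono_measure u Measure.restrict_le_self).trans h.norm) ?_
    refine le_of_eq ?_
    congr 1
    norm_num
  rw [h1]
  refine (ENNReal.toReal_mono ?_ h2).trans (le_of_eq ?_)
  · exact ENNReal.mul_ne_top ENNReal.ofReal_ne_top
      (ENNReal.rpow_ne_top_of_nonneg (by norm_num) hBt)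
  · rw [ENNReal.toReal_mul, ENNReal.toReal_ofReal h.nonneg, ← ENNReal.toReal_rpow, mul_comm]

theorem P2_L2 {u : E3 → E3} {N : ℝ} (h : Fld u N) :
    Integrable (fun x => ‖u x‖ ^ 2) (volume : Measure E3) ∧ ∫ x, ‖u x‖ ^ 2 ≤ N ^ 2 := by
  have hi : Integrable (fun x => ‖u x‖ ^ 2) (volume : Measure E3) :=
    h.memLp.integrable_norm_pow (p := 2) (by norm_num)
  refine ⟨hi, ?_⟩
  have h1 := h.memLp.eLpNorm_eq_integral_rpow_norm (by norm_num) (by norm_num)
  have h2 := h.norm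
  rw [h1, ENNReal.ofReal_le_ofReal_iff h.nonneg] at h2
  have h3 : ∫ x, ‖u x‖ ^ (2 : ℝ≥0∞).toReal = ∫ x, ‖u x‖ ^ 2 := by
    congr 1
    funext x
    rw [show (2 : ℝ≥0∞).toReal = ((2 : ℕ) : ℝ) by norm_num, Real.rpow_natCast]
  rw [h3] at h2
  have h0 : 0 ≤ ∫ x, ‖u x‖ ^ 2 := integral_nonneg fun _ => by positivity
  have h4 : ((∫ x, ‖u x‖ ^ 2) ^ ((2 : ℝ≥0∞).toReal)⁻¹) ^ 2 = ∫ x, ‖u x‖ ^ 2 := by
    rw [← Real.rpow_natCast, ← Real.rpow_mul h0]
    norm_num
  rw [← h4]
  exact pow_le_pow_left₀ (Real.rpow_nonneg h0 _) h2 2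

theorem P2_fderiv_bound {ε : ℝ} (hε : 0 < ε) :
    ∃ S : ℝ, 0 ≤ S ∧ ∀ z : E3, ‖fderiv ℝ (rho ε) z‖ ≤ S := by
  obtain ⟨S, hS⟩ := (R2_fderiv_cont ε).bounded_above_of_compact_support (R2_fderiv_compact hε)
  exact ⟨S, (norm_nonneg _).trans (hS 0), hS⟩

theorem P2_slap_bound {ε : ℝ} (hε : 0 < ε) :
    ∃ S : ℝ, 0 ≤ S ∧ ∀ z : E3, |slap (rho ε) z| ≤ S := by
  have hc : HasCompactSupport (slap (rho ε)) :=
    HasCompactSupport.intro (isCompact_closedBall (0 : E3) ε) fun z hz => by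
      rw [Metric.mem_closedBall, dist_zero_right, not_le] at hz
      exact slap_rho_zero hε hz.le
  obtain ⟨S, hS⟩ := (slap_rho_continuous ε).bounded_above_of_compact_support hc
  exact ⟨S, (norm_nonneg _).trans (hS 0), fun z => hS z⟩

theorem P2_rho_bound {ε : ℝ} (hε : 0 < ε) : ∃ S : ℝ, 0 ≤ S ∧ ∀ z : E3, |rho ε z| ≤ S := by
  obtain ⟨S, hS⟩ := (rho_contDiff ε).continuous.bounded_above_of_compact_support (rho_compact hε)
  exact ⟨S, (norm_nonneg _).trans (hS 0), fun z => hS z⟩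

/-- PROOF: `|Γ| ≤ |u|`, `|Γ k| ≤ 2 |u|`, bounded derivatives of `rho ε`, everything in the ball
(where `‖u‖₁ ≤ |B|^(1/2) N`, `‖u‖₂ ≤ N`). -/
theorem aU_bound {ε : ℝ} (hε : 0 < ε) : ∃ L : ℝ, 0 ≤ L ∧ ∀ (u : E3 → E3) (N : ℝ), Fld u N →
    ∀ x : E3, |aU u (hk ε x)| ≤ L * (1 + N ^ 2) := by
  obtain ⟨S1, hS1, h1⟩ := P2_slap_bound hε
  obtain ⟨S2, hS2, h2⟩ := P2_fderiv_bound hε
  set V : ℝ := (volume Bl).toReal ^ (1 / 2 : ℝ) with hV
  have hV0 : 0 ≤ V := Real.rpow_nonneg ENNReal.toReal_nonneg _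
  refine ⟨(S1 + 2 * S2) * V + S2, by positivity, fun u N h x => ?_⟩
  obtain ⟨hi2, hl2⟩ := P2_L2 h
  have hi1 := (norm_integrable h).norm
  have hl1 := P2_L1 h
  rw [← hV] at hl1
  have hg : Integrable (fun y => (S1 + 2 * S2) * ‖u y‖ + S2 * ‖u y‖ ^ 2)
      (volume : Measure E3) := (hi1.const_mul _).add (hi2.const_mul _)
  have hle : ∀ᵐ y ∂(volume : Measure E3),
      ‖gam u y * (slap (hk ε x) y + fderiv ℝ (hk ε x) y (kk y) + fderiv ℝ (hk ε x) y (u y))‖ ≤
        (S1 + 2 * S2) * ‖u y‖ + S2 * ‖u y‖ ^ 2 := by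
    filter_upwards [abs_gam_le_norm h] with y hy
    rw [slap_hk, fderiv_hk, fderiv_hk, mul_add, mul_add]
    have hu := norm_nonneg (u y)
    have b1 : ‖gam u y * slap (rho ε) (x - y)‖ ≤ ‖u y‖ * S1 := by
      rw [norm_mul, Real.norm_eq_abs, Real.norm_eq_abs]
      exact mul_le_mul hy (h1 _) (abs_nonneg _) hu
    have b2 : ‖gam u y * -fderiv ℝ (rho ε) (x - y) (kk y)‖ ≤ S2 * (2 * ‖u y‖) := by
      have e1 : gam u y * -fderiv ℝ (rho ε) (x - y) (kk y) =
          -(fderiv ℝ (rho ε) (x - y) (gam u y • kk y)) := by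
        rw [map_smul, smul_eq_mul]
        ring
      rw [e1, norm_neg]
      refine ((fderiv ℝ (rho ε) (x - y)).le_opNorm _).trans ?_
      exact mul_le_mul (h2 _) (norm_gam_smul_kk u y) (norm_nonneg _) hS2
    have b3 : ‖gam u y * -fderiv ℝ (rho ε) (x - y) (u y)‖ ≤ ‖u y‖ * (S2 * ‖u y‖) := by
      rw [norm_mul, norm_neg, Real.norm_eq_abs (gam u y)]
      refine mul_le_mul hy ?_ (norm_nonneg _) hu
      refine ((fderiv ℝ (rho ε) (x - y)).le_opNorm _).trans ?_
      exact mul_le_mul_of_nonneg_right (h2 _) hu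
    refine (norm_add₃_le).trans ?_
    refine (add_le_add (add_le_add b1 b2) b3).trans (le_of_eq ?_)
    ring
  have h5 := norm_integral_le_of_norm_le hg hle
  rw [Real.norm_eq_abs] at h5
  refine h5.trans ?_
  rw [integral_add (hi1.const_mul _) (hi2.const_mul _), integral_const_mul, integral_const_mul]
  have hN := h.nonneg
  have h6 : N ≤ 1 + N ^ 2 := by nlinarith [sq_nonneg (N - 1)]
  have h7 : N ^ 2 ≤ 1 + N ^ 2 := by linarith
  have h8 : (S1 + 2 * S2) * ∫ y, ‖u y‖ ≤ (S1 + 2 * S2) * (V * (1 + N ^ 2)) :=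
    mul_le_mul_of_nonneg_left (hl1.trans (mul_le_mul_of_nonneg_left h6 hV0)) (by positivity)
  have h9 : S2 * ∫ y, ‖u y‖ ^ 2 ≤ S2 * (1 + N ^ 2) :=
    mul_le_mul_of_nonneg_left (hl2.trans h7) hS2
  refine (add_le_add h8 h9).trans (le_of_eq ?_)
  ring

theorem bU_bound (c : ℝ) {ε : ℝ} (hε : 0 < ε) : ∃ L : ℝ, 0 ≤ L ∧ ∀ (u : E3 → E3) (N : ℝ),
    Fld u N → ∀ x : E3, |bU c u (hk ε x)| ≤ L * N := by
  obtain ⟨S0, hS0, h0⟩ := P2_rho_bound hε
  obtain ⟨S2, hS2, h2⟩ := P2_fderiv_bound hε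
  set V : ℝ := (volume Bl).toReal ^ (1 / 2 : ℝ) with hV
  have hV0 : 0 ≤ V := Real.rpow_nonneg ENNReal.toReal_nonneg _
  refine ⟨|c| * ((S2 + 3 * S0) * V), by positivity, fun u N h x => ?_⟩
  have hi1 := (norm_integrable h).norm
  have hl1 := P2_L1 h
  rw [← hV] at hl1
  have hg : Integrable (fun y => (S2 + 3 * S0) * ‖u y‖) (volume : Measure E3) := hi1.const_mul _
  have hle : ∀ᵐ y ∂(volume : Measure E3),
      ‖gam u y * (fderiv ℝ (hk ε x) y y + 3 * hk ε x y)‖ ≤ (S2 + 3 * S0) * ‖u y‖ := by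
    filter_upwards [abs_gam_le_norm h, gam_ae_zero h] with y hy hy0
    by_cases hyB : y ∈ Bl
    · rw [fderiv_hk]
      have hy1 : ‖y‖ ≤ 1 := by
        have h3 : y ∈ Metric.ball (0 : E3) 1 := hyB
        rw [Metric.mem_ball, dist_zero_right] at h3
        exact h3.le
      have b1 : ‖-fderiv ℝ (rho ε) (x - y) y + 3 * hk ε x y‖ ≤ S2 + 3 * S0 := by
        refine (norm_add_le _ _).trans (add_le_add ?_ ?_)
        · rw [norm_neg]
          refine ((fderiv ℝ (rho ε) (x - y)).le_opNorm _).trans ?_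
          calc ‖fderiv ℝ (rho ε) (x - y)‖ * ‖y‖ ≤ S2 * 1 :=
                mul_le_mul (h2 _) hy1 (norm_nonneg _) hS2
            _ = S2 := mul_one _
        · rw [norm_mul, Real.norm_eq_abs, Real.norm_eq_abs, abs_of_pos (by norm_num : (0 : ℝ) < 3)]
          exact mul_le_mul_of_nonneg_left (h0 _) (by norm_num)
      rw [norm_mul, Real.norm_eq_abs (gam u y), mul_comm (S2 + 3 * S0)]
      exact mul_le_mul hy b1 (norm_nonneg _) (norm_nonneg _)
    · rw [hy0 hyB, zero_mul, norm_zero]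
      positivity
  have h5 := norm_integral_le_of_norm_le hg hle
  rw [integral_const_mul] at h5
  unfold bU
  rw [abs_mul, abs_neg, ← Real.norm_eq_abs (∫ y, gam u y * (fderiv ℝ (hk ε x) y y + 3 * hk ε x y))]
  have h6 : (S2 + 3 * S0) * ∫ y, ‖u y‖ ≤ (S2 + 3 * S0) * (V * N) :=
    mul_le_mul_of_nonneg_left hl1 (by positivity)
  calc |c| * ‖∫ y, gam u y * (fderiv ℝ (hk ε x) y y + 3 * hk ε x y)‖ ≤
      |c| * ((S2 + 3 * S0) * (V * N)) :=
        mul_le_mul_of_nonneg_left (h5.trans h6) (abs_nonneg _)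
    _ = _ := by ring

/-- Almost everywhere before `S`, `X (hk ε x) = gU ε u x` for almost all `x`.
PROOF: `X_eq` for each `x` with `‖x‖ ≤ R`, joint measurability, Fubini
(`MeasureTheory.Measure.ae_ae_of_ae_prod`, `measure_prod_null`). -/
theorem X_eq_gU {zt p κ δ q K : ℝ} {A : L2 →L[ℝ] L2} {ev : L2 → E3 → E3}
    (h : Ctx zt p κ δ q A K ev) (C : Core zt p κ δ q) {ε R : ℝ} (hε : 0 < ε) (hR : R + ε < 1) :
    ∀ᵐ z ∂(mz C 1), z.1 < C.S z.2 → ∀ᵐ x ∂(volume : Measure E3), ‖x‖ ≤ R →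
      C.X (hk ε x) z.1 z.2 = gU ε (uv C A ev z) x := by
  obtain ⟨Y, hY, hYX⟩ := X_joint C hε hR
  have hfin : IsFiniteMeasure (mz C 1) := ⟨by rw [mz_univ]; exact ENNReal.ofReal_lt_top⟩
  have h1 : ∀ x : E3, ∀ᵐ z ∂(mz C 1), ‖x‖ ≤ R → z.1 < C.S z.2 →
      Y x z = gU ε (uv C A ev z) x := by
    intro x
    by_cases hx : ‖x‖ ≤ R
    · have h2 := C.X_eq (hk ε x) (hk_mem_CB hε (by linarith))
      rw [← mz_eq] at h2
      filter_upwards [h2] with z hz _ hzS
      have h3 := hYX x hx z.1 z.2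
      rw [Prod.mk.eta] at h3
      rw [h3, hz hzS]
      unfold gU uv
      refine integral_congr_ae ?_
      filter_upwards [Gam_uv h (C.w z.1 z.2)] with y hy
      rw [hy]
    · exact Eventually.of_forall fun z hx' => absurd hx' hx
  have hm : MeasurableSet {y : E3 × (ℝ × C.Ω) | ‖y.1‖ ≤ R → y.2.1 < C.S y.2.2 →
      Y y.1 y.2 = gU ε (uv C A ev y.2) y.1} := by
    have m1 : MeasurableSet {y : E3 × (ℝ × C.Ω) | ‖y.1‖ ≤ R} :=
      measurableSet_le measurable_fst.norm measurable_const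
    have m2 : MeasurableSet {y : E3 × (ℝ × C.Ω) | y.2.1 < C.S y.2.2} :=
      measurableSet_lt (measurable_fst.comp measurable_snd)
        (C.S_meas.comp (measurable_snd.comp measurable_snd))
    have m3 : MeasurableSet {y : E3 × (ℝ × C.Ω) | Y y.1 y.2 = gU ε (uv C A ev y.2) y.1} :=
      measurableSet_eq_fun hY (gU_joint h C hε).measurable
    have e : {y : E3 × (ℝ × C.Ω) | ‖y.1‖ ≤ R → y.2.1 < C.S y.2.2 →
        Y y.1 y.2 = gU ε (uv C A ev y.2) y.1} =
        {y : E3 × (ℝ × C.Ω) | ‖y.1‖ ≤ R}ᶜ ∪ ({y : E3 × (ℝ × C.Ω) | y.2.1 < C.S y.2.2}ᶜ ∪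
          {y : E3 × (ℝ × C.Ω) | Y y.1 y.2 = gU ε (uv C A ev y.2) y.1}) := by
      ext y
      simp only [mem_ofPred_eq, mem_union, mem_compl_iff]
      tauto
    rw [e]
    exact m1.compl.union (m2.compl.union m3)
  have h4 := (Measure.ae_ae_comm (μ := (volume : Measure E3)) (ν := mz C 1)
    (p := fun x z => ‖x‖ ≤ R → z.1 < C.S z.2 → Y x z = gU ε (uv C A ev z) x) hm).1
    (Eventually.of_forall h1)
  filter_upwards [h4] with z hz hzS
  filter_upwards [hz] with x hx hxR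
  have h5 := hx hxR hzS
  rw [← h5, ← hYX x hxR z.1 z.2]

end Pool.Agent.W_332fe5
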