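import Pool.Agent.W_332fe5_h65.P2

set_option autoImplicit false

/-! Block 5, P3: Dynkin's formula integrated over `x`. -/

open MeasureTheory ProbabilityTheory Set Filter Topology
open scoped ENNReal NNReal

namespace Pool.Agent.W_332fe5

instance P3_sfinite {zt p κ δ q : ℝ} (C : Core zt p κ δ q) (t : ℝ) : SFinite (mz C t) := by
  unfold mz; infer_instance

theorem P3_cont {Φ : E3 → ℝ} (hΦ : Φ ∈ CB) : Continuous Φ := hΦ.1.continuous

theorem P3_int {Φ : E3 → ℝ} (hΦ : Φ ∈ CB) : Integrable Φ :=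
  hΦ.1.continuous.integrable_of_hasCompactSupport hΦ.2.1

theorem P3_nw {zt p κ δ q K : ℝ} {A : L2 →L[ℝ] L2} {ev : L2 → E3 → E3}
    (h : Ctx zt p κ δ q A K ev) (C : Core zt p κ δ q) {t : ℝ} (ht : t ≤ 1) :
    Integrable (fun z => 1 + nw C z ^ 2) (mz C t) := by
  obtain ⟨C1, _, h1⟩ := exists_nw_sq h
  have hfin : IsFiniteMeasure (mz C t) := ⟨by rw [mz_univ]; exact ENNReal.ofReal_lt_top⟩
  exact (integrable_const _).add ((h1 C).1.mono_measure (mz_mono C ht))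

/-- The integrand. -/
noncomputable def P3_I {zt p κ δ q : ℝ} (C : Core zt p κ δ q) (A : L2 →L[ℝ] L2)
    (ev : L2 → E3 → E3) (ε : ℝ) (j : ℝ → ℝ) (Φ : E3 → ℝ) (Y : E3 → ℝ × C.Ω → ℝ)
    (x : E3) (z : ℝ × C.Ω) : ℝ :=
  (deriv j (Y x z) * aU (uv C A ev z) (hk ε x) +
    iteratedDeriv 2 j (Y x z) * bU (cc zt) (uv C A ev z) (hk ε x) ^ 2 / 2) * Φ x

theorem P3_I_sm {zt p κ δ q K : ℝ} {A : L2 →L[ℝ] L2} {ev : L2 → E3 → E3}
    (h : Ctx zt p κ δ q A K ev) (C : Core zt p κ δ q) {ε : ℝ} (hε : 0 < ε)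
    {j : ℝ → ℝ} {Kj : ℝ} (hj : Ent j Kj) {Φ : E3 → ℝ} (hΦ : TA Φ) {Y : E3 → ℝ × C.Ω → ℝ}
    (hY : Measurable (Function.uncurry Y)) :
    StronglyMeasurable (Function.uncurry (P3_I C A ev ε j Φ Y)) := by
  have hj1 : Measurable (deriv j) := measurable_deriv j
  have hj2 : Measurable (iteratedDeriv 2 j) :=
    (hj.smooth.continuous_iteratedDeriv 2 (by norm_num)).measurable
  have hA := (aU_joint h C hε).measurable
  have hB := (bU_joint h C (cc zt) hε).measurable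
  have hP : Measurable fun y : E3 × (ℝ × C.Ω) => Φ y.1 :=
    (P3_cont hΦ.cb).measurable.comp measurable_fst
  have hY1 : Measurable fun y : E3 × (ℝ × C.Ω) => deriv j (Y y.1 y.2) := hj1.comp hY
  have hY2 : Measurable fun y : E3 × (ℝ × C.Ω) => iteratedDeriv 2 j (Y y.1 y.2) := hj2.comp hY
  exact (((hY1.mul hA).add ((hY2.mul (hB.pow_const 2)).div_const 2)).mul hP).stronglyMeasurable

theorem P3_I_bound {zt p κ δ q K : ℝ} {A : L2 →L[ℝ] L2} {ev : L2 → E3 → E3}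
    (h : Ctx zt p κ δ q A K ev) (C : Core zt p κ δ q) {ε : ℝ} (hε : 0 < ε)
    {j : ℝ → ℝ} {Kj : ℝ} (hj : Ent j Kj) {Φ : E3 → ℝ} (hΦ : TA Φ) (Y : E3 → ℝ × C.Ω → ℝ) :
    ∃ L : ℝ, ∀ x z, ‖P3_I C A ev ε j Φ Y x z‖ ≤ L * (1 + nw C z ^ 2) * Φ x := by
  obtain ⟨K', hK', hF⟩ := exists_fld h
  obtain ⟨L1, hL1, h1⟩ := aU_bound hε
  obtain ⟨L2, hL2, h2⟩ := bU_bound (cc zt) hε
  have hK : 0 ≤ Kj := (abs_nonneg _).trans (hj.d1 0)
  refine ⟨Kj * L1 * (1 + K' ^ 2) + Kj * (L2 * K') ^ 2, fun x z => ?_⟩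
  have hFz := hF (C.w z.1 z.2)
  have e1 : |aU (uv C A ev z) (hk ε x)| ≤ L1 * (1 + (K' * nw C z) ^ 2) := h1 _ _ hFz x
  have e2 : |bU (cc zt) (uv C A ev z) (hk ε x)| ≤ L2 * (K' * nw C z) := h2 _ _ hFz x
  have hn : 0 ≤ nw C z := norm_nonneg _
  unfold P3_I
  rw [norm_mul, Real.norm_eq_abs, Real.norm_eq_abs, abs_of_nonneg (hΦ.nonneg x)]
  refine mul_le_mul_of_nonneg_right ?_ (hΦ.nonneg x)
  refine (abs_add_le _ _).trans ?_
  rw [abs_mul, abs_div, abs_mul, abs_pow, abs_two]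
  have e3 : |deriv j (Y x z)| * |aU (uv C A ev z) (hk ε x)| ≤ Kj * (L1 * (1 + (K' * nw C z) ^ 2)) :=
    mul_le_mul (hj.d1 _) e1 (abs_nonneg _) hK
  have e4 : |bU (cc zt) (uv C A ev z) (hk ε x)| ^ 2 ≤ (L2 * (K' * nw C z)) ^ 2 :=
    pow_le_pow_left₀ (abs_nonneg _) e2 2
  have e5 : |iteratedDeriv 2 j (Y x z)| * |bU (cc zt) (uv C A ev z) (hk ε x)| ^ 2 ≤
      Kj * (L2 * (K' * nw C z)) ^ 2 :=
    mul_le_mul (hj.d2 _) e4 (by positivity) hK
  have e6 : 0 ≤ Kj * L1 := by positivity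
  have e7 : 0 ≤ Kj * (L2 * K') ^ 2 := by positivity
  have e8 : 0 ≤ Kj * (L2 * (K' * nw C z)) ^ 2 := by positivity
  have e9 : Kj * (L1 * (1 + (K' * nw C z) ^ 2)) ≤ Kj * L1 * (1 + K' ^ 2) * (1 + nw C z ^ 2) := by
    have : (K' * nw C z) ^ 2 ≤ K' ^ 2 + nw C z ^ 2 + K' ^ 2 * nw C z ^ 2 := by
      nlinarith [sq_nonneg K', sq_nonneg (nw C z)]
    nlinarith [mul_le_mul_of_nonneg_left this e6]
  have e10 : Kj * (L2 * (K' * nw C z)) ^ 2 ≤ Kj * (L2 * K') ^ 2 * (1 + nw C z ^ 2) := by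
    nlinarith [sq_nonneg (nw C z)]
  linarith

theorem P3_zero_a {u : E3 → E3} (hu : u =ᵐ[volume] 0) (φ : E3 → ℝ) : aU u φ = 0 := by
  unfold aU
  rw [integral_eq_zero_of_ae]
  filter_upwards [hu] with x hx
  simp [gam, hx]

theorem P3_zero_b {u : E3 → E3} (hu : u =ᵐ[volume] 0) (c : ℝ) (φ : E3 → ℝ) : bU c u φ = 0 := by
  unfold bU
  rw [integral_eq_zero_of_ae, mul_zero]
  filter_upwards [hu] with x hx
  simp [gam, hx]

/-- The inner integral. -/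
theorem P3_LU {zt p κ δ q K : ℝ} {A : L2 →L[ℝ] L2} {ev : L2 → E3 → E3}
    (h : Ctx zt p κ δ q A K ev) (C : Core zt p κ δ q) {ε R : ℝ} (hε : 0 < ε) (hR : R + ε < 1)
    {j : ℝ → ℝ} {Φ : E3 → ℝ} (hs : ∀ x, R < ‖x‖ → Φ x = 0)
    {Y : E3 → ℝ × C.Ω → ℝ} (hY : ∀ x, ‖x‖ ≤ R → ∀ t ω, Y x (t, ω) = C.X (hk ε x) t ω) :
    ∀ᵐ z ∂(mz C 1), ∫ x, P3_I C A ev ε j Φ Y x z = LU (cc zt) ε j Φ (uv C A ev z) := by
  filter_upwards [X_eq_gU h C hε hR] with z hz
  by_cases hS : z.1 < C.S z.2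
  · unfold LU P3_I
    refine integral_congr_ae ?_
    filter_upwards [hz hS] with x hx
    by_cases hxR : ‖x‖ ≤ R
    · have : Y x z = gU ε (uv C A ev z) x := by
        rw [← hx hxR]; exact hY x hxR z.1 z.2
      simp only [this]
    · simp [hs x (not_le.1 hxR)]
  · have hu := uv_zero h C z (not_lt.1 hS)
    have e1 : ∀ x, P3_I C A ev ε j Φ Y x z = 0 := fun x => by
      unfold P3_I
      rw [P3_zero_a hu, P3_zero_b hu]; simp
    have e2 : LU (cc zt) ε j Φ (uv C A ev z) = 0 := by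
      unfold LU
      simp [P3_zero_a hu, P3_zero_b hu]
    rw [e2]; simp [e1]

theorem P3_prod {zt p κ δ q K : ℝ} {A : L2 →L[ℝ] L2} {ev : L2 → E3 → E3}
    (h : Ctx zt p κ δ q A K ev) (C : Core zt p κ δ q) {ε : ℝ} (hε : 0 < ε)
    {j : ℝ → ℝ} {Kj : ℝ} (hj : Ent j Kj) {Φ : E3 → ℝ} (hΦ : TA Φ) {Y : E3 → ℝ × C.Ω → ℝ}
    (hY : Measurable (Function.uncurry Y)) {t : ℝ} (ht : t ≤ 1) :
    Integrable (Function.uncurry (P3_I C A ev ε j Φ Y)) ((volume : Measure E3).prod (mz C t)) := by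
  obtain ⟨L, hL⟩ := P3_I_bound h C hε hj hΦ Y
  have h1 : Integrable (fun y : E3 × (ℝ × C.Ω) => Φ y.1 * (L * (1 + nw C y.2 ^ 2)))
      ((volume : Measure E3).prod (mz C t)) :=
    Integrable.mul_prod (P3_int hΦ.cb) ((P3_nw h C ht).const_mul L)
  refine h1.mono' (P3_I_sm h C hε hj hΦ hY).aestronglyMeasurable (Eventually.of_forall fun y => ?_)
  have := hL y.1 y.2
  calc ‖Function.uncurry (P3_I C A ev ε j Φ Y) y‖ ≤ L * (1 + nw C y.2 ^ 2) * Φ y.1 := this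
    _ = Φ y.1 * (L * (1 + nw C y.2 ^ 2)) := mul_comm _ _

/-- Dynkin's formula at `x`. -/
theorem P3_dynkin {zt p κ δ q K : ℝ} {A : L2 →L[ℝ] L2} {ev : L2 → E3 → E3}
    (h : Ctx zt p κ δ q A K ev) (C : Core zt p κ δ q) {ε R : ℝ} (hε : 0 < ε) (hR : R + ε < 1)
    {j : ℝ → ℝ} {Kj : ℝ} (hj : Ent j Kj) {Φ : E3 → ℝ} (hs : ∀ x, R < ‖x‖ → Φ x = 0)
    {Y : E3 → ℝ × C.Ω → ℝ} (hY : ∀ x, ‖x‖ ≤ R → ∀ t ω, Y x (t, ω) = C.X (hk ε x) t ω)
    {t : ℝ} (ht : t ∈ Icc (0 : ℝ) 1) (x : E3) :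
    Φ x * (∫ ω, j (C.X (hk ε x) t ω) ∂C.P) = Φ x * j (∫ y, Gam0 y * hk ε x y) +
      ∫ z, P3_I C A ev ε j Φ Y x z ∂(mz C t) := by
  by_cases hxR : ‖x‖ ≤ R
  · have hC : hk ε x ∈ CB := hk_mem_CB hε (by linarith)
    have hd := (C.dynkin (hk ε x) hC j Kj hj.smooth (fun s => ⟨hj.d1 s, hj.d2 s, hj.d3 s⟩) t ht).2
    rw [hd, mul_add]
    congr 1
    rw [← integral_const_mul]
    unfold mz
    refine integral_congr_ae (Eventually.of_forall fun z => ?_)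
    have e1 : Y x z = C.X (hk ε x) z.1 z.2 := hY x hxR z.1 z.2
    simp only [P3_I, e1, aF_uv h, bF_uv h, uv]
    ring
  · have h0 := hs x (not_le.1 hxR)
    simp [h0, P3_I]

/-- PROOF: `Core.dynkin` for `hk ε x`, `x` in the support of `Φ` (`hk_mem_CB`), times `Φ x`,
integrated over `x`; the integrand `I(x, z) = Φ x (j'(X) a + j''(X) b² / 2)` is jointly measurable
(`X_joint`, `aU_joint`, `bU_joint`), bounded by `|Φ x| L (1 + K'² nw²)` (`aU_bound`, `bU_bound`,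
`exists_fld`), integrable by `exists_nw_sq`; Fubini (`integral_integral_swap`). For almost all `z`
before `S` the inner integral is `LU` by `X_eq_gU`; after `S` both sides vanish (`uv_zero`). -/
theorem fub {zt p κ δ q K : ℝ} {A : L2 →L[ℝ] L2} {ev : L2 → E3 → E3}
    (h : Ctx zt p κ δ q A K ev) (C : Core zt p κ δ q) {ε R : ℝ} (hε : 0 < ε) (hR : R + ε < 1)
    {j : ℝ → ℝ} {Kj : ℝ} (hj : Ent j Kj) {Φ : E3 → ℝ} (hΦ : TA Φ) (hs : ∀ x, R < ‖x‖ → Φ x = 0)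
    {t : ℝ} (ht : t ∈ Icc (0 : ℝ) 1) :
    Integrable (fun z => LU (cc zt) ε j Φ (uv C A ev z)) (mz C 1) ∧
    Integrable (fun x => Φ x * ∫ ω, j (C.X (hk ε x) t ω) ∂C.P) ∧
    ∫ x, Φ x * (∫ ω, j (C.X (hk ε x) t ω) ∂C.P) =
      (∫ x, Φ x * j (∫ y, Gam0 y * hk ε x y)) +
        ∫ z, LU (cc zt) ε j Φ (uv C A ev z) ∂(mz C t) := by
  obtain ⟨Y, hYm, hY⟩ := X_joint C hε hR
  have hK : 0 ≤ Kj := (abs_nonneg _).trans (hj.d1 0)
  have hLU := P3_LU h C hε hR (j := j) hs hY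
  have hi1 := P3_prod h C hε hj hΦ hYm (le_refl (1 : ℝ))
  have hit := P3_prod h C hε hj hΦ hYm ht.2
  have hjL : ∀ s, |j s| ≤ Kj * |s| := by
    intro s
    have hb : ∀ x ∈ (univ : Set ℝ), ‖deriv j x‖ ≤ Kj := fun x _ => hj.d1 x
    have := convex_univ.norm_image_sub_le_of_norm_deriv_le (f := j)
      (fun x _ => (hj.smooth.differentiable (by norm_num)).differentiableAt) hb
      (mem_univ (0 : ℝ)) (mem_univ s)
    simpa [hj.zero] using this
  -- the initial term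
  have hnon : Nonempty C.Ω := by
    by_contra hne
    rw [not_nonempty_iff] at hne
    have := C.prob.measure_univ
    rw [Set.univ_eq_empty_iff.2 hne, measure_empty] at this
    exact zero_ne_one this
  obtain ⟨ω₀⟩ := hnon
  have hinit : Integrable (fun x => Φ x * j (∫ y, Gam0 y * hk ε x y)) := by
    obtain ⟨N, hN⟩ := C.X_bdd ω₀
    obtain ⟨L, hL⟩ := c4_hk hε
    have e0 : (fun x => Φ x * j (∫ y, Gam0 y * hk ε x y)) = fun x => Φ x * j (Y x (0, ω₀)) := by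
      funext x
      by_cases hxR : ‖x‖ ≤ R
      · rw [hY x hxR 0 ω₀, C.X_init _ (hk_mem_CB hε (by linarith))]
      · simp [hs x (not_le.1 hxR)]
    rw [e0]
    have hmeas : Measurable fun x => Φ x * j (Y x (0, ω₀)) := by
      refine (P3_cont hΦ.cb).measurable.mul (hj.smooth.continuous.measurable.comp ?_)
      exact hYm.comp (measurable_id.prodMk measurable_const)
    refine ((P3_int hΦ.cb).mul_const (Kj * (|N| * |L|))).mono' hmeas.aestronglyMeasurable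
      (Eventually.of_forall fun x => ?_)
    rw [norm_mul, Real.norm_eq_abs, Real.norm_eq_abs, abs_of_nonneg (hΦ.nonneg x)]
    by_cases hxR : ‖x‖ ≤ R
    · refine mul_le_mul_of_nonneg_left ?_ (hΦ.nonneg x)
      refine (hjL _).trans (mul_le_mul_of_nonneg_left ?_ hK)
      rw [hY x hxR 0 ω₀]
      have hc0 : 0 ≤ c4 (hk ε x) := by
        unfold c4
        exact Finset.sum_nonneg fun k _ => Real.iSup_nonneg fun y => norm_nonneg _
      refine (hN _ (hk_mem_CB hε (by linarith)) 0).trans ?_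
      calc N * c4 (hk ε x) ≤ |N| * c4 (hk ε x) := mul_le_mul_of_nonneg_right (le_abs_self N) hc0
        _ ≤ |N| * |L| := mul_le_mul_of_nonneg_left ((hL x).trans (le_abs_self L)) (abs_nonneg _)
    · simp [hs x (not_le.1 hxR)]
  have hEq : ∀ x, Φ x * (∫ ω, j (C.X (hk ε x) t ω) ∂C.P) = Φ x * j (∫ y, Gam0 y * hk ε x y) +
      ∫ z, P3_I C A ev ε j Φ Y x z ∂(mz C t) := P3_dynkin h C hε hR hj hs hY ht
  have hin : Integrable (fun x => ∫ z, P3_I C A ev ε j Φ Y x z ∂(mz C t)) :=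
    hit.integral_prod_left
  refine ⟨?_, ?_, ?_⟩
  · have := hi1.integral_prod_right
    refine this.congr ?_
    filter_upwards [hLU] with z hz
    exact hz
  · simp only [hEq]
    exact hinit.add hin
  · simp only [hEq]
    rw [integral_add hinit hin, integral_integral_swap hit]
    congr 1
    refine integral_congr_ae ?_
    have := ae_mono (mz_mono C ht.2) hLU
    filter_upwards [this] with z hz
    exact hz

/-- The left side as a lower integral over `ω` and `x`. -/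
theorem fub_lintegral {zt p κ δ q K : ℝ} {A : L2 →L[ℝ] L2} {ev : L2 → E3 → E3}
    (h : Ctx zt p κ δ q A K ev) (C : Core zt p κ δ q) {ε R : ℝ} (hε : 0 < ε) (hR : R + ε < 1)
    {j : ℝ → ℝ} {Kj : ℝ} (hj : Ent j Kj) {Φ : E3 → ℝ} (hΦ : TA Φ) (hs : ∀ x, R < ‖x‖ → Φ x = 0)
    {t : ℝ} (ht : t ∈ Icc (0 : ℝ) 1) :
    ∫⁻ ω, (∫⁻ x, ENNReal.ofReal (j (C.X (hk ε x) t ω) * Φ x)) ∂C.P =
      ENNReal.ofReal (∫ x, Φ x * (∫ ω, j (C.X (hk ε x) t ω) ∂C.P)) := by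
  obtain ⟨Y, hYm, hY⟩ := X_joint C hε hR
  have hjL : ∀ s, |j s| ≤ Kj * |s| := by
    intro s
    have hb : ∀ x ∈ (univ : Set ℝ), ‖deriv j x‖ ≤ Kj := fun x _ => hj.d1 x
    have := convex_univ.norm_image_sub_le_of_norm_deriv_le (f := j)
      (fun x _ => (hj.smooth.differentiable (by norm_num)).differentiableAt) hb
      (mem_univ (0 : ℝ)) (mem_univ s)
    simpa [hj.zero] using this
  have e0 : ∀ x ω, j (C.X (hk ε x) t ω) * Φ x = j (Y x (t, ω)) * Φ x := by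
    intro x ω
    by_cases hxR : ‖x‖ ≤ R
    · rw [hY x hxR t ω]
    · simp [hs x (not_le.1 hxR)]
  have hm : Measurable (Function.uncurry fun (ω : C.Ω) (x : E3) => j (Y x (t, ω)) * Φ x) := by
    refine (hj.smooth.continuous.measurable.comp ?_).mul
      ((P3_cont hΦ.cb).measurable.comp measurable_snd)
    exact hYm.comp (measurable_snd.prodMk (measurable_const.prodMk measurable_fst))
  simp only [e0]
  rw [lintegral_lintegral_swap hm.ennreal_ofReal.aemeasurable]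
  rw [ofReal_integral_eq_lintegral_ofReal (fub h C hε hR hj hΦ hs ht).2.1
    (Eventually.of_forall fun x => mul_nonneg (hΦ.nonneg x)
      (integral_nonneg fun ω => hj.nonneg _))]
  refine lintegral_congr fun x => ?_
  rw [← integral_const_mul]
  have hint : Integrable (fun ω => Φ x * j (C.X (hk ε x) t ω)) C.P := by
    by_cases hxR : ‖x‖ ≤ R
    · have hC : hk ε x ∈ CB := hk_mem_CB hε (by linarith)
      obtain ⟨K2, hK2⟩ := C.X_sq _ hC
      refine Integrable.const_mul ?_ _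
      have h1 : Integrable (fun ω => Kj * (1 + C.X (hk ε x) t ω ^ 2)) C.P :=
        ((integrable_const _).add (hK2 t).1).const_mul Kj
      refine h1.mono' (hj.smooth.continuous.measurable.comp
        (C.X_meas _ hC t)).aestronglyMeasurable (Eventually.of_forall fun ω => ?_)
      have hK : 0 ≤ Kj := (abs_nonneg _).trans (hj.d1 0)
      refine (hjL _).trans (mul_le_mul_of_nonneg_left ?_ hK)
      nlinarith [sq_nonneg (|C.X (hk ε x) t ω| - 1), sq_abs (C.X (hk ε x) t ω),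
        abs_nonneg (C.X (hk ε x) t ω)]
    · simp [hs x (not_le.1 hxR)]
  rw [ofReal_integral_eq_lintegral_ofReal hint
    (Eventually.of_forall fun ω => mul_nonneg (hΦ.nonneg x) (hj.nonneg _))]
  refine lintegral_congr fun ω => ?_
  rw [← e0 x ω, mul_comm]

end Pool.Agent.W_332fe5
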