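import Pool.Agent.W_332fe5_h65.P3
import Pool.Agent.W_332fe5_h65.G0
import Pool.Agent.W_332fe5_h65.D1

set_option autoImplicit false

/-! Block 5, P4: the entropy inequality with the mollifier. -/

open MeasureTheory ProbabilityTheory Set Filter Topology
open scoped ENNReal NNReal

namespace Pool.Agent.W_332fe5

private theorem P4_aux_K {j : ℝ → ℝ} {K : ℝ} (hj : Ent j K) : 0 ≤ K :=
  (abs_nonneg _).trans (hj.d1 0)

private theorem P4_aux_abs {a b : ℝ} (h : ‖a‖ₑ ≤ ENNReal.ofReal b) (hb : 0 ≤ b) : |a| ≤ b := by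
  rw [Real.enorm_eq_ofReal_abs] at h
  exact (ENNReal.ofReal_le_ofReal_iff hb).1 h

private theorem P4_aux_slap {Φ : E3 → ℝ} (hΦ : Φ ∈ CB) :
    Continuous (slap Φ) ∧ HasCompactSupport (slap Φ) := by
  obtain ⟨h1, h2, _⟩ := hΦ
  have h3 : ∀ i : Fin 3, ContDiff ℝ 1 (fun z => fderiv ℝ Φ z (EuclideanSpace.single i 1)) := by
    intro i
    exact (h1.fderiv_right (m := 1) (by norm_cast)).clm_apply contDiff_const
  have h4 : ∀ i : Fin 3, Continuous (fun x =>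
      fderiv ℝ (fun z => fderiv ℝ Φ z (EuclideanSpace.single i 1)) x
        (EuclideanSpace.single i 1)) := by
    intro i
    exact ((h3 i).continuous_fderiv (by norm_num)).clm_apply continuous_const
  have h5 : ∀ i : Fin 3, HasCompactSupport (fun x =>
      fderiv ℝ (fun z => fderiv ℝ Φ z (EuclideanSpace.single i 1)) x
        (EuclideanSpace.single i 1)) := by
    intro i
    exact (h2.fderiv_apply (𝕜 := ℝ) _).fderiv_apply (𝕜 := ℝ) _
  constructor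
  · unfold slap
    exact continuous_finsetSum _ fun i _ => h4 i
  · have h6 : slap Φ = fun x => (fderiv ℝ (fun z => fderiv ℝ Φ z (EuclideanSpace.single 0 1)) x
        (EuclideanSpace.single 0 1) + fderiv ℝ (fun z => fderiv ℝ Φ z (EuclideanSpace.single 1 1)) x
        (EuclideanSpace.single 1 1)) + fderiv ℝ (fun z => fderiv ℝ Φ z
        (EuclideanSpace.single 2 1)) x (EuclideanSpace.single 2 1) := by
      funext x
      unfold slap
      rw [Fin.sum_univ_three]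
    rw [h6]
    exact ((h5 0).add (h5 1)).add (h5 2)

private theorem P4_aux_kk {Φ : E3 → ℝ} (hΦ : TA Φ) {τ : ℝ} (hτ : 0 < τ)
    (h : ∀ x ∈ tsupport Φ, τ ≤ ax2 x) :
    Continuous (fun x => fderiv ℝ Φ x (kk x)) ∧ HasCompactSupport (fun x => fderiv ℝ Φ x (kk x)) := by
  obtain ⟨h1, h2, _⟩ := hΦ.cb
  have h3 : (fun x => fderiv ℝ Φ x (kk x)) = fun x => fderiv ℝ Φ x (kt τ x) := by
    funext x
    by_cases hx : x ∈ tsupport Φ
    · rw [kt_eq (h x hx)]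
    · have h4 : fderiv ℝ Φ x = 0 := by
        by_contra hne
        exact hx (support_fderiv_subset ℝ hne)
      rw [h4]
      rfl
  constructor
  · rw [h3]
    exact (h1.continuous_fderiv (by norm_num)).clm_apply (kt_continuous hτ)
  · refine (h2.fderiv (𝕜 := ℝ)).mono ?_
    intro x hx hne
    apply hx
    change fderiv ℝ Φ x (kk x) = 0
    rw [hne]
    rfl

private theorem P4_aux_u {Φ : E3 → ℝ} (hΦ : Φ ∈ CB) : ∃ M : ℝ, 0 ≤ M ∧ ∀ (u : E3 → E3) (N : ℝ),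
    Fld u N → MemLp (fun x => fderiv ℝ Φ x (u x)) 2 volume ∧
      eLpNorm (fun x => fderiv ℝ Φ x (u x)) 2 volume ≤ ENNReal.ofReal (M * N) := by
  obtain ⟨h1, h2, _⟩ := hΦ
  have h3 : Continuous (fderiv ℝ Φ) := h1.continuous_fderiv (by norm_num)
  obtain ⟨M, hM⟩ := h3.bounded_above_of_compact_support (h2.fderiv (𝕜 := ℝ))
  have hM0 : 0 ≤ M := (norm_nonneg _).trans (hM 0)
  refine ⟨M, hM0, fun u N hu => ?_⟩
  have hm : StronglyMeasurable (fun x => fderiv ℝ Φ x (u x)) :=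
    isBoundedBilinearMap_apply.continuous.comp_stronglyMeasurable
      (h3.stronglyMeasurable.prodMk hu.meas)
  have hb : ∀ᵐ x ∂(volume : Measure E3), ‖fderiv ℝ Φ x (u x)‖ ≤ M * ‖u x‖ := by
    refine Filter.Eventually.of_forall fun x => ?_
    exact (ContinuousLinearMap.le_opNorm _ _).trans
      (mul_le_mul_of_nonneg_right (hM x) (norm_nonneg _))
  refine ⟨hu.memLp.of_le_mul hm.aestronglyMeasurable hb, ?_⟩
  refine (eLpNorm_le_mul_eLpNorm_of_ae_le_mul hb 2).trans ?_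
  rw [ENNReal.ofReal_mul hM0]
  gcongr
  exact hu.norm

private theorem P4_aux_cs {f g : E3 → ℝ} {a b : ℝ} (hf : MemLp f 2 volume) (hg : MemLp g 2 volume)
    (ha : 0 ≤ a) (hb : 0 ≤ b) (hfa : eLpNorm f 2 volume ≤ ENNReal.ofReal a)
    (hgb : eLpNorm g 2 volume ≤ ENNReal.ofReal b) : |∫ x, f x * g x| ≤ a * b := by
  apply P4_aux_abs _ (mul_nonneg ha hb)
  refine (enorm_integral_le_lintegral_enorm _).trans ?_
  have h1 := eLpNorm_smul_le_mul_eLpNorm (p := 2) (q := 2) (r := 1) hg.1 hf.1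
  rw [eLpNorm_one_eq_lintegral_enorm] at h1
  rw [ENNReal.ofReal_mul ha]
  exact h1.trans (mul_le_mul' hfa hgb)

private theorem P4_aux_j {j : ℝ → ℝ} {K : ℝ} (hj : Ent j K) {f : E3 → ℝ}
    (hf : MemLp f 2 volume) : MemLp (fun x => j (f x)) 2 volume := by
  refine hf.of_le_mul (c := K) ?_ ?_
  · exact hj.smooth.continuous.comp_aestronglyMeasurable hf.1
  · refine Filter.Eventually.of_forall fun x => ?_
    rw [Real.norm_eq_abs, Real.norm_eq_abs, abs_of_nonneg (hj.nonneg _)]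
    exact hj.le _

private theorem P4_aux_W {Φ : E3 → ℝ} (hΦ : TA Φ) : ∃ M : ℝ, 0 ≤ M ∧ ∀ (u : E3 → E3) (N : ℝ),
    Fld u N →
    MemLp (fun x => slap Φ x + fderiv ℝ Φ x (kk x) + fderiv ℝ Φ x (u x)) 2 volume ∧
      eLpNorm (fun x => slap Φ x + fderiv ℝ Φ x (kk x) + fderiv ℝ Φ x (u x)) 2 volume ≤
        ENNReal.ofReal (M * (1 + N)) := by
  obtain ⟨M, hM, hu⟩ := P4_aux_u hΦ.cb
  obtain ⟨τ, hτ, ε₀, hε₀, h⟩ := exists_tau hΦ.cb.2.1.isCompact hΦ.off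
  have h1 := P4_aux_slap hΦ.cb
  have h2 := P4_aux_kk hΦ hτ (fun x hx => h x hx x (by rw [sub_self, norm_zero]; exact hε₀.le))
  have h3 : MemLp (fun x => slap Φ x + fderiv ℝ Φ x (kk x)) 2 (volume : Measure E3) :=
    (h1.1.add h2.1).memLp_of_hasCompactSupport (h1.2.add h2.2)
  obtain ⟨L, hL⟩ : ∃ L : ℝ, L = (eLpNorm (fun x => slap Φ x + fderiv ℝ Φ x (kk x)) 2
    (volume : Measure E3)).toReal := ⟨_, rfl⟩
  have hL0 : 0 ≤ L := by rw [hL]; exact ENNReal.toReal_nonneg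
  have hL1 : eLpNorm (fun x => slap Φ x + fderiv ℝ Φ x (kk x)) 2 (volume : Measure E3) =
      ENNReal.ofReal L := by
    rw [hL, ENNReal.ofReal_toReal h3.2.ne]
  refine ⟨L + M, by positivity, fun u N hN => ?_⟩
  obtain ⟨h4, h5⟩ := hu u N hN
  refine ⟨h3.add h4, ?_⟩
  refine (eLpNorm_add_le h3.1 h4.1 (by norm_num)).trans ?_
  rw [hL1]
  refine (add_le_add le_rfl h5).trans ?_
  rw [← ENNReal.ofReal_add hL0 (mul_nonneg hM hN.nonneg)]
  apply ENNReal.ofReal_le_ofReal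
  have := hN.nonneg
  nlinarith

theorem GP_bound {j : ℝ → ℝ} {Kj : ℝ} (hj : Ent j Kj) {Φ : E3 → ℝ} (hΦ : TA Φ) :
    ∃ L : ℝ, 0 ≤ L ∧ ∀ (u : E3 → E3) (N : ℝ), Fld u N → |GP j Φ u| ≤ L * (1 + N ^ 2) := by
  obtain ⟨M, hM, hW⟩ := P4_aux_W hΦ
  have hK := P4_aux_K hj
  refine ⟨2 * (Kj * M), by positivity, fun u N hu => ?_⟩
  obtain ⟨h1, h2⟩ := hW u N hu
  have hN := hu.nonneg
  have h6 := P4_aux_j hj (gam_memLp hu)
  have h8 : eLpNorm (fun x => j (gam u x)) 2 (volume : Measure E3) ≤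
      ENNReal.ofReal (Kj * N) := by
    have hb : ∀ᵐ x ∂(volume : Measure E3), ‖j (gam u x)‖ ≤ Kj * ‖gam u x‖ := by
      refine Filter.Eventually.of_forall fun x => ?_
      rw [Real.norm_eq_abs, Real.norm_eq_abs, abs_of_nonneg (hj.nonneg _)]
      exact hj.le _
    refine (eLpNorm_le_mul_eLpNorm_of_ae_le_mul hb 2).trans ?_
    rw [ENNReal.ofReal_mul hK]
    gcongr
    exact gam_norm hu
  have h9 := P4_aux_cs h6 h1 (by positivity) (by positivity) h8 h2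
  have h11 : N * (1 + N) ≤ 2 * (1 + N ^ 2) := by nlinarith [sq_nonneg (N - 1)]
  unfold GP
  refine h9.trans ?_
  calc Kj * N * (M * (1 + N)) = (Kj * M) * (N * (1 + N)) := by ring
    _ ≤ (Kj * M) * (2 * (1 + N ^ 2)) := mul_le_mul_of_nonneg_left h11 (by positivity)
    _ = _ := by ring

theorem GP_sm {zt p κ δ q K : ℝ} {A : L2 →L[ℝ] L2} {ev : L2 → E3 → E3}
    (h : Ctx zt p κ δ q A K ev) (C : Core zt p κ δ q) {j : ℝ → ℝ} {Kj : ℝ} (hj : Ent j Kj)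
    {Φ : E3 → ℝ} (hΦ : Φ ∈ CB) : StronglyMeasurable fun z => GP j Φ (uv C A ev z) := by
  have h1 : StronglyMeasurable fun y : (ℝ × C.Ω) × E3 => j (gam (uv C A ev y.1) y.2) :=
    hj.smooth.continuous.comp_stronglyMeasurable (gam_joint h C)
  have h2 : StronglyMeasurable fun y : (ℝ × C.Ω) × E3 => slap Φ y.2 :=
    (P4_aux_slap hΦ).1.stronglyMeasurable.comp_measurable measurable_snd
  have hc : Continuous (fderiv ℝ Φ) := hΦ.1.continuous_fderiv (by norm_num)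
  have hf : StronglyMeasurable fun y : (ℝ × C.Ω) × E3 => fderiv ℝ Φ y.2 :=
    hc.stronglyMeasurable.comp_measurable measurable_snd
  have h3 : StronglyMeasurable fun y : (ℝ × C.Ω) × E3 => fderiv ℝ Φ y.2 (kk y.2) :=
    isBoundedBilinearMap_apply.continuous.comp_stronglyMeasurable
      (hf.prodMk (kk_measurable.comp measurable_snd).stronglyMeasurable)
  have h4 : StronglyMeasurable fun y : (ℝ × C.Ω) × E3 => fderiv ℝ Φ y.2 (uv C A ev y.1 y.2) :=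
    isBoundedBilinearMap_apply.continuous.comp_stronglyMeasurable (hf.prodMk (uv_sm h C))
  have h5 := h1.mul ((h2.add h3).add h4)
  exact h5.integral_prod_right

theorem GP_integrable {zt p κ δ q K : ℝ} {A : L2 →L[ℝ] L2} {ev : L2 → E3 → E3}
    (h : Ctx zt p κ δ q A K ev) (C : Core zt p κ δ q) {j : ℝ → ℝ} {Kj : ℝ} (hj : Ent j Kj)
    {Φ : E3 → ℝ} (hΦ : TA Φ) : Integrable (fun z => GP j Φ (uv C A ev z)) (mz C 1) := by
  obtain ⟨L, hL, hG⟩ := GP_bound hj hΦ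
  obtain ⟨K', hK', hF⟩ := exists_fld h
  obtain ⟨C1, hC1, hw⟩ := exists_nw_sq h
  have hfin : IsFiniteMeasure (mz C 1) := ⟨by rw [mz_univ]; exact ENNReal.ofReal_lt_top⟩
  have h1 : Integrable (fun z => L * (1 + K' ^ 2 * nw C z ^ 2)) (mz C 1) :=
    ((integrable_const (1 : ℝ)).add ((hw C).1.const_mul (K' ^ 2))).const_mul L
  refine h1.mono' (GP_sm h C hj hΦ.cb).aestronglyMeasurable (ae_of_all _ fun z => ?_)
  have h2 := hG _ _ (hF (C.w z.1 z.2))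
  rw [Real.norm_eq_abs]
  refine h2.trans (le_of_eq ?_)
  unfold nw
  ring

/-- The right side of the entropy inequality. -/
noncomputable def RH {zt p κ δ q : ℝ} (C : Core zt p κ δ q) (A : L2 →L[ℝ] L2)
    (ev : L2 → E3 → E3) (j : ℝ → ℝ) (Φ : E3 → ℝ) (t : ℝ) : ℝ :=
  (∫ x, j (Gam0 x) * Φ x) + ∫ z, GP j Φ (uv C A ev z) ∂(mz C t)

theorem cc_sq {zt : ℝ} (h1 : 1 < zt) (h2 : zt ≤ 6 / 5) : cc zt ^ 2 < 2 := by
  have hπ := Real.pi_pos
  have h0 : 0 < zt := by linarith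
  have h3 : Real.pi / zt < Real.pi := div_lt_self hπ h1
  have h4 : Real.cos Real.pi < Real.cos (Real.pi / zt) :=
    Real.cos_lt_cos_of_nonneg_of_le_pi (by positivity) le_rfl h3
  rw [Real.cos_pi] at h4
  unfold cc
  rcases le_total 0 (-2 * Real.cos (Real.pi / zt)) with h5 | h5
  · rw [Real.sq_sqrt h5]
    linarith
  · rw [Real.sqrt_eq_zero_of_nonpos h5]
    norm_num

private theorem P4_supp {Φ : E3 → ℝ} (hΦ : Φ ∈ CB) :
    ∃ r : ℝ, 0 < r ∧ ∀ x, 1 - r < ‖x‖ → Φ x = 0 := by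
  obtain ⟨_, h2, h3⟩ := hΦ
  rcases (tsupport Φ).eq_empty_or_nonempty with h4 | h4
  · refine ⟨1, one_pos, fun x _ => ?_⟩
    have : x ∉ tsupport Φ := by rw [h4]; exact notMem_empty x
    exact image_eq_zero_of_notMem_tsupport this
  · obtain ⟨y, hy, hmax⟩ := h2.isCompact.exists_isMaxOn h4 continuous_norm.continuousOn
    have hy1 : ‖y‖ < 1 := by
      have := h3 hy
      simpa [Bl] using this
    refine ⟨1 - ‖y‖, by linarith, fun x hx => ?_⟩
    by_contra hne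
    have h5 : x ∈ tsupport Φ := subset_tsupport Φ hne
    have h6 : ‖x‖ ≤ ‖y‖ := hmax h5
    linarith

/-- PROOF: `fub`, `det_ineq` (`cc_sq`), `exists_fld`, `exists_nw_sq`, `Gam0_moll` with `Ent.lip`;
`ε^(1/2) ≤ ε^(1/16)`. -/
theorem fub_le {zt p κ δ q K : ℝ} {A : L2 →L[ℝ] L2} {ev : L2 → E3 → E3}
    (h : Ctx zt p κ δ q A K ev) {j : ℝ → ℝ} {Kj : ℝ} (hj : Ent j Kj) {Φ : E3 → ℝ} (hΦ : TA Φ) :
    ∃ C0 : ℝ, 0 ≤ C0 ∧ ∃ ε₀ : ℝ, 0 < ε₀ ∧ ε₀ ≤ 1 ∧ (∀ x, 1 - 2 * ε₀ < ‖x‖ → Φ x = 0) ∧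
      ∀ C : Core zt p κ δ q, ∀ ε : ℝ, 0 < ε → ε ≤ ε₀ → ∀ t ∈ Icc (0 : ℝ) 1,
        ∫ x, Φ x * (∫ ω, j (C.X (hk ε x) t ω) ∂C.P) ≤ RH C A ev j Φ t + C0 * ε ^ (1 / 16 : ℝ) := by
  have hKj := P4_aux_K hj
  obtain ⟨K', hK', hF⟩ := exists_fld h
  obtain ⟨C1, hC1, hw⟩ := exists_nw_sq h
  obtain ⟨D, hD, ε₁, hε₁, hdet⟩ := det_ineq (cc_sq h.par.z1 h.par.z2) hj hΦ
  obtain ⟨r, hr, hsupp⟩ := P4_supp hΦ.cb
  have hΦi : Integrable Φ := hΦ.cb.1.continuous.integrable_of_hasCompactSupport hΦ.cb.2.1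
  have hΦ0 : 0 ≤ ∫ x, Φ x := integral_nonneg hΦ.nonneg
  set ε₀ : ℝ := min (min ε₁ (r / 2)) 1 with hε₀
  have hε₀p : 0 < ε₀ := lt_min (lt_min hε₁ (by linarith)) one_pos
  have hε₀r : ε₀ ≤ r / 2 := (min_le_left _ _).trans (min_le_right _ _)
  have hε₀1 : ε₀ ≤ ε₁ := (min_le_left _ _).trans (min_le_left _ _)
  refine ⟨6 * Kj * (∫ x, Φ x) + D * (1 + K' ^ 2 * C1), by positivity, ε₀, hε₀p, min_le_right _ _,
    fun x hx => hsupp x (by linarith), fun C ε hε hε' t ht => ?_⟩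
  have hε1 : ε ≤ 1 := hε'.trans (min_le_right _ _)
  have hfin : IsFiniteMeasure (mz C 1) := ⟨by rw [mz_univ]; exact ENNReal.ofReal_lt_top⟩
  obtain ⟨i1, _, e1⟩ := fub h C (R := 1 - 2 * ε₀) hε (by linarith) hj hΦ
    (fun x hx => hsupp x (by linarith)) ht
  rw [e1]
  have hle : mz C t ≤ mz C 1 := mz_mono C ht.2
  -- the initial datum
  have hp0 : 0 ≤ ε ^ (1 / 16 : ℝ) := Real.rpow_nonneg hε.le _
  have hp1 : ε ^ (1 / 2 : ℝ) ≤ ε ^ (1 / 16 : ℝ) :=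
    Real.rpow_le_rpow_of_exponent_ge hε hε1 (by norm_num)
  have m0 : Measurable fun x => j (Gam0 x) := hj.smooth.continuous.measurable.comp Gam0_meas
  have b0 : ∀ x, |j (Gam0 x)| ≤ Kj := fun x => by
    rw [abs_of_nonneg (hj.nonneg _)]
    refine (hj.le _).trans ?_
    rw [abs_of_nonneg (Gam0_nonneg x)]
    exact mul_le_of_le_one_right hKj (Gam0_le_one x)
  have i2 : Integrable (fun x => j (Gam0 x) * Φ x) :=
    hΦi.bdd_mul m0.aestronglyMeasurable (ae_of_all _ b0)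
  have i3 : Integrable (fun x => j (Gam0 x) * Φ x + 6 * Kj * ε ^ (1 / 16 : ℝ) * Φ x) :=
    i2.add (hΦi.const_mul _)
  have s1 : ∫ x, Φ x * j (∫ y, Gam0 y * hk ε x y) ≤
      (∫ x, j (Gam0 x) * Φ x) + 6 * Kj * ε ^ (1 / 16 : ℝ) * ∫ x, Φ x := by
    rw [← integral_const_mul, ← integral_add i2 (hΦi.const_mul _)]
    refine integral_mono_of_nonneg
      (ae_of_all _ fun x => mul_nonneg (hΦ.nonneg x) (hj.nonneg _)) i3 (ae_of_all _ fun x => ?_)
    have h1 := hj.lip (∫ y, Gam0 y * hk ε x y) (Gam0 x)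
    have h2 := Gam0_moll hε hε1 x
    have h3 : j (∫ y, Gam0 y * hk ε x y) ≤ j (Gam0 x) + 6 * Kj * ε ^ (1 / 16 : ℝ) := by
      have h4 := le_abs_self (j (∫ y, Gam0 y * hk ε x y) - j (Gam0 x))
      have h5 := mul_le_mul_of_nonneg_left h2 hKj
      linarith
    have h6 := mul_le_mul_of_nonneg_left h3 (hΦ.nonneg x)
    simp only
    linarith
  -- the integral in time
  have i4 : Integrable (fun z => nw C z ^ 2) (mz C t) := (hw C).1.mono_measure hle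
  have i5 : Integrable (fun z => GP j Φ (uv C A ev z)) (mz C t) :=
    (GP_integrable h C hj hΦ).mono_measure hle
  have hfint : IsFiniteMeasure (mz C t) := ⟨by rw [mz_univ]; exact ENNReal.ofReal_lt_top⟩
  have i6 : Integrable (fun z => D * ε ^ (1 / 2 : ℝ) * (1 + K' ^ 2 * nw C z ^ 2)) (mz C t) :=
    ((integrable_const (1 : ℝ)).add (i4.const_mul (K' ^ 2))).const_mul _
  have s2 : ∫ z, LU (cc zt) ε j Φ (uv C A ev z) ∂(mz C t) ≤
      (∫ z, GP j Φ (uv C A ev z) ∂(mz C t)) +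
        ∫ z, D * ε ^ (1 / 2 : ℝ) * (1 + K' ^ 2 * nw C z ^ 2) ∂(mz C t) := by
    rw [← integral_add i5 i6]
    refine integral_mono (i1.mono_measure hle) (i5.add i6) fun z => ?_
    have h1 := hdet ε hε (hε'.trans hε₀1) _ _ (hF (C.w z.1 z.2))
    refine h1.trans (le_of_eq ?_)
    unfold uv nw
    ring
  have s3 : ∫ z, D * ε ^ (1 / 2 : ℝ) * (1 + K' ^ 2 * nw C z ^ 2) ∂(mz C t) ≤
      D * (1 + K' ^ 2 * C1) * ε ^ (1 / 16 : ℝ) := by
    have i7 : Integrable (fun z => D * ε ^ (1 / 2 : ℝ) * (1 + K' ^ 2 * nw C z ^ 2)) (mz C 1) :=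
      ((integrable_const (1 : ℝ)).add ((hw C).1.const_mul (K' ^ 2))).const_mul _
    have hn : ∀ z, 0 ≤ D * ε ^ (1 / 2 : ℝ) * (1 + K' ^ 2 * nw C z ^ 2) := fun z =>
      mul_nonneg (mul_nonneg hD (Real.rpow_nonneg hε.le _)) (by positivity)
    calc ∫ z, D * ε ^ (1 / 2 : ℝ) * (1 + K' ^ 2 * nw C z ^ 2) ∂(mz C t)
        ≤ ∫ z, D * ε ^ (1 / 2 : ℝ) * (1 + K' ^ 2 * nw C z ^ 2) ∂(mz C 1) :=
          integral_mono_measure hle (ae_of_all _ hn) i7
      _ = D * ε ^ (1 / 2 : ℝ) * (1 + K' ^ 2 * ∫ z, nw C z ^ 2 ∂(mz C 1)) := by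
          rw [integral_const_mul, integral_add (integrable_const _) ((hw C).1.const_mul _),
            integral_const, integral_const_mul, Measure.real, mz_univ]
          simp
      _ ≤ D * ε ^ (1 / 2 : ℝ) * (1 + K' ^ 2 * C1) := by
          refine mul_le_mul_of_nonneg_left ?_ (mul_nonneg hD (Real.rpow_nonneg hε.le _))
          have := mul_le_mul_of_nonneg_left (hw C).2.1 (sq_nonneg K')
          linarith
      _ ≤ D * ε ^ (1 / 16 : ℝ) * (1 + K' ^ 2 * C1) := by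
          refine mul_le_mul_of_nonneg_right (mul_le_mul_of_nonneg_left hp1 hD) (by positivity)
      _ = _ := by ring
  unfold RH
  nlinarith [s1, s2, s3]

end Pool.Agent.W_332fe5
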