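import Pool.Agent.W_332fe5_h65.B5Defs

set_option autoImplicit false

/-! Block 5, R1: the mollifier. -/

open MeasureTheory ProbabilityTheory Set Filter Topology
open scoped ENNReal NNReal ContDiff

namespace Pool.Agent.W_332fe5

theorem ker_contDiff : ContDiff ℝ ∞ ker :=   Real.smoothTransition.contDiff.comp (contDiff_const.sub (contDiff_norm_sq ℝ))

theorem ker_nonneg (x : E3) : 0 ≤ ker x :=   Real.smoothTransition.nonneg _

theorem ker_le_one (x : E3) : ker x ≤ 1 :=   Real.smoothTransition.le_one _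

theorem ker_zero {x : E3} (h : 1 ≤ ‖x‖) : ker x = 0 := by
  unfold ker
  apply Real.smoothTransition.zero_of_nonpos
  nlinarith [norm_nonneg x]

theorem ker_compact : HasCompactSupport ker := by
  refine HasCompactSupport.intro (isCompact_closedBall (0 : E3) 1) fun x hx => ker_zero ?_
  rw [Metric.mem_closedBall, dist_zero_right, not_le] at hx
  exact hx.le

theorem ker_integral_pos : 0 < ∫ y, ker y := by
  refine ker_contDiff.continuous.integral_pos_of_hasCompactSupport_nonneg_nonzero ker_compact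
    (fun x => ker_nonneg x) (x := 0) ?_
  unfold ker
  rw [norm_zero]
  norm_num [Real.smoothTransition.one]

theorem rho_contDiff (ε : ℝ) : ContDiff ℝ ∞ (rho ε) := by
  have h1 : ContDiff ℝ ∞ (fun z : E3 => ε⁻¹ • z) := contDiff_id.const_smul ε⁻¹
  have h2 : ContDiff ℝ ∞ (fun z : E3 => ker (ε⁻¹ • z)) := ker_contDiff.comp h1
  exact contDiff_const.mul h2

theorem rho_nonneg {ε : ℝ} (hε : 0 < ε) (z : E3) : 0 ≤ rho ε z := by
  unfold rho
  have h1 := ker_integral_pos
  exact mul_nonneg (inv_nonneg.2 (mul_nonneg (pow_nonneg hε.le 3) h1.le)) (ker_nonneg _)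

theorem rho_zero {ε : ℝ} (hε : 0 < ε) {z : E3} (h : ε ≤ ‖z‖) : rho ε z = 0 := by
  unfold rho
  rw [ker_zero, mul_zero]
  rw [norm_smul, norm_inv, Real.norm_of_nonneg hε.le, inv_mul_eq_div, le_div_iff₀ hε, one_mul]
  exact h

theorem rho_neg (ε : ℝ) (z : E3) : rho ε (-z) = rho ε z := by
  unfold rho ker
  rw [smul_neg, norm_neg]

theorem rho_tsupport {ε : ℝ} (hε : 0 < ε) : tsupport (rho ε) ⊆ Metric.closedBall 0 ε := by
  refine closure_minimal ?_ Metric.isClosed_closedBall
  intro z hz
  rw [Metric.mem_closedBall, dist_zero_right]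
  by_contra hc
  exact hz (rho_zero hε (not_le.1 hc).le)

theorem rho_compact {ε : ℝ} (hε : 0 < ε) : HasCompactSupport (rho ε) :=   (isCompact_closedBall (0 : E3) ε).of_isClosed_subset (isClosed_tsupport _) (rho_tsupport hε)

/-- PROOF: scaling, `Measure.integral_comp_smul` or `integral_comp_inv_smul`, `finrank = 3`. -/
theorem rho_integral {ε : ℝ} (hε : 0 < ε) : ∫ z, rho ε z = 1 := by
  unfold rho
  rw [integral_const_mul, Measure.integral_comp_inv_smul, finrank_euclideanSpace, Fintype.card_fin,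
    smul_eq_mul, abs_of_pos (pow_pos hε 3)]
  exact inv_mul_cancel₀ (mul_pos (pow_pos hε 3) ker_integral_pos).ne'

end Pool.Agent.W_332fe5
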