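import Pool.Agent.W_332fe5_h65.R1

set_option autoImplicit false

/-! Block 5, R2: derivatives of the mollifier. -/

open MeasureTheory ProbabilityTheory Set Filter Topology
open scoped ENNReal NNReal ContDiff

namespace Pool.Agent.W_332fe5

theorem fderiv_rho {ε : ℝ} (hε : 0 < ε) (z : E3) :
    fderiv ℝ (rho ε) z = (ε ^ 4 * ∫ y, ker y)⁻¹ • fderiv ℝ ker (ε⁻¹ • z) := by
  have hk : Differentiable ℝ ker := ker_contDiff.differentiable (by simp)
  have hs : DifferentiableAt ℝ (fun z : E3 => ε⁻¹ • z) z := differentiableAt_id.const_smul ε⁻¹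
  have hc : DifferentiableAt ℝ (fun z : E3 => ker (ε⁻¹ • z)) z :=
    (hk (ε⁻¹ • z)).comp (g := ker) z hs
  have h1 : fderiv ℝ (rho ε) z = (ε ^ 3 * ∫ y, ker y)⁻¹ • fderiv ℝ (fun z : E3 => ker (ε⁻¹ • z)) z :=
    fderiv_const_mul hc _
  rw [h1, fderiv_comp_smul, smul_smul]
  congr 1
  rw [← mul_inv]
  congr 1
  ring

theorem R2_fderiv_ker_zero {z : E3} (h : 1 ≤ ‖z‖) : fderiv ℝ ker z = 0 := by
  have hmin : IsLocalMin ker z := Eventually.of_forall fun y => by
    show ker z ≤ ker y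
    rw [ker_zero h]
    exact ker_nonneg y
  exact hmin.fderiv_eq_zero

theorem fderiv_rho_zero {ε : ℝ} (hε : 0 < ε) {z : E3} (h : ε ≤ ‖z‖) : fderiv ℝ (rho ε) z = 0 := by
  have hmin : IsLocalMin (rho ε) z := Eventually.of_forall fun y => by
    show rho ε z ≤ rho ε y
    rw [rho_zero hε h]
    exact rho_nonneg hε y
  exact hmin.fderiv_eq_zero

theorem R2_fderiv_cont (ε : ℝ) : Continuous (fun z => fderiv ℝ (rho ε) z) :=
  (rho_contDiff ε).continuous_fderiv (by simp)

theorem Kep_continuous (ε : ℝ) : Continuous (Kep ε) := by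
  have h1 : Continuous (fun z : E3 => fderiv ℝ (rho ε) z z) :=
    (R2_fderiv_cont ε).clm_apply continuous_id
  exact h1.add (continuous_const.mul (rho_contDiff ε).continuous)

theorem Kep_zero {ε : ℝ} (hε : 0 < ε) {z : E3} (h : ε ≤ ‖z‖) : Kep ε z = 0 := by
  unfold Kep
  rw [fderiv_rho_zero hε h, rho_zero hε h, mul_zero, add_zero]
  rfl

theorem R2_fderiv_compact {ε : ℝ} (hε : 0 < ε) :
    HasCompactSupport (fun z => fderiv ℝ (rho ε) z) := by
  refine HasCompactSupport.intro (isCompact_closedBall (0 : E3) ε) fun x hx => fderiv_rho_zero hε ?_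
  rw [Metric.mem_closedBall, dist_zero_right, not_le] at hx
  exact hx.le

theorem R2_fderiv_integrable {ε : ℝ} (hε : 0 < ε) :
    Integrable (fun z => fderiv ℝ (rho ε) z) (volume : Measure E3) :=
  (R2_fderiv_cont ε).integrable_of_hasCompactSupport (R2_fderiv_compact hε)

theorem R2_norm {ε : ℝ} (hε : 0 < ε) :
    ∫ z : E3, ‖fderiv ℝ (rho ε) z‖ = ((∫ z : E3, ‖fderiv ℝ ker z‖) / ∫ y, ker y) / ε := by
  have h1 : ∀ z : E3, ‖fderiv ℝ (rho ε) z‖ =
      (ε ^ 4 * ∫ y, ker y)⁻¹ * ‖fderiv ℝ ker (ε⁻¹ • z)‖ := by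
    intro z
    rw [fderiv_rho hε, norm_smul, Real.norm_of_nonneg]
    exact inv_nonneg.2 (mul_nonneg (pow_nonneg hε.le 4) ker_integral_pos.le)
  simp_rw [h1]
  rw [integral_const_mul,
    Measure.integral_comp_inv_smul (μ := (volume : Measure E3)) (fun z => ‖fderiv ℝ ker z‖) ε,
    finrank_euclideanSpace, Fintype.card_fin, smul_eq_mul, abs_of_pos (pow_pos hε 3)]
  have h2 := ker_integral_pos.ne'
  generalize (∫ z : E3, ‖fderiv ℝ ker z‖) = a at *
  generalize (∫ y, ker y) = b at *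
  field_simp

/-- PROOF: scaling; the constant is `∫ ‖fderiv ℝ ker‖ / ∫ ker`. -/
theorem exists_fderiv_rho_bound : ∃ C : ℝ, 0 ≤ C ∧ ∀ ε : ℝ, 0 < ε →
    ∫⁻ z, ‖fderiv ℝ (rho ε) z‖ₑ ≤ ENNReal.ofReal (C / ε) := by
  refine ⟨(∫ z : E3, ‖fderiv ℝ ker z‖) / ∫ y, ker y, ?_, fun ε hε => ?_⟩
  · exact div_nonneg (integral_nonneg fun z => norm_nonneg _) ker_integral_pos.le
  · rw [← R2_norm hε, ofReal_integral_norm_eq_lintegral_enorm (R2_fderiv_integrable hε)]

theorem R2_rho_integrable {ε : ℝ} (hε : 0 < ε) : Integrable (rho ε) (volume : Measure E3) :=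
  (rho_contDiff ε).continuous.integrable_of_hasCompactSupport (rho_compact hε)

theorem R2_Kep_integrable {ε : ℝ} (hε : 0 < ε) : Integrable (Kep ε) (volume : Measure E3) := by
  refine (Kep_continuous ε).integrable_of_hasCompactSupport ?_
  refine HasCompactSupport.intro (isCompact_closedBall (0 : E3) ε) fun x hx => Kep_zero hε ?_
  rw [Metric.mem_closedBall, dist_zero_right, not_le] at hx
  exact hx.le

/-- PROOF: `|Kep ε z| ≤ ε ‖fderiv ℝ (rho ε) z‖ + 3 rho ε z`. -/
theorem exists_Kep_bound : ∃ C : ℝ, 0 ≤ C ∧ ∀ ε : ℝ, 0 < ε →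
    ∫⁻ z, ‖Kep ε z‖ₑ ≤ ENNReal.ofReal C := by
  have hC0 : 0 ≤ (∫ z : E3, ‖fderiv ℝ ker z‖) / ∫ y, ker y :=
    div_nonneg (integral_nonneg fun z => norm_nonneg _) ker_integral_pos.le
  refine ⟨(∫ z : E3, ‖fderiv ℝ ker z‖) / (∫ y, ker y) + 3, by linarith, fun ε hε => ?_⟩
  rw [← ofReal_integral_norm_eq_lintegral_enorm (R2_Kep_integrable hε)]
  apply ENNReal.ofReal_le_ofReal
  have hpt : ∀ z : E3, ‖Kep ε z‖ ≤ ε * ‖fderiv ℝ (rho ε) z‖ + 3 * rho ε z := by
    intro z
    by_cases hz : ε ≤ ‖z‖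
    · rw [Kep_zero hε hz, norm_zero]
      exact add_nonneg (mul_nonneg hε.le (norm_nonneg _))
        (mul_nonneg (by norm_num) (rho_nonneg hε z))
    · unfold Kep
      have h1 : ‖fderiv ℝ (rho ε) z z‖ ≤ ε * ‖fderiv ℝ (rho ε) z‖ := by
        refine (ContinuousLinearMap.le_opNorm _ _).trans ?_
        rw [mul_comm]
        exact mul_le_mul_of_nonneg_right (not_le.1 hz).le (norm_nonneg _)
      have h2 : ‖3 * rho ε z‖ = 3 * rho ε z :=
        Real.norm_of_nonneg (mul_nonneg (by norm_num) (rho_nonneg hε z))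
      refine (norm_add_le _ _).trans ?_
      rw [h2]
      exact add_le_add h1 le_rfl
  have hi1 : Integrable (fun z : E3 => ε * ‖fderiv ℝ (rho ε) z‖) volume :=
    (R2_fderiv_integrable hε).norm.const_mul ε
  have hi2 : Integrable (fun z : E3 => 3 * rho ε z) volume := (R2_rho_integrable hε).const_mul 3
  calc ∫ z, ‖Kep ε z‖ ≤ ∫ z : E3, (ε * ‖fderiv ℝ (rho ε) z‖ + 3 * rho ε z) :=
        integral_mono (R2_Kep_integrable hε).norm (hi1.add hi2) hpt
    _ = ε * (∫ z : E3, ‖fderiv ℝ (rho ε) z‖) + 3 * ∫ z, rho ε z := by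
        rw [integral_add hi1 hi2, integral_const_mul, integral_const_mul]
    _ = (∫ z : E3, ‖fderiv ℝ ker z‖) / (∫ y, ker y) + 3 := by
        rw [R2_norm hε, rho_integral hε, mul_one, mul_div_cancel₀ _ hε.ne']

/-- PROOF: integral of a derivative of a compactly supported function. -/
theorem integral_fderiv_rho {ε : ℝ} (hε : 0 < ε) (v : E3) : ∫ z, fderiv ℝ (rho ε) z v = 0 := by
  have hd : Differentiable ℝ (rho ε) := (rho_contDiff ε).differentiable (by simp)
  have hi : Integrable (fun z : E3 => fderiv ℝ (rho ε) z v) volume :=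
    (R2_fderiv_integrable hε).apply_continuousLinearMap v
  have h := integral_mul_fderiv_eq_neg_fderiv_mul_of_integrable (μ := (volume : Measure E3))
    (f := fun _ : E3 => (1 : ℝ)) (g := rho ε) (v := v) (by simp) (by simpa using hi)
    (by simpa using R2_rho_integrable hε) (fun x _ => differentiableAt_const _) (fun x _ => hd x)
  simpa using h

theorem R2_coord {ε : ℝ} (hε : 0 < ε) (j : Fin 3) :
    Integrable (fun z : E3 => z j * fderiv ℝ (rho ε) z (EuclideanSpace.single j 1)) volume ∧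
    ∫ z : E3, z j * fderiv ℝ (rho ε) z (EuclideanSpace.single j 1) = -1 := by
  have hd : Differentiable ℝ (rho ε) := (rho_contDiff ε).differentiable (by simp)
  have hc : Continuous (fun z : E3 => z j) := (EuclideanSpace.proj (𝕜 := ℝ) j).continuous
  have hi : Integrable (fun z : E3 => z j * fderiv ℝ (rho ε) z (EuclideanSpace.single j 1))
      volume := by
    refine Continuous.integrable_of_hasCompactSupport ?_ ?_
    · exact hc.mul ((R2_fderiv_cont ε).clm_apply continuous_const)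
    · refine HasCompactSupport.intro (isCompact_closedBall (0 : E3) ε) fun x hx => ?_
      rw [Metric.mem_closedBall, dist_zero_right, not_le] at hx
      rw [fderiv_rho_zero hε hx.le]
      simp
  have hi2 : Integrable (fun z : E3 => z j * rho ε z) volume := by
    refine Continuous.integrable_of_hasCompactSupport ?_ ?_
    · exact hc.mul (rho_contDiff ε).continuous
    · refine HasCompactSupport.intro (isCompact_closedBall (0 : E3) ε) fun x hx => ?_
      rw [Metric.mem_closedBall, dist_zero_right, not_le] at hx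
      rw [rho_zero hε hx.le, mul_zero]
  have hfd : ∀ z : E3, fderiv ℝ (fun z : E3 => z j) z (EuclideanSpace.single j 1) = 1 := by
    intro z
    have : fderiv ℝ (fun z : E3 => z j) z = EuclideanSpace.proj (𝕜 := ℝ) j :=
      (EuclideanSpace.proj (𝕜 := ℝ) j).fderiv
    rw [this]
    simp
  refine ⟨hi, ?_⟩
  have h := integral_mul_fderiv_eq_neg_fderiv_mul_of_integrable (μ := (volume : Measure E3))
    (f := fun z : E3 => z j) (g := rho ε) (v := EuclideanSpace.single j 1)
    (by simp_rw [hfd, one_mul]; exact R2_rho_integrable hε) hi hi2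
    (fun x _ => (EuclideanSpace.proj (𝕜 := ℝ) j).differentiableAt) (fun x _ => hd x)
  rw [h]
  simp_rw [hfd, one_mul]
  rw [rho_integral hε]

/-- PROOF: `z · ∇ρ + 3 ρ = ∑ ∂_j (z_j ρ)`. -/
theorem integral_Kep {ε : ℝ} (hε : 0 < ε) : ∫ z, Kep ε z = 0 := by
  have h1 : ∀ z : E3, fderiv ℝ (rho ε) z z =
      ∑ j : Fin 3, z j * fderiv ℝ (rho ε) z (EuclideanSpace.single j 1) := by
    intro z
    have hz : z = ∑ j : Fin 3, z j • EuclideanSpace.single j (1 : ℝ) := by
      ext i
      simp [Finset.sum_apply, Pi.single_apply]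
    conv_lhs => rw [hz]
    rw [map_sum]
    refine Finset.sum_congr rfl fun j _ => ?_
    rw [← hz, map_smul, smul_eq_mul]
  unfold Kep
  have hi1 : Integrable (fun z : E3 => fderiv ℝ (rho ε) z z) volume := by
    simp_rw [h1]
    exact integrable_finsetSum _ fun j _ => (R2_coord hε j).1
  rw [integral_add hi1 ((R2_rho_integrable hε).const_mul 3), integral_const_mul, rho_integral hε]
  simp_rw [h1]
  rw [integral_finsetSum _ fun j _ => (R2_coord hε j).1]
  simp_rw [(R2_coord hε _).2]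
  simp

end Pool.Agent.W_332fe5
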