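import Pool.Agent.W_332fe5_h65.R2

set_option autoImplicit false

/-! Block 5, R3: the test functions `hk ε x`. -/

open MeasureTheory ProbabilityTheory Set Filter Topology
open scoped ENNReal NNReal ContDiff

namespace Pool.Agent.W_332fe5

theorem hk_contDiff (ε : ℝ) (x : E3) : ContDiff ℝ ∞ (hk ε x) := by
  have h1 : ContDiff ℝ ∞ (fun y : E3 => x - y) := contDiff_const.sub contDiff_id
  exact (rho_contDiff ε).comp h1

theorem R3_supp {ε : ℝ} (hε : 0 < ε) (x : E3) : tsupport (hk ε x) ⊆ Metric.closedBall x ε := by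
  refine closure_minimal ?_ Metric.isClosed_closedBall
  intro y hy
  rw [Metric.mem_closedBall, dist_comm, dist_eq_norm]
  by_contra hc
  exact hy (rho_zero hε (not_le.1 hc).le)

theorem hk_mem_CB {ε : ℝ} (hε : 0 < ε) {x : E3} (h : ‖x‖ + ε < 1) : hk ε x ∈ CB := by
  refine ⟨hk_contDiff ε x, ?_, ?_⟩
  · exact (isCompact_closedBall x ε).of_isClosed_subset (isClosed_tsupport _) (R3_supp hε x)
  · refine (R3_supp hε x).trans ?_
    intro y hy
    rw [Metric.mem_closedBall, dist_eq_norm] at hy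
    unfold Bl
    rw [Metric.mem_ball, dist_zero_right]
    calc ‖y‖ = ‖x + (y - x)‖ := by rw [add_sub_cancel]
      _ ≤ ‖x‖ + ‖y - x‖ := norm_add_le _ _
      _ < 1 := by linarith

theorem R3_comp {F : E3 → ℝ} (hF : Differentiable ℝ F) (x y v : E3) :
    fderiv ℝ (fun z => F (x - z)) y v = -fderiv ℝ F (x - y) v := by
  have h1 : HasFDerivAt (fun z : E3 => x - z) (-(ContinuousLinearMap.id ℝ E3)) y :=
    (hasFDerivAt_id y).const_sub x
  have h2 := (hF (x - y)).hasFDerivAt.comp y h1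
  have h3 : fderiv ℝ (fun z => F (x - z)) y =
      (fderiv ℝ F (x - y)).comp (-(ContinuousLinearMap.id ℝ E3)) := h2.fderiv
  rw [h3]
  simp

theorem fderiv_hk (ε : ℝ) (x y v : E3) :
    fderiv ℝ (hk ε x) y v = -fderiv ℝ (rho ε) (x - y) v :=
  R3_comp ((rho_contDiff ε).differentiable (by simp)) x y v

theorem R3_fd_contDiff (ε : ℝ) (v : E3) : ContDiff ℝ ∞ (fun z => fderiv ℝ (rho ε) z v) :=
  ((rho_contDiff ε).fderiv_right (by simp)).clm_apply contDiff_const

theorem slap_hk (ε : ℝ) (x y : E3) : slap (hk ε x) y = slap (rho ε) (x - y) := by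
  unfold slap
  refine Finset.sum_congr rfl fun j _ => ?_
  set v : E3 := EuclideanSpace.single j 1 with hv
  have hF : Differentiable ℝ (fun z => fderiv ℝ (rho ε) z v) :=
    (R3_fd_contDiff ε v).differentiable (by simp)
  have h1 : (fun z => fderiv ℝ (hk ε x) z v) = fun z => -(fderiv ℝ (rho ε) (x - z) v) := by
    funext z
    exact fderiv_hk ε x z v
  rw [h1, fderiv_fun_neg]
  show -(fderiv ℝ (fun z => fderiv ℝ (rho ε) (x - z) v) y v) = _
  rw [R3_comp hF x y v, neg_neg]

theorem slap_rho_continuous (ε : ℝ) : Continuous (slap (rho ε)) := by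
  unfold slap
  refine continuous_finsetSum _ fun j _ => ?_
  exact ((R3_fd_contDiff ε _).continuous_fderiv (by simp)).clm_apply continuous_const

theorem slap_rho_zero {ε : ℝ} (hε : 0 < ε) {z : E3} (h : ε ≤ ‖z‖) : slap (rho ε) z = 0 := by
  have hclosed : IsClosed {w : E3 | slap (rho ε) w = 0} :=
    isClosed_eq (slap_rho_continuous ε) continuous_const
  have hsub : (Metric.closedBall (0 : E3) ε)ᶜ ⊆ {w : E3 | slap (rho ε) w = 0} := by
    intro w hw
    have hop : IsOpen (Metric.closedBall (0 : E3) ε)ᶜ := Metric.isClosed_closedBall.isOpen_compl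
    show slap (rho ε) w = 0
    unfold slap
    refine Finset.sum_eq_zero fun j _ => ?_
    have h1 : (fun z => fderiv ℝ (rho ε) z (EuclideanSpace.single j 1)) =ᶠ[𝓝 w] fun _ => (0 : ℝ) := by
      filter_upwards [hop.mem_nhds hw] with y hy
      rw [mem_compl_iff, Metric.mem_closedBall, dist_zero_right, not_le] at hy
      rw [fderiv_rho_zero hε hy.le]
      rfl
    rw [h1.fderiv_eq]
    simp
  have hcl : closure (Metric.closedBall (0 : E3) ε)ᶜ ⊆ {w : E3 | slap (rho ε) w = 0} :=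
    closure_minimal hsub hclosed
  rw [closure_compl, interior_closedBall _ hε.ne'] at hcl
  apply hcl
  rw [mem_compl_iff, Metric.mem_ball, dist_zero_right, not_lt]
  exact h

theorem R3_hk_eq (ε : ℝ) (x : E3) : hk ε x = fun y => rho ε (y - x) := by
  funext y
  unfold hk
  rw [← rho_neg, neg_sub]

theorem R3_iter_bound {ε : ℝ} (hε : 0 < ε) (k : ℕ) :
    ∃ C : ℝ, ∀ z : E3, ‖iteratedFDeriv ℝ k (rho ε) z‖ ≤ C := by
  have hc : Continuous (iteratedFDeriv ℝ k (rho ε)) :=
    (rho_contDiff ε).continuous_iteratedFDeriv (by exact_mod_cast le_top)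
  exact hc.bounded_above_of_compact_support ((rho_compact hε).iteratedFDeriv k)

theorem R3_iter_hk (ε : ℝ) (x y : E3) (k : ℕ) :
    iteratedFDeriv ℝ k (hk ε x) y = iteratedFDeriv ℝ k (rho ε) (y - x) := by
  rw [R3_hk_eq, iteratedFDeriv_comp_sub]

/-- PROOF: `iteratedFDeriv ℝ k (hk ε x) y = ± iteratedFDeriv ℝ k (rho ε) (x - y)` (or bound the
norm of the iterated derivative of a composition with an isometry); mean value inequality for
`iteratedFDeriv ℝ k (rho ε)`, whose derivative is bounded (compact support). -/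
theorem c4_hk_sub {ε : ℝ} (hε : 0 < ε) : ∃ L : ℝ, 0 ≤ L ∧ ∀ x x' : E3,
    c4 (fun y => hk ε x y - hk ε x' y) ≤ L * ‖x - x'‖ := by
  choose C hC using fun k : ℕ => R3_iter_bound hε k
  have hC0 : ∀ k, 0 ≤ C k := fun k => (norm_nonneg _).trans (hC k 0)
  refine ⟨∑ k ∈ Finset.range 5, C (k + 1), Finset.sum_nonneg fun k _ => hC0 _, fun x x' => ?_⟩
  unfold c4
  rw [Finset.sum_mul]
  refine Finset.sum_le_sum fun k _ => ?_
  refine Real.iSup_le (fun y => ?_) (mul_nonneg (hC0 _) (norm_nonneg _))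
  have hk1 : ContDiffAt ℝ k (hk ε x) y := ((hk_contDiff ε x).of_le (by exact_mod_cast le_top)).contDiffAt
  have hk2 : ContDiffAt ℝ k (hk ε x') y :=
    ((hk_contDiff ε x').of_le (by exact_mod_cast le_top)).contDiffAt
  have h1 : iteratedFDeriv ℝ k (fun y => hk ε x y - hk ε x' y) y =
      iteratedFDeriv ℝ k (rho ε) (y - x) - iteratedFDeriv ℝ k (rho ε) (y - x') := by
    rw [← R3_iter_hk, ← R3_iter_hk]
    exact iteratedFDeriv_sub_apply hk1 hk2
  rw [h1]
  have hd : ∀ z ∈ (univ : Set E3), DifferentiableAt ℝ (iteratedFDeriv ℝ k (rho ε)) z :=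
    fun z _ => ((rho_contDiff ε).differentiable_iteratedFDeriv
      (by exact_mod_cast WithTop.coe_lt_top _)) z
  have hb : ∀ z ∈ (univ : Set E3), ‖fderiv ℝ (iteratedFDeriv ℝ k (rho ε)) z‖ ≤ C (k + 1) := by
    intro z _
    rw [norm_fderiv_iteratedFDeriv]
    exact hC (k + 1) z
  have h2 := convex_univ.norm_image_sub_le_of_norm_fderiv_le hd hb (mem_univ (y - x'))
    (mem_univ (y - x))
  have h3 : y - x - (y - x') = x' - x := by abel
  rw [h3, norm_sub_rev x' x] at h2
  exact h2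

theorem c4_hk {ε : ℝ} (hε : 0 < ε) : ∃ L : ℝ, ∀ x : E3, c4 (hk ε x) ≤ L := by
  choose C hC using fun k : ℕ => R3_iter_bound hε k
  have hC0 : ∀ k, 0 ≤ C k := fun k => (norm_nonneg _).trans (hC k 0)
  refine ⟨∑ k ∈ Finset.range 5, C k, fun x => ?_⟩
  unfold c4
  refine Finset.sum_le_sum fun k _ => ?_
  refine Real.iSup_le (fun y => ?_) (hC0 _)
  rw [R3_iter_hk]
  exact hC k _

end Pool.Agent.W_332fe5
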