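import Pool.Agent.W_332fe5_h65.B5Defs

set_option autoImplicit false

/-! Block 5, Y0: double integrals of differences. -/

open MeasureTheory ProbabilityTheory Set Filter Topology
open scoped ENNReal NNReal ContDiff

namespace Pool.Agent.W_332fe5

theorem holder22 : (2 : ℝ).HolderConjugate 2 := by
  constructor <;> norm_num

/-- The squared `L²` norm as an integral. -/
theorem lintegral_enorm_sq_rpow {F : Type} [NormedAddCommGroup F] (h : E3 → F) :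
    (∫⁻ x, ‖h x‖ₑ ^ (2 : ℝ)) ^ (1 / (2 : ℝ)) = eLpNorm h 2 volume := by
  rw [eLpNorm_eq_lintegral_rpow_enorm_toReal (by norm_num) (by norm_num)]
  simp

theorem lintegral_enorm_sq_le {F : Type} [NormedAddCommGroup F] {h : E3 → F} {A : ℝ≥0∞}
    (hA : eLpNorm h 2 volume ≤ A) : ∫⁻ x, ‖h x‖ₑ ^ (2 : ℝ) ≤ A ^ (2 : ℝ) := by
  rw [← lintegral_enorm_sq_rpow] at hA
  have h1 := ENNReal.rpow_le_rpow hA (z := 2) (by norm_num)
  rw [← ENNReal.rpow_mul] at h1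
  norm_num at h1
  simpa using h1

theorem meas_diff {F : Type} [NormedAddCommGroup F] {f : E3 → F} (hf : StronglyMeasurable f) :
    Measurable fun p : E3 × E3 => ‖f (p.1 - p.2) - f p.1‖ₑ := by
  have h1 : StronglyMeasurable fun p : E3 × E3 => f (p.1 - p.2) :=
    hf.comp_measurable (measurable_fst.sub measurable_snd)
  have h2 : StronglyMeasurable fun p : E3 × E3 => f p.1 := hf.comp_measurable measurable_fst
  exact (h1.sub h2).enorm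

/-- PROOF: `∫⁻ z, Q z * ∫⁻ x, ‖f (x - z) - f x‖ * ‖g (x - z) - g x‖` (Tonelli; `f`, `g` are strongly
measurable), Cauchy-Schwarz in `x` (`ENNReal.lintegral_mul_le_Lp_mul_Lq`). -/
theorem diff_prod {F G : Type} [NormedAddCommGroup F] [NormedAddCommGroup G] {f : E3 → F}
    {g : E3 → G} (hf : StronglyMeasurable f) (hg : StronglyMeasurable g) {Q : E3 → ℝ≥0∞}
    (hQ : Measurable Q) {ε : ℝ} (hQ0 : ∀ z, ε < ‖z‖ → Q z = 0) {A B : ℝ≥0∞}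
    (hA : ∀ z, ‖z‖ ≤ ε → eLpNorm (fun x => f (x - z) - f x) 2 volume ≤ A)
    (hB : ∀ z, ‖z‖ ≤ ε → eLpNorm (fun x => g (x - z) - g x) 2 volume ≤ B) :
    ∫⁻ x, ∫⁻ z, Q z * (‖f (x - z) - f x‖ₑ * ‖g (x - z) - g x‖ₑ) ≤ (∫⁻ z, Q z) * (A * B) := by
  have hm : Measurable fun p : E3 × E3 =>
      Q p.2 * (‖f (p.1 - p.2) - f p.1‖ₑ * ‖g (p.1 - p.2) - g p.1‖ₑ) :=
    (hQ.comp measurable_snd).mul ((meas_diff hf).mul (meas_diff hg))
  rw [lintegral_lintegral_swap hm.aemeasurable, ← lintegral_mul_const _ hQ]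
  refine lintegral_mono fun z => ?_
  rcases lt_or_ge ε ‖z‖ with hz | hz
  · simp [hQ0 z hz]
  · have mf : Measurable fun x : E3 => ‖f (x - z) - f x‖ₑ :=
      (meas_diff hf).comp (measurable_id.prodMk measurable_const)
    have mg : Measurable fun x : E3 => ‖g (x - z) - g x‖ₑ :=
      (meas_diff hg).comp (measurable_id.prodMk measurable_const)
    have mfg : Measurable fun x : E3 => ‖f (x - z) - f x‖ₑ * ‖g (x - z) - g x‖ₑ := mf.mul mg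
    simp only
    rw [lintegral_const_mul _ mfg]
    refine mul_le_mul_right ?_ _
    have h1 : ∫⁻ x : E3, ‖f (x - z) - f x‖ₑ * ‖g (x - z) - g x‖ₑ ≤
        (∫⁻ x : E3, ‖f (x - z) - f x‖ₑ ^ (2 : ℝ)) ^ (1 / (2 : ℝ)) *
          (∫⁻ x : E3, ‖g (x - z) - g x‖ₑ ^ (2 : ℝ)) ^ (1 / (2 : ℝ)) :=
      ENNReal.lintegral_mul_le_Lp_mul_Lq volume holder22 mf.aemeasurable mg.aemeasurable
    refine h1.trans ?_
    rw [lintegral_enorm_sq_rpow, lintegral_enorm_sq_rpow]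
    exact mul_le_mul' (hA z hz) (hB z hz)

/-- weighted Cauchy-Schwarz -/
theorem weighted_cs {Q h : E3 → ℝ≥0∞} (hQ : Measurable Q) (hh : Measurable h) :
    (∫⁻ z, Q z * h z) ^ 2 ≤ (∫⁻ z, Q z) * ∫⁻ z, Q z * h z ^ 2 := by
  have hs : ∀ a : ℝ≥0∞, a ^ (1 / 2 : ℝ) * a ^ (1 / 2 : ℝ) = a := by
    intro a
    rw [← ENNReal.rpow_add_of_nonneg _ _ (by norm_num) (by norm_num)]
    norm_num
  have hs2 : ∀ a : ℝ≥0∞, (a ^ (1 / 2 : ℝ)) ^ (2 : ℝ) = a := by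
    intro a
    rw [← ENNReal.rpow_mul]
    norm_num
  have h1 := ENNReal.lintegral_mul_le_Lp_mul_Lq volume holder22
    (f := fun z => Q z ^ (1 / 2 : ℝ)) (g := fun z => Q z ^ (1 / 2 : ℝ) * h z)
    (hQ.pow_const _).aemeasurable ((hQ.pow_const _).mul hh).aemeasurable
  have e1 : ∀ z, ((fun z => Q z ^ (1 / 2 : ℝ)) * fun z => Q z ^ (1 / 2 : ℝ) * h z) z =
      Q z * h z := by
    intro z
    simp only [Pi.mul_apply]
    rw [← mul_assoc, hs]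
  have e2 : ∀ z, (Q z ^ (1 / 2 : ℝ) * h z) ^ (2 : ℝ) = Q z * h z ^ 2 := by
    intro z
    rw [ENNReal.mul_rpow_of_nonneg _ _ (by norm_num), hs2]
    norm_num
  simp only [e1, hs2, e2] at h1
  calc (∫⁻ z, Q z * h z) ^ 2 ≤ ((∫⁻ z, Q z) ^ (1 / (2 : ℝ)) *
        (∫⁻ z, Q z * h z ^ 2) ^ (1 / (2 : ℝ))) ^ 2 := by gcongr
    _ = (∫⁻ z, Q z) * ∫⁻ z, Q z * h z ^ 2 := by
        rw [mul_pow, pow_two, pow_two, hs, hs]

/-- PROOF: `(∫⁻ Q |δf|)² ≤ (∫⁻ Q) ∫⁻ Q |δf|²` (Cauchy-Schwarz), then Tonelli. -/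
theorem diff_sq {F : Type} [NormedAddCommGroup F] {f : E3 → F}
    (hf : StronglyMeasurable f) {Q : E3 → ℝ≥0∞}
    (hQ : Measurable Q) {ε : ℝ} (hQ0 : ∀ z, ε < ‖z‖ → Q z = 0) {A : ℝ≥0∞}
    (hA : ∀ z, ‖z‖ ≤ ε → eLpNorm (fun x => f (x - z) - f x) 2 volume ≤ A) :
    ∫⁻ x, (∫⁻ z, Q z * ‖f (x - z) - f x‖ₑ) ^ 2 ≤ (∫⁻ z, Q z) ^ 2 * A ^ 2 := by
  have h1 : ∀ x, (∫⁻ z, Q z * ‖f (x - z) - f x‖ₑ) ^ 2 ≤
      (∫⁻ z, Q z) * ∫⁻ z, Q z * (‖f (x - z) - f x‖ₑ * ‖f (x - z) - f x‖ₑ) := by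
    intro x
    have mf : Measurable fun z : E3 => ‖f (x - z) - f x‖ₑ :=
      (meas_diff hf).comp (measurable_const.prodMk measurable_id)
    have := weighted_cs hQ mf
    simpa only [pow_two] using this
  have hm : Measurable fun p : E3 × E3 =>
      Q p.2 * (‖f (p.1 - p.2) - f p.1‖ₑ * ‖f (p.1 - p.2) - f p.1‖ₑ) :=
    (hQ.comp measurable_snd).mul ((meas_diff hf).mul (meas_diff hf))
  calc ∫⁻ x, (∫⁻ z, Q z * ‖f (x - z) - f x‖ₑ) ^ 2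
      ≤ ∫⁻ x, (∫⁻ z, Q z) * ∫⁻ z, Q z * (‖f (x - z) - f x‖ₑ * ‖f (x - z) - f x‖ₑ) :=
        lintegral_mono h1
    _ = (∫⁻ z, Q z) * ∫⁻ x, ∫⁻ z, Q z * (‖f (x - z) - f x‖ₑ * ‖f (x - z) - f x‖ₑ) :=
        lintegral_const_mul _ hm.lintegral_prod_right'
    _ ≤ (∫⁻ z, Q z) * ((∫⁻ z, Q z) * (A * A)) := by
        refine mul_le_mul_right ?_ _
        exact diff_prod hf hf hQ hQ0 hA hA
    _ = (∫⁻ z, Q z) ^ 2 * A ^ 2 := by ring

end Pool.Agent.W_332fe5
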