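import Pool.Agent.W_332fe5_h65.B5Defs

set_option autoImplicit false

/-! Block 5, Z0: separability of the test functions. -/

open MeasureTheory ProbabilityTheory Set Filter Topology
open scoped ENNReal NNReal

namespace Pool.Agent.W_332fe5

theorem Z0_finite (k : ℕ) : FiniteDimensional ℝ (E3 [×k]→L[ℝ] ℝ) := by
  refine FiniteDimensional.of_injective
    (ContinuousMultilinearMap.toMultilinearMapLinear (R' := ℝ) (A := ℝ)
      (M₁ := fun _ : Fin k => E3) (M₂ := ℝ)) ?_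
  exact ContinuousMultilinearMap.toMultilinearMap_injective

theorem Z0_second (k : ℕ) : SecondCountableTopology (E3 [×k]→L[ℝ] ℝ) := by
  have := Z0_finite k
  have := FiniteDimensional.proper ℝ (E3 [×k]→L[ℝ] ℝ)
  exact secondCountable_of_proper

/-- the closed unit ball -/
abbrev Z0_K : Set E3 := Metric.closedBall 0 1

instance Z0_compact : CompactSpace Z0_K :=
  isCompact_iff_compactSpace.mp (isCompact_closedBall (0 : E3) 1)

/-- the jet of a test function -/
noncomputable def Z0_jet (h : CB) : (k : Fin 5) → C(Z0_K, E3 [×(k : ℕ)]→L[ℝ] ℝ) := fun k =>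
  ⟨fun x => iteratedFDeriv ℝ k h.1 x.1,
    (h.2.1.continuous_iteratedFDeriv (by exact_mod_cast le_top)).comp continuous_subtype_val⟩

theorem Z0_sub {h h' : E3 → ℝ} (hh : h ∈ CB) (hh' : h' ∈ CB) (k : ℕ) (x : E3) :
    iteratedFDeriv ℝ k (fun y => h y - h' y) x =
      iteratedFDeriv ℝ k h x - iteratedFDeriv ℝ k h' x :=
  iteratedFDeriv_sub_apply ((hh.1.of_le (by exact_mod_cast le_top)).contDiffAt)
    ((hh'.1.of_le (by exact_mod_cast le_top)).contDiffAt)

theorem Z0_out {h : E3 → ℝ} (hh : h ∈ CB) (k : ℕ) {x : E3} (hx : x ∉ Z0_K) :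
    iteratedFDeriv ℝ k h x = 0 := by
  have h1 : x ∉ tsupport (iteratedFDeriv ℝ k h) := by
    intro h2
    have h3 := hh.2.2 (tsupport_iteratedFDeriv_subset k h2)
    exact hx (Metric.ball_subset_closedBall h3)
  exact image_eq_zero_of_notMem_tsupport h1

theorem Z0_close {h h' : CB} {η : ℝ} (hη : 0 ≤ η) (hd : dist (Z0_jet h) (Z0_jet h') ≤ η)
    {k : ℕ} (hk : k < 5) (x : E3) :
    ‖iteratedFDeriv ℝ k (fun y => h.1 y - h'.1 y) x‖ ≤ η := by
  rw [Z0_sub h.2 h'.2]
  by_cases hx : x ∈ Z0_K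
  · have h1 : dist (Z0_jet h ⟨k, hk⟩) (Z0_jet h' ⟨k, hk⟩) ≤ η :=
      (dist_le_pi_dist (Z0_jet h) (Z0_jet h') ⟨k, hk⟩).trans hd
    have h2 := (ContinuousMap.dist_apply_le_dist (f := Z0_jet h ⟨k, hk⟩)
      (g := Z0_jet h' ⟨k, hk⟩) ⟨x, hx⟩).trans h1
    rw [dist_eq_norm] at h2
    exact h2
  · rw [Z0_out h.2 k hx, Z0_out h'.2 k hx, sub_zero, norm_zero]
    exact hη

theorem Z0_zero_mem : (fun _ => (0 : ℝ)) ∈ CB := by
  refine ⟨contDiff_const, HasCompactSupport.zero, ?_⟩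
  have h1 : tsupport (fun _ : E3 => (0 : ℝ)) = ∅ := by
    rw [tsupport_eq_empty_iff]
    rfl
  rw [h1]
  exact empty_subset _

/-- `CB` is separable in the `C⁴` norm (and in the sup norm).
PROOF: map `h ∈ CB` to `(iteratedFDeriv ℝ k h)_(k < 5)` in the product of the spaces
`C(closedBall 0 1, E3 [×k]→L[ℝ] ℝ)` (compact domain, finite dimensional target: second countable,
so the image of `CB` is separable: `TopologicalSpace.exists_countable_dense` for the subtype
`range`); all derivatives vanish outside the ball. -/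
theorem CB_separable : ∃ D : ℕ → E3 → ℝ, (∀ n, D n ∈ CB) ∧ ∀ h ∈ CB, ∀ η : ℝ, 0 < η →
    ∃ n, c4 (fun x => h x - D n x) < η ∧ ∀ x, |h x - D n x| < η := by
  have : ∀ k : ℕ, SecondCountableTopology (E3 [×k]→L[ℝ] ℝ) := Z0_second
  have : SecondCountableTopology ((k : Fin 5) → C(Z0_K, E3 [×(k : ℕ)]→L[ℝ] ℝ)) := inferInstance
  have : Nonempty (range Z0_jet) := ⟨⟨_, ⟨⟨_, Z0_zero_mem⟩, rfl⟩⟩⟩
  choose g hg using fun n : ℕ => (TopologicalSpace.denseSeq (range Z0_jet) n).2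
  refine ⟨fun n => (g n).1, fun n => (g n).2, ?_⟩
  intro h hh η hη
  have hd := TopologicalSpace.denseRange_denseSeq (range Z0_jet)
  obtain ⟨n, hn⟩ := hd.exists_dist_lt (⟨Z0_jet ⟨h, hh⟩, ⟨⟨h, hh⟩, rfl⟩⟩ : range Z0_jet)
    (show 0 < η / 10 by positivity)
  refine ⟨n, ?_, ?_⟩
  · have h1 : dist (Z0_jet ⟨h, hh⟩) (Z0_jet (g n)) ≤ η / 10 := by
      rw [hg n]
      exact hn.le
    unfold c4
    have h2 : ∀ k ∈ Finset.range 5,
        (⨆ x, ‖iteratedFDeriv ℝ k (fun y => h y - (g n).1 y) x‖) ≤ η / 10 := by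
      intro k hk
      refine Real.iSup_le (fun x => ?_) (by positivity)
      exact Z0_close (h := ⟨h, hh⟩) (by positivity) h1 (Finset.mem_range.1 hk) x
    refine lt_of_le_of_lt (Finset.sum_le_sum h2) ?_
    rw [Finset.sum_const, Finset.card_range, nsmul_eq_mul]
    push_cast
    linarith
  · intro x
    have h1 : dist (Z0_jet ⟨h, hh⟩) (Z0_jet (g n)) ≤ η / 10 := by
      rw [hg n]
      exact hn.le
    have h2 := Z0_close (h := ⟨h, hh⟩) (by positivity) h1 (show 0 < 5 by norm_num) x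
    rw [norm_iteratedFDeriv_zero, Real.norm_eq_abs] at h2
    linarith

end Pool.Agent.W_332fe5
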